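import Pool.Agent.Lib.MP_89da58_nt.Defs

set_option autoImplicit false

/-!
Assembly of the Bombieri-Vinogradov type estimate from the bounds for primitive characters.
-/

namespace Pool.Agent.MP89da58

open ArithmeticFunction Finset

/-! ### the weight -/

theorem tri_nonneg (u : ℝ) : 0 ≤ tri u := le_max_left _ _

theorem tri_le_one (u : ℝ) : tri u ≤ 1 := max_le zero_le_one (by linarith [abs_nonneg u])

theorem Om_nonneg {X : ℝ} (hX : 0 ≤ X) (n : ℕ) : 0 ≤ Om X n :=
  mul_nonneg (Real.rpow_nonneg (div_nonneg hX (Nat.cast_nonneg n)) _) (tri_nonneg _)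

theorem cX_bounds {X : ℝ} (hX : 1 ≤ Real.log X) : 1 ≤ cX X ∧ cX X ≤ 2 := by
  unfold cX
  have h0 : 0 < Real.log X := lt_of_lt_of_le one_pos hX
  have h1 : 0 ≤ 1 / Real.log X := by positivity
  have h2 : 1 / Real.log X ≤ 1 := by
    rw [div_le_one h0]; exact hX
  constructor <;> linarith

theorem pos_of_log {X : ℝ} (hX0 : 0 ≤ X) (hX : 1 ≤ Real.log X) : 0 < X := by
  rcases hX0.eq_or_lt with h | h
  · rw [← h, Real.log_zero] at hX
    linarith
  · exact h

theorem Om_le {X : ℝ} (hX0 : 0 ≤ X) (hX : 1 ≤ Real.log X) (n : ℕ) : Om X n ≤ 8 := by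
  have hXp := pos_of_log hX0 hX
  obtain ⟨hc1, hc2⟩ := cX_bounds hX
  unfold Om
  rcases Nat.eq_zero_or_pos n with h0 | hn
  · subst h0
    simp only [Nat.cast_zero, div_zero]
    rw [Real.zero_rpow (by linarith)]
    norm_num
  · have hn' : (0 : ℝ) < n := Nat.cast_pos.2 hn
    have hq : 0 < X / n := div_pos hXp hn'
    by_cases ht : 1 ≤ |Real.log (n / X)|
    · have : tri (Real.log (n / X)) = 0 := max_eq_left (by linarith)
      rw [this, mul_zero]
      norm_num
    · push Not at ht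
      have h1 : Real.log (X / n) < 1 := by
        have : Real.log (X / n) = - Real.log (n / X) := by
          rw [← Real.log_inv, inv_div]
        rw [this]
        have := neg_abs_le (Real.log ((n : ℝ) / X))
        linarith
      have h2 : (X / n) ^ cX X ≤ Real.exp 2 := by
        rw [Real.rpow_def_of_pos hq]
        apply Real.exp_le_exp.2
        rcases le_or_gt (Real.log (X / n)) 0 with h | h
        · nlinarith only [hc2, h1, hc1]
        · nlinarith only [hc2, h1, hc1]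
      have h3 : Real.exp 2 ≤ 8 := by
        have h4 := Real.exp_one_lt_d9
        have h5 : Real.exp 2 = Real.exp 1 * Real.exp 1 := by rw [← Real.exp_add]; norm_num
        rw [h5]
        have h6 := Real.exp_pos 1
        nlinarith only [h4, h6]
      calc (X / n) ^ cX X * tri (Real.log (n / X)) ≤ (X / n) ^ cX X * 1 :=
            mul_le_mul_of_nonneg_left (tri_le_one _) (Real.rpow_nonneg hq.le _)
        _ ≤ 8 := by rw [mul_one]; exact h2.trans h3

/-! ### the terms not coprime to the modulus -/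

theorem sum_not_coprime_le (N q : ℕ) (hq : q ≠ 0) :
    ∑ n ∈ (Icc 1 N).filter (fun n => ¬ n.Coprime q), vonMangoldt n ≤ q * Real.log N := by
  classical
  rcases Nat.eq_zero_or_pos N with h0 | hN
  · subst h0; simp
  have hN' : (1 : ℝ) ≤ N := by exact_mod_cast hN
  -- only prime powers matter
  have h1 : ∑ n ∈ (Icc 1 N).filter (fun n => ¬ n.Coprime q), vonMangoldt n ≤
      ∑ p ∈ q.primeFactors, ∑ k ∈ Icc 1 (Nat.log p N), Real.log p := by
    have hsig : ∑ p ∈ q.primeFactors, ∑ k ∈ Icc 1 (Nat.log p N), Real.log p =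
        ∑ x ∈ q.primeFactors.sigma (fun p => Icc 1 (Nat.log p N)), vonMangoldt (x.1 ^ x.2) := by
      rw [Finset.sum_sigma]
      refine Finset.sum_congr rfl fun p hp => Finset.sum_congr rfl fun k hk => ?_
      have hp' := Nat.prime_of_mem_primeFactors hp
      have hk' : k ≠ 0 := by
        have := (Finset.mem_Icc.1 hk).1
        omega
      rw [vonMangoldt_apply_pow hk', vonMangoldt_apply_prime hp']
    rw [hsig]
    have hinj : Set.InjOn (fun x : (_ : ℕ) × ℕ => x.1 ^ x.2)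
        (q.primeFactors.sigma (fun p => Icc 1 (Nat.log p N)) : Finset ((_ : ℕ) × ℕ)) := by
      rintro ⟨p, k⟩ hx ⟨p', k'⟩ hy hxy
      simp only [Finset.coe_sigma, Set.mem_sigma_iff, Finset.mem_coe, Finset.mem_Icc] at hx hy
      simp only at hxy
      have hp := Nat.prime_of_mem_primeFactors hx.1
      have hp' := Nat.prime_of_mem_primeFactors hy.1
      have hk : k ≠ 0 := by omega
      have hk' : k' ≠ 0 := by omega
      have h2 : p = p' := by
        have h3 : p ∣ p' ^ k' := by rw [← hxy]; exact dvd_pow_self p hk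
        exact (Nat.prime_dvd_prime_iff_eq hp hp').1 (hp.dvd_of_dvd_pow h3)
      subst h2
      have h4 : k = k' := Nat.pow_right_injective hp.two_le hxy
      rw [h4]
    rw [← Finset.sum_image (g := fun x : (_ : ℕ) × ℕ => x.1 ^ x.2) (f := fun n => vonMangoldt n)
      hinj]
    have hsplit : ∑ n ∈ (Icc 1 N).filter (fun n => ¬ n.Coprime q), vonMangoldt n =
        ∑ n ∈ ((Icc 1 N).filter (fun n => ¬ n.Coprime q)).filter (fun n => vonMangoldt n ≠ 0),
          vonMangoldt n := (Finset.sum_filter_ne_zero _).symm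
    rw [hsplit]
    refine Finset.sum_le_sum_of_subset_of_nonneg ?_ (fun _ _ _ => vonMangoldt_nonneg)
    intro n hn
    simp only [Finset.mem_filter, Finset.mem_Icc] at hn
    obtain ⟨⟨⟨hn1, hn2⟩, hn3⟩, hn4⟩ := hn
    rw [vonMangoldt_ne_zero_iff, isPrimePow_nat_iff] at hn4
    obtain ⟨p, k, hp, hk, rfl⟩ := hn4
    have hpq : p ∣ q := by
      by_contra hcon
      exact hn3 (Nat.Coprime.pow_left k ((Nat.Prime.coprime_iff_not_dvd hp).2 hcon))
    refine Finset.mem_image.2 ⟨⟨p, k⟩, ?_, rfl⟩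
    simp only [Finset.mem_sigma, Finset.mem_Icc]
    refine ⟨Nat.mem_primeFactors.2 ⟨hp, hpq, hq⟩, hk, ?_⟩
    exact Nat.le_log_of_pow_le hp.one_lt hn2
  refine h1.trans ?_
  have h2 : ∀ p ∈ q.primeFactors, ∑ k ∈ Icc 1 (Nat.log p N), Real.log p ≤ Real.log N := by
    intro p hp
    have hp' := Nat.prime_of_mem_primeFactors hp
    rw [Finset.sum_const, Nat.card_Icc, Nat.add_sub_cancel, nsmul_eq_mul]
    rw [← Real.log_pow]
    apply Real.log_le_log
    · have : 0 < p ^ Nat.log p N := pow_pos hp'.pos _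
      exact_mod_cast this
    · exact_mod_cast Nat.pow_log_le_self p (by omega)
  refine (Finset.sum_le_sum h2).trans ?_
  rw [Finset.sum_const, nsmul_eq_mul]
  have h3 : q.primeFactors.card ≤ q := by
    have h4 : q.primeFactors ⊆ Icc 1 q := fun p hp => by
      have := Nat.prime_of_mem_primeFactors hp
      exact Finset.mem_Icc.2 ⟨this.one_le, Nat.le_of_mem_primeFactors hp⟩
    have := Finset.card_le_card h4
    rwa [Nat.card_Icc, Nat.add_sub_cancel] at this
  exact mul_le_mul_of_nonneg_right (by exact_mod_cast h3) (Real.log_nonneg hN')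

/-- the error made by passing to an inducing character -/
noncomputable def DD (X : ℝ) (q : ℕ) : ℝ := 8 * (q * Real.log (3 * X))

theorem sum_not_coprime_le' {X : ℝ} (hX : 1 ≤ X) (q : ℕ) (hq : q ≠ 0) :
    ∑ n ∈ (Icc 1 ⌊3 * X⌋₊).filter (fun n => ¬ n.Coprime q), vonMangoldt n ≤
      q * Real.log (3 * X) := by
  refine (sum_not_coprime_le _ q hq).trans ?_
  refine mul_le_mul_of_nonneg_left ?_ (Nat.cast_nonneg _)
  have h1 : 1 ≤ ⌊3 * X⌋₊ := Nat.le_floor (by push_cast; linarith)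
  exact Real.log_le_log (by exact_mod_cast h1) (Nat.floor_le (by linarith))

theorem psiChi_sub_le {X : ℝ} (hX0 : 1 ≤ X) (hX : 1 ≤ Real.log X) {q r : ℕ} (hq : q ≠ 0)
    (χ : DirichletCharacter ℂ q) (ψ : DirichletCharacter ℂ r)
    (h : ∀ n : ℕ, n.Coprime q → χ (n : ZMod q) = ψ (n : ZMod r)) :
    ‖psiChi X χ - psiChi X ψ‖ ≤ DD X q := by
  classical
  unfold psiChi
  rw [← Finset.sum_sub_distrib]
  have h1 : ∑ n ∈ Icc 1 ⌊3 * X⌋₊, ((vonMangoldt n : ℂ) * χ (n : ZMod q) * (Om X n : ℂ) -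
      (vonMangoldt n : ℂ) * ψ (n : ZMod r) * (Om X n : ℂ)) =
      ∑ n ∈ (Icc 1 ⌊3 * X⌋₊).filter (fun n => ¬ n.Coprime q),
        ((vonMangoldt n : ℂ) * χ (n : ZMod q) * (Om X n : ℂ) -
          (vonMangoldt n : ℂ) * ψ (n : ZMod r) * (Om X n : ℂ)) := by
    symm
    refine Finset.sum_filter_of_ne ?_
    intro n _ hne hcop
    apply hne
    rw [h n hcop, sub_self]
  rw [h1]
  refine (norm_sum_le _ _).trans ?_
  have h2 : ∀ n ∈ (Icc 1 ⌊3 * X⌋₊).filter (fun n => ¬ n.Coprime q),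
      ‖(vonMangoldt n : ℂ) * χ (n : ZMod q) * (Om X n : ℂ) -
        (vonMangoldt n : ℂ) * ψ (n : ZMod r) * (Om X n : ℂ)‖ ≤ vonMangoldt n * 8 := by
    intro n hn
    have hnc := (Finset.mem_filter.1 hn).2
    have h3 : χ (n : ZMod q) = 0 := by
      apply MulChar.map_nonunit
      rw [ZMod.isUnit_iff_coprime]
      exact hnc
    rw [h3, mul_zero, zero_mul, zero_sub, norm_neg, norm_mul, norm_mul]
    have h4 : ‖ψ (n : ZMod r)‖ ≤ 1 := DirichletCharacter.norm_le_one ψ _
    have h5 : ‖(vonMangoldt n : ℂ)‖ = vonMangoldt n := by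
      rw [Complex.norm_real, Real.norm_of_nonneg vonMangoldt_nonneg]
    have h6 : ‖(Om X n : ℂ)‖ ≤ 8 := by
      rw [Complex.norm_real, Real.norm_of_nonneg (Om_nonneg (by linarith) n)]
      exact Om_le (by linarith) hX n
    rw [h5]
    have h7 : 0 ≤ vonMangoldt n := vonMangoldt_nonneg
    calc vonMangoldt n * ‖ψ (n : ZMod r)‖ * ‖(Om X n : ℂ)‖
        ≤ vonMangoldt n * 1 * 8 := by (clear * - h4 h6; gcongr)
      _ = vonMangoldt n * 8 := by ring
  refine (Finset.sum_le_sum h2).trans ?_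
  rw [← Finset.sum_mul]
  unfold DD
  have := sum_not_coprime_le' hX0 q hq
  linarith

theorem psiChi_one_one (X : ℝ) : psiChi X (1 : DirichletCharacter ℂ 1) = (psiX X : ℂ) := by
  unfold psiChi psiX
  push_cast
  refine Finset.sum_congr rfl fun n _ => ?_
  have : (1 : DirichletCharacter ℂ 1) (n : ZMod 1) = 1 := by
    rw [MulChar.one_apply]
    exact isUnit_of_subsingleton _
  rw [this, mul_one]

/-- orthogonality -/
theorem totient_mul_psiAP (X : ℝ) {q : ℕ} [NeZero q] (a : ℕ) (ha : a.Coprime q) :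
    ((Nat.totient q : ℂ)) * (psiAP X q a : ℂ) =
      ∑ χ : DirichletCharacter ℂ q, χ ((a : ZMod q)⁻¹) * psiChi X χ := by
  classical
  have hu : IsUnit (a : ZMod q) := (ZMod.isUnit_iff_coprime a q).2 ha
  unfold psiChi psiAP
  simp only [Finset.mul_sum]
  rw [Finset.sum_comm]
  push_cast
  rw [Finset.sum_filter, Finset.mul_sum]
  refine Finset.sum_congr rfl fun n _ => ?_
  have h1 := DirichletCharacter.sum_char_inv_mul_char_eq ℂ hu (n : ZMod q)
  have h2 : ∑ χ : DirichletCharacter ℂ q, χ ((a : ZMod q)⁻¹) *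
      ((vonMangoldt n : ℂ) * χ (n : ZMod q) * (Om X n : ℂ)) =
      (∑ χ : DirichletCharacter ℂ q, χ ((a : ZMod q)⁻¹) * χ (n : ZMod q)) *
        ((vonMangoldt n : ℂ) * (Om X n : ℂ)) := by
    rw [Finset.sum_mul]
    refine Finset.sum_congr rfl fun χ _ => ?_
    ring
  rw [h2, h1]
  have h3 : ((a : ZMod q) = (n : ZMod q)) ↔ n ≡ a [MOD q] := by
    rw [ZMod.natCast_eq_natCast_iff]
    exact ⟨fun h => h.symm, fun h => h.symm⟩
  by_cases h4 : n ≡ a [MOD q]
  · rw [if_pos h4, if_pos (h3.2 h4)]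
  · rw [if_neg h4, if_neg (fun h => h4 (h3.1 h))]
    ring

theorem primSum_nonneg (X : ℝ) (r : ℕ) : 0 ≤ primSum X r := by
  unfold primSum
  refine Finset.sum_nonneg fun χ _ => ?_
  exact Set.indicator_nonneg (fun _ _ => norm_nonneg _) _

/-- one modulus -/
theorem ap_le {X : ℝ} (hX0 : 1 ≤ X) (hX : 1 ≤ Real.log X) {q : ℕ} [NeZero q] (a : ℕ)
    (ha : a.Coprime q) :
    |psiAP X q a - psiX X / (Nat.totient q : ℝ)| ≤ DD X q + (1 / (Nat.totient q : ℝ)) *
      ∑ χ ∈ (Finset.univ : Finset (DirichletCharacter ℂ q)).erase 1,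
        ‖psiChi X χ.primitiveCharacter‖ := by
  classical
  have hq : q ≠ 0 := NeZero.ne q
  have hφ : (0 : ℝ) < Nat.totient q := by
    exact_mod_cast Nat.totient_pos.2 (Nat.pos_of_ne_zero hq)
  have h1 := totient_mul_psiAP X a ha
  have hcop : ∀ (χ : DirichletCharacter ℂ q) (n : ℕ), n.Coprime q →
      χ (n : ZMod q) = χ.primitiveCharacter (n : ZMod χ.conductor) := by
    intro χ n hn
    have := χ.primitiveCharacter_apply_of_isCoprime (a := (n : ℤ)) (by
      rw [Nat.isCoprime_iff_coprime]; exact hn)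
    push_cast at this
    exact this.symm
  have hD : 0 ≤ DD X q := by
    unfold DD
    have : 0 ≤ Real.log (3 * X) := Real.log_nonneg (by linarith)
    positivity
  -- the principal character
  have hone : ‖psiChi X (1 : DirichletCharacter ℂ q) - (psiX X : ℂ)‖ ≤ DD X q := by
    rw [← psiChi_one_one]
    refine psiChi_sub_le hX0 hX hq _ _ fun n hn => ?_
    rw [MulChar.one_apply ((ZMod.isUnit_iff_coprime n q).2 hn), MulChar.one_apply]
    exact isUnit_of_subsingleton _
  have hoth : ∀ χ ∈ (Finset.univ : Finset (DirichletCharacter ℂ q)).erase 1,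
      ‖χ ((a : ZMod q)⁻¹) * psiChi X χ‖ ≤ ‖psiChi X χ.primitiveCharacter‖ + DD X q := by
    intro χ _
    have h2 := psiChi_sub_le hX0 hX hq χ χ.primitiveCharacter (hcop χ)
    have h3 : ‖psiChi X χ‖ ≤ ‖psiChi X χ.primitiveCharacter‖ + DD X q := by
      have := norm_le_norm_add_norm_sub' (psiChi X χ) (psiChi X χ.primitiveCharacter)
      linarith
    rw [norm_mul]
    have h4 : ‖χ ((a : ZMod q)⁻¹)‖ ≤ 1 := DirichletCharacter.norm_le_one χ _
    calc ‖χ ((a : ZMod q)⁻¹)‖ * ‖psiChi X χ‖ ≤ 1 * ‖psiChi X χ‖ :=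
          mul_le_mul_of_nonneg_right h4 (norm_nonneg _)
      _ ≤ _ := by rw [one_mul]; exact h3
  have hsplit : ∑ χ : DirichletCharacter ℂ q, χ ((a : ZMod q)⁻¹) * psiChi X χ =
      psiChi X (1 : DirichletCharacter ℂ q) +
        ∑ χ ∈ (Finset.univ : Finset (DirichletCharacter ℂ q)).erase 1,
          χ ((a : ZMod q)⁻¹) * psiChi X χ := by
    rw [← Finset.add_sum_erase _ _ (Finset.mem_univ (1 : DirichletCharacter ℂ q))]
    congr 1
    have : (1 : DirichletCharacter ℂ q) ((a : ZMod q)⁻¹) = 1 := by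
      apply MulChar.one_apply
      have hu : IsUnit (a : ZMod q) := (ZMod.isUnit_iff_coprime a q).2 ha
      rw [← hu.unit_spec, ZMod.inv_coe_unit]
      exact Units.isUnit _
    rw [this, one_mul]
  have hcard : (((Finset.univ : Finset (DirichletCharacter ℂ q)).erase 1).card : ℝ) + 1 =
      Nat.totient q := by
    have h5 := DirichletCharacter.card_eq_totient_of_hasEnoughRootsOfUnity ℂ q
    rw [Nat.card_eq_fintype_card] at h5
    have h6 := Finset.card_erase_add_one (Finset.mem_univ (1 : DirichletCharacter ℂ q))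
    rw [Finset.card_univ] at h6
    rw [← h5]
    exact_mod_cast h6
  have hmain : (Nat.totient q : ℝ) * |psiAP X q a - psiX X / (Nat.totient q : ℝ)| ≤
      (Nat.totient q : ℝ) * DD X q +
      ∑ χ ∈ (Finset.univ : Finset (DirichletCharacter ℂ q)).erase 1,
        ‖psiChi X χ.primitiveCharacter‖ := by
    have h7 : (Nat.totient q : ℝ) * |psiAP X q a - psiX X / (Nat.totient q : ℝ)| =
        ‖(Nat.totient q : ℂ) * (psiAP X q a : ℂ) - (psiX X : ℂ)‖ := by
      rw [← abs_of_pos hφ, ← abs_mul, abs_of_pos hφ, mul_sub, mul_div_cancel₀ _ hφ.ne']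
      rw [← Real.norm_eq_abs, ← Complex.norm_real]
      push_cast
      rfl
    rw [h7, h1, hsplit]
    have h8 : psiChi X (1 : DirichletCharacter ℂ q) +
        ∑ χ ∈ (Finset.univ : Finset (DirichletCharacter ℂ q)).erase 1,
          χ ((a : ZMod q)⁻¹) * psiChi X χ - (psiX X : ℂ) =
        (psiChi X (1 : DirichletCharacter ℂ q) - (psiX X : ℂ)) +
        ∑ χ ∈ (Finset.univ : Finset (DirichletCharacter ℂ q)).erase 1,
          χ ((a : ZMod q)⁻¹) * psiChi X χ := by ring
    rw [h8]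
    refine (norm_add_le _ _).trans ?_
    refine (add_le_add hone ((norm_sum_le _ _).trans (Finset.sum_le_sum hoth))).trans ?_
    rw [Finset.sum_add_distrib, Finset.sum_const, nsmul_eq_mul, ← hcard]
    ring_nf
    rfl
  have h9 : |psiAP X q a - psiX X / (Nat.totient q : ℝ)| =
      (1 / (Nat.totient q : ℝ)) * ((Nat.totient q : ℝ) *
        |psiAP X q a - psiX X / (Nat.totient q : ℝ)|) := by
    field_simp
  rw [h9]
  calc _ ≤ (1 / (Nat.totient q : ℝ)) * ((Nat.totient q : ℝ) * DD X q +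
      ∑ χ ∈ (Finset.univ : Finset (DirichletCharacter ℂ q)).erase 1,
        ‖psiChi X χ.primitiveCharacter‖) :=
        mul_le_mul_of_nonneg_left hmain (by positivity)
    _ = _ := by
        rw [mul_add, ← mul_assoc, one_div_mul_cancel hφ.ne', one_mul]

/-- grouping by conductors -/
theorem sum_prim_le (X : ℝ) (q : ℕ) [NeZero q] :
    ∑ χ ∈ (Finset.univ : Finset (DirichletCharacter ℂ q)).erase 1,
      ‖psiChi X χ.primitiveCharacter‖ ≤ ∑ r ∈ q.divisors.erase 1, primSum X r := by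
  classical
  let G : ((r : ℕ) × DirichletCharacter ℂ r) → ℝ := fun x =>
    Set.indicator {χ | χ.IsPrimitive} (fun χ => ‖psiChi X χ‖) x.2
  let σ : DirichletCharacter ℂ q → ((r : ℕ) × DirichletCharacter ℂ r) := fun χ =>
    ⟨χ.conductor, χ.primitiveCharacter⟩
  have hG : ∀ χ, ‖psiChi X χ.primitiveCharacter‖ = G (σ χ) := by
    intro χ
    simp only [G, σ]
    rw [Set.indicator_of_mem]
    exact χ.primitiveCharacter_isPrimitive
  have hG0 : ∀ x, 0 ≤ G x := fun x => Set.indicator_nonneg (fun _ _ => norm_nonneg _) _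
  have hσ : Function.Injective σ := by
    intro χ ψ h
    have key : ∀ (x : (r : ℕ) × DirichletCharacter ℂ r) (y : (r : ℕ) × DirichletCharacter ℂ r)
        (hx : x.1 ∣ q) (hy : y.1 ∣ q), x = y →
        DirichletCharacter.changeLevel hx x.2 = DirichletCharacter.changeLevel hy y.2 := by
      rintro x y hx hy rfl
      rfl
    have := key (σ χ) (σ ψ) χ.conductor_dvd_level ψ.conductor_dvd_level h
    rwa [DirichletCharacter.changeLevel_primitiveCharacter,
      DirichletCharacter.changeLevel_primitiveCharacter] at this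
  have h1 : ∑ r ∈ q.divisors.erase 1, primSum X r =
      ∑ x ∈ (q.divisors.erase 1).sigma (fun r => (Finset.univ : Finset (DirichletCharacter ℂ r))),
        G x := by
    rw [Finset.sum_sigma]
    rfl
  rw [h1]
  have h2 : ∑ χ ∈ (Finset.univ : Finset (DirichletCharacter ℂ q)).erase 1,
      ‖psiChi X χ.primitiveCharacter‖ =
      ∑ x ∈ ((Finset.univ : Finset (DirichletCharacter ℂ q)).erase 1).image σ, G x := by
    rw [Finset.sum_image (fun a _ b _ h => hσ h)]
    exact Finset.sum_congr rfl fun χ _ => hG χ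
  rw [h2]
  refine Finset.sum_le_sum_of_subset_of_nonneg ?_ (fun x _ _ => hG0 x)
  intro x hx
  obtain ⟨χ, hχ, rfl⟩ := Finset.mem_image.1 hx
  have hne : χ ≠ 1 := (Finset.mem_erase.1 hχ).1
  refine Finset.mem_sigma.2 ⟨Finset.mem_erase.2 ⟨?_, ?_⟩, Finset.mem_univ _⟩
  · intro h
    exact hne (DirichletCharacter.eq_one_iff_conductor_eq_one.2 h)
  · exact Nat.mem_divisors.2 ⟨χ.conductor_dvd_level, NeZero.ne q⟩

/-! ### sums of reciprocals of totients -/

theorem prod_ratio_le (S : Finset ℕ) (hS : ∀ p ∈ S, 2 ≤ p) :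
    ∏ p ∈ S, ((p : ℝ) / ((p : ℝ) - 1)) ≤ S.card + 1 := by
  classical
  induction S using Finset.induction_on_max with
  | empty => simp
  | insert a S hmax ih =>
    have haS : a ∉ S := fun h => lt_irrefl _ (hmax a h)
    rw [Finset.prod_insert haS, Finset.card_insert_of_notMem haS]
    have h1 := ih fun p hp => hS p (Finset.mem_insert_of_mem hp)
    have hcard : S.card + 2 ≤ a := by
      have hsub : S ⊆ Finset.Ico 2 a := fun p hp =>
        Finset.mem_Ico.2 ⟨hS p (Finset.mem_insert_of_mem hp), hmax p hp⟩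
      have := Finset.card_le_card hsub
      rw [Nat.card_Ico] at this
      have ha2 := hS a (Finset.mem_insert_self _ _)
      omega
    have hc : (S.card : ℝ) + 2 ≤ a := by exact_mod_cast hcard
    have hk : (0 : ℝ) ≤ S.card := Nat.cast_nonneg _
    have ha1 : (0 : ℝ) < (a : ℝ) - 1 := by linarith
    have h2 : (a : ℝ) / ((a : ℝ) - 1) ≤ ((S.card : ℝ) + 2) / ((S.card : ℝ) + 1) := by
      rw [div_le_div_iff₀ ha1 (by linarith)]
      nlinarith only [hc]
    calc (a : ℝ) / ((a : ℝ) - 1) * ∏ p ∈ S, ((p : ℝ) / ((p : ℝ) - 1))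
        ≤ ((S.card : ℝ) + 2) / ((S.card : ℝ) + 1) * ((S.card : ℝ) + 1) := by
          apply mul_le_mul h2 h1
          · refine Finset.prod_nonneg fun p hp => ?_
            have : (2 : ℝ) ≤ p := by exact_mod_cast hS p (Finset.mem_insert_of_mem hp)
            exact div_nonneg (by linarith) (by linarith)
          · positivity
      _ = ((S.card + 1 : ℕ) : ℝ) + 1 := by
          rw [div_mul_cancel₀ _ (by positivity)]
          push_cast
          ring

theorem card_primeFactors_le (m : ℕ) (hm : m ≠ 0) :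
    (m.primeFactors.card : ℝ) ≤ Real.log m / Real.log 2 := by
  have h1 : 2 ^ m.primeFactors.card ≤ m := by
    calc 2 ^ m.primeFactors.card = ∏ _p ∈ m.primeFactors, 2 := by rw [Finset.prod_const]
      _ ≤ ∏ p ∈ m.primeFactors, p :=
          Finset.prod_le_prod (fun _ _ => by norm_num)
            fun p hp => (Nat.prime_of_mem_primeFactors hp).two_le
      _ ≤ m := Nat.le_of_dvd (Nat.pos_of_ne_zero hm) (Nat.prod_primeFactors_dvd m)
  have h2 : Real.log ((2 : ℝ) ^ m.primeFactors.card) ≤ Real.log m := by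
    apply Real.log_le_log (by positivity)
    exact_mod_cast h1
  rw [Real.log_pow] at h2
  rw [le_div_iff₀ (Real.log_pos (by norm_num))]
  exact h2

theorem inv_totient_le (m : ℕ) (hm : m ≠ 0) :
    1 / (Nat.totient m : ℝ) ≤ (Real.log m / Real.log 2 + 1) / m := by
  have hφ : (0 : ℝ) < Nat.totient m := by
    exact_mod_cast Nat.totient_pos.2 (Nat.pos_of_ne_zero hm)
  have hm' : (0 : ℝ) < m := by exact_mod_cast Nat.pos_of_ne_zero hm
  have h1 : (Nat.totient m : ℚ) = m * ∏ p ∈ m.primeFactors, (1 - (p : ℚ)⁻¹) :=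
    Nat.totient_eq_mul_prod_factors m
  have h1' : (Nat.totient m : ℝ) = m * ∏ p ∈ m.primeFactors, (1 - (p : ℝ)⁻¹) := by
    have := congrArg (fun x : ℚ => (x : ℝ)) h1
    push_cast at this
    exact this
  have h2 := prod_ratio_le m.primeFactors fun p hp => (Nat.prime_of_mem_primeFactors hp).two_le
  have h3 := card_primeFactors_le m hm
  have h4 : (∏ p ∈ m.primeFactors, (1 - (p : ℝ)⁻¹)) *
      ∏ p ∈ m.primeFactors, ((p : ℝ) / ((p : ℝ) - 1)) = 1 := by
    rw [← Finset.prod_mul_distrib]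
    refine Finset.prod_eq_one fun p hp => ?_
    have : (2 : ℝ) ≤ p := by exact_mod_cast (Nat.prime_of_mem_primeFactors hp).two_le
    have h5 : (p : ℝ) - 1 ≠ 0 := by linarith
    have h6 : (p : ℝ) ≠ 0 := by linarith
    field_simp
  rw [div_le_div_iff₀ hφ hm', one_mul]
  have h5 : (m : ℝ) = Nat.totient m * ∏ p ∈ m.primeFactors, ((p : ℝ) / ((p : ℝ) - 1)) := by
    rw [h1', mul_assoc, h4, mul_one]
  calc (m : ℝ) = Nat.totient m * ∏ p ∈ m.primeFactors, ((p : ℝ) / ((p : ℝ) - 1)) := h5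
    _ ≤ Nat.totient m * (Real.log m / Real.log 2 + 1) := by
        apply mul_le_mul_of_nonneg_left _ hφ.le
        linarith
    _ = _ := by ring

theorem sum_inv_totient_le (N : ℕ) (hN : 1 ≤ N) :
    ∑ m ∈ Icc 1 N, 1 / (Nat.totient m : ℝ) ≤
      (Real.log N / Real.log 2 + 1) * (1 + Real.log N) := by
  have h0 : 0 < Real.log 2 := Real.log_pos (by norm_num)
  have h1 : ∀ m ∈ Icc 1 N, 1 / (Nat.totient m : ℝ) ≤
      (Real.log N / Real.log 2 + 1) * (m : ℝ)⁻¹ := by
    intro m hm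
    obtain ⟨hm1, hm2⟩ := Finset.mem_Icc.1 hm
    refine (inv_totient_le m (by omega)).trans ?_
    rw [div_eq_mul_inv]
    apply mul_le_mul_of_nonneg_right _ (by positivity)
    have : Real.log m ≤ Real.log N := Real.log_le_log (by exact_mod_cast hm1) (by exact_mod_cast hm2)
    have := div_le_div_of_nonneg_right this h0.le
    linarith
  refine (Finset.sum_le_sum h1).trans ?_
  rw [← Finset.mul_sum]
  have h2 : ∑ m ∈ Icc 1 N, (m : ℝ)⁻¹ ≤ 1 + Real.log N := by
    have h3 := harmonic_le_one_add_log N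
    have h4 : ((harmonic N : ℚ) : ℝ) = ∑ m ∈ Icc 1 N, (m : ℝ)⁻¹ := by
      rw [harmonic_eq_sum_Icc]
      push_cast
      rfl
    rwa [h4] at h3
  apply mul_le_mul_of_nonneg_left h2
  have : 0 ≤ Real.log N := Real.log_nonneg (by exact_mod_cast hN)
  positivity

/-- the double sum -/
theorem sum_swap_le (X : ℝ) (N : ℕ) :
    ∑ q ∈ Icc 1 N, (1 / (Nat.totient q : ℝ)) * ∑ r ∈ q.divisors.erase 1, primSum X r ≤
      (∑ r ∈ Icc 2 N, primSum X r / (Nat.totient r : ℝ)) *
        ∑ m ∈ Icc 1 N, 1 / (Nat.totient m : ℝ) := by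
  classical
  rw [Finset.sum_mul_sum]
  have h1 : ∑ q ∈ Icc 1 N, (1 / (Nat.totient q : ℝ)) * ∑ r ∈ q.divisors.erase 1, primSum X r ≤
      ∑ x ∈ (Icc 1 N).sigma (fun q => q.divisors.erase 1),
        primSum X x.2 / (Nat.totient x.2 : ℝ) * (1 / (Nat.totient (x.1 / x.2) : ℝ)) := by
    rw [Finset.sum_sigma]
    refine Finset.sum_le_sum fun q hq => ?_
    rw [Finset.mul_sum]
    refine Finset.sum_le_sum fun r hr => ?_
    have hrq : r ∣ q := Nat.dvd_of_mem_divisors (Finset.mem_of_mem_erase hr)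
    have hq1 := (Finset.mem_Icc.1 hq).1
    have hr0 : 0 < r := Nat.pos_of_dvd_of_pos hrq (by omega)
    have hm0 : 0 < q / r := Nat.div_pos (Nat.le_of_dvd (by omega) hrq) hr0
    have hφr : (0 : ℝ) < Nat.totient r := by exact_mod_cast Nat.totient_pos.2 hr0
    have hφm : (0 : ℝ) < Nat.totient (q / r) := by exact_mod_cast Nat.totient_pos.2 hm0
    have h2 : (Nat.totient r : ℝ) * Nat.totient (q / r) ≤ Nat.totient q := by
      have := Nat.totient_super_multiplicative r (q / r)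
      rw [Nat.mul_div_cancel' hrq] at this
      exact_mod_cast this
    have h3 : 1 / (Nat.totient q : ℝ) ≤ 1 / ((Nat.totient r : ℝ) * Nat.totient (q / r)) :=
      one_div_le_one_div_of_le (by positivity) h2
    calc 1 / (Nat.totient q : ℝ) * primSum X r
        ≤ 1 / ((Nat.totient r : ℝ) * Nat.totient (q / r)) * primSum X r :=
          mul_le_mul_of_nonneg_right h3 (primSum_nonneg X r)
      _ = _ := by field_simp
  refine h1.trans ?_
  rw [← Finset.sum_product']
  let τ : ((_ : ℕ) × ℕ) → ℕ × ℕ := fun x => (x.2, x.1 / x.2)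
  have hinj : Set.InjOn τ ((Icc 1 N).sigma (fun q => q.divisors.erase 1) :
      Finset ((_ : ℕ) × ℕ)) := by
    rintro ⟨q, r⟩ hx ⟨q', r'⟩ hy hxy
    simp only [Finset.coe_sigma, Set.mem_sigma_iff, Finset.mem_coe] at hx hy
    simp only [τ, Prod.mk.injEq] at hxy
    obtain ⟨rfl, h2⟩ := hxy
    have h3 : r ∣ q := Nat.dvd_of_mem_divisors (Finset.mem_of_mem_erase hx.2)
    have h4 : r ∣ q' := Nat.dvd_of_mem_divisors (Finset.mem_of_mem_erase hy.2)
    have : q = q' := by
      rw [← Nat.mul_div_cancel' h3, ← Nat.mul_div_cancel' h4, h2]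
    rw [this]
  have h5 : ∑ x ∈ (Icc 1 N).sigma (fun q => q.divisors.erase 1),
        primSum X x.2 / (Nat.totient x.2 : ℝ) * (1 / (Nat.totient (x.1 / x.2) : ℝ)) =
      ∑ y ∈ ((Icc 1 N).sigma (fun q => q.divisors.erase 1)).image τ,
        primSum X y.1 / (Nat.totient y.1 : ℝ) * (1 / (Nat.totient y.2 : ℝ)) := by
    rw [Finset.sum_image hinj]
  rw [h5]
  refine Finset.sum_le_sum_of_subset_of_nonneg ?_ ?_
  · intro y hy
    obtain ⟨⟨q, r⟩, hx, rfl⟩ := Finset.mem_image.1 hy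
    simp only [Finset.mem_sigma, Finset.mem_Icc] at hx
    obtain ⟨⟨hq1, hqN⟩, hr⟩ := hx
    have hr1 : r ≠ 1 := (Finset.mem_erase.1 hr).1
    have hrq : r ∣ q := Nat.dvd_of_mem_divisors (Finset.mem_of_mem_erase hr)
    have hr0 : 0 < r := Nat.pos_of_dvd_of_pos hrq (by omega)
    have hrN : r ≤ q := Nat.le_of_dvd (by omega) hrq
    have hm0 : 0 < q / r := Nat.div_pos hrN hr0
    have hmN : q / r ≤ q := Nat.div_le_self q r
    simp only [τ, Finset.mem_product, Finset.mem_Icc]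
    omega
  · intro y _ _
    exact mul_nonneg (div_nonneg (primSum_nonneg _ _) (Nat.cast_nonneg _)) (by (clear * -; positivity))

theorem primSum_le {X M : ℝ} {r : ℕ} [NeZero r] (hM : 0 ≤ M)
    (h : ∀ χ : DirichletCharacter ℂ r, χ.IsPrimitive → ‖psiChi X χ‖ ≤ M) :
    primSum X r ≤ Nat.totient r * M := by
  classical
  unfold primSum
  have h1 : ∀ χ ∈ (Finset.univ : Finset (DirichletCharacter ℂ r)),
      Set.indicator {χ : DirichletCharacter ℂ r | χ.IsPrimitive} (fun χ => ‖psiChi X χ‖) χ ≤ M := by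
    intro χ _
    by_cases hχ : χ.IsPrimitive
    · rw [Set.indicator_of_mem (show χ ∈ {χ : DirichletCharacter ℂ r | χ.IsPrimitive} from hχ)]
      exact h χ hχ
    · rw [Set.indicator_of_notMem
        (show χ ∉ {χ : DirichletCharacter ℂ r | χ.IsPrimitive} from hχ)]
      exact hM
  refine (Finset.sum_le_sum h1).trans ?_
  rw [Finset.sum_const, nsmul_eq_mul, Finset.card_univ, ← Nat.card_eq_fintype_card,
    DirichletCharacter.card_eq_totient_of_hasEnoughRootsOfUnity]

open Filter Topology Asymptotics in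
theorem eventually_small (A : ℕ) : ∀ᶠ X : ℝ in atTop,
    16 * (X ^ (1 / 25 : ℝ) * Real.log (3 * X)) * (Real.log X) ^ A ≤ X := by
  have h1 : (fun X : ℝ => Real.log X ^ ((A : ℝ) + 1)) =o[atTop] fun X => X ^ (24 / 25 : ℝ) :=
    isLittleO_log_rpow_rpow_atTop _ (by norm_num)
  have h2 := h1.def (show (0 : ℝ) < 1 / 48 by norm_num)
  filter_upwards [h2, eventually_ge_atTop (Real.exp 1), eventually_ge_atTop (3 : ℝ)]
    with X h3 h4 h5
  have hX0 : 0 < X := by linarith
  have hL : 1 ≤ Real.log X := by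
    rw [Real.le_log_iff_exp_le hX0]
    exact h4
  have h6 : Real.log (3 * X) ≤ 3 * Real.log X := by
    rw [Real.log_mul (by norm_num) hX0.ne']
    have : Real.log 3 ≤ Real.log X := Real.log_le_log (by norm_num) h5
    linarith
  rw [Real.norm_of_nonneg (Real.rpow_nonneg (by linarith) _),
    Real.norm_of_nonneg (Real.rpow_nonneg hX0.le _)] at h3
  have h7 : Real.log X ^ ((A : ℝ) + 1) = Real.log X ^ A * Real.log X := by
    rw [Real.rpow_add (by linarith), Real.rpow_natCast, Real.rpow_one]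
  rw [h7] at h3
  have h8 : X ^ (1 / 25 : ℝ) * X ^ (24 / 25 : ℝ) = X := by
    rw [← Real.rpow_add hX0]
    norm_num
  have h9 : 0 ≤ X ^ (1 / 25 : ℝ) := Real.rpow_nonneg hX0.le _
  have h10 : 0 ≤ Real.log X ^ A := pow_nonneg (by linarith) _
  calc 16 * (X ^ (1 / 25 : ℝ) * Real.log (3 * X)) * (Real.log X) ^ A
      ≤ 16 * (X ^ (1 / 25 : ℝ) * (3 * Real.log X)) * (Real.log X) ^ A := by gcongr
    _ = 48 * X ^ (1 / 25 : ℝ) * (Real.log X ^ A * Real.log X) := by ring
    _ ≤ 48 * X ^ (1 / 25 : ℝ) * (1 / 48 * X ^ (24 / 25 : ℝ)) := by gcongr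
    _ = X ^ (1 / 25 : ℝ) * X ^ (24 / 25 : ℝ) := by ring
    _ = X := h8

/-- assembly of the Bombieri-Vinogradov estimate -/
theorem bv_of
    (hS : ∀ A B : ℕ, ∀ X0 : ℝ, ∃ X : ℝ, X0 ≤ X ∧
      ∀ r : ℕ, 2 ≤ r → (r : ℝ) ≤ (Real.log X) ^ B → ∀ χ : DirichletCharacter ℂ r,
        χ.IsPrimitive → ‖psiChi X χ‖ ≤ X / (Real.log X) ^ A)
    (hL : ∀ A : ℕ, ∃ B : ℕ, ∃ X0 : ℝ, ∀ X : ℝ, X0 ≤ X →
      ∑ r ∈ (Finset.Icc 2 ⌊X ^ (1 / 50 : ℝ)⌋₊).filter (fun r : ℕ => (Real.log X) ^ B < (r : ℝ)),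
        primSum X r / (Nat.totient r : ℝ) ≤ X / (Real.log X) ^ A)
    (A : ℕ) : ∀ X0 : ℝ, ∃ X : ℝ, X0 ≤ X ∧ ∀ a : ℕ → ℕ, (∀ q, (a q).Coprime q) →
    ∑ q ∈ Finset.Icc 1 ⌊X ^ (1 / 50 : ℝ)⌋₊, |psiAP X q (a q) - psiX X / (Nat.totient q : ℝ)|
      ≤ X / (Real.log X) ^ A := by
  classical
  intro X0
  obtain ⟨B, X1, hB⟩ := hL (A + 3)
  obtain ⟨X2, hX2⟩ := Filter.eventually_atTop.1 (eventually_small A)
  obtain ⟨X, hXm, hX3⟩ := hS (A + 3 + B) B (max (max X0 X1) (max X2 (Real.exp 4)))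
  have hXX0 : X0 ≤ X := le_trans (le_trans (le_max_left _ _) (le_max_left _ _)) hXm
  have hXX1 : X1 ≤ X := le_trans (le_trans (le_max_right _ _) (le_max_left _ _)) hXm
  have hXX2 : X2 ≤ X := le_trans (le_trans (le_max_left _ _) (le_max_right _ _)) hXm
  have hXe : Real.exp 4 ≤ X := le_trans (le_trans (le_max_right _ _) (le_max_right _ _)) hXm
  have hXpos : 0 < X := lt_of_lt_of_le (Real.exp_pos 4) hXe
  have hlog4 : 4 ≤ Real.log X := by
    rw [Real.le_log_iff_exp_le hXpos]; exact hXe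
  have hX1 : 1 ≤ X := le_trans (Real.one_le_exp (by norm_num)) hXe
  set L := Real.log X with hLdef
  have hLpos : 0 < L := by linarith
  refine ⟨X, hXX0, fun a ha => ?_⟩
  set N := ⌊X ^ (1 / 50 : ℝ)⌋₊ with hN
  have hXp : 0 ≤ X ^ (1 / 50 : ℝ) := Real.rpow_nonneg hXpos.le _
  have hN1 : 1 ≤ N := Nat.le_floor (by
    push_cast
    exact Real.one_le_rpow hX1 (by norm_num))
  have hNle : (N : ℝ) ≤ X ^ (1 / 50 : ℝ) := Nat.floor_le hXp
  have hNpos : (0 : ℝ) < N := by exact_mod_cast hN1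
  have hlogN : Real.log N ≤ 1 / 50 * L := by
    have := Real.log_le_log hNpos hNle
    rwa [Real.log_rpow hXpos] at this
  have hlogN0 : 0 ≤ Real.log N := Real.log_nonneg (by exact_mod_cast hN1)
  -- one modulus
  have hstep : ∀ q ∈ Icc 1 N, |psiAP X q (a q) - psiX X / (Nat.totient q : ℝ)| ≤
      DD X q + (1 / (Nat.totient q : ℝ)) * ∑ r ∈ q.divisors.erase 1, primSum X r := by
    intro q hq
    have hq1 := (Finset.mem_Icc.1 hq).1
    have : NeZero q := ⟨by omega⟩
    refine (ap_le hX1 (by linarith only [hlog4]) (a q) (ha q)).trans ?_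
    have := sum_prim_le X q
    have h2 : 0 ≤ 1 / (Nat.totient q : ℝ) := by positivity
    have := mul_le_mul_of_nonneg_left this h2
    linarith
  refine (Finset.sum_le_sum hstep).trans ?_
  rw [Finset.sum_add_distrib]
  -- the trivial terms
  have hDD : ∑ q ∈ Icc 1 N, DD X q ≤ 1 / 2 * (X / L ^ A) := by
    have hlog3 : 0 ≤ Real.log (3 * X) := Real.log_nonneg (by linarith only [hXpos, hX1])
    have h1 : ∀ q ∈ Icc 1 N, DD X q ≤ 8 * (X ^ (1 / 50 : ℝ) * Real.log (3 * X)) := by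
      intro q hq
      have hq2 := (Finset.mem_Icc.1 hq).2
      unfold DD
      have h2 : (q : ℝ) ≤ X ^ (1 / 50 : ℝ) := le_trans (by exact_mod_cast hq2) hNle
      (clear * - h2 hlog3; gcongr)
    refine (Finset.sum_le_sum h1).trans ?_
    rw [Finset.sum_const, Nat.card_Icc, Nat.add_sub_cancel, nsmul_eq_mul]
    have h3 : (N : ℝ) * (8 * (X ^ (1 / 50 : ℝ) * Real.log (3 * X))) ≤
        8 * (X ^ (1 / 25 : ℝ) * Real.log (3 * X)) := by
      have h4 : X ^ (1 / 25 : ℝ) = X ^ (1 / 50 : ℝ) * X ^ (1 / 50 : ℝ) := by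
        rw [← Real.rpow_add hXpos]; norm_num
      rw [h4]
      calc (N : ℝ) * (8 * (X ^ (1 / 50 : ℝ) * Real.log (3 * X)))
          ≤ X ^ (1 / 50 : ℝ) * (8 * (X ^ (1 / 50 : ℝ) * Real.log (3 * X))) := by gcongr
        _ = _ := by ring
    refine h3.trans ?_
    have h5 := hX2 X hXX2
    have h6 : 0 < L ^ A := pow_pos hLpos _
    rw [← hLdef] at h5
    have h7 : 8 * (X ^ (1 / 25 : ℝ) * Real.log (3 * X)) ≤ X / 2 / L ^ A := by
      rw [le_div_iff₀ h6]
      linarith only [h5]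
    calc _ ≤ X / 2 / L ^ A := h7
      _ = _ := by ring
  -- the small conductors
  have hsmall : ∑ r ∈ (Icc 2 N).filter (fun r : ℕ => ¬ L ^ B < (r : ℝ)),
      primSum X r / (Nat.totient r : ℝ) ≤ X / L ^ (A + 3) := by
    have h1 : ∀ r ∈ (Icc 2 N).filter (fun r : ℕ => ¬ L ^ B < (r : ℝ)),
        primSum X r / (Nat.totient r : ℝ) ≤ X / L ^ (A + 3 + B) := by
      intro r hr
      obtain ⟨hr1, hr2⟩ := Finset.mem_filter.1 hr
      have hr3 := (Finset.mem_Icc.1 hr1).1
      have : NeZero r := ⟨by omega⟩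
      have hφ : (0 : ℝ) < Nat.totient r := by exact_mod_cast Nat.totient_pos.2 (by omega)
      rw [div_le_iff₀ hφ, mul_comm]
      exact primSum_le (by positivity) (hX3 r hr3 (not_lt.1 hr2))
    refine (Finset.sum_le_sum h1).trans ?_
    rw [Finset.sum_const, nsmul_eq_mul]
    have h2 : (((Icc 2 N).filter (fun r : ℕ => ¬ L ^ B < (r : ℝ))).card : ℝ) ≤ L ^ B := by
      have h3 : (Icc 2 N).filter (fun r : ℕ => ¬ L ^ B < (r : ℝ)) ⊆ Icc 1 ⌊L ^ B⌋₊ := by
        intro r hr
        obtain ⟨hr1, hr2⟩ := Finset.mem_filter.1 hr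
        have hr3 := (Finset.mem_Icc.1 hr1).1
        exact Finset.mem_Icc.2 ⟨by omega, Nat.le_floor (not_lt.1 hr2)⟩
      have h4 := Finset.card_le_card h3
      rw [Nat.card_Icc, Nat.add_sub_cancel] at h4
      exact le_trans (by exact_mod_cast h4) (Nat.floor_le (pow_nonneg hLpos.le _))
    calc _ ≤ L ^ B * (X / L ^ (A + 3 + B)) := by
          apply mul_le_mul_of_nonneg_right h2
          positivity
      _ = X / L ^ (A + 3) := by
          rw [pow_add L (A + 3) B]
          have : L ^ B ≠ 0 := (pow_pos hLpos _).ne'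
          field_simp
  have hlarge := hB X hXX1
  rw [← hLdef, ← hN] at hlarge
  have hS1 : ∑ r ∈ Icc 2 N, primSum X r / (Nat.totient r : ℝ) ≤ 2 * (X / L ^ (A + 3)) := by
    rw [← Finset.sum_filter_add_sum_filter_not (Icc 2 N) (fun r : ℕ => L ^ B < (r : ℝ))]
    linarith only [hsmall, hlarge]
  have hS2 : ∑ m ∈ Icc 1 N, 1 / (Nat.totient m : ℝ) ≤ L * L := by
    refine (sum_inv_totient_le N hN1).trans ?_
    have hlog2 : (0.69 : ℝ) < Real.log 2 := lt_trans (by norm_num) Real.log_two_gt_d9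
    have h1 : Real.log N / Real.log 2 + 1 ≤ L := by
      have h2 : Real.log N / Real.log 2 ≤ 1 / 50 * L / 0.69 :=
        div_le_div₀ (by positivity) hlogN (by norm_num) hlog2.le
      have h3 : 1 / 50 * L / 0.69 ≤ 1 / 30 * L := by
        rw [div_le_iff₀ (by norm_num)]
        linarith only [hlog4]
      linarith only [hlog4, h2, h3]
    have h4 : 1 + Real.log N ≤ L := by linarith only [hlog4, hlogN]
    exact mul_le_mul h1 h4 (by linarith only [hlogN0]) hLpos.le
  have hmain := sum_swap_le X N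
  have hS10 : 0 ≤ ∑ m ∈ Icc 1 N, 1 / (Nat.totient m : ℝ) :=
    Finset.sum_nonneg fun m _ => by positivity
  have h20 : 0 ≤ X / L ^ (A + 3) := by positivity
  have hprod : (∑ r ∈ Icc 2 N, primSum X r / (Nat.totient r : ℝ)) *
      ∑ m ∈ Icc 1 N, 1 / (Nat.totient m : ℝ) ≤ 2 * (X / L ^ (A + 3)) * (L * L) :=
    mul_le_mul hS1 hS2 hS10 (by linarith only [h20])
  have hfin : 2 * (X / L ^ (A + 3)) * (L * L) ≤ 1 / 2 * (X / L ^ A) := by
    have h21 : X / L ^ (A + 3) = X / L ^ A / (L * L) / L := by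
      rw [pow_add]
      field_simp
    rw [h21]
    have h22 : 0 ≤ X / L ^ A := by positivity
    have h23 : 2 * (X / L ^ A / (L * L) / L) * (L * L) = 2 * (X / L ^ A) / L := by
      field_simp
    rw [h23, div_le_iff₀ hLpos]
    nlinarith only [hlog4, h22]
  linarith only [hDD, hmain, hprod, hfin]

/-! ### the total mass -/

theorem Om_lower {X : ℝ} (hX0 : 0 < X) (hX : 1 ≤ Real.log X) {n : ℕ} (h1 : X / 2 < n)
    (h2 : (n : ℝ) ≤ 5 / 2 * X) : 1 / 200 ≤ Om X n := by
  obtain ⟨hc1, hc2⟩ := cX_bounds hX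
  have hn : (0 : ℝ) < n := by linarith
  have hq : 0 < (n : ℝ) / X := div_pos hn hX0
  have hq2 : 0 < X / (n : ℝ) := div_pos hX0 hn
  have h3 : (n : ℝ) / X ≤ 5 / 2 := by
    rw [div_le_iff₀ hX0]; exact h2
  have h4 : (1 / 2 : ℝ) ≤ (n : ℝ) / X := by
    rw [le_div_iff₀ hX0]; linarith
  have h5 : Real.log (n / X) ≤ 0.95 := by
    have h6 : Real.log (n / X) ≤ Real.log (5 / 2) := Real.log_le_log hq h3
    have h7 : Real.log (5 / 2) = 1 + Real.log (5 / 2 / Real.exp 1) := by
      rw [Real.log_div (by norm_num) (Real.exp_pos 1).ne', Real.log_exp]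
      ring
    have h8 : Real.log (5 / 2 / Real.exp 1) ≤ 5 / 2 / Real.exp 1 - 1 :=
      Real.log_le_sub_one_of_pos (by positivity)
    have h9 : (5 : ℝ) / 2 / Real.exp 1 ≤ 0.95 := by
      rw [div_le_iff₀ (Real.exp_pos 1)]
      have := Real.exp_one_gt_d9
      linarith only [this]
    linarith only [h6, h7, h8, h9]
  have h6 : -0.95 ≤ Real.log (n / X) := by
    have h7 : Real.log (1 / 2) ≤ Real.log (n / X) := Real.log_le_log (by norm_num) h4
    have h8 : Real.log (1 / 2) = - Real.log 2 := by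
      rw [one_div, Real.log_inv]
    have h9 := Real.log_two_lt_d9
    linarith
  have ht : (1 / 20 : ℝ) ≤ tri (Real.log (n / X)) := by
    unfold tri
    refine le_trans ?_ (le_max_right _ _)
    have : |Real.log (n / X)| ≤ 0.95 := abs_le.2 ⟨h6, h5⟩
    linarith
  have hp : (1 / 10 : ℝ) ≤ (X / n) ^ cX X := by
    rw [Real.rpow_def_of_pos hq2]
    have h7 : Real.log (X / n) = - Real.log (n / X) := by
      rw [← Real.log_inv, inv_div]
    rw [h7]
    have h8 : -2 ≤ - Real.log (n / X) * cX X := by nlinarith only [hc2, h5, hc1]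
    have h9 : Real.exp (-2) ≤ Real.exp (- Real.log (n / X) * cX X) := Real.exp_le_exp.2 h8
    refine le_trans ?_ h9
    rw [Real.exp_neg, one_div]
    apply inv_anti₀ (Real.exp_pos 2)
    have h4 := Real.exp_one_lt_d9
    have h5 : Real.exp 2 = Real.exp 1 * Real.exp 1 := by rw [← Real.exp_add]; norm_num
    rw [h5]
    have h6 := Real.exp_pos 1
    nlinarith only [h4, h6]
  unfold Om
  calc (1 / 200 : ℝ) = 1 / 10 * (1 / 20) := by norm_num
    _ ≤ _ := mul_le_mul hp ht (by norm_num) (Real.rpow_nonneg hq2.le _)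

open Filter Asymptotics in
theorem psiX_lower : ∃ c : ℝ, 0 < c ∧ ∃ X0 : ℝ, ∀ X : ℝ, X0 ≤ X → c * X ≤ psiX X := by
  refine ⟨1 / 400, by norm_num, ?_⟩
  have h1 : (fun X : ℝ => Real.log X) =o[atTop] fun X => X ^ (1 / 2 : ℝ) :=
    isLittleO_log_rpow_atTop (by norm_num)
  have h2 := h1.def (show (0 : ℝ) < 1 / 100 by norm_num)
  obtain ⟨X0, hX0⟩ := eventually_atTop.1 h2
  refine ⟨max X0 (Real.exp 4), fun X hX => ?_⟩
  have hXX0 := hX0 X (le_trans (le_max_left _ _) hX)
  have hXe : Real.exp 4 ≤ X := le_trans (le_max_right _ _) hX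
  have hXpos : 0 < X := lt_of_lt_of_le (Real.exp_pos 4) hXe
  have hlog4 : 4 ≤ Real.log X := by
    rw [Real.le_log_iff_exp_le hXpos]; exact hXe
  have hX5 : 5 ≤ X := by
    have := Real.add_one_le_exp (4 : ℝ)
    linarith
  -- the block
  have hsub : Ioc ⌊X / 2⌋₊ ⌊5 / 2 * X⌋₊ ⊆ Icc 1 ⌊3 * X⌋₊ := by
    intro n hn
    obtain ⟨hn1, hn2⟩ := Finset.mem_Ioc.1 hn
    refine Finset.mem_Icc.2 ⟨by omega, hn2.trans (Nat.floor_le_floor ?_)⟩
    linarith only [hX5]
  have h3 : 1 / 200 * ∑ n ∈ Ioc ⌊X / 2⌋₊ ⌊5 / 2 * X⌋₊, vonMangoldt n ≤ psiX X := by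
    unfold psiX
    rw [Finset.mul_sum]
    calc ∑ n ∈ Ioc ⌊X / 2⌋₊ ⌊5 / 2 * X⌋₊, 1 / 200 * vonMangoldt n
        ≤ ∑ n ∈ Ioc ⌊X / 2⌋₊ ⌊5 / 2 * X⌋₊, vonMangoldt n * Om X n := by
          refine Finset.sum_le_sum fun n hn => ?_
          obtain ⟨hn1, hn2⟩ := Finset.mem_Ioc.1 hn
          have h4 : X / 2 < n := (Nat.floor_lt (by positivity)).1 hn1
          have h5 : (n : ℝ) ≤ 5 / 2 * X := (Nat.le_floor_iff (by positivity)).1 hn2
          have h6 := Om_lower hXpos (by linarith) h4 h5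
          rw [mul_comm]
          exact mul_le_mul_of_nonneg_left h6 vonMangoldt_nonneg
      _ ≤ _ := Finset.sum_le_sum_of_subset_of_nonneg hsub
          fun n _ _ => mul_nonneg vonMangoldt_nonneg (Om_nonneg hXpos.le n)
  have h4 : ∑ n ∈ Ioc ⌊X / 2⌋₊ ⌊5 / 2 * X⌋₊, vonMangoldt n =
      Chebyshev.psi (5 / 2 * X) - Chebyshev.psi (X / 2) := by
    unfold Chebyshev.psi
    have hle : ⌊X / 2⌋₊ ≤ ⌊5 / 2 * X⌋₊ := Nat.floor_le_floor (by linarith)
    rw [eq_sub_iff_add_eq, add_comm]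
    exact Finset.sum_Ioc_consecutive (fun n => vonMangoldt n) (Nat.zero_le _) hle
  rw [h4] at h3
  have h5 := Chebyshev.psi_ge' (x := 5 / 2 * X) (by positivity)
  have h6 := Chebyshev.psi_le (x := X / 2) (by linarith)
  -- estimates
  have hsq : Real.sqrt (X / 2) * Real.log (X / 2) ≤ 1 / 100 * X := by
    have h7 : Real.sqrt (X / 2) ≤ X ^ (1 / 2 : ℝ) := by
      rw [← Real.sqrt_eq_rpow]
      exact Real.sqrt_le_sqrt (by linarith)
    have h8 : Real.log (X / 2) ≤ Real.log X := Real.log_le_log (by positivity) (by linarith only [hX5])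
    have h9 : Real.log X ≤ 1 / 100 * X ^ (1 / 2 : ℝ) := by
      rwa [Real.norm_of_nonneg (by linarith only [hlog4]),
        Real.norm_of_nonneg (Real.rpow_nonneg hXpos.le _)] at hXX0
    have h10 : X ^ (1 / 2 : ℝ) * X ^ (1 / 2 : ℝ) = X := by
      rw [← Real.rpow_add hXpos]; norm_num
    have h11 : 0 ≤ X ^ (1 / 2 : ℝ) := Real.rpow_nonneg hXpos.le _
    have h12 : 0 ≤ Real.log (X / 2) := Real.log_nonneg (by linarith only [hX5])
    calc _ ≤ X ^ (1 / 2 : ℝ) * (1 / 100 * X ^ (1 / 2 : ℝ)) :=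
          mul_le_mul h7 (h8.trans h9) h12 h11
      _ = 1 / 100 * (X ^ (1 / 2 : ℝ) * X ^ (1 / 2 : ℝ)) := by ring
      _ = _ := by rw [h10]
  have hl : Real.log (5 / 2 * X + 2) ≤ 1 / 10 * X := by
    have h7 : 5 / 2 * X + 2 ≤ 3 * X := by linarith only [hX5]
    have h8 : Real.log (5 / 2 * X + 2) ≤ Real.log (3 * X) := Real.log_le_log (by positivity) h7
    have h9 : Real.log (3 * X) = Real.log 3 + Real.log X := Real.log_mul (by norm_num) hXpos.ne'
    have h10 : Real.log X ≤ 1 / 100 * X ^ (1 / 2 : ℝ) := by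
      rwa [Real.norm_of_nonneg (by linarith only [hlog4]),
        Real.norm_of_nonneg (Real.rpow_nonneg hXpos.le _)] at hXX0
    have h11 : X ^ (1 / 2 : ℝ) ≤ X := by
      have : X ^ (1 / 2 : ℝ) ≤ X ^ (1 : ℝ) :=
        Real.rpow_le_rpow_of_exponent_le (by linarith only [hX5]) (by norm_num)
      rwa [Real.rpow_one] at this
    have h12 : Real.log 3 ≤ 2 := by
      have := Real.log_le_sub_one_of_pos (show (0 : ℝ) < 3 by norm_num)
      linarith only [this]
    have h13 : 4 ≤ 1 / 100 * X := by linarith only [hlog4, h10, h11]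
    linarith only [hlog4, h8, h9, h10, h11, h12]
  have hlog2 : (0.69 : ℝ) < Real.log 2 := lt_trans (by norm_num) Real.log_two_gt_d9
  have hlog4' : Real.log 4 = 2 * Real.log 2 := by
    rw [show (4 : ℝ) = 2 ^ 2 by norm_num, Real.log_pow]
    norm_num
  rw [hlog4'] at h6
  have h20 : (5 / 2 * X - 1) * Real.log 2 - 2 * Real.log 2 * (X / 2) =
      (3 / 2 * X - 1) * Real.log 2 := by ring
  have h21 : (3 / 2 * X - 1) * 0.69 ≤ (3 / 2 * X - 1) * Real.log 2 :=
    mul_le_mul_of_nonneg_left hlog2.le (by linarith only [hX5])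
  linarith only [hX5, h3, h5, h6, hsq, hl, h21]

end Pool.Agent.MP89da58
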