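import Pool.Agent.Lib.MP_89da58_nt.S.DerivRec
import Pool.Agent.Lib.MP_89da58_nt.S.Fourier

set_option autoImplicit false

/-!
Small conductors: the twisted sums `psiChi X χ` at good scales.
-/

namespace Pool.Agent.MP89da58

open MeasureTheory Finset Filter
open scoped FourierTransform
open S

namespace S

/-- shifting the argument of an L-series term by an imaginary amount -/
lemma term_shift (f : ℕ → ℂ) (c : ℂ) (y : ℝ) (n : ℕ) :
    LSeries.term f (c - (y : ℂ) * Complex.I) n =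
      LSeries.term f c n * Complex.exp (((y * Real.log n : ℝ) : ℂ) * Complex.I) := by
  rcases eq_or_ne n 0 with rfl | hn
  · simp
  have hn0 : (n : ℂ) ≠ 0 := by exact_mod_cast hn
  rw [LSeries.term_of_ne_zero hn, LSeries.term_of_ne_zero hn, Complex.cpow_sub _ _ hn0,
    Complex.cpow_def_of_ne_zero hn0 ((y : ℂ) * Complex.I)]
  have e : Complex.log (n : ℂ) * ((y : ℂ) * Complex.I) = ((y * Real.log n : ℝ) : ℂ) * Complex.I := by
    rw [← Complex.natCast_log]; push_cast; ring
  rw [e, div_div_eq_mul_div, mul_div_right_comm]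

lemma term_weight {r : ℕ} (χ : DirichletCharacter ℂ r) (k : ℕ) {L : ℝ} (hL : 2 ≤ L) (n : ℕ)
    (hn : n ≠ 0) :
    (ArithmeticFunction.vonMangoldt n : ℂ) * χ (n : ZMod r) * (Om (Real.exp L) n : ℂ) =
      ((((Real.exp L) ^ (1 + 1 / L) / L ^ k : ℝ)) : ℂ) *
        (LSeries.term (fun n => ((Real.log n : ℝ) : ℂ) ^ (k + 1) * aL χ n)
          (((1 + 1 / L : ℝ)) : ℂ) n * gk L k (Real.log n - L)) := by
  have hn1 : (1 : ℝ) ≤ n := by exact_mod_cast Nat.one_le_iff_ne_zero.2 hn
  have hn0 : (0 : ℝ) < n := by linarith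
  have hL0 : 0 < L := by linarith
  have hlog : Real.log ((n : ℝ) / Real.exp L) = Real.log n - L := by
    rw [Real.log_div hn0.ne' (Real.exp_pos L).ne', Real.log_exp]
  rw [LSeries.term_of_ne_zero hn, aL_mul]
  unfold Om cX
  rw [hlog, Real.log_exp]
  rcases le_or_gt 1 |Real.log n - L| with h | h
  · rw [gk_eq_zero L k h, tri_of_abs_ge h]
    simp
  · have hb := base_pos hL h.le
    have hgk : gk L k (Real.log n - L) =
        ((tri (Real.log n - L) * ((Real.log n / L) ^ k)⁻¹ : ℝ) : ℂ) := by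
      unfold gk
      rw [max_eq_right hb]
      congr 4
      field_simp
      ring
    have hlogpos : 0 < Real.log n := by
      have := (abs_lt.1 h).1
      linarith
    rw [hgk]
    have e1 : (n : ℂ) ^ (((1 + 1 / L : ℝ)) : ℂ) = (((n : ℝ) ^ (1 + 1 / L) : ℝ) : ℂ) := by
      rw [Complex.ofReal_cpow hn0.le]; simp
    rw [e1]
    have e2 : (Real.exp L / n) ^ (1 + 1 / L) = (Real.exp L) ^ (1 + 1 / L) / (n : ℝ) ^ (1 + 1 / L) :=
      Real.div_rpow (Real.exp_pos L).le hn0.le _
    rw [e2]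
    have hnp : (0 : ℝ) < (n : ℝ) ^ (1 + 1 / L) := by positivity
    have e3 : (((Real.exp L) ^ (1 + 1 / L) / (n : ℝ) ^ (1 + 1 / L) * tri (Real.log n - L) : ℝ) : ℂ) =
        (((Real.exp L) ^ (1 + 1 / L) / L ^ k * ((Real.log n) ^ k / (n : ℝ) ^ (1 + 1 / L) *
          (tri (Real.log n - L) * ((Real.log n / L) ^ k)⁻¹)) : ℝ) : ℂ) := by
      congr 1
      rw [div_pow]
      field_simp
    rw [e3]
    generalize tri (Real.log n - L) * ((Real.log n / L) ^ k)⁻¹ = z
    push_cast
    ring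

/-- representation of `psiChi` as an integral -/
theorem psiChi_eq {r : ℕ} (χ : DirichletCharacter ℂ r) (k : ℕ) {L : ℝ} (hL : 2 ≤ L) :
    psiChi (Real.exp L) χ = ((((Real.exp L) ^ (1 + 1 / L) / L ^ k : ℝ)) : ℂ) *
      ∫ w : ℝ, Complex.exp (((2 * Real.pi * (w * (-L)) : ℝ) : ℂ) * Complex.I) * 𝓕 (gk L k) w *
        Fk χ k ((((1 + 1 / L : ℝ)) : ℂ) - ((2 * Real.pi * w : ℝ) : ℂ) * Complex.I) := by
  have hL0 : 0 < L := by linarith
  set c : ℂ := (((1 + 1 / L : ℝ)) : ℂ) with hc
  have hcre : 1 < c.re := by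
    rw [hc, Complex.ofReal_re]
    have : 0 < 1 / L := by positivity
    linarith
  set f : ℕ → ℂ := fun n => ((Real.log n : ℝ) : ℂ) ^ (k + 1) * aL χ n with hf
  set K : ℂ := ((((Real.exp L) ^ (1 + 1 / L) / L ^ k : ℝ)) : ℂ) with hK
  have hsum : Summable (fun n => LSeries.term f c n) := summable_Lj (norm_aL_le χ) (k + 1) hcre
  -- step 1
  have h1 : psiChi (Real.exp L) χ = ∑ n ∈ Finset.Icc 1 ⌊3 * Real.exp L⌋₊,
      K * (LSeries.term f c n * gk L k (Real.log n - L)) := by
    unfold psiChi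
    apply Finset.sum_congr rfl
    intro n hn
    exact term_weight χ k hL n (by have := (Finset.mem_Icc.1 hn).1; omega)
  have h2 : psiChi (Real.exp L) χ = ∑' n, K * (LSeries.term f c n * gk L k (Real.log n - L)) := by
    rw [h1]
    symm
    apply tsum_eq_sum
    intro n hn
    rcases eq_or_ne n 0 with rfl | hn0
    · simp
    have hn3 : 3 * Real.exp L < n := by
      rw [Finset.mem_Icc, not_and_or] at hn
      rcases hn with hn | hn
      · omega
      · rw [not_le] at hn
        exact (Nat.floor_lt (by positivity)).1 hn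
    have hgz : gk L k (Real.log n - L) = 0 := by
      apply gk_eq_zero
      have h3 : Real.log (3 * Real.exp L) ≤ Real.log n := Real.log_le_log (by positivity) hn3.le
      rw [Real.log_mul (by norm_num) (Real.exp_pos L).ne', Real.log_exp] at h3
      have h4 : 1 ≤ Real.log 3 := by
        rw [Real.le_log_iff_exp_le (by norm_num)]
        have := Real.exp_one_lt_d9
        linarith
      rw [abs_of_nonneg (by linarith)]
      linarith
    rw [hgz]
    simp
  -- step 2: Fourier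
  set F : ℕ → ℝ → ℂ := fun n w =>
    Complex.exp (((2 * Real.pi * (w * (-L)) : ℝ) : ℂ) * Complex.I) * 𝓕 (gk L k) w *
      LSeries.term f (c - ((2 * Real.pi * w : ℝ) : ℂ) * Complex.I) n with hF
  have hFeq : ∀ n w, F n w = LSeries.term f c n *
      (Complex.exp (((2 * Real.pi * (w * (Real.log n - L)) : ℝ) : ℂ) * Complex.I) *
        𝓕 (gk L k) w) := by
    intro n w
    rw [hF]
    simp only
    rw [term_shift]
    have : Complex.exp (((2 * Real.pi * (w * (Real.log n - L)) : ℝ) : ℂ) * Complex.I) =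
        Complex.exp (((2 * Real.pi * (w * (-L)) : ℝ) : ℂ) * Complex.I) *
        Complex.exp (((2 * Real.pi * w * Real.log n : ℝ) : ℂ) * Complex.I) := by
      rw [← Complex.exp_add]
      congr 1
      push_cast
      ring
    rw [this]
    ring
  have hFnorm : ∀ n w, ‖F n w‖ = ‖LSeries.term f c n‖ * ‖𝓕 (gk L k) w‖ := by
    intro n w
    rw [hFeq, norm_mul, norm_mul, Complex.norm_exp_ofReal_mul_I, one_mul]
  have hFint : ∀ n, Integrable (F n) := by
    intro n
    apply Integrable.mono' ((integrable_fourier_gk k hL).norm.const_mul ‖LSeries.term f c n‖)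
    · apply Continuous.aestronglyMeasurable
      have : F n = fun w => LSeries.term f c n *
        (Complex.exp (((2 * Real.pi * (w * (Real.log n - L)) : ℝ) : ℂ) * Complex.I) *
        𝓕 (gk L k) w) := funext (hFeq n)
      rw [this]
      have hcf := continuous_fourier_gk L k
      fun_prop
    · exact Eventually.of_forall (fun w => (hFnorm n w).le)
  have hFsum : Summable (fun n => ∫ w, ‖F n w‖) := by
    have : (fun n => ∫ w, ‖F n w‖) = fun n => ‖LSeries.term f c n‖ * ∫ w, ‖𝓕 (gk L k) w‖ := by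
      funext n
      rw [← integral_const_mul]
      exact integral_congr_ae (Eventually.of_forall (fun w => hFnorm n w))
    rw [this]
    exact hsum.norm.mul_right _
  have hHS := hasSum_integral_of_summable_integral_norm hFint hFsum
  have hint : ∀ n, ∫ w, F n w = LSeries.term f c n * gk L k (Real.log n - L) := by
    intro n
    rw [gk_inversion k hL (Real.log n - L), ← integral_const_mul]
    exact integral_congr_ae (Eventually.of_forall (fun w => hFeq n w))
  have htsum : ∀ w, ∑' n, F n w =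
      Complex.exp (((2 * Real.pi * (w * (-L)) : ℝ) : ℂ) * Complex.I) * 𝓕 (gk L k) w *
        Fk χ k (c - ((2 * Real.pi * w : ℝ) : ℂ) * Complex.I) := by
    intro w
    rw [hF]
    simp only
    rw [tsum_mul_left]
    rfl
  rw [h2, tsum_mul_left]
  congr 1
  have e1 : ∑' n, LSeries.term f c n * gk L k (Real.log n - L) = ∑' n, ∫ w, F n w :=
    tsum_congr (fun n => (hint n).symm)
  rw [e1, hHS.tsum_eq]
  exact integral_congr_ae (Eventually.of_forall (fun w => htsum w))

lemma integrable_J : Integrable (fun w : ℝ => (1 + w ^ 2) ^ (-(3 / 4) : ℝ)) := by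
  have h := integrable_rpow_neg_one_add_norm_sq (E := ℝ) (μ := volume) (r := 3 / 2)
    (by rw [Module.finrank_self]; norm_num)
  convert h using 2 with w
  rw [Real.norm_eq_abs, sq_abs]
  norm_num

end S

theorem small_conductors (A B : ℕ) : ∀ X0 : ℝ, ∃ X : ℝ, X0 ≤ X ∧
    ∀ r : ℕ, 2 ≤ r → (r : ℝ) ≤ (Real.log X) ^ B → ∀ χ : DirichletCharacter ℂ r,
      χ.IsPrimitive → ‖psiChi X χ‖ ≤ X / (Real.log X) ^ A := by
  intro X0
  set k : ℕ := A + 1 with hk
  set D : ℕ := 2 * (k + 2) with hD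
  obtain ⟨E, hE⟩ := Fk_bound B D (k + 1)
  obtain ⟨C, hC1, hC⟩ := Lj_trivial (k + 1)
  set J : ℝ := ∫ w : ℝ, (1 + w ^ 2) ^ (-(3 / 4) : ℝ) with hJ
  have hJ0 : 0 ≤ J := integral_nonneg (fun w => by positivity)
  have hMB := MB_pos k
  -- choose the scale
  have ev1 : ∀ᶠ m : ℕ in atTop, (m : ℝ) ^ E * Real.exp (-m) ≤
      1 / (2 * (Real.exp 1 * (2 * MB k) * Real.pi)) :=
    ev_exp_small E _ (by positivity)
  have ev2 : ∀ᶠ m : ℕ in atTop, (m : ℝ) ^ 0 * Real.exp (-m) ≤
      1 / (2 * (Real.exp 1 * (2 * MB k) * (3 * C * J) + 1)) :=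
    ev_exp_small 0 _ (by positivity)
  obtain ⟨m₀, hm₀⟩ := eventually_atTop.1 (hE.and (ev1.and (ev2.and
    ((eventually_ge_atTop 1).and (ev_const_le X0)))))
  obtain ⟨m, hmm₀, hgood⟩ := exists_good B m₀
  obtain ⟨hEm, h1, h2, hm1, hmX⟩ := hm₀ m hmm₀
  have hmr1 : (1 : ℝ) ≤ m := by exact_mod_cast hm1
  set L : ℝ := Real.exp m with hL
  have hL2 : 2 ≤ L := by
    have := Real.add_one_le_exp (m : ℝ)
    rw [hL]; linarith
  have hL0 : 0 < L := by linarith
  refine ⟨Real.exp L, ?_, ?_⟩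
  · have a1 := Real.add_one_le_exp (m : ℝ)
    have a2 := Real.add_one_le_exp L
    rw [hL] at a2 ⊢
    linarith
  intro r hr hrB χ hprim
  rw [Real.log_exp] at hrB ⊢
  have hrB' : (r : ℝ) ≤ Real.exp (B * m) := by
    rw [hL, ← Real.exp_nat_mul] at hrB
    exact hrB
  rw [psiChi_eq χ k hL2, norm_mul, Complex.norm_real, Real.norm_of_nonneg (by positivity)]
  have h1L : 1 / L = Real.exp (-(m : ℝ)) := by rw [hL, Real.exp_neg, one_div]
  -- pointwise bound
  have hpt : ∀ w : ℝ, ‖Complex.exp (((2 * Real.pi * (w * (-L)) : ℝ) : ℂ) * Complex.I) *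
      𝓕 (gk L k) w * Fk χ k ((((1 + 1 / L : ℝ)) : ℂ) - ((2 * Real.pi * w : ℝ) : ℂ) * Complex.I)‖ ≤
      2 * MB k * ((m : ℝ) ^ E * (1 + w ^ 2)⁻¹ + 3 * C * (1 + w ^ 2) ^ (-(3 / 4) : ℝ)) := by
    intro w
    rw [norm_mul, norm_mul, Complex.norm_exp_ofReal_mul_I, one_mul]
    have hw1 : (0 : ℝ) < 1 + w ^ 2 := by positivity
    have hFk : ‖Fk χ k ((((1 + 1 / L : ℝ)) : ℂ) - ((2 * Real.pi * w : ℝ) : ℂ) * Complex.I)‖ ≤
        (m : ℝ) ^ E + 3 * C * (1 + w ^ 2) ^ (1 / 4 : ℝ) := by
      rcases le_or_gt |2 * Real.pi * w| (Real.exp (D * m)) with hw | hw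
      · have h3 := hEm hgood r χ hr hrB' hprim (-(2 * Real.pi * w)) (by rwa [abs_neg]) k (by omega)
        have e : (((1 + 1 / L : ℝ)) : ℂ) - ((2 * Real.pi * w : ℝ) : ℂ) * Complex.I =
            ((1 + Real.exp (-m) : ℝ) : ℂ) + Complex.I * ((-(2 * Real.pi * w) : ℝ) : ℂ) := by
          rw [h1L]; push_cast; ring
        rw [e]
        refine h3.trans ?_
        have : 0 ≤ 3 * C * (1 + w ^ 2) ^ (1 / 4 : ℝ) := by positivity
        linarith
      · have hre : ((((1 + 1 / L : ℝ)) : ℂ) - ((2 * Real.pi * w : ℝ) : ℂ) * Complex.I).re =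
            1 + 1 / L := by
          rw [Complex.sub_re, Complex.ofReal_re, Complex.re_ofReal_mul, Complex.I_re]
          ring
        have hiL : 0 < 1 / L := by positivity
        have hiL1 : 1 / L ≤ 1 := by
          rw [div_le_one hL0]; linarith
        have h3 := hC (aL χ) (norm_aL_le χ)
          ((((1 + 1 / L : ℝ)) : ℂ) - ((2 * Real.pi * w : ℝ) : ℂ) * Complex.I)
          (by rw [hre]; linarith) (by rw [hre]; linarith)
        rw [hre] at h3
        have e1 : C / (1 + 1 / L - 1) ^ (k + 1 + 1) = C * L ^ (k + 2) := by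
          rw [add_sub_cancel_left, one_div, inv_pow, div_inv_eq_mul]
        rw [e1] at h3
        -- `L^(k+2) ≤ 3 (1+w^2)^(1/4)`
        have h4 : L ^ (k + 2) ≤ 3 * (1 + w ^ 2) ^ (1 / 4 : ℝ) := by
          have h5 : (L ^ (k + 2)) ^ 4 ≤ (3 * (1 + w ^ 2) ^ (1 / 4 : ℝ)) ^ 4 := by
            have e2 : (3 * (1 + w ^ 2) ^ (1 / 4 : ℝ)) ^ 4 = 81 * (1 + w ^ 2) := by
              rw [mul_pow, ← Real.rpow_natCast ((1 + w ^ 2) ^ (1 / 4 : ℝ)), ← Real.rpow_mul hw1.le]
              norm_num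
            have e3 : (L ^ (k + 2)) ^ 4 = (Real.exp (D * m)) ^ 2 := by
              rw [hL, ← Real.exp_nat_mul, ← Real.exp_nat_mul, ← Real.exp_nat_mul, hD]
              congr 1
              push_cast
              ring
            rw [e2, e3]
            have h6 : (Real.exp (D * m)) ^ 2 ≤ |2 * Real.pi * w| ^ 2 := by
              apply pow_le_pow_left₀ (Real.exp_pos _).le hw.le
            rw [sq_abs] at h6
            have h7 : Real.pi < 4 := Real.pi_lt_four
            have h8 : 0 < Real.pi := Real.pi_pos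
            have h9 : (2 * Real.pi * w) ^ 2 ≤ 64 * w ^ 2 := by
              have : (2 * Real.pi) ^ 2 ≤ 64 :=
                (pow_le_pow_left₀ (by linarith : 0 ≤ 2 * Real.pi)
                  (by linarith : 2 * Real.pi ≤ 8) 2).trans (by norm_num)
              have hw2 : 0 ≤ w ^ 2 := sq_nonneg w
              calc (2 * Real.pi * w) ^ 2 = (2 * Real.pi) ^ 2 * w ^ 2 := by ring
                _ ≤ 64 * w ^ 2 := by gcongr
            have hw2 : 0 ≤ w ^ 2 := sq_nonneg w
            linarith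
          exact le_of_pow_le_pow_left₀ (by norm_num) (by positivity) h5
        have hC0 : 0 ≤ C := by linarith
        calc ‖Fk χ k ((((1 + 1 / L : ℝ)) : ℂ) - ((2 * Real.pi * w : ℝ) : ℂ) * Complex.I)‖ ≤
              C * L ^ (k + 2) := h3
          _ ≤ C * (3 * (1 + w ^ 2) ^ (1 / 4 : ℝ)) := by gcongr
          _ = 3 * C * (1 + w ^ 2) ^ (1 / 4 : ℝ) := by ring
          _ ≤ _ := by
              have : (0 : ℝ) ≤ (m : ℝ) ^ E := by positivity
              linarith
    calc ‖𝓕 (gk L k) w‖ * ‖Fk χ k ((((1 + 1 / L : ℝ)) : ℂ) -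
          ((2 * Real.pi * w : ℝ) : ℂ) * Complex.I)‖ ≤
          (2 * MB k * (1 + w ^ 2)⁻¹) * ((m : ℝ) ^ E + 3 * C * (1 + w ^ 2) ^ (1 / 4 : ℝ)) :=
          mul_le_mul (norm_fourier_gk_le k hL2 w) hFk (norm_nonneg _) (by positivity)
      _ = _ := by
          have e4 : (1 + w ^ 2)⁻¹ * (1 + w ^ 2) ^ (1 / 4 : ℝ) = (1 + w ^ 2) ^ (-(3 / 4) : ℝ) := by
            rw [← Real.rpow_neg_one, ← Real.rpow_add hw1]
            norm_num
          rw [← e4]
          ring
  have hint : Integrable (fun w : ℝ => 2 * MB k * ((m : ℝ) ^ E * (1 + w ^ 2)⁻¹ +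
      3 * C * (1 + w ^ 2) ^ (-(3 / 4) : ℝ))) :=
    ((integrable_inv_one_add_sq.const_mul _).add (integrable_J.const_mul _)).const_mul _
  have hI := norm_integral_le_of_norm_le hint (Eventually.of_forall hpt)
  have hval : ∫ w : ℝ, 2 * MB k * ((m : ℝ) ^ E * (1 + w ^ 2)⁻¹ +
      3 * C * (1 + w ^ 2) ^ (-(3 / 4) : ℝ)) = 2 * MB k * ((m : ℝ) ^ E * Real.pi + 3 * C * J) := by
    rw [integral_const_mul, integral_add (integrable_inv_one_add_sq.const_mul _)
      (integrable_J.const_mul _), integral_const_mul, integral_const_mul,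
      integral_univ_inv_one_add_sq]
  rw [hval] at hI
  -- the final estimate
  have hXc : (Real.exp L) ^ (1 + 1 / L) = Real.exp L * Real.exp 1 := by
    rw [← Real.exp_mul, ← Real.exp_add]
    congr 1
    field_simp
  rw [hXc]
  have hLk : L ^ k = L ^ A * L := by rw [hk, pow_succ]
  have hfin : Real.exp 1 * (2 * MB k * ((m : ℝ) ^ E * Real.pi + 3 * C * J)) ≤ L := by
    have hexpm : Real.exp (-(m : ℝ)) * L = 1 := by
      rw [hL, ← Real.exp_add]; simp
    have hC0 : 0 ≤ C := by linarith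
    have a1 : Real.exp 1 * (2 * MB k) * Real.pi * (m : ℝ) ^ E ≤ L / 2 := by
      have : (m : ℝ) ^ E = (m : ℝ) ^ E * Real.exp (-(m : ℝ)) * L := by
        rw [mul_assoc, hexpm, mul_one]
      rw [this]
      calc Real.exp 1 * (2 * MB k) * Real.pi * ((m : ℝ) ^ E * Real.exp (-(m : ℝ)) * L) ≤
            Real.exp 1 * (2 * MB k) * Real.pi *
              (1 / (2 * (Real.exp 1 * (2 * MB k) * Real.pi)) * L) := by gcongr
        _ = L / 2 := by
            have hpi := Real.pi_pos
            field_simp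
    have a2 : Real.exp 1 * (2 * MB k) * (3 * C * J) ≤ L / 2 := by
      set Z : ℝ := Real.exp 1 * (2 * MB k) * (3 * C * J) with hZ
      have hZ0 : 0 ≤ Z := by positivity
      rw [pow_zero, one_mul] at h2
      have h3 : (Z + 1) * Real.exp (-(m : ℝ)) ≤ 1 / 2 := by
        calc (Z + 1) * Real.exp (-(m : ℝ)) ≤ (Z + 1) * (1 / (2 * (Z + 1))) := by gcongr
          _ = 1 / 2 := by field_simp
      have h4 : Z * Real.exp (-(m : ℝ)) ≤ 1 / 2 := by
        have := Real.exp_pos (-(m : ℝ))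
        rw [add_mul, one_mul] at h3
        linarith only [this, h3]
      calc Z = Z * Real.exp (-(m : ℝ)) * L := by rw [mul_assoc, hexpm, mul_one]
        _ ≤ 1 / 2 * L := by gcongr
        _ = L / 2 := by ring
    calc _ = Real.exp 1 * (2 * MB k) * Real.pi * (m : ℝ) ^ E +
          Real.exp 1 * (2 * MB k) * (3 * C * J) := by ring
      _ ≤ L / 2 + L / 2 := add_le_add a1 a2
      _ = L := by ring
  calc _ ≤ Real.exp L * Real.exp 1 / L ^ k * (2 * MB k * ((m : ℝ) ^ E * Real.pi + 3 * C * J)) := by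
        gcongr
    _ = Real.exp L / L ^ A * ((Real.exp 1 * (2 * MB k * ((m : ℝ) ^ E * Real.pi + 3 * C * J))) / L) := by
        rw [hLk]
        field_simp
    _ ≤ Real.exp L / L ^ A * 1 := by
        gcongr
        rw [div_le_one hL0]
        exact hfin
    _ = _ := mul_one _

end Pool.Agent.MP89da58
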