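import Mathlib

set_option autoImplicit false

/-!
Common definitions for MP_89da58_nt (syndetic difference sets in finite colourings of the primes).
-/

namespace Pool.Agent.MP89da58

open ArithmeticFunction

/-- The triangle function. -/
noncomputable def tri (u : ℝ) : ℝ := max 0 (1 - |u|)

/-- The exponent `c = 1 + 1 / log X`. -/
noncomputable def cX (X : ℝ) : ℝ := 1 + 1 / Real.log X

/-- The weight `Om X n = (X/n)^c * tri (log (n/X))`, which vanishes unless `X/e < n < e X`. -/
noncomputable def Om (X : ℝ) (n : ℕ) : ℝ := (X / n) ^ cX X * tri (Real.log (n / X))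

/-- The twisted sum `∑ Λ(n) χ(n) Om X n`. -/
noncomputable def psiChi (X : ℝ) {r : ℕ} (χ : DirichletCharacter ℂ r) : ℂ :=
  ∑ n ∈ Finset.Icc 1 ⌊3 * X⌋₊, (vonMangoldt n : ℂ) * χ (n : ZMod r) * (Om X n : ℂ)

/-- Sum of `‖psiChi X χ‖` over the primitive characters modulo `r`. -/
noncomputable def primSum (X : ℝ) (r : ℕ) : ℝ :=
  ∑ χ : DirichletCharacter ℂ r, Set.indicator {χ | χ.IsPrimitive} (fun χ => ‖psiChi X χ‖) χ

/-- Weighted count of primes (prime powers) in an arithmetic progression. -/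
noncomputable def psiAP (X : ℝ) (q a : ℕ) : ℝ :=
  ∑ n ∈ (Finset.Icc 1 ⌊3 * X⌋₊).filter (fun n => n ≡ a [MOD q]), vonMangoldt n * Om X n

/-- Weighted count of all primes (prime powers). -/
noncomputable def psiX (X : ℝ) : ℝ :=
  ∑ n ∈ Finset.Icc 1 ⌊3 * X⌋₊, vonMangoldt n * Om X n

end Pool.Agent.MP89da58
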