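import Mathlib
import Pool.Agent.Lib.MP_89da58_nt.Defs

set_option autoImplicit false

/-!
Separation of the variables in the weight `Om X (d * m)`, by writing the triangle function as a
convolution of two box functions, together with partial summation.
-/

namespace Pool.Agent.MP89da58

open Finset MeasureTheory

/-- the indicator function of the interval `[x-1, x]` -/
noncomputable def box (x s : ℝ) : ℝ := (Set.Icc (x - 1) x).indicator (fun _ => (1 : ℝ)) s

lemma box_nonneg (x s : ℝ) : 0 ≤ box x s := by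
  rw [box]
  exact Set.indicator_nonneg (fun _ _ => zero_le_one) _

lemma box_le_one (x s : ℝ) : box x s ≤ 1 := by
  rw [box]
  exact Set.indicator_le_self' (fun _ _ => zero_le_one) _

lemma box_of_mem {x s : ℝ} (h1 : x - 1 ≤ s) (h2 : s ≤ x) : box x s = 1 := by
  rw [box, Set.indicator_of_mem (Set.mem_Icc.mpr ⟨h1, h2⟩)]

lemma box_of_not {x s : ℝ} (h : ¬ (x - 1 ≤ s ∧ s ≤ x)) : box x s = 0 := by
  rw [box, Set.indicator_of_notMem]
  rwa [Set.mem_Icc]

lemma box_mul_box (x y s : ℝ) : box x s * box y s =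
    (Set.Icc (max (x - 1) (y - 1)) (min x y)).indicator (fun _ => (1 : ℝ)) s := by
  rw [← Set.Icc_inter_Icc, box, box, ← Set.inter_indicator_mul]
  simp

lemma integrable_box_mul (x y : ℝ) : Integrable (fun s => box x s * box y s) := by
  simp_rw [box_mul_box]
  rw [integrable_indicator_iff measurableSet_Icc]
  exact integrableOn_const (by simp) (by simp)

lemma integral_box_mul (x y : ℝ) : ∫ s, box x s * box y s = tri (x - y) := by
  simp_rw [box_mul_box]
  rw [integral_indicator measurableSet_Icc, setIntegral_const, smul_eq_mul, mul_one,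
    Real.volume_real_Icc, tri]
  rcases le_total x y with h | h
  · rw [max_eq_right (show x - 1 ≤ y - 1 by linarith), min_eq_left h,
      abs_of_nonpos (by linarith), max_comm]
    congr 1
    ring
  · rw [max_eq_left (show y - 1 ≤ x - 1 by linarith), min_eq_right h,
      abs_of_nonneg (by linarith), max_comm]
    congr 1
    ring

/-- the first factor -/
noncomputable def twA (X : ℝ) (N : ℕ) (α : ℕ → ℂ) (s : ℝ) : ℂ :=
  ∑ d ∈ Icc 1 N, α d * (((d : ℝ) ^ (-cX X) * box (Real.log (X / d)) s : ℝ) : ℂ)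

/-- the second factor -/
noncomputable def twB (X : ℝ) (N : ℕ) (β : ℕ → ℂ) (s : ℝ) : ℂ :=
  ∑ m ∈ Icc 1 N, β m * (((m : ℝ) ^ (-cX X) * box (Real.log m) s : ℝ) : ℂ)

lemma Om_mul {X : ℝ} (hX : 0 < X) {d m : ℕ} (hd : 0 < d) (hm : 0 < m) :
    Om X (d * m) = X ^ cX X * (((d : ℝ) ^ (-cX X)) * ((m : ℝ) ^ (-cX X)) *
      ∫ s, box (Real.log (X / d)) s * box (Real.log m) s) := by
  have hd' : (0 : ℝ) < d := by exact_mod_cast hd
  have hm' : (0 : ℝ) < m := by exact_mod_cast hm
  rw [integral_box_mul, Om]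
  push_cast
  have h1 : tri (Real.log (d * m / X)) = tri (Real.log (X / d) - Real.log m) := by
    rw [tri, tri, ← abs_neg]
    congr 3
    rw [Real.log_div (by positivity) (by positivity), Real.log_mul (by positivity) (by positivity),
      Real.log_div (by positivity) (by positivity)]
    ring
  rw [h1, Real.div_rpow hX.le (by positivity), Real.mul_rpow hd'.le hm'.le, Real.rpow_neg hd'.le,
    Real.rpow_neg hm'.le]
  field_simp

lemma bilinear_eq {X : ℝ} (hX : 0 < X) (N : ℕ) (α β : ℕ → ℂ) :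
    ∑ d ∈ Icc 1 N, ∑ m ∈ Icc 1 N, α d * β m * (Om X (d * m) : ℂ) =
      ((X ^ cX X : ℝ) : ℂ) * ∫ s, twA X N α s * twB X N β s := by
  have h1 : ∀ s, twA X N α s * twB X N β s = ∑ d ∈ Icc 1 N, ∑ m ∈ Icc 1 N,
      (α d * β m * (((d : ℝ) ^ (-cX X) * (m : ℝ) ^ (-cX X) : ℝ) : ℂ)) *
        ((box (Real.log (X / d)) s * box (Real.log m) s : ℝ) : ℂ) := by
    intro s
    rw [twA, twB, sum_mul_sum]
    apply sum_congr rfl
    intro d _
    apply sum_congr rfl
    intro m _
    push_cast
    ring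
  simp_rw [h1]
  have hint : ∀ d m : ℕ, Integrable fun s =>
      (α d * β m * (((d : ℝ) ^ (-cX X) * (m : ℝ) ^ (-cX X) : ℝ) : ℂ)) *
        ((box (Real.log (X / d)) s * box (Real.log m) s : ℝ) : ℂ) := by
    intro d m
    exact ((integrable_box_mul _ _).ofReal).const_mul _
  rw [integral_finsetSum _ (fun d _ => integrable_finsetSum _ fun m _ => hint d m), mul_sum]
  apply sum_congr rfl
  intro d hd
  rw [integral_finsetSum _ (fun m _ => hint d m), mul_sum]
  apply sum_congr rfl
  intro m hm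
  rw [mem_Icc] at hd hm
  rw [integral_const_mul, integral_complex_ofReal, Om_mul hX (by omega) (by omega)]
  push_cast
  ring

lemma integrable_tw {X : ℝ} (N : ℕ) (α β : ℕ → ℂ) :
    Integrable fun s => twA X N α s * twB X N β s := by
  have h1 : ∀ s, twA X N α s * twB X N β s = ∑ d ∈ Icc 1 N, ∑ m ∈ Icc 1 N,
      (α d * β m * (((d : ℝ) ^ (-cX X) * (m : ℝ) ^ (-cX X) : ℝ) : ℂ)) *
        ((box (Real.log (X / d)) s * box (Real.log m) s : ℝ) : ℂ) := by
    intro s
    rw [twA, twB, sum_mul_sum]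
    apply sum_congr rfl
    intro d _
    apply sum_congr rfl
    intro m _
    push_cast
    ring
  simp_rw [h1]
  exact integrable_finsetSum _ fun d _ => integrable_finsetSum _ fun m _ =>
    ((integrable_box_mul _ _).ofReal).const_mul _

lemma twA_eq_zero {X : ℝ} (hX : 0 < X) (N : ℕ) (α : ℕ → ℂ) {s : ℝ} (hs : Real.log X < s) :
    twA X N α s = 0 := by
  rw [twA]
  apply sum_eq_zero
  intro d hd
  rw [mem_Icc] at hd
  have hd' : (1 : ℝ) ≤ d := by exact_mod_cast hd.1
  have h1 : Real.log (X / d) ≤ Real.log X := by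
    rw [Real.log_div (by positivity) (by positivity)]
    have := Real.log_nonneg hd'
    linarith
  rw [box_of_not (by intro h; linarith [h.2])]
  simp

lemma twB_eq_zero {X : ℝ} (N : ℕ) (β : ℕ → ℂ) {s : ℝ} (hs : s < -1) :
    twB X N β s = 0 := by
  rw [twB]
  apply sum_eq_zero
  intro d hd
  rw [mem_Icc] at hd
  have hd' : (1 : ℝ) ≤ d := by exact_mod_cast hd.1
  have := Real.log_nonneg hd'
  rw [box_of_not (by intro h; linarith [h.1])]
  simp

/-- The main consequence of the separation of variables. -/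
lemma sum_norm_bilinear_le {X : ℝ} (hX : 1 ≤ X) (N : ℕ) {ι : Type*} (I : Finset ι)
    (α β : ι → ℕ → ℂ) {K : ℝ}
    (hK : ∀ s ∈ Set.Icc (-1 : ℝ) (Real.log X),
      ∑ i ∈ I, ‖twA X N (α i) s‖ * ‖twB X N (β i) s‖ ≤ K) :
    ∑ i ∈ I, ‖∑ d ∈ Icc 1 N, ∑ m ∈ Icc 1 N, α i d * β i m * (Om X (d * m) : ℂ)‖ ≤
      X ^ cX X * ((Real.log X + 1) * K) := by
  have hX0 : 0 < X := by linarith
  have hlog : 0 ≤ Real.log X := Real.log_nonneg hX
  have h1 : ∀ i ∈ I, ‖∑ d ∈ Icc 1 N, ∑ m ∈ Icc 1 N, α i d * β i m * (Om X (d * m) : ℂ)‖ ≤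
      X ^ cX X * ∫ s, ‖twA X N (α i) s‖ * ‖twB X N (β i) s‖ := by
    intro i _
    rw [bilinear_eq hX0, norm_mul, Complex.norm_real, Real.norm_of_nonneg (by positivity)]
    apply mul_le_mul_of_nonneg_left _ (by positivity)
    refine (norm_integral_le_integral_norm _).trans (le_of_eq ?_)
    simp_rw [norm_mul]
  refine (sum_le_sum h1).trans ?_
  rw [← mul_sum]
  apply mul_le_mul_of_nonneg_left _ (by positivity)
  have hint : ∀ i ∈ I, Integrable fun s => ‖twA X N (α i) s‖ * ‖twB X N (β i) s‖ := by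
    intro i _
    have := (integrable_tw (X := X) N (α i) (β i)).norm
    simp_rw [norm_mul] at this
    exact this
  rw [← integral_finsetSum _ hint]
  have h2 : ∫ s, (Set.Icc (-1 : ℝ) (Real.log X)).indicator (fun _ => K) s =
      (Real.log X + 1) * K := by
    rw [integral_indicator measurableSet_Icc, setIntegral_const, smul_eq_mul,
      Real.volume_real_Icc_of_le (by linarith)]
    ring
  rw [← h2]
  apply integral_mono (integrable_finsetSum _ hint)
  · rw [integrable_indicator_iff measurableSet_Icc]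
    exact integrableOn_const (by simp) (by simp)
  · intro s
    simp only
    by_cases hs : s ∈ Set.Icc (-1 : ℝ) (Real.log X)
    · rw [Set.indicator_of_mem hs]
      exact hK s hs
    · rw [Set.indicator_of_notMem hs]
      apply le_of_eq
      apply sum_eq_zero
      intro i _
      rw [Set.mem_Icc, not_and_or, not_le, not_le] at hs
      rcases hs with hs | hs
      · rw [twB_eq_zero N _ hs]; simp
      · rw [twA_eq_zero hX0 N _ hs]; simp

/-- partial summation with an antitone weight -/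
lemma norm_sum_mul_antitone_le (g : ℕ → ℂ) (f : ℕ → ℝ) (K : ℝ) (n : ℕ)
    (hK : ∀ k ≤ n, ‖∑ i ∈ range k, g i‖ ≤ K)
    (hf : ∀ i, i < n → f (i + 1) ≤ f i) (hf0 : 0 ≤ f n) :
    ‖∑ i ∈ range n, g i * (f i : ℂ)‖ ≤ K * f 0 := by
  have hK0 : 0 ≤ K := (norm_nonneg _).trans (hK 0 (Nat.zero_le _))
  have key : ∀ k ≤ n, ‖∑ i ∈ range k, g i * (f i : ℂ) - (∑ i ∈ range k, g i) * (f k : ℂ)‖ ≤
      K * (f 0 - f k) := by
    intro k
    induction k with
    | zero => intro _; simp
    | succ k ih =>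
      intro hk
      have h1 := ih (by omega)
      have h2 : ∑ i ∈ range (k + 1), g i * (f i : ℂ) -
          (∑ i ∈ range (k + 1), g i) * (f (k + 1) : ℂ) =
          (∑ i ∈ range k, g i * (f i : ℂ) - (∑ i ∈ range k, g i) * (f k : ℂ)) +
            (∑ i ∈ range (k + 1), g i) * ((f k - f (k + 1) : ℝ) : ℂ) := by
        rw [sum_range_succ, sum_range_succ]
        push_cast
        ring
      rw [h2]
      have h3 := hf k (by omega)
      calc _ ≤ ‖∑ i ∈ range k, g i * (f i : ℂ) - (∑ i ∈ range k, g i) * (f k : ℂ)‖ +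
            ‖(∑ i ∈ range (k + 1), g i) * ((f k - f (k + 1) : ℝ) : ℂ)‖ := norm_add_le _ _
        _ ≤ K * (f 0 - f k) + K * (f k - f (k + 1)) := by
            apply add_le_add h1
            rw [norm_mul, Complex.norm_real, Real.norm_of_nonneg (by linarith)]
            exact mul_le_mul_of_nonneg_right (hK (k + 1) hk) (by linarith)
        _ = K * (f 0 - f (k + 1)) := by ring
  have h1 := key n le_rfl
  have h2 : ∑ i ∈ range n, g i * (f i : ℂ) =
      (∑ i ∈ range n, g i * (f i : ℂ) - (∑ i ∈ range n, g i) * (f n : ℂ)) +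
        (∑ i ∈ range n, g i) * (f n : ℂ) := by ring
  rw [h2]
  calc _ ≤ ‖∑ i ∈ range n, g i * (f i : ℂ) - (∑ i ∈ range n, g i) * (f n : ℂ)‖ +
        ‖(∑ i ∈ range n, g i) * (f n : ℂ)‖ := norm_add_le _ _
    _ ≤ K * (f 0 - f n) + K * f n := by
        apply add_le_add h1
        rw [norm_mul, Complex.norm_real, Real.norm_of_nonneg hf0]
        exact mul_le_mul_of_nonneg_right (hK n le_rfl) hf0
    _ = K * f 0 := by ring

end Pool.Agent.MP89da58
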