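import Pool.Agent.Lib.MP_89da58_nt.Bv

set_option autoImplicit false

/-!
The weighted Bombieri-Vinogradov estimate, by Cauchy-Schwarz from the plain one.
-/

namespace Pool.Agent.MP89da58

open ArithmeticFunction Finset

theorem sum_omega_le (k N : ℕ) (hN : 1 ≤ N) :
    ∑ q ∈ (Icc 1 N).filter Squarefree, (k : ℝ) ^ q.primeFactors.card / q ≤
      (1 + Real.log N) ^ k := by
  classical
  have h1 : ∀ q ∈ (Icc 1 N).filter Squarefree, (k : ℝ) ^ q.primeFactors.card / q =
      ∑ f ∈ Nat.finMulAntidiag k q, ∏ i, (1 / (f i : ℝ)) := by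
    intro q hq
    obtain ⟨hq1, hq2⟩ := Finset.mem_filter.1 hq
    have hcard := Nat.card_finMulAntidiag_of_squarefree (d := k) hq2
    have h2 : ∀ f ∈ Nat.finMulAntidiag k q, ∏ i, (1 / (f i : ℝ)) = 1 / (q : ℝ) := by
      intro f hf
      have := (Nat.mem_finMulAntidiag.1 hf).1
      rw [Finset.prod_div_distrib, Finset.prod_const_one, ← this]
      push_cast
      rfl
    rw [Finset.sum_congr rfl h2, Finset.sum_const, hcard, nsmul_eq_mul]
    rw [cardDistinctFactors_apply]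
    push_cast
    rw [mul_one_div]
    rfl
  rw [Finset.sum_congr rfl h1]
  have h3 : (∑ q ∈ (Icc 1 N).filter Squarefree, ∑ f ∈ Nat.finMulAntidiag k q,
      ∏ i, (1 / (f i : ℝ))) ≤
      ∑ f ∈ Fintype.piFinset (fun _ : Fin k => Icc 1 N), ∏ i, (1 / (f i : ℝ)) := by
    rw [← Finset.sum_biUnion]
    · refine Finset.sum_le_sum_of_subset_of_nonneg ?_ ?_
      · intro f hf
        obtain ⟨q, hq, hf⟩ := Finset.mem_biUnion.1 hf
        obtain ⟨hq1, hq2⟩ := Finset.mem_filter.1 hq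
        obtain ⟨hq3, hq4⟩ := Finset.mem_Icc.1 hq1
        rw [Fintype.mem_piFinset]
        intro i
        have h4 := Nat.dvd_of_mem_finMulAntidiag hf i
        exact Finset.mem_Icc.2 ⟨Nat.pos_of_ne_zero (Nat.ne_zero_of_mem_finMulAntidiag hf i),
          (Nat.le_of_dvd (by omega) h4).trans hq4⟩
      · intro f _ _
        exact Finset.prod_nonneg fun i _ => by positivity
    · intro q _ q' _ hne
      rw [Function.onFun, Finset.disjoint_left]
      intro f hf hf'
      exact hne ((Nat.mem_finMulAntidiag.1 hf).1.symm.trans (Nat.mem_finMulAntidiag.1 hf').1)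
  refine h3.trans ?_
  rw [← Finset.prod_univ_sum (fun _ : Fin k => Icc 1 N) (fun _ n => 1 / (n : ℝ))]
  rw [Finset.prod_const, Finset.card_univ, Fintype.card_fin]
  apply pow_le_pow_left₀ (Finset.sum_nonneg fun n _ => by positivity)
  have h3 := harmonic_le_one_add_log N
  have h4 : ((harmonic N : ℚ) : ℝ) = ∑ m ∈ Icc 1 N, (m : ℝ)⁻¹ := by
    rw [harmonic_eq_sum_Icc]
    push_cast
    rfl
  rw [h4] at h3
  simpa [one_div] using h3

theorem card_modEq_le (N q a : ℕ) (hq : 0 < q) :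
    ((Icc 1 N).filter (fun n => n ≡ a [MOD q])).card ≤ N / q + 1 := by
  classical
  have h : ((Icc 1 N).filter (fun n => n ≡ a [MOD q])).card ≤ (Finset.range (N / q + 1)).card := by
    refine Finset.card_le_card_of_injOn (fun n => n / q) ?_ ?_
    · intro n hn
      simp only [Finset.coe_filter, Finset.mem_Icc, Set.mem_ofPred_eq] at hn
      simp only [Finset.coe_range, Set.mem_Iio]
      exact Nat.lt_succ_of_le (Nat.div_le_div_right hn.1.2)
    · intro n hn n' hn' heq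
      simp only [Finset.coe_filter, Finset.mem_Icc, Set.mem_ofPred_eq] at hn hn'
      have h1 : n % q = n' % q := hn.2.trans hn'.2.symm
      have h2 : n / q = n' / q := heq
      rw [← Nat.div_add_mod n q, ← Nat.div_add_mod n' q, h1, h2]
  rwa [Finset.card_range] at h

/-- the trivial bound -/
theorem trivial_le {X : ℝ} (hL : 4 ≤ Real.log X) (hX3 : 3 ≤ X) (q a : ℕ) (hq : 0 < q)
    (hqX : (q : ℝ) ≤ X ^ (1 / 50 : ℝ)) :
    |psiAP X q a - psiX X / (Nat.totient q : ℝ)| ≤ 112 * (Real.log X) ^ 2 * X / q := by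
  classical
  have hXpos : 0 < X := by linarith only [hX3]
  have hq' : (0 : ℝ) < q := by exact_mod_cast hq
  have hφ : (0 : ℝ) < Nat.totient q := by exact_mod_cast Nat.totient_pos.2 hq
  set L := Real.log X with hLdef
  have hlog3 : Real.log (3 * X) ≤ 2 * L := by
    rw [Real.log_mul (by norm_num) hXpos.ne']
    have := Real.log_le_log (by norm_num) hX3
    linarith
  have hqX' : (q : ℝ) ≤ X := by
    refine hqX.trans ?_
    calc X ^ (1 / 50 : ℝ) ≤ X ^ (1 : ℝ) :=
          Real.rpow_le_rpow_of_exponent_le (by linarith) (by norm_num)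
      _ = X := Real.rpow_one X
  have hΛ : ∀ n ∈ Icc 1 ⌊3 * X⌋₊, vonMangoldt n * Om X n ≤ 2 * L * 8 := by
    intro n hn
    obtain ⟨hn1, hn2⟩ := Finset.mem_Icc.1 hn
    have h1 : vonMangoldt n ≤ 2 * L := by
      refine vonMangoldt_le_log.trans (le_trans ?_ hlog3)
      apply Real.log_le_log (by exact_mod_cast hn1)
      exact (Nat.le_floor_iff (by positivity)).1 hn2
    exact mul_le_mul h1 (Om_le hXpos.le (by linarith) n) (Om_nonneg hXpos.le n) (by linarith)
  have hterm : ∀ n, 0 ≤ vonMangoldt n * Om X n := fun n =>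
    mul_nonneg vonMangoldt_nonneg (Om_nonneg hXpos.le n)
  have hN : ((⌊3 * X⌋₊ : ℕ) : ℝ) ≤ 3 * X := Nat.floor_le (by positivity)
  -- psiAP
  have h0 : 0 ≤ psiAP X q a := Finset.sum_nonneg fun n _ => hterm n
  have h1 : psiAP X q a ≤ 64 * L * X / q := by
    unfold psiAP
    refine (Finset.sum_le_sum fun n hn => hΛ n (Finset.mem_filter.1 hn).1).trans ?_
    rw [Finset.sum_const, nsmul_eq_mul]
    have h2 : ((((Icc 1 ⌊3 * X⌋₊).filter (fun n => n ≡ a [MOD q])).card : ℕ) : ℝ) ≤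
        4 * X / q := by
      have h3 := card_modEq_le ⌊3 * X⌋₊ q a hq
      have h4 : ((⌊3 * X⌋₊ / q + 1 : ℕ) : ℝ) ≤ 3 * X / q + 1 := by
        push_cast
        have : ((⌊3 * X⌋₊ / q : ℕ) : ℝ) ≤ (⌊3 * X⌋₊ : ℝ) / q := Nat.cast_div_le
        have := div_le_div_of_nonneg_right hN hq'.le
        linarith
      have h5 : (1 : ℝ) ≤ X / q := by
        rw [le_div_iff₀ hq', one_mul]; exact hqX'
      calc _ ≤ ((⌊3 * X⌋₊ / q + 1 : ℕ) : ℝ) := by exact_mod_cast h3
        _ ≤ 3 * X / q + 1 := h4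
        _ ≤ 3 * X / q + X / q := by linarith only [h5]
        _ = 4 * X / q := by ring
    calc _ ≤ 4 * X / q * (2 * L * 8) := by
          apply mul_le_mul_of_nonneg_right h2
          linarith
      _ = 64 * L * X / q := by ring
  -- psiX
  have h2 : 0 ≤ psiX X := Finset.sum_nonneg fun n _ => hterm n
  have h3 : psiX X ≤ 48 * L * X := by
    unfold psiX
    refine (Finset.sum_le_sum hΛ).trans ?_
    rw [Finset.sum_const, nsmul_eq_mul, Nat.card_Icc, Nat.add_sub_cancel]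
    calc _ ≤ 3 * X * (2 * L * 8) := by
          apply mul_le_mul_of_nonneg_right hN
          linarith
      _ = 48 * L * X := by ring
  have h4 : 1 / (Nat.totient q : ℝ) ≤ L / q := by
    refine (inv_totient_le q hq.ne').trans ?_
    apply div_le_div_of_nonneg_right _ hq'.le
    have hlogq : Real.log q ≤ 1 / 50 * L := by
      have := Real.log_le_log hq' hqX
      rwa [Real.log_rpow hXpos] at this
    have hlog2 : (0.69 : ℝ) < Real.log 2 := lt_trans (by norm_num) Real.log_two_gt_d9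
    have h5 : Real.log q / Real.log 2 ≤ 1 / 50 * L / 0.69 :=
      div_le_div₀ (by positivity) hlogq (by norm_num) hlog2.le
    have h6 : 1 / 50 * L / 0.69 ≤ 1 / 30 * L := by
      rw [div_le_iff₀ (by norm_num)]
      linarith only [hL]
    linarith only [hL, h5, h6]
  have h5 : psiX X / (Nat.totient q : ℝ) ≤ 48 * L ^ 2 * X / q := by
    calc psiX X / (Nat.totient q : ℝ) = psiX X * (1 / (Nat.totient q : ℝ)) := by ring
      _ ≤ 48 * L * X * (L / q) := mul_le_mul h3 h4 (by positivity) (by positivity)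
      _ = _ := by ring
  have h6 : 0 ≤ psiX X / (Nat.totient q : ℝ) := div_nonneg h2 hφ.le
  have h7 : 64 * L * X / q ≤ 64 * L ^ 2 * X / q := by
    apply div_le_div_of_nonneg_right _ hq'.le
    nlinarith only [hL, hX3, h2, h3]
  have h8 : 0 ≤ 64 * L ^ 2 * X / q := by positivity
  have h9 : 0 ≤ 48 * L ^ 2 * X / q := by positivity
  have h10 : 112 * L ^ 2 * X / q = 64 * L ^ 2 * X / q + 48 * L ^ 2 * X / q := by ring
  rw [h10, abs_le]
  constructor <;> linarith only [h0, h1, h5, h7, h6]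

open Filter in
/-- the weighted estimate from the plain one -/
theorem bv_weighted_of
    (hbv : ∀ A : ℕ, ∀ X0 : ℝ, ∃ X : ℝ, X0 ≤ X ∧ ∀ a : ℕ → ℕ, (∀ q, (a q).Coprime q) →
      ∑ q ∈ Finset.Icc 1 ⌊X ^ (1 / 50 : ℝ)⌋₊,
        |psiAP X q (a q) - psiX X / (Nat.totient q : ℝ)| ≤ X / (Real.log X) ^ A)
    (b W : ℕ) (hW : 0 < W) (A : ℕ) : ∀ X0 : ℝ, ∃ X : ℝ, X0 ≤ X ∧
    ∀ a : ℕ → ℕ, (∀ q, (a q).Coprime (W * q)) →
    ∑ q ∈ (Finset.Icc 1 ⌊X ^ (1 / 60 : ℝ)⌋₊).filter Squarefree,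
      (b : ℝ) ^ (q.primeFactors.card) *
        |psiAP X (W * q) (a q) - psiX X / (Nat.totient (W * q) : ℝ)|
      ≤ X / (Real.log X) ^ A := by
  classical
  intro X0
  have hWlim : ∀ᶠ X : ℝ in atTop, (W : ℝ) ≤ X ^ (1 / 300 : ℝ) :=
    (tendsto_rpow_atTop (by norm_num)).eventually_ge_atTop _
  obtain ⟨X1, hX1⟩ := eventually_atTop.1 hWlim
  obtain ⟨X, hXm, hX⟩ := hbv (2 * A + b ^ 2 + 3) (max X0 (max X1 (Real.exp 112)))
  have hXX0 : X0 ≤ X := le_trans (le_max_left _ _) hXm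
  have hXX1 : X1 ≤ X := le_trans (le_trans (le_max_left _ _) (le_max_right _ _)) hXm
  have hXe : Real.exp 112 ≤ X := le_trans (le_trans (le_max_right _ _) (le_max_right _ _)) hXm
  have hXpos : 0 < X := lt_of_lt_of_le (Real.exp_pos 112) hXe
  have hL112 : 112 ≤ Real.log X := by
    rw [Real.le_log_iff_exp_le hXpos]; exact hXe
  have hX3 : 3 ≤ X := by
    have := Real.add_one_le_exp (112 : ℝ)
    linarith
  set L := Real.log X with hLdef
  have hLpos : 0 < L := by linarith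
  refine ⟨X, hXX0, fun a ha => ?_⟩
  set N := ⌊X ^ (1 / 60 : ℝ)⌋₊ with hN
  have hXp : 0 ≤ X ^ (1 / 60 : ℝ) := Real.rpow_nonneg hXpos.le _
  have hN1 : 1 ≤ N := Nat.le_floor (by
    push_cast
    exact Real.one_le_rpow (by linarith only [hX3]) (by norm_num))
  have hNle : (N : ℝ) ≤ X ^ (1 / 60 : ℝ) := Nat.floor_le hXp
  have hNpos : (0 : ℝ) < N := by exact_mod_cast hN1
  have hlogN : Real.log N ≤ 1 / 60 * L := by
    have := Real.log_le_log hNpos hNle
    rwa [Real.log_rpow hXpos] at this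
  have hlogN0 : 0 ≤ Real.log N := Real.log_nonneg (by exact_mod_cast hN1)
  have hWN : ∀ q ≤ N, ((W * q : ℕ) : ℝ) ≤ X ^ (1 / 50 : ℝ) := by
    intro q hq
    push_cast
    have h1 : X ^ (1 / 50 : ℝ) = X ^ (1 / 300 : ℝ) * X ^ (1 / 60 : ℝ) := by
      rw [← Real.rpow_add hXpos]; norm_num
    rw [h1]
    have h2 : (q : ℝ) ≤ X ^ (1 / 60 : ℝ) := le_trans (by exact_mod_cast hq) hNle
    exact mul_le_mul (hX1 X hXX1) h2 (Nat.cast_nonneg _) (Real.rpow_nonneg hXpos.le _)
  set E : ℕ → ℝ := fun q => |psiAP X (W * q) (a q) - psiX X / (Nat.totient (W * q) : ℝ)| with hE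
  have hE0 : ∀ q, 0 ≤ E q := fun q => abs_nonneg _
  -- the unweighted sum
  have hsum1 : ∑ q ∈ (Icc 1 N).filter Squarefree, E q ≤ X / L ^ (2 * A + b ^ 2 + 3) := by
    let a' : ℕ → ℕ := fun Q => if W ∣ Q then a (Q / W) else 1
    have ha' : ∀ Q, (a' Q).Coprime Q := by
      intro Q
      by_cases h : W ∣ Q
      · simp only [a', h, if_true]
        have := ha (Q / W)
        rwa [Nat.mul_div_cancel' h] at this
      · simp only [a', h, if_false]
        exact Nat.coprime_one_left Q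
    refine le_trans ?_ (hX a' ha')
    have hinj : Set.InjOn (fun q => W * q) ((Icc 1 N).filter Squarefree : Finset ℕ) :=
      fun q _ q' _ h => Nat.eq_of_mul_eq_mul_left hW h
    have h1 : ∑ q ∈ (Icc 1 N).filter Squarefree, E q =
        ∑ Q ∈ ((Icc 1 N).filter Squarefree).image (fun q => W * q),
          |psiAP X Q (a' Q) - psiX X / (Nat.totient Q : ℝ)| := by
      rw [Finset.sum_image hinj]
      refine Finset.sum_congr rfl fun q _ => ?_
      simp only [hE, a', dvd_mul_right, if_true, Nat.mul_div_cancel_left q hW]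
    rw [h1]
    refine Finset.sum_le_sum_of_subset_of_nonneg ?_ fun _ _ _ => abs_nonneg _
    intro Q hQ
    obtain ⟨q, hq, rfl⟩ := Finset.mem_image.1 hQ
    obtain ⟨hq1, hq2⟩ := Finset.mem_Icc.1 (Finset.mem_filter.1 hq).1
    exact Finset.mem_Icc.2 ⟨Nat.mul_pos hW hq1, Nat.le_floor (hWN q hq2)⟩
  -- the weighted trivial bound
  have hsum2 : ∑ q ∈ (Icc 1 N).filter Squarefree, ((b : ℝ) ^ q.primeFactors.card) ^ 2 * E q ≤
      112 * L ^ 2 * X * L ^ (b ^ 2) := by
    have h1 : ∀ q ∈ (Icc 1 N).filter Squarefree, ((b : ℝ) ^ q.primeFactors.card) ^ 2 * E q ≤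
        112 * L ^ 2 * X * (((b ^ 2 : ℕ) : ℝ) ^ q.primeFactors.card / q) := by
      intro q hq
      obtain ⟨hq1, hq2⟩ := Finset.mem_Icc.1 (Finset.mem_filter.1 hq).1
      have hq' : (0 : ℝ) < q := by exact_mod_cast hq1
      have h2 := trivial_le (X := X) (by linarith only [hL112]) hX3 (W * q) (a q) (Nat.mul_pos hW hq1)
        (hWN q hq2)
      have h3 : E q ≤ 112 * L ^ 2 * X / q := by
        refine h2.trans ?_
        apply div_le_div_of_nonneg_left (by positivity) hq'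
        push_cast
        have : (1 : ℝ) ≤ W := by exact_mod_cast hW
        nlinarith only [this]
      calc ((b : ℝ) ^ q.primeFactors.card) ^ 2 * E q
          ≤ ((b : ℝ) ^ q.primeFactors.card) ^ 2 * (112 * L ^ 2 * X / q) :=
            mul_le_mul_of_nonneg_left h3 (by positivity)
        _ = _ := by
            push_cast
            rw [← pow_mul, ← pow_mul, mul_comm 2]
            ring
    refine (Finset.sum_le_sum h1).trans ?_
    rw [← Finset.mul_sum]
    apply mul_le_mul_of_nonneg_left _ (by positivity)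
    refine (sum_omega_le (b ^ 2) N hN1).trans ?_
    exact pow_le_pow_left₀ (by linarith only [hlogN0]) (by linarith only [hL112, hlogN]) _
  -- Cauchy-Schwarz
  have hCS := Finset.sum_mul_sq_le_sq_mul_sq ((Icc 1 N).filter Squarefree)
    (fun q => (b : ℝ) ^ q.primeFactors.card * Real.sqrt (E q)) (fun q => Real.sqrt (E q))
  have h1 : ∑ q ∈ (Icc 1 N).filter Squarefree,
      ((b : ℝ) ^ q.primeFactors.card * Real.sqrt (E q)) * Real.sqrt (E q) =
      ∑ q ∈ (Icc 1 N).filter Squarefree, (b : ℝ) ^ q.primeFactors.card * E q := by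
    refine Finset.sum_congr rfl fun q _ => ?_
    rw [mul_assoc, Real.mul_self_sqrt (hE0 q)]
  have h2 : ∑ q ∈ (Icc 1 N).filter Squarefree,
      ((b : ℝ) ^ q.primeFactors.card * Real.sqrt (E q)) ^ 2 =
      ∑ q ∈ (Icc 1 N).filter Squarefree, ((b : ℝ) ^ q.primeFactors.card) ^ 2 * E q := by
    refine Finset.sum_congr rfl fun q _ => ?_
    rw [mul_pow, Real.sq_sqrt (hE0 q)]
  have h3 : ∑ q ∈ (Icc 1 N).filter Squarefree, Real.sqrt (E q) ^ 2 =
      ∑ q ∈ (Icc 1 N).filter Squarefree, E q :=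
    Finset.sum_congr rfl fun q _ => Real.sq_sqrt (hE0 q)
  rw [h1, h2, h3] at hCS
  have h4 : (∑ q ∈ (Icc 1 N).filter Squarefree, ((b : ℝ) ^ q.primeFactors.card) ^ 2 * E q) *
      (∑ q ∈ (Icc 1 N).filter Squarefree, E q) ≤
      112 * L ^ 2 * X * L ^ (b ^ 2) * (X / L ^ (2 * A + b ^ 2 + 3)) :=
    mul_le_mul hsum2 hsum1 (Finset.sum_nonneg fun q _ => hE0 q) (by positivity)
  have h5 : 112 * L ^ 2 * X * L ^ (b ^ 2) * (X / L ^ (2 * A + b ^ 2 + 3)) ≤
      (X / L ^ A) ^ 2 := by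
    have h6 : L ^ (2 * A + b ^ 2 + 3) = L ^ A * L ^ A * L ^ (b ^ 2) * L ^ 2 * L := by
      ring
    rw [h6]
    have h7 : 112 * L ^ 2 * X * L ^ (b ^ 2) *
        (X / (L ^ A * L ^ A * L ^ (b ^ 2) * L ^ 2 * L)) = 112 / L * (X / L ^ A) ^ 2 := by
      field_simp
    rw [h7]
    have h8 : 112 / L ≤ 1 := by
      rw [div_le_one hLpos]; exact hL112
    have h9 : 0 ≤ (X / L ^ A) ^ 2 := sq_nonneg _
    nlinarith only [h8]
  have h6 : (∑ q ∈ (Icc 1 N).filter Squarefree, (b : ℝ) ^ q.primeFactors.card * E q) ^ 2 ≤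
      (X / L ^ A) ^ 2 := hCS.trans (h4.trans h5)
  exact le_of_sq_le_sq h6 (by positivity)

end Pool.Agent.MP89da58
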