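import Mathlib

set_option autoImplicit false

/-!
Further common definitions: the output of the sieve, the one-dimensional data, divisibility
patterns.
-/

namespace Pool.Agent.MP89da58

/-- The output of the sieve. -/
def SieveMain : Prop :=
  ∃ c1 C2 : ℝ, 0 < c1 ∧ 0 < C2 ∧
    ∀ (ι : Type) [Fintype ι] [DecidableEq ι] (m : ℕ), 1 ≤ m → 2 ^ m ≤ Fintype.card ι →
    ∀ h : ι → ℕ, Function.Injective h →
    (∀ i, ∀ p : ℕ, p.Prime → p ≤ Fintype.card ι → p ∣ h i) →
    ∃ (s : Finset ℕ) (w : ℕ → ℝ) (U : ℝ), (∀ n, 0 ≤ w n) ∧ 0 < U ∧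
      (∑ n ∈ s, w n ≤ U) ∧
      (∀ i, c1 * ((m : ℝ) / Fintype.card ι) * U ≤
        ∑ n ∈ s, Set.indicator {n : ℕ | (n + h i).Prime} w n) ∧
      (∀ i k, i ≠ k → ∑ n ∈ s, Set.indicator {n : ℕ | (n + h i).Prime ∧ (n + h k).Prime} w n ≤
        C2 * ((m : ℝ) / Fintype.card ι) ^ 2 * U)

/-- The primes in `(D, R]`. -/
abbrev PJ (D R : ℕ) : Type := {p : ℕ // p ∈ (Finset.Ioc D R).filter Nat.Prime}

/-- `κ = ∏_{p ≤ D} (1 - 1/p)`. -/
noncomputable def kapD (D : ℕ) : ℝ := ∏ p ∈ (Finset.Icc 1 D).filter Nat.Prime, (1 - 1 / (p : ℝ))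

section N

variable {ι : Type} [Fintype ι] [DecidableEq ι] {J : Type} [Fintype J] [DecidableEq J]

/-- `n` satisfies all the divisibilities prescribed by `α`. -/
def dv (p : J → ℕ) (h : ι → ℕ) (n : ℕ) (α : J → Option ι) : Prop :=
  ∀ j l, α j = some l → p j ∣ n + h l

open Classical in
/-- The sieve sum at `n`. -/
noncomputable def ZZ (p : J → ℕ) (h : ι → ℕ) (lam : (J → Option ι) → ℝ) (n : ℕ) : ℝ :=
  ∑ α : J → Option ι, if dv p h n α then lam α else 0

/-- Join of two assignments (meaningful if they are compatible). -/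
def join (α β : J → Option ι) : J → Option ι := fun j => (α j).orElse fun _ => β j

/-- Compatibility of two assignments. -/
def compat (α β : J → Option ι) : Prop := ∀ j, α j = none ∨ β j = none ∨ α j = β j

end N

end Pool.Agent.MP89da58
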