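import Mathlib

set_option autoImplicit false

/-!
Elementary arithmetic estimates used in the treatment of the large conductors:
divisor sums, a lower bound for the totient function and Vaughan's identity.
-/

namespace Pool.Agent.MP89da58

open Finset ArithmeticFunction

lemma sum_dA {M : Type*} [AddCommMonoid M] (F : ℕ → ℕ → M) (N : ℕ) :
    ∑ n ∈ Icc 1 N, ∑ x ∈ n.divisorsAntidiagonal, F x.1 x.2 =
      ∑ d ∈ Icc 1 N, ∑ m ∈ Icc 1 N, if d * m ≤ N then F d m else 0 := by
  have h0 : ∀ n ∈ Icc 1 N, ∑ x ∈ n.divisorsAntidiagonal, F x.1 x.2 =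
      ∑ x ∈ Icc 1 N ×ˢ Icc 1 N, if x.1 * x.2 = n then F x.1 x.2 else 0 := by
    intro n hn
    rw [mem_Icc] at hn
    rw [Nat.divisorsAntidiagonal_eq_prod_filter_of_le (by omega) hn.2, sum_filter]
    rfl
  rw [sum_congr rfl h0, sum_comm, sum_product]
  apply sum_congr rfl
  intro d hd
  apply sum_congr rfl
  intro m hm
  rw [mem_Icc] at hd hm
  rw [sum_ite_eq]
  have : 1 ≤ d * m := Nat.mul_pos hd.1 hm.1
  simp [this]

lemma sum_inv_le (n : ℕ) : ∑ i ∈ Icc 1 n, (i : ℝ)⁻¹ ≤ 1 + Real.log n := by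
  have h := harmonic_le_one_add_log n
  rw [harmonic_eq_sum_Icc] at h
  push_cast at h
  exact h

lemma sum_inv_nonneg (n : ℕ) : 0 ≤ ∑ i ∈ Icc 1 n, (i : ℝ)⁻¹ :=
  sum_nonneg fun _ _ => by positivity

lemma card_divisors_eq_sum (n : ℕ) : ((n.divisors.card : ℝ)) =
    ∑ _x ∈ n.divisorsAntidiagonal, (1 : ℝ) := by
  rw [sum_const, ← Nat.map_div_right_divisors, card_map]
  simp

lemma card_divisors_mul_le (a b : ℕ) :
    (a * b).divisors.card ≤ a.divisors.card * b.divisors.card := by
  classical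
  rw [Nat.divisors_mul]
  exact Finset.card_mul_le

lemma sum_tau (N : ℕ) : ∑ n ∈ Icc 1 N, ((n.divisors.card : ℝ)) ≤ N * (1 + Real.log N) := by
  rw [sum_congr rfl fun n _ => card_divisors_eq_sum n, sum_dA (fun _ _ => (1 : ℝ))]
  calc ∑ d ∈ Icc 1 N, ∑ m ∈ Icc 1 N, (if d * m ≤ N then (1 : ℝ) else 0)
      ≤ ∑ d ∈ Icc 1 N, N * (d : ℝ)⁻¹ := by
        apply sum_le_sum
        intro d hd
        rw [mem_Icc] at hd
        rw [← sum_filter, sum_const, nsmul_eq_mul, mul_one]
        have h1 : ((Icc 1 N).filter fun m => d * m ≤ N) ⊆ Icc 1 (N / d) := by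
          intro m hm
          rw [mem_filter, mem_Icc] at hm
          rw [mem_Icc]
          refine ⟨hm.1.1, ?_⟩
          rw [Nat.le_div_iff_mul_le hd.1]
          linarith [hm.2, mul_comm d m]
        have h2 := card_le_card h1
        rw [Nat.card_Icc, Nat.add_sub_cancel] at h2
        have h3 : ((N / d : ℕ) : ℝ) ≤ N / d := Nat.cast_div_le
        rw [← div_eq_mul_inv]
        exact le_trans (by exact_mod_cast h2) h3
    _ = N * ∑ d ∈ Icc 1 N, (d : ℝ)⁻¹ := by rw [mul_sum]
    _ ≤ N * (1 + Real.log N) := mul_le_mul_of_nonneg_left (sum_inv_le N) (Nat.cast_nonneg _)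

lemma sum_tau_div (N : ℕ) :
    ∑ n ∈ Icc 1 N, (n.divisors.card : ℝ) * (n : ℝ)⁻¹ ≤ (1 + Real.log N) ^ 2 := by
  have h0 : ∀ n ∈ Icc 1 N, (n.divisors.card : ℝ) * (n : ℝ)⁻¹ =
      ∑ x ∈ n.divisorsAntidiagonal, (x.1 : ℝ)⁻¹ * (x.2 : ℝ)⁻¹ := by
    intro n _
    rw [card_divisors_eq_sum, sum_mul]
    apply sum_congr rfl
    intro x hx
    rw [Nat.mem_divisorsAntidiagonal] at hx
    rw [← hx.1, Nat.cast_mul, mul_inv, one_mul]
  rw [sum_congr rfl h0, sum_dA (fun a b : ℕ => (a : ℝ)⁻¹ * (b : ℝ)⁻¹)]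
  calc ∑ d ∈ Icc 1 N, ∑ m ∈ Icc 1 N, (if d * m ≤ N then (d : ℝ)⁻¹ * (m : ℝ)⁻¹ else 0)
      ≤ ∑ d ∈ Icc 1 N, ∑ m ∈ Icc 1 N, (d : ℝ)⁻¹ * (m : ℝ)⁻¹ := by
        apply sum_le_sum
        intro d _
        apply sum_le_sum
        intro m _
        split_ifs
        · exact le_rfl
        · positivity
    _ = (∑ d ∈ Icc 1 N, (d : ℝ)⁻¹) ^ 2 := by rw [pow_two, sum_mul_sum]
    _ ≤ (1 + Real.log N) ^ 2 := pow_le_pow_left₀ (sum_inv_nonneg N) (sum_inv_le N) 2

lemma sum_tau_sq (N : ℕ) :
    ∑ n ∈ Icc 1 N, ((n.divisors.card : ℝ)) ^ 2 ≤ N * (1 + Real.log N) ^ 3 := by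
  have hlog : 0 ≤ Real.log N := Real.log_natCast_nonneg N
  calc ∑ n ∈ Icc 1 N, ((n.divisors.card : ℝ)) ^ 2
      ≤ ∑ n ∈ Icc 1 N, ∑ x ∈ n.divisorsAntidiagonal,
          (x.1.divisors.card : ℝ) * (x.2.divisors.card : ℝ) := by
        apply sum_le_sum
        intro n _
        rw [pow_two]
        nth_rw 2 [card_divisors_eq_sum]
        rw [mul_sum]
        apply sum_le_sum
        intro x hx
        rw [Nat.mem_divisorsAntidiagonal] at hx
        rw [← hx.1, mul_one]
        exact_mod_cast card_divisors_mul_le x.1 x.2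
    _ = ∑ d ∈ Icc 1 N, ∑ m ∈ Icc 1 N,
          (if d * m ≤ N then (d.divisors.card : ℝ) * (m.divisors.card : ℝ) else 0) :=
        sum_dA (fun a b : ℕ => (a.divisors.card : ℝ) * (b.divisors.card : ℝ)) N
    _ ≤ ∑ d ∈ Icc 1 N, (d.divisors.card : ℝ) * ((N : ℝ) * (d : ℝ)⁻¹ * (1 + Real.log N)) := by
        apply sum_le_sum
        intro d hd
        rw [mem_Icc] at hd
        rw [← sum_filter, ← mul_sum]
        apply mul_le_mul_of_nonneg_left _ (Nat.cast_nonneg _)
        have h1 : ((Icc 1 N).filter fun m => d * m ≤ N) ⊆ Icc 1 (N / d) := by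
          intro m hm
          rw [mem_filter, mem_Icc] at hm
          rw [mem_Icc]
          refine ⟨hm.1.1, ?_⟩
          rw [Nat.le_div_iff_mul_le hd.1]
          linarith [hm.2, mul_comm d m]
        have h3 : ((N / d : ℕ) : ℝ) ≤ N / d := Nat.cast_div_le
        have h4 : Real.log ((N / d : ℕ) : ℝ) ≤ Real.log N := by
          by_cases h5 : N / d = 0
          · rw [h5]; simp [hlog]
          · apply Real.log_le_log
            · exact_mod_cast Nat.pos_of_ne_zero h5
            · exact_mod_cast Nat.div_le_self N d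
        calc ∑ m ∈ (Icc 1 N).filter (fun m => d * m ≤ N), (m.divisors.card : ℝ)
            ≤ ∑ m ∈ Icc 1 (N / d), (m.divisors.card : ℝ) :=
              sum_le_sum_of_subset_of_nonneg h1 fun _ _ _ => Nat.cast_nonneg _
          _ ≤ ((N / d : ℕ) : ℝ) * (1 + Real.log ((N / d : ℕ) : ℝ)) := sum_tau _
          _ ≤ (N : ℝ) * (d : ℝ)⁻¹ * (1 + Real.log N) := by
              rw [← div_eq_mul_inv]
              apply mul_le_mul h3 (by linarith) _ (by positivity)
              have := Real.log_natCast_nonneg (N / d)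
              linarith
    _ = N * (1 + Real.log N) * ∑ d ∈ Icc 1 N, (d.divisors.card : ℝ) * (d : ℝ)⁻¹ := by
        rw [mul_sum]
        apply sum_congr rfl
        intro d _
        ring
    _ ≤ N * (1 + Real.log N) * (1 + Real.log N) ^ 2 :=
        mul_le_mul_of_nonneg_left (sum_tau_div N) (by positivity)
    _ = N * (1 + Real.log N) ^ 3 := by ring

/-- lower bound for the totient function -/
lemma le_two_mul_totient_sq (n : ℕ) : n ≤ 2 * n.totient ^ 2 := by
  have key : ∀ n : ℕ, 1 ≤ n → n ≤ (if 2 ∣ n then 2 else 1) * n.totient ^ 2 := by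
    intro n
    induction n using Nat.recOnPosPrimePosCoprime with
    | zero => intro h; omega
    | one => intro _; simp
    | prime_pow p k hp hk =>
      intro _
      obtain ⟨k, rfl⟩ : ∃ j, k = j + 1 := ⟨k - 1, by omega⟩
      rw [Nat.totient_prime_pow_succ hp]
      by_cases h2 : p = 2
      · subst h2
        have : 2 ∣ 2 ^ (k + 1) := dvd_pow_self 2 (by omega)
        rw [if_pos this]
        simp only [Nat.add_one_sub_one, mul_one]
        rw [pow_succ, mul_comm]
        apply Nat.mul_le_mul_left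
        rw [← pow_mul]
        exact Nat.pow_le_pow_right (by norm_num) (by omega)
      · have hp3 : 3 ≤ p := by
          have := hp.two_le
          omega
        have h3 : p ≤ (p - 1) ^ 2 := by
          obtain ⟨q, rfl⟩ : ∃ q, p = q + 1 := ⟨p - 1, by omega⟩
          simp only [Nat.add_sub_cancel]
          nlinarith
        have h4 : p ^ (k + 1) ≤ (p ^ k * (p - 1)) ^ 2 := by
          rw [mul_pow, pow_succ]
          apply Nat.mul_le_mul _ h3
          rw [← pow_mul]
          exact Nat.pow_le_pow_right (by omega) (by omega)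
        refine h4.trans ?_
        split_ifs
        · omega
        · omega
    | coprime a b ha hb hab iha ihb =>
      intro _
      rw [Nat.totient_mul hab]
      have h1 := iha (by omega)
      have h2 := ihb (by omega)
      have h3 := Nat.mul_le_mul h1 h2
      refine h3.trans ?_
      rw [show (if 2 ∣ a then 2 else 1) * a.totient ^ 2 * ((if 2 ∣ b then 2 else 1) *
        b.totient ^ 2) = ((if 2 ∣ a then 2 else 1) * (if 2 ∣ b then 2 else 1)) *
          (a.totient * b.totient) ^ 2 by ring]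
      apply Nat.mul_le_mul_right
      by_cases h2a : 2 ∣ a
      · have h2b : ¬ 2 ∣ b := by
          intro h2b
          have := Nat.dvd_gcd h2a h2b
          rw [Nat.Coprime] at hab
          rw [hab] at this
          omega
        have h2ab : 2 ∣ a * b := dvd_mul_of_dvd_left h2a b
        simp [h2a, h2b, h2ab]
      · by_cases h2b : 2 ∣ b
        · have h2ab : 2 ∣ a * b := dvd_mul_of_dvd_right h2b a
          simp [h2a, h2b, h2ab]
        · simp only [h2a, h2b, if_false]
          split_ifs <;> omega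
  by_cases hn : n = 0
  · subst hn; simp
  · refine (key n (by omega)).trans ?_
    apply Nat.mul_le_mul_right
    split_ifs <;> omega

/-- truncation of an arithmetic function to `n ≤ U` -/
noncomputable def trunc (U : ℕ) (f : ArithmeticFunction ℝ) : ArithmeticFunction ℝ :=
  ⟨fun n => if n ≤ U then f n else 0, by simp⟩

lemma trunc_apply (U : ℕ) (f : ArithmeticFunction ℝ) (n : ℕ) :
    trunc U f n = if n ≤ U then f n else 0 := rfl

/-- Vaughan's identity -/
lemma vaughan (U : ℕ) : (vonMangoldt : ArithmeticFunction ℝ) =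
    trunc U vonMangoldt + trunc U (moebius : ArithmeticFunction ℝ) * log
      - (trunc U (moebius : ArithmeticFunction ℝ) * trunc U vonMangoldt) *
          (zeta : ArithmeticFunction ℝ)
      + (vonMangoldt - trunc U vonMangoldt) *
        (((moebius : ArithmeticFunction ℝ) - trunc U (moebius : ArithmeticFunction ℝ)) *
          (zeta : ArithmeticFunction ℝ)) := by
  have h1 : (moebius : ArithmeticFunction ℝ) * (zeta : ArithmeticFunction ℝ) = 1 :=
    coe_moebius_mul_coe_zeta
  rw [← vonMangoldt_mul_zeta]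
  set M := trunc U (moebius : ArithmeticFunction ℝ)
  set L1 := trunc U vonMangoldt
  linear_combination (-(vonMangoldt - L1)) * h1

end Pool.Agent.MP89da58
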