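import Mathlib

set_option autoImplicit false

/-!
Large sieve inequality with trivial off-diagonal bound.
-/

namespace Pool.Agent.MP89da58

open Finset

/-- partial sums of a nonprincipal character -/
lemma norm_sum_range_char_le {q : ℕ} [NeZero q] (ψ : DirichletCharacter ℂ q) (hψ : ψ ≠ 1) :
    ∀ N : ℕ, ‖∑ n ∈ range N, ψ (n : ZMod q)‖ ≤ q := by
  have hfull : ∑ n ∈ range q, ψ (n : ZMod q) = 0 := by
    have h1 : ∑ a : ZMod q, ψ a = 0 := MulChar.sum_eq_zero_of_ne_one hψ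
    rw [← h1]
    refine Finset.sum_nbij (fun n : ℕ => (n : ZMod q)) ?_ ?_ ?_ ?_
    · intro n _; exact Finset.mem_univ _
    · intro a ha b hb hab
      simp only [coe_range, Set.mem_Iio] at ha hb
      have := (ZMod.natCast_eq_natCast_iff a b q).mp hab
      rw [Nat.ModEq, Nat.mod_eq_of_lt ha, Nat.mod_eq_of_lt hb] at this
      exact this
    · intro a _
      refine ⟨a.val, ?_, ZMod.natCast_zmod_val a⟩
      simp only [coe_range, Set.mem_Iio]
      exact ZMod.val_lt a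
    · intro n _; rfl
  intro N
  induction N using Nat.strong_induction_on with
  | _ N ih =>
    by_cases hN : N < q
    · calc ‖∑ n ∈ range N, ψ (n : ZMod q)‖ ≤ ∑ n ∈ range N, ‖ψ (n : ZMod q)‖ := norm_sum_le _ _
        _ ≤ ∑ n ∈ range N, 1 := sum_le_sum fun n _ => DirichletCharacter.norm_le_one ψ _
        _ = N := by simp
        _ ≤ q := by exact_mod_cast hN.le
    · obtain ⟨M, rfl⟩ : ∃ M, N = q + M := ⟨N - q, by omega⟩
      rw [sum_range_add, hfull, zero_add]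
      have hq : 0 < q := Nat.pos_of_ne_zero (NeZero.ne q)
      have h2 : ∑ n ∈ range M, ψ ((q + n : ℕ) : ZMod q) = ∑ n ∈ range M, ψ (n : ZMod q) := by
        apply sum_congr rfl
        intro n _
        simp
      rw [h2]
      exact ih M (by omega)

lemma norm_sum_Icc_char_le {q : ℕ} [NeZero q] (ψ : DirichletCharacter ℂ q) (hψ : ψ ≠ 1) (N : ℕ) :
    ‖∑ n ∈ Icc 1 N, ψ (n : ZMod q)‖ ≤ q := by
  have hq1 : q ≠ 1 := by
    rintro rfl
    exact hψ (DirichletCharacter.level_one ψ)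
  have h1 : ∑ n ∈ range (N + 1), ψ (n : ZMod q) = ∑ n ∈ Icc 1 N, ψ (n : ZMod q) := by
    rw [Finset.range_eq_Ico, Finset.sum_eq_sum_Ico_succ_bot (Nat.succ_pos N)]
    rw [Nat.cast_zero, DirichletCharacter.map_zero' ψ hq1, zero_add]
    rfl
  rw [← h1]
  exact norm_sum_range_char_le ψ hψ (N + 1)

/-- correlation of two different primitive characters -/
lemma norm_corr_le {r s : ℕ} (hr : r ≠ 0) (hs : s ≠ 0) (χ : DirichletCharacter ℂ r)
    (ψ : DirichletCharacter ℂ s) (hχ : χ.IsPrimitive) (hψ : ψ.IsPrimitive)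
    (hne : (⟨r, χ⟩ : Σ q, DirichletCharacter ℂ q) ≠ ⟨s, ψ⟩) (N : ℕ) :
    ‖∑ n ∈ Icc 1 N, χ (n : ZMod r) * (starRingEnd ℂ) (ψ (n : ZMod s))‖ ≤ r * s := by
  have : NeZero r := ⟨hr⟩
  have : NeZero s := ⟨hs⟩
  have : NeZero (r * s) := ⟨mul_ne_zero hr hs⟩
  set Ψ : DirichletCharacter ℂ (r * s) :=
    DirichletCharacter.changeLevel (dvd_mul_right r s) χ *
      (DirichletCharacter.changeLevel (dvd_mul_left s r) ψ)⁻¹ with hΨ
  have hne1 : Ψ ≠ 1 := by
    intro h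
    have h1 : DirichletCharacter.changeLevel (dvd_mul_right r s) χ =
        DirichletCharacter.changeLevel (dvd_mul_left s r) ψ := mul_inv_eq_one.mp h
    have h2 := congrArg DirichletCharacter.conductor h1
    rw [DirichletCharacter.conductor_changeLevel, DirichletCharacter.conductor_changeLevel,
      (DirichletCharacter.isPrimitive_def χ).mp hχ, (DirichletCharacter.isPrimitive_def ψ).mp hψ]
      at h2
    subst h2
    apply hne
    have h3 := DirichletCharacter.changeLevel_injective (R := ℂ) (dvd_mul_right r r) h1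
    rw [h3]
  have hterm : ∀ n : ℕ, χ (n : ZMod r) * (starRingEnd ℂ) (ψ (n : ZMod s)) =
      Ψ (n : ZMod (r * s)) := by
    intro n
    by_cases hn : IsCoprime (n : ℤ) ((r * s : ℕ) : ℤ)
    · have hu : IsUnit ((n : ℤ) : ZMod (r * s)) :=
        (ZMod.coe_int_isUnit_iff_isCoprime _ _).mpr hn.symm
      have hu' : IsUnit ((n : ℕ) : ZMod (r * s)) := by simpa using hu
      have e1 : (DirichletCharacter.changeLevel (dvd_mul_right r s) χ) (n : ZMod (r * s)) =
          χ (n : ZMod r) := by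
        have := DirichletCharacter.changeLevel_eq_cast_of_dvd' χ (dvd_mul_right r s) hn
        simpa using this
      have e2 : (DirichletCharacter.changeLevel (dvd_mul_left s r) ψ) (n : ZMod (r * s)) =
          ψ (n : ZMod s) := by
        have := DirichletCharacter.changeLevel_eq_cast_of_dvd' ψ (dvd_mul_left s r) hn
        simpa using this
      rw [hΨ, MulChar.mul_apply, e1, ← MulChar.star_apply', e2]
      rfl
    · have hΨ0 : Ψ (n : ZMod (r * s)) = 0 := by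
        have := (DirichletCharacter.apply_eq_zero_iff Ψ (n : ℤ)).mpr hn
        simpa using this
      rw [hΨ0]
      by_contra hcon
      rw [mul_eq_zero, not_or] at hcon
      have h1 : IsCoprime (n : ℤ) (r : ℤ) := by
        have := (DirichletCharacter.apply_ne_zero_iff χ (n : ℤ)).mp (by simpa using hcon.1)
        exact this
      have h2 : IsCoprime (n : ℤ) (s : ℤ) := by
        have h3 : ψ ((n : ℤ) : ZMod s) ≠ 0 := by
          intro h4
          apply hcon.2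
          simp only [Int.cast_natCast] at h4
          rw [h4, map_zero]
        exact (DirichletCharacter.apply_ne_zero_iff ψ (n : ℤ)).mp h3
      apply hn
      push_cast
      exact h1.mul_right h2
  rw [sum_congr rfl (fun n _ => hterm n)]
  have := norm_sum_Icc_char_le Ψ hne1 N
  push_cast at this
  exact this

open scoped Classical in
/-- the primitive characters of conductor `2 ≤ r ≤ R` -/
noncomputable def primChars (R : ℕ) : Finset (Σ q, DirichletCharacter ℂ q) :=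
  (Icc 2 R).sigma fun r => (Finset.univ : Finset (DirichletCharacter ℂ r)).filter
    fun χ => χ.IsPrimitive

lemma card_primChars (R : ℕ) : (primChars R).card ≤ R ^ 2 := by
  classical
  rw [primChars, card_sigma]
  calc ∑ r ∈ Icc 2 R, ((Finset.univ : Finset (DirichletCharacter ℂ r)).filter
        fun χ => χ.IsPrimitive).card ≤ ∑ r ∈ Icc 2 R, R := by
        apply sum_le_sum
        intro r hr
        rw [mem_Icc] at hr
        have : NeZero r := ⟨by omega⟩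
        have h1 := DirichletCharacter.card_eq_totient_of_hasEnoughRootsOfUnity ℂ r
        rw [Nat.card_eq_fintype_card] at h1
        have h2 := card_filter_le (Finset.univ : Finset (DirichletCharacter ℂ r))
          (fun χ => χ.IsPrimitive)
        rw [card_univ, h1] at h2
        exact h2.trans ((Nat.totient_le r).trans hr.2)
    _ = (R - 1) * R := by rw [sum_const, Nat.card_Icc]; simp
    _ ≤ R ^ 2 := by
        rw [pow_two]
        exact Nat.mul_le_mul_right R (Nat.sub_le R 1)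

/-- the dual large sieve inequality -/
lemma dual_sieve (R N : ℕ) (y : (Σ q, DirichletCharacter ℂ q) → ℂ) :
    ∑ n ∈ Icc 1 N, ‖∑ p ∈ primChars R, y p * p.2 (n : ZMod p.1)‖ ^ 2 ≤
      ((N : ℝ) + (R : ℝ) ^ 4) * ∑ p ∈ primChars R, ‖y p‖ ^ 2 := by
  classical
  set X := primChars R with hX
  have hexp : ((∑ n ∈ Icc 1 N, ‖∑ p ∈ X, y p * p.2 (n : ZMod p.1)‖ ^ 2 : ℝ) : ℂ) =
      ∑ p ∈ X, ∑ q ∈ X, y p * (starRingEnd ℂ) (y q) *
        ∑ n ∈ Icc 1 N, p.2 (n : ZMod p.1) * (starRingEnd ℂ) (q.2 (n : ZMod q.1)) := by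
    push_cast
    have : ∀ n ∈ Icc 1 N, ((‖∑ p ∈ X, y p * p.2 (n : ZMod p.1)‖ : ℂ)) ^ 2 =
        ∑ p ∈ X, ∑ q ∈ X, y p * (starRingEnd ℂ) (y q) *
          (p.2 (n : ZMod p.1) * (starRingEnd ℂ) (q.2 (n : ZMod q.1))) := by
      intro n _
      rw [← Complex.mul_conj', map_sum, sum_mul_sum]
      apply sum_congr rfl
      intro p _
      apply sum_congr rfl
      intro q _
      rw [map_mul]
      ring
    rw [sum_congr rfl this, sum_comm]
    apply sum_congr rfl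
    intro p _
    rw [sum_comm]
    apply sum_congr rfl
    intro q _
    rw [mul_sum]
  have hnn : 0 ≤ ∑ n ∈ Icc 1 N, ‖∑ p ∈ X, y p * p.2 (n : ZMod p.1)‖ ^ 2 :=
    sum_nonneg fun _ _ => by positivity
  have hbound : ∀ p ∈ X, ∀ q ∈ X, ‖∑ n ∈ Icc 1 N, p.2 (n : ZMod p.1) *
      (starRingEnd ℂ) (q.2 (n : ZMod q.1))‖ ≤ (if p = q then (N : ℝ) else 0) + (R : ℝ) ^ 2 := by
    intro p hp q hq
    rw [hX, primChars, mem_sigma, mem_filter, mem_Icc] at hp hq
    by_cases hpq : p = q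
    · rw [if_pos hpq]
      calc ‖∑ n ∈ Icc 1 N, p.2 (n : ZMod p.1) * (starRingEnd ℂ) (q.2 (n : ZMod q.1))‖
          ≤ ∑ n ∈ Icc 1 N, ‖p.2 (n : ZMod p.1) * (starRingEnd ℂ) (q.2 (n : ZMod q.1))‖ :=
            norm_sum_le _ _
        _ ≤ ∑ n ∈ Icc 1 N, (1 : ℝ) := by
            apply sum_le_sum
            intro n _
            rw [norm_mul, RCLike.norm_conj]
            exact mul_le_one₀ (DirichletCharacter.norm_le_one _ _) (norm_nonneg _)
              (DirichletCharacter.norm_le_one _ _)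
        _ = N := by simp
        _ ≤ (N : ℝ) + (R : ℝ) ^ 2 := by
            have : (0 : ℝ) ≤ (R : ℝ) ^ 2 := by positivity
            linarith
    · rw [if_neg hpq, zero_add]
      have h1 := norm_corr_le (r := p.1) (s := q.1) (by omega) (by omega) p.2 q.2 hp.2.2 hq.2.2
        (by rintro h; exact hpq h) N
      refine h1.trans ?_
      have h2 : (p.1 : ℝ) ≤ R := by exact_mod_cast hp.1.2
      have h3 : (q.1 : ℝ) ≤ R := by exact_mod_cast hq.1.2
      rw [pow_two]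
      exact mul_le_mul h2 h3 (by positivity) (by positivity)
  have h1 : (∑ n ∈ Icc 1 N, ‖∑ p ∈ X, y p * p.2 (n : ZMod p.1)‖ ^ 2 : ℝ) ≤
      ∑ p ∈ X, ∑ q ∈ X, ‖y p‖ * ‖y q‖ * ((if p = q then (N : ℝ) else 0) + (R : ℝ) ^ 2) := by
    have h2 : (∑ n ∈ Icc 1 N, ‖∑ p ∈ X, y p * p.2 (n : ZMod p.1)‖ ^ 2 : ℝ) =
        ‖((∑ n ∈ Icc 1 N, ‖∑ p ∈ X, y p * p.2 (n : ZMod p.1)‖ ^ 2 : ℝ) : ℂ)‖ := by
      rw [Complex.norm_real, Real.norm_of_nonneg hnn]
    rw [h2, hexp]
    refine (norm_sum_le _ _).trans (sum_le_sum fun p hp => ?_)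
    refine (norm_sum_le _ _).trans (sum_le_sum fun q hq => ?_)
    rw [norm_mul, norm_mul, RCLike.norm_conj]
    exact mul_le_mul_of_nonneg_left (hbound p hp q hq) (by positivity)
  refine h1.trans ?_
  have h3 : ∑ p ∈ X, ∑ q ∈ X, ‖y p‖ * ‖y q‖ * ((if p = q then (N : ℝ) else 0) + (R : ℝ) ^ 2) =
      N * ∑ p ∈ X, ‖y p‖ ^ 2 + (R : ℝ) ^ 2 * (∑ p ∈ X, ‖y p‖) ^ 2 := by
    rw [pow_two (∑ p ∈ X, ‖y p‖), sum_mul_sum, mul_sum, mul_sum, ← sum_add_distrib]
    apply sum_congr rfl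
    intro p hp
    simp only [mul_add, sum_add_distrib, mul_ite, mul_zero]
    rw [sum_ite_eq X p, if_pos hp]
    congr 1
    · ring
    · rw [mul_sum]
      apply sum_congr rfl
      intro q _
      ring
  rw [h3]
  have h4 : (∑ p ∈ X, ‖y p‖) ^ 2 ≤ X.card * ∑ p ∈ X, ‖y p‖ ^ 2 := sq_sum_le_card_mul_sum_sq
  have h5 : (X.card : ℝ) ≤ (R : ℝ) ^ 2 := by exact_mod_cast card_primChars R
  have h6 : 0 ≤ ∑ p ∈ X, ‖y p‖ ^ 2 := sum_nonneg fun _ _ => by positivity
  have h7 : (R : ℝ) ^ 2 * (∑ p ∈ X, ‖y p‖) ^ 2 ≤ (R : ℝ) ^ 4 * ∑ p ∈ X, ‖y p‖ ^ 2 := by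
    calc (R : ℝ) ^ 2 * (∑ p ∈ X, ‖y p‖) ^ 2 ≤ (R : ℝ) ^ 2 * (X.card * ∑ p ∈ X, ‖y p‖ ^ 2) :=
          mul_le_mul_of_nonneg_left h4 (by positivity)
      _ ≤ (R : ℝ) ^ 2 * ((R : ℝ) ^ 2 * ∑ p ∈ X, ‖y p‖ ^ 2) := by
          apply mul_le_mul_of_nonneg_left _ (by positivity)
          exact mul_le_mul_of_nonneg_right h5 h6
      _ = (R : ℝ) ^ 4 * ∑ p ∈ X, ‖y p‖ ^ 2 := by ring
  linarith

/-- **Large sieve inequality** (trivial form). -/
theorem large_sieve (R N : ℕ) (x : ℕ → ℂ) :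
    ∑ p ∈ primChars R, ‖∑ n ∈ Icc 1 N, x n * p.2 (n : ZMod p.1)‖ ^ 2 ≤
      ((N : ℝ) + (R : ℝ) ^ 4) * ∑ n ∈ Icc 1 N, ‖x n‖ ^ 2 := by
  classical
  set X := primChars R with hX
  set T : (Σ q, DirichletCharacter ℂ q) → ℂ := fun p => ∑ n ∈ Icc 1 N, x n * p.2 (n : ZMod p.1)
    with hT
  set S : ℝ := ∑ p ∈ X, ‖T p‖ ^ 2 with hS
  have hS0 : 0 ≤ S := sum_nonneg fun _ _ => by positivity
  have hx0 : 0 ≤ ∑ n ∈ Icc 1 N, ‖x n‖ ^ 2 := sum_nonneg fun _ _ => by positivity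
  have hSc : (S : ℂ) = ∑ n ∈ Icc 1 N, x n *
      ∑ p ∈ X, (starRingEnd ℂ) (T p) * p.2 (n : ZMod p.1) := by
    rw [hS]
    push_cast
    have : ∀ p ∈ X, ((‖T p‖ : ℂ)) ^ 2 = ∑ n ∈ Icc 1 N, x n *
        ((starRingEnd ℂ) (T p) * p.2 (n : ZMod p.1)) := by
      intro p _
      rw [← Complex.mul_conj']
      conv_lhs => rw [hT]
      simp only
      rw [sum_mul]
      apply sum_congr rfl
      intro n _
      rw [hT]
      ring
    rw [sum_congr rfl this, sum_comm]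
    apply sum_congr rfl
    intro n _
    rw [mul_sum]
  have h1 : S ≤ ∑ n ∈ Icc 1 N, ‖x n‖ * ‖∑ p ∈ X, (starRingEnd ℂ) (T p) * p.2 (n : ZMod p.1)‖ := by
    have h2 : S = ‖(S : ℂ)‖ := by rw [Complex.norm_real, Real.norm_of_nonneg hS0]
    rw [h2, hSc]
    refine (norm_sum_le _ _).trans (sum_le_sum fun n _ => ?_)
    rw [norm_mul]
  have h2 : (∑ n ∈ Icc 1 N, ‖x n‖ * ‖∑ p ∈ X, (starRingEnd ℂ) (T p) * p.2 (n : ZMod p.1)‖) ^ 2 ≤
      (∑ n ∈ Icc 1 N, ‖x n‖ ^ 2) *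
        ∑ n ∈ Icc 1 N, ‖∑ p ∈ X, (starRingEnd ℂ) (T p) * p.2 (n : ZMod p.1)‖ ^ 2 :=
    sum_mul_sq_le_sq_mul_sq _ _ _
  have h3 := dual_sieve R N (fun p => (starRingEnd ℂ) (T p))
  simp only [RCLike.norm_conj] at h3
  rw [← hX] at h3
  have h4 : S ^ 2 ≤ (∑ n ∈ Icc 1 N, ‖x n‖ ^ 2) * (((N : ℝ) + (R : ℝ) ^ 4) * S) := by
    calc S ^ 2 ≤ (∑ n ∈ Icc 1 N, ‖x n‖ *
          ‖∑ p ∈ X, (starRingEnd ℂ) (T p) * p.2 (n : ZMod p.1)‖) ^ 2 :=
          pow_le_pow_left₀ hS0 h1 2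
      _ ≤ _ := h2
      _ ≤ _ := mul_le_mul_of_nonneg_left h3 hx0
  by_cases hSz : S = 0
  · rw [hSz]; positivity
  · have hSpos : 0 < S := lt_of_le_of_ne hS0 (Ne.symm hSz)
    nlinarith

end Pool.Agent.MP89da58
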