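import Mathlib
import Pool.Agent.Lib.MP_89da58_nt.LargeTypes

set_option autoImplicit false

/-!
The large conductors: the sum of `‖psiChi X χ‖ / φ(r)` over the primitive characters with
conductor `r` in `((log X)^B, X^(1/50)]` is at most `X / (log X)^A`.
-/

namespace Pool.Agent.MP89da58

open Finset ArithmeticFunction

lemma Om_eq_zero_of_large {X : ℝ} (hX : 0 < X) {n : ℕ} (h : Real.exp 1 * X ≤ n) :
    Om X n = 0 := by
  have h1 : 1 ≤ Real.log (n / X) := by
    rw [Real.le_log_iff_exp_le]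
    · rw [le_div_iff₀ hX]; exact h
    · have : 0 < Real.exp 1 * X := by positivity
      have : (0 : ℝ) < n := by linarith
      positivity
  rw [Om, tri, max_eq_left, mul_zero]
  have := le_abs_self (Real.log (n / X))
  linarith

lemma Om_eq_zero_of_small {X : ℝ} (hX : 0 < X) {n : ℕ} (hn : 0 < n) (h : Real.exp 1 * n ≤ X) :
    Om X n = 0 := by
  have hn' : (0 : ℝ) < n := by exact_mod_cast hn
  have h1 : 1 ≤ - Real.log (n / X) := by
    rw [← Real.log_inv, inv_div, Real.le_log_iff_exp_le (by positivity), le_div_iff₀ hn']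
    exact h
  rw [Om, tri, max_eq_left, mul_zero]
  have := neg_le_abs (Real.log (n / X))
  linarith

lemma sum_conv {X : ℝ} (hX : 0 < X) {N : ℕ} (hN : N = ⌊3 * X⌋₊) {r : ℕ}
    (χ : DirichletCharacter ℂ r) (f g : ArithmeticFunction ℝ) :
    ∑ n ∈ Icc 1 N, (((f * g) n : ℝ) : ℂ) * χ (n : ZMod r) * (Om X n : ℂ) =
      ∑ d ∈ Icc 1 N, ∑ m ∈ Icc 1 N, ((f d : ℂ) * χ (d : ZMod r)) * ((g m : ℂ) * χ (m : ZMod r)) *
        (Om X (d * m) : ℂ) := by
  have h1 : ∀ n ∈ Icc 1 N, (((f * g) n : ℝ) : ℂ) * χ (n : ZMod r) * (Om X n : ℂ) =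
      ∑ x ∈ n.divisorsAntidiagonal, ((f x.1 : ℂ) * χ (x.1 : ZMod r)) *
        ((g x.2 : ℂ) * χ (x.2 : ZMod r)) * (Om X (x.1 * x.2) : ℂ) := by
    intro n _
    rw [mul_apply]
    push_cast
    rw [sum_mul, sum_mul]
    apply sum_congr rfl
    intro x hx
    rw [Nat.mem_divisorsAntidiagonal] at hx
    rw [← hx.1]
    push_cast
    rw [map_mul]
    ring
  rw [sum_congr rfl h1, sum_dA (fun a b : ℕ => ((f a : ℂ) * χ (a : ZMod r)) *
        ((g b : ℂ) * χ (b : ZMod r)) * (Om X (a * b) : ℂ))]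
  apply sum_congr rfl
  intro d hd
  apply sum_congr rfl
  intro m hm
  split_ifs with h
  · rfl
  · rw [Om_eq_zero_of_large hX]
    · simp
    · rw [not_le, hN, Nat.floor_lt (by positivity)] at h
      have : Real.exp 1 * X ≤ 3 * X :=
        mul_le_mul_of_nonneg_right (by linarith [Real.exp_one_lt_d9]) hX.le
      linarith

lemma af_sub_apply (f g : ArithmeticFunction ℝ) (n : ℕ) : (f - g) n = f n - g n := by
  rw [sub_eq_add_neg, ArithmeticFunction.add_apply, ArithmeticFunction.neg_apply, sub_eq_add_neg]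

lemma mem_primChars {R : ℕ} {p : Σ q, DirichletCharacter ℂ q} (hp : p ∈ primChars R) :
    2 ≤ p.1 ∧ p.1 ≤ R ∧ p.2.IsPrimitive := by
  classical
  rw [primChars, mem_sigma, mem_filter, mem_Icc] at hp
  exact ⟨hp.1.1, hp.1.2, hp.2.2⟩

lemma ne_one_of_mem_primChars {R : ℕ} {p : Σ q, DirichletCharacter ℂ q} (hp : p ∈ primChars R) :
    p.2 ≠ 1 := by
  obtain ⟨h2, _, h3⟩ := mem_primChars hp
  have : NeZero p.1 := ⟨by omega⟩
  intro h
  rw [h, DirichletCharacter.isPrimitive_def, DirichletCharacter.conductor_one] at h3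
  omega

lemma abs_moebius_le (n : ℕ) : |((moebius : ArithmeticFunction ℝ) n : ℝ)| ≤ 1 := by
  rw [intCoe_apply]
  have := abs_moebius_le_one (n := n)
  exact_mod_cast this

/-- the total contribution of all primitive characters of conductor at most `X ^ (1/50)` -/
lemma sum_psiChi_le {X : ℝ} (hX : Real.exp 3 ≤ X) (R : ℕ) (hR : R = ⌊X ^ (1 / 50 : ℝ)⌋₊) :
    ∑ p ∈ primChars R, ‖psiChi X p.2‖ ≤ 1280 * X * (Real.log X) ^ 4 := by
  have hX0 : 0 < X := lt_of_lt_of_le (Real.exp_pos 3) hX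
  have hX1 : 1 < X := lt_of_lt_of_le (by rw [← Real.exp_zero]; exact Real.exp_lt_exp.mpr (by norm_num)) hX
  have hlog3 : 3 ≤ Real.log X := (Real.le_log_iff_exp_le hX0).mpr hX
  have hlog : 0 < Real.log X := by linarith only [hlog3]
  set U : ℕ := ⌊X ^ (1 / 10 : ℝ)⌋₊ with hU
  set N : ℕ := ⌊3 * X⌋₊ with hN
  have hU1 : 1 ≤ U := (Nat.one_le_floor_iff _).mpr (Real.one_le_rpow hX1.le (by norm_num))
  have hUX : (U : ℝ) ≤ X ^ (1 / 10 : ℝ) := Nat.floor_le (by positivity)
  have hRX : (R : ℝ) ≤ X ^ (1 / 50 : ℝ) := by rw [hR]; exact Nat.floor_le (by positivity)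
  have hRU : R ^ 4 ≤ U := by
    rw [hU, Nat.le_floor_iff (by positivity)]
    push_cast
    calc (R : ℝ) ^ 4 ≤ (X ^ (1 / 50 : ℝ)) ^ 4 := pow_le_pow_left₀ (Nat.cast_nonneg _) hRX 4
      _ = X ^ (4 / 50 : ℝ) := by rw [← Real.rpow_natCast, ← Real.rpow_mul hX0.le]; norm_num
      _ ≤ X ^ (1 / 10 : ℝ) := Real.rpow_le_rpow_of_exponent_le hX1.le (by norm_num)
  have hU2 : ((U ^ 2 : ℕ) : ℝ) ≤ X ^ (1 / 5 : ℝ) := by
    push_cast
    calc (U : ℝ) ^ 2 ≤ (X ^ (1 / 10 : ℝ)) ^ 2 := pow_le_pow_left₀ (Nat.cast_nonneg _) hUX 2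
      _ = X ^ (1 / 5 : ℝ) := by rw [← Real.rpow_natCast, ← Real.rpow_mul hX0.le]; norm_num
  have hVX : Real.exp 2 * ((U ^ 2 : ℕ) : ℝ) ≤ X := by
    calc Real.exp 2 * ((U ^ 2 : ℕ) : ℝ) ≤ X ^ (4 / 5 : ℝ) * X ^ (1 / 5 : ℝ) := by
          apply mul_le_mul _ hU2 (Nat.cast_nonneg _) (by positivity)
          calc Real.exp 2 ≤ Real.exp (3 * (4 / 5)) := Real.exp_le_exp.mpr (by norm_num)
            _ = (Real.exp 3) ^ (4 / 5 : ℝ) := by rw [← Real.exp_mul]
            _ ≤ X ^ (4 / 5 : ℝ) := Real.rpow_le_rpow (Real.exp_pos _).le hX (by norm_num)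
      _ = X := by rw [← Real.rpow_add hX0]; norm_num
  have hV1 : 1 ≤ U ^ 2 := Nat.one_le_pow _ _ hU1
  have hUX' : (U : ℝ) ≤ ((U ^ 2 : ℕ) : ℝ) := by
    push_cast
    have : (1 : ℝ) ≤ U := by exact_mod_cast hU1
    nlinarith only [this]
  have heU : ∀ n : ℕ, n ≤ U → Real.exp 1 * n ≤ X := by
    intro n hn
    have h1 : (n : ℝ) ≤ U := by exact_mod_cast hn
    calc Real.exp 1 * n ≤ Real.exp 2 * ((U ^ 2 : ℕ) : ℝ) := by
          apply mul_le_mul (Real.exp_le_exp.mpr (by norm_num)) (h1.trans hUX')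
            (Nat.cast_nonneg _) (Real.exp_pos _).le
      _ ≤ X := hVX
  have hV1X : ((U ^ 2 : ℕ) : ℝ) ≤ X := by
    refine le_trans ?_ hVX
    have : 1 ≤ Real.exp 2 := Real.one_le_exp (by norm_num)
    have h0 : (0 : ℝ) ≤ ((U ^ 2 : ℕ) : ℝ) := Nat.cast_nonneg _
    nlinarith only [this]
  set M : ArithmeticFunction ℝ := trunc U (moebius : ArithmeticFunction ℝ) with hM
  set L1 : ArithmeticFunction ℝ := trunc U vonMangoldt with hL1
  -- coefficient bounds
  have hMle : ∀ d, |M d| ≤ 1 := by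
    intro d
    rw [hM, trunc_apply]
    split_ifs
    · exact abs_moebius_le d
    · simp
  have hM0 : ∀ d, U < d → M d = 0 := by
    intro d hd
    rw [hM, trunc_apply, if_neg (by omega)]
  have hL0 : ∀ d, 0 ≤ L1 d ∧ L1 d ≤ vonMangoldt d := by
    intro d
    rw [hL1, trunc_apply]
    split_ifs
    · exact ⟨vonMangoldt_nonneg, le_rfl⟩
    · exact ⟨le_rfl, vonMangoldt_nonneg⟩
  have hL1' : ∀ d, U < d → L1 d = 0 := by
    intro d hd
    rw [hL1, trunc_apply, if_neg (by omega)]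
  have hHle : ∀ d, 1 ≤ d → |(M * L1) d| ≤ Real.log d := by
    intro d _
    rw [mul_apply]
    refine (abs_sum_le_sum_abs _ _).trans ?_
    calc ∑ x ∈ d.divisorsAntidiagonal, |M x.1 * L1 x.2|
        ≤ ∑ x ∈ d.divisorsAntidiagonal, vonMangoldt x.2 := by
          apply sum_le_sum
          intro x _
          rw [abs_mul, abs_of_nonneg (hL0 x.2).1]
          calc |M x.1| * L1 x.2 ≤ 1 * L1 x.2 :=
                mul_le_mul_of_nonneg_right (hMle _) (hL0 _).1
            _ ≤ vonMangoldt x.2 := by rw [one_mul]; exact (hL0 _).2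
      _ = ∑ i ∈ d.divisors, vonMangoldt i := by
          rw [← Nat.map_div_left_divisors, sum_map]
          rfl
      _ = Real.log d := vonMangoldt_sum
  have hH0 : ∀ d, U ^ 2 < d → (M * L1) d = 0 := by
    intro d hd
    rw [mul_apply]
    apply sum_eq_zero
    intro x hx
    rw [Nat.mem_divisorsAntidiagonal] at hx
    by_cases h1 : U < x.1
    · rw [hM0 _ h1, zero_mul]
    · by_cases h2 : U < x.2
      · rw [hL1' _ h2, mul_zero]
      · exfalso
        have : x.1 * x.2 ≤ U * U := Nat.mul_le_mul (by omega) (by omega)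
        rw [hx.1] at this
        linarith only [hd, this]
  set b : ArithmeticFunction ℝ := ((moebius : ArithmeticFunction ℝ) - M) *
    (zeta : ArithmeticFunction ℝ) with hb
  have hsubM : ∀ d, ((moebius : ArithmeticFunction ℝ) - M) d =
      if d ≤ U then 0 else (moebius : ArithmeticFunction ℝ) d := by
    intro d
    rw [af_sub_apply, hM, trunc_apply]
    split_ifs <;> simp
  have hble : ∀ d, 1 ≤ d → |b d| ≤ d.divisors.card := by
    intro d _
    rw [hb, mul_apply, card_divisors_eq_sum]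
    refine (abs_sum_le_sum_abs _ _).trans (sum_le_sum fun x hx => ?_)
    rw [abs_mul, hsubM]
    have h1 : |(zeta : ArithmeticFunction ℝ) x.2| ≤ 1 := by
      rw [natCoe_apply, zeta_apply]
      split_ifs <;> simp
    have h2 : |(if x.1 ≤ U then (0 : ℝ) else (moebius : ArithmeticFunction ℝ) x.1)| ≤ 1 := by
      split_ifs
      · simp
      · exact abs_moebius_le x.1
    exact mul_le_one₀ h2 (abs_nonneg _) h1
  have hb0 : ∀ d, 1 ≤ d → d ≤ U → b d = 0 := by
    intro d hd1 hdU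
    rw [hb, mul_apply]
    apply sum_eq_zero
    intro x hx
    rw [Nat.mem_divisorsAntidiagonal] at hx
    have : x.1 ≤ d := Nat.le_of_dvd (by omega) (Dvd.intro _ hx.1)
    rw [hsubM, if_pos (by omega), zero_mul]
  set a : ArithmeticFunction ℝ := vonMangoldt - L1 with ha
  have haeq : ∀ d, a d = if d ≤ U then 0 else vonMangoldt d := by
    intro d
    rw [ha, af_sub_apply, hL1, trunc_apply]
    split_ifs <;> simp
  have hale : ∀ d, 1 ≤ d → |a d| ≤ Real.log d := by
    intro d hd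
    rw [haeq]
    split_ifs
    · rw [abs_zero]; exact Real.log_natCast_nonneg d
    · rw [abs_of_nonneg vonMangoldt_nonneg]; exact vonMangoldt_le_log
  have ha0 : ∀ d, d ≤ U → a d = 0 := by
    intro d hd
    rw [haeq, if_pos hd]
  have hvau : (vonMangoldt : ArithmeticFunction ℝ) =
      L1 + M * log - (M * L1) * (zeta : ArithmeticFunction ℝ) + a * b := vaughan U
  -- the decomposition
  have hdec : ∀ {r : ℕ} (χ : DirichletCharacter ℂ r), psiChi X χ =
      ∑ d ∈ Icc 1 N, ∑ m ∈ Icc 1 N, ((M d : ℂ) * χ (d : ZMod r)) *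
        ((log m : ℂ) * χ (m : ZMod r)) * (Om X (d * m) : ℂ)
      - ∑ d ∈ Icc 1 N, ∑ m ∈ Icc 1 N, (((M * L1) d : ℂ) * χ (d : ZMod r)) *
        (((zeta : ArithmeticFunction ℝ) m : ℂ) * χ (m : ZMod r)) * (Om X (d * m) : ℂ)
      + ∑ d ∈ Icc 1 N, ∑ m ∈ Icc 1 N, ((a d : ℂ) * χ (d : ZMod r)) *
        ((b m : ℂ) * χ (m : ZMod r)) * (Om X (d * m) : ℂ) := by
    intro r χ
    rw [← sum_conv hX0 hN, ← sum_conv hX0 hN, ← sum_conv hX0 hN, psiChi, ← hN,
      ← sum_sub_distrib, ← sum_add_distrib]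
    apply sum_congr rfl
    intro n hn
    rw [mem_Icc] at hn
    have h1 : vonMangoldt n = L1 n + (M * log) n - ((M * L1) * (zeta : ArithmeticFunction ℝ)) n +
        (a * b) n := by
      conv_lhs => rw [hvau]
      rw [ArithmeticFunction.add_apply, af_sub_apply, ArithmeticFunction.add_apply]
    have h2 : (L1 n : ℂ) * (Om X n : ℂ) = 0 := by
      by_cases h : n ≤ U
      · rw [Om_eq_zero_of_small hX0 (by omega) (heU n h)]; simp
      · rw [hL1' n (by omega)]; simp
    rw [h1]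
    push_cast
    linear_combination χ (n : ZMod r) * h2
  -- type I bounds
  have hE2 : Real.exp 2 ≤ 8 := by
    have : Real.exp 2 = Real.exp 1 ^ 2 := by rw [← Real.exp_nat_mul]; norm_num
    rw [this]
    have h1 := Real.exp_one_lt_d9
    have h2 := Real.exp_pos 1
    nlinarith only [h1, h2]
  have hE3 : Real.exp 1 ^ 3 ≤ 24 := by
    have h1 : Real.exp 1 ≤ 2.72 := by linarith only [Real.exp_one_lt_d9]
    calc Real.exp 1 ^ 3 ≤ 2.72 ^ 3 := pow_le_pow_left₀ (Real.exp_pos 1).le h1 3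
      _ ≤ 24 := by norm_num
  have hinvexp : ∀ x : ℝ, Real.exp 1 ≤ x → 0 < x := fun x hx => lt_of_lt_of_le (Real.exp_pos 1) hx
  have hc1 : 1 ≤ cX X := cX_ge_one hX1.le
  have hT1 : ∀ p ∈ primChars R, ‖∑ d ∈ Icc 1 N, ∑ m ∈ Icc 1 N,
      ((M d : ℂ) * p.2 (d : ZMod p.1)) * ((log m : ℂ) * p.2 (m : ZMod p.1)) *
        (Om X (d * m) : ℂ)‖ ≤
      2 * Real.exp 2 * p.1 * ((U ^ 2 : ℕ) : ℝ) ^ 2 * Real.log X *
        (Real.log X * (Real.log X + 1)) := by
    intro p hp
    have hne : p.2 ≠ 1 := ne_one_of_mem_primChars hp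
    have hp2 := mem_primChars hp
    have : NeZero p.1 := ⟨by omega⟩
    have key := typeI_bound hX1 N p.2 hne (U ^ 2) hV1 hVX (fun d => (M d : ℂ) * p.2 (d : ZMod p.1))
      hlog.le (by
        intro d _
        rw [norm_mul, Complex.norm_real, Real.norm_eq_abs]
        calc |M d| * ‖p.2 (d : ZMod p.1)‖ ≤ 1 :=
              mul_le_one₀ (hMle d) (norm_nonneg _) (DirichletCharacter.norm_le_one _ _)
          _ ≤ Real.log X := by linarith only [hlog3]) (by
        intro d hd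
        have hUU : U ≤ U ^ 2 := by nlinarith only [hU1]
        rw [hM0 d (by omega)]
        simp) Real.log (by
        intro x hx y hy hxy
        have h1 := Real.log_div_self_rpow_antitoneOn (a := cX X) (by linarith only [hc1])
        have h2 : Real.exp (cX X)⁻¹ ≤ Real.exp 1 :=
          Real.exp_le_exp.mpr (inv_le_one_of_one_le₀ hc1)
        have h3 := h1 (a := x) (b := y) (Set.mem_Ici.mpr (h2.trans hx))
          (Set.mem_Ici.mpr (h2.trans hy)) hxy
        simp only at h3 ⊢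
        rw [Real.rpow_neg (hinvexp x hx).le, Real.rpow_neg (hinvexp y hy).le, mul_comm,
          mul_comm (x ^ cX X)⁻¹, ← div_eq_mul_inv, ← div_eq_mul_inv]
        exact h3) (by
        intro x hx
        exact Real.log_nonneg (by have := Real.one_le_exp (x := 1) (by norm_num); linarith only [hx, this])) (by
        intro s _
        rw [Real.log_exp])
    refine le_trans (le_of_eq ?_) key
    congr 1
    apply sum_congr rfl
    intro d _
    apply sum_congr rfl
    intro m _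
    rw [log_apply]
    ring
  have hT2 : ∀ p ∈ primChars R, ‖∑ d ∈ Icc 1 N, ∑ m ∈ Icc 1 N,
      (((M * L1) d : ℂ) * p.2 (d : ZMod p.1)) *
        (((zeta : ArithmeticFunction ℝ) m : ℂ) * p.2 (m : ZMod p.1)) *
        (Om X (d * m) : ℂ)‖ ≤
      2 * Real.exp 2 * p.1 * ((U ^ 2 : ℕ) : ℝ) ^ 2 * Real.log X *
        (Real.log X * (Real.log X + 1)) := by
    intro p hp
    have hne : p.2 ≠ 1 := ne_one_of_mem_primChars hp
    have hp2 := mem_primChars hp
    have : NeZero p.1 := ⟨by omega⟩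
    have key := typeI_bound hX1 N p.2 hne (U ^ 2) hV1 hVX
      (fun d => ((M * L1) d : ℂ) * p.2 (d : ZMod p.1))
      hlog.le (by
        intro d hd
        rw [norm_mul, Complex.norm_real, Real.norm_eq_abs]
        by_cases hdU : U ^ 2 < d
        · rw [hH0 d hdU]
          simp [hlog.le]
        · have hd0 : (0 : ℝ) < d := by exact_mod_cast hd
          have h2 : (d : ℝ) ≤ X := by
            refine le_trans ?_ hV1X
            exact_mod_cast not_lt.mp hdU
          have h3 : Real.log d ≤ Real.log X := Real.log_le_log hd0 h2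
          calc |(M * L1) d| * ‖p.2 (d : ZMod p.1)‖ ≤ |(M * L1) d| * 1 :=
                mul_le_mul_of_nonneg_left (DirichletCharacter.norm_le_one _ _) (abs_nonneg _)
            _ ≤ Real.log X := by rw [mul_one]; exact (hHle d hd).trans h3) (by
        intro d hd
        rw [hH0 d hd]
        simp) (fun _ => 1) (by
        intro x hx y hy hxy
        simp only [mul_one]
        exact Real.rpow_le_rpow_of_nonpos (hinvexp x hx) hxy (by linarith only [hc1])) (by
        intro x hx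
        exact zero_le_one) (by
        intro s hs
        exact hs)
    refine le_trans (le_of_eq ?_) key
    congr 1
    apply sum_congr rfl
    intro d _
    apply sum_congr rfl
    intro m hm
    rw [mem_Icc] at hm
    rw [natCoe_apply, zeta_apply, if_neg (by omega)]
    push_cast
    ring
  have hT3 := typeII_bound hX1 N R U hN hU1 hRU (fun d => (a d : ℂ)) (fun m => (b m : ℂ))
    (by
      intro d hd
      rw [Complex.norm_real, Real.norm_eq_abs]
      exact hale d hd) (by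
      intro d hd
      rw [ha0 d hd]
      simp) (by
      intro d hd
      rw [Complex.norm_real, Real.norm_eq_abs]
      exact hble d hd) (by
      intro d hd1 hd2
      rw [hb0 d hd1 hd2]
      simp)
  -- size of the type I contribution
  set Z : ℝ := 2 * Real.exp 2 * R * ((U ^ 2 : ℕ) : ℝ) ^ 2 * Real.log X *
        (Real.log X * (Real.log X + 1)) with hZ
  have hZp : ∀ p ∈ primChars R, 2 * Real.exp 2 * p.1 * ((U ^ 2 : ℕ) : ℝ) ^ 2 * Real.log X *
        (Real.log X * (Real.log X + 1)) ≤ Z := by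
    intro p hp
    have hpR : (p.1 : ℝ) ≤ R := by exact_mod_cast (mem_primChars hp).2.1
    rw [hZ]
    (clear * - hpR hU1 hlog3; gcongr)
  have hZ0 : 0 ≤ Z := by rw [hZ]; (clear * - hU1 hlog3; positivity)
  have hmain : ∑ p ∈ primChars R, ‖psiChi X p.2‖ ≤ (R : ℝ) ^ 2 * (2 * Z) +
      2 * Real.exp 1 ^ 3 * X * (Real.log X + 2) ^ 4 := by
    calc ∑ p ∈ primChars R, ‖psiChi X p.2‖
        ≤ ∑ p ∈ primChars R, (2 * Z + ‖∑ d ∈ Icc 1 N, ∑ m ∈ Icc 1 N,
          ((a d : ℂ) * p.2 (d : ZMod p.1)) * ((b m : ℂ) * p.2 (m : ZMod p.1)) *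
            (Om X (d * m) : ℂ)‖) := by
          apply sum_le_sum
          intro p hp
          rw [hdec p.2]
          refine (norm_add_le _ _).trans ?_
          apply add_le_add _ le_rfl
          refine (norm_sub_le _ _).trans ?_
          have h1 := (hT1 p hp).trans (hZp p hp)
          have h2 := (hT2 p hp).trans (hZp p hp)
          linarith only [h1, h2]
      _ = (primChars R).card * (2 * Z) + ∑ p ∈ primChars R, ‖∑ d ∈ Icc 1 N, ∑ m ∈ Icc 1 N,
          ((a d : ℂ) * p.2 (d : ZMod p.1)) * ((b m : ℂ) * p.2 (m : ZMod p.1)) *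
            (Om X (d * m) : ℂ)‖ := by
          rw [sum_add_distrib, sum_const, nsmul_eq_mul]
      _ ≤ _ := by
          apply add_le_add _ hT3
          apply mul_le_mul_of_nonneg_right _ (by (clear * - hU1 hlog3; positivity))
          exact_mod_cast card_primChars R
  refine hmain.trans ?_
  have hR3 : (R : ℝ) ^ 3 ≤ X ^ (3 / 50 : ℝ) := by
    calc (R : ℝ) ^ 3 ≤ (X ^ (1 / 50 : ℝ)) ^ 3 := pow_le_pow_left₀ (Nat.cast_nonneg _) hRX 3
      _ = X ^ (3 / 50 : ℝ) := by rw [← Real.rpow_natCast, ← Real.rpow_mul hX0.le]; norm_num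
  have hU4 : ((U ^ 2 : ℕ) : ℝ) ^ 2 ≤ X ^ (2 / 5 : ℝ) := by
    calc ((U ^ 2 : ℕ) : ℝ) ^ 2 ≤ (X ^ (1 / 5 : ℝ)) ^ 2 :=
          pow_le_pow_left₀ (Nat.cast_nonneg _) hU2 2
      _ = X ^ (2 / 5 : ℝ) := by rw [← Real.rpow_natCast, ← Real.rpow_mul hX0.le]; norm_num
  have hprod : (R : ℝ) ^ 3 * ((U ^ 2 : ℕ) : ℝ) ^ 2 ≤ X := by
    calc (R : ℝ) ^ 3 * ((U ^ 2 : ℕ) : ℝ) ^ 2 ≤ X ^ (3 / 50 : ℝ) * X ^ (2 / 5 : ℝ) :=
          mul_le_mul hR3 hU4 (by positivity) (by positivity)
      _ = X ^ (23 / 50 : ℝ) := by rw [← Real.rpow_add hX0]; norm_num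
      _ ≤ X ^ (1 : ℝ) := Real.rpow_le_rpow_of_exponent_le hX1.le (by norm_num)
      _ = X := Real.rpow_one X
  have hlogL : Real.log X * (Real.log X * (Real.log X + 1)) ≤ (Real.log X) ^ 4 := by
    have h1 : Real.log X + 1 ≤ Real.log X ^ 2 := by nlinarith only [hlog3]
    calc Real.log X * (Real.log X * (Real.log X + 1)) = Real.log X ^ 2 * (Real.log X + 1) := by ring
      _ ≤ Real.log X ^ 2 * Real.log X ^ 2 := mul_le_mul_of_nonneg_left h1 (by positivity)
      _ = Real.log X ^ 4 := by ring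
  have hA : (R : ℝ) ^ 2 * (2 * Z) ≤ 32 * X * Real.log X ^ 4 := by
    calc (R : ℝ) ^ 2 * (2 * Z) = 4 * Real.exp 2 * ((R : ℝ) ^ 3 * ((U ^ 2 : ℕ) : ℝ) ^ 2) *
          (Real.log X * (Real.log X * (Real.log X + 1))) := by rw [hZ]; ring
      _ ≤ 4 * 8 * X * Real.log X ^ 4 := by
          apply mul_le_mul _ hlogL (by positivity) (by positivity)
          apply mul_le_mul _ hprod (by (clear * - hU1; positivity)) (by norm_num)
          linarith only [hE2]
      _ = 32 * X * Real.log X ^ 4 := by ring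
  have hB : 2 * Real.exp 1 ^ 3 * X * (Real.log X + 2) ^ 4 ≤ 768 * X * Real.log X ^ 4 := by
    have h1 : (Real.log X + 2) ^ 4 ≤ (2 * Real.log X) ^ 4 :=
      pow_le_pow_left₀ (by positivity) (by linarith only [hlog3]) 4
    calc 2 * Real.exp 1 ^ 3 * X * (Real.log X + 2) ^ 4
        ≤ 2 * 24 * X * (2 * Real.log X) ^ 4 := by (clear * - hE3 hX0 h1 hlog3; gcongr)
      _ = 768 * X * Real.log X ^ 4 := by ring
  have hC : 0 ≤ X * Real.log X ^ 4 := by positivity
  linarith only [hA, hB, hC]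

theorem large_conductors (A : ℕ) : ∃ B : ℕ, ∃ X0 : ℝ, ∀ X : ℝ, X0 ≤ X →
    ∑ r ∈ (Finset.Icc 2 ⌊X ^ (1 / 50 : ℝ)⌋₊).filter (fun r : ℕ => (Real.log X) ^ B < (r : ℝ)),
      primSum X r / (Nat.totient r : ℝ) ≤ X / (Real.log X) ^ A := by
  classical
  refine ⟨2 * (A + 5), Real.exp 2560, fun X hX => ?_⟩
  have hX0 : 0 < X := lt_of_lt_of_le (Real.exp_pos _) hX
  have hlogX : 2560 ≤ Real.log X := (Real.le_log_iff_exp_le hX0).mpr hX
  have hlog : 0 < Real.log X := by linarith
  set R : ℕ := ⌊X ^ (1 / 50 : ℝ)⌋₊ with hR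
  have hprim0 : ∀ r, 0 ≤ primSum X r := by
    intro r
    rw [primSum]
    apply sum_nonneg
    intro χ _
    exact Set.indicator_nonneg (fun _ _ => norm_nonneg _) _
  have h1 : ∀ r ∈ (Icc 2 R).filter (fun r : ℕ => (Real.log X) ^ (2 * (A + 5)) < (r : ℝ)),
      primSum X r / (Nat.totient r : ℝ) ≤ primSum X r * (2 / (Real.log X) ^ (A + 5)) := by
    intro r hr
    rw [mem_filter, mem_Icc] at hr
    rw [div_eq_mul_inv]
    apply mul_le_mul_of_nonneg_left _ (hprim0 r)
    have hφ : 0 < Nat.totient r := Nat.totient_pos.mpr (by omega)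
    have hφ' : (0 : ℝ) < Nat.totient r := by exact_mod_cast hφ
    rw [inv_le_comm₀ hφ' (by positivity), inv_div]
    have h2 : (r : ℝ) ≤ 2 * (Nat.totient r : ℝ) ^ 2 := by exact_mod_cast le_two_mul_totient_sq r
    have h3 : ((Real.log X) ^ (A + 5)) ^ 2 < 2 * (Nat.totient r : ℝ) ^ 2 := by
      calc ((Real.log X) ^ (A + 5)) ^ 2 = (Real.log X) ^ (2 * (A + 5)) := by
            rw [← pow_mul, mul_comm]
        _ < r := hr.2
        _ ≤ _ := h2
    have h4 : 0 < (Real.log X) ^ (A + 5) := by positivity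
    nlinarith only [h3, hφ', h4]
  refine (sum_le_sum h1).trans ?_
  rw [← sum_mul]
  have h2 : ∑ r ∈ (Icc 2 R).filter (fun r : ℕ => (Real.log X) ^ (2 * (A + 5)) < (r : ℝ)),
      primSum X r ≤ ∑ r ∈ Icc 2 R, primSum X r :=
    sum_le_sum_of_subset_of_nonneg (filter_subset _ _) fun r _ _ => hprim0 r
  have h3 : ∑ r ∈ Icc 2 R, primSum X r = ∑ p ∈ primChars R, ‖psiChi X p.2‖ := by
    rw [primChars, sum_sigma]
    apply sum_congr rfl
    intro r _
    rw [primSum, sum_filter]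
    apply sum_congr rfl
    intro χ _
    rw [Set.indicator_apply]
    rfl
  have h4 := sum_psiChi_le (X := X) (le_trans (Real.exp_le_exp.mpr (by norm_num)) hX) R hR
  calc (∑ r ∈ (Icc 2 R).filter (fun r : ℕ => (Real.log X) ^ (2 * (A + 5)) < (r : ℝ)),
      primSum X r) * (2 / (Real.log X) ^ (A + 5))
      ≤ (1280 * X * (Real.log X) ^ 4) * (2 / (Real.log X) ^ (A + 5)) := by
        apply mul_le_mul_of_nonneg_right _ (by positivity)
        exact h2.trans (h3.le.trans h4)
    _ = (2560 / Real.log X) * (X / (Real.log X) ^ A) := by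
        rw [show A + 5 = A + 1 + 4 by ring, pow_add, pow_succ]
        field_simp
        ring
    _ ≤ 1 * (X / (Real.log X) ^ A) := by
        apply mul_le_mul_of_nonneg_right _ (by positivity)
        rw [div_le_one hlog]
        exact hlogX
    _ = X / (Real.log X) ^ A := one_mul _

end Pool.Agent.MP89da58
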