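import Pool.Agent.Lib.MP_89da58_nt.SieveF
import Pool.Agent.Lib.MP_89da58_nt.Defs2

set_option autoImplicit false
set_option linter.unusedSectionVars false

/-!
Existence of the sieve data with the one-dimensional bounds.
-/

namespace Pool.Agent.MP89da58

/-- The statement of the one-dimensional estimate (piece O). -/
def OneDimStatement (D : ℕ) : Prop :=
  ∃ T0 : ℕ, ∀ T R : ℕ, T0 ≤ T → T ≤ R →
    (kapD D * Real.log T / 4 ≤
      ∑ a : Finset (PJ D R), if nn (fun j : PJ D R => (j : ℕ)) a ≤ T then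
        pw (fun j : PJ D R => 1 / ((j : ℕ) : ℝ)) a else 0) ∧
    (∑ a : Finset (PJ D R), if nn (fun j : PJ D R => (j : ℕ)) a ≤ T then
        pw (fun j : PJ D R => 1 / ((j : ℕ) : ℝ)) a else 0) ≤ 2 * kapD D * Real.log T

/-- The weighted average of the cut-offs. -/
noncomputable def gav (t : ℕ → ℝ) (m : ℕ) : ℝ :=
  ∑ k ∈ Finset.range m, (1 / 2 : ℝ) ^ (k + 1) * t k + (1 / 2 : ℝ) ^ m * t m

/-- The coefficients of the square. -/
noncomputable def qav (t : ℕ → ℝ) (m : ℕ) : ℝ :=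
  ∑ k ∈ Finset.range m, (3 / 4 : ℝ) * (1 / 4 : ℝ) ^ k * t k + (1 / 4 : ℝ) ^ m * t m

theorem gav_sq (t : ℕ → ℝ) (h01 : ∀ k, t k = 0 ∨ t k = 1) (hmono : ∀ k, t k ≤ t (k + 1)) :
    ∀ m, gav t m ^ 2 = qav t m ∧ (t m = 0 → gav t m = 0) := by
  intro m
  induction m with
  | zero =>
    constructor
    · unfold gav qav
      rcases h01 0 with h | h <;> simp [h]
    · intro h
      unfold gav
      simp [h]
  | succ m ih =>
    have e1 : gav t (m + 1) = gav t m + (1 / 2 : ℝ) ^ (m + 1) * (t (m + 1) - t m) := by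
      unfold gav
      rw [Finset.sum_range_succ]
      ring
    have e2 : qav t (m + 1) = qav t m + (1 / 4 : ℝ) ^ (m + 1) * (t (m + 1) - t m) := by
      unfold qav
      rw [Finset.sum_range_succ]
      ring
    rcases h01 m with h | h
    · have h0 := ih.2 h
      have h1 := ih.1
      rw [h0] at h1
      constructor
      · rw [e1, e2, h0, ← h1, h]
        rcases h01 (m + 1) with h2 | h2
        · rw [h2]; ring
        · rw [h2]
          have : (1 / 4 : ℝ) ^ (m + 1) = ((1 / 2 : ℝ) ^ (m + 1)) ^ 2 := by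
            rw [← pow_mul, mul_comm, pow_mul]
            norm_num
          rw [this]
          ring
      · intro h2
        rw [e1, h0, h, h2]
        ring
    · have h2 : t (m + 1) = 1 := by
        rcases h01 (m + 1) with h3 | h3
        · have := hmono m
          rw [h, h3] at this
          norm_num at this
        · exact h3
      constructor
      · rw [e1, e2, h, h2]
        simpa using ih.1
      · intro h3
        rw [h2] at h3
        norm_num at h3

theorem sum_gav_coeff (m : ℕ) :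
    ∑ k ∈ Finset.range m, (1 / 2 : ℝ) ^ (k + 1) + (1 / 2 : ℝ) ^ m = 1 := by
  induction m with
  | zero => simp
  | succ m ih =>
    rw [Finset.sum_range_succ]
    rw [pow_succ] at *
    linarith only [ih]

theorem sum_inv_sq_le (D R : ℕ) (hD : 2 ≤ D) :
    ∑ n ∈ Finset.Ioc D R, (1 / ((n : ℝ) - 1)) ^ 2 ≤ (2 : ℝ) / D := by
  have hD' : (2 : ℝ) ≤ D := by exact_mod_cast hD
  have key : ∀ R, D ≤ R → ∑ n ∈ Finset.Ioc D R, (1 / ((n : ℝ) - 1)) ^ 2 ≤
      1 / ((D : ℝ) - 1) - 1 / ((R : ℝ) - 1) := by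
    intro R hR
    induction R, hR using Nat.le_induction with
    | base => simp
    | succ R hR ih =>
      have hR' : (2 : ℝ) ≤ R := by
        have : 2 ≤ R := hD.trans hR
        exact_mod_cast this
      rw [← Finset.insert_Ioc_right_eq_Ioc_add_one hR, Finset.sum_insert (by simp)]
      push_cast
      have h1 : (1 / ((R : ℝ) + 1 - 1)) ^ 2 ≤ 1 / ((R : ℝ) - 1) - 1 / ((R : ℝ) + 1 - 1) := by
        have h0 : (R : ℝ) + 1 - 1 = R := by ring
        have hR0 : (0 : ℝ) < R := by linarith only [hR']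
        have hR1 : (0 : ℝ) < (R : ℝ) - 1 := by linarith
        rw [h0, div_sub_div _ _ hR1.ne' hR0.ne', div_pow, one_pow,
          div_le_div_iff₀ (by positivity) (by positivity)]
        nlinarith only [hR']
      linarith only [ih, h1]
  by_cases hR : D ≤ R
  · refine (key R hR).trans ?_
    have hR' : (2 : ℝ) ≤ R := by
      have : 2 ≤ R := hD.trans hR
      exact_mod_cast this
    have h1 : 0 ≤ 1 / ((R : ℝ) - 1) := by
      apply div_nonneg zero_le_one
      linarith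
    have h2 : 1 / ((D : ℝ) - 1) ≤ 2 / D := by
      rw [div_le_div_iff₀ (by linarith) (by linarith)]
      linarith
    linarith
  · rw [Finset.Ioc_eq_empty (by omega), Finset.sum_empty]
    positivity

section mk

variable {ι : Type} [Fintype ι] [DecidableEq ι]

/-- the smoothed cut-off function -/
noncomputable def gfun (m y : ℕ) (n : ℕ) : ℝ := gav (fun k => tau (y ^ 2 ^ k) n) m

theorem tau_zero_or_one (T n : ℕ) : tau T n = 0 ∨ tau T n = 1 := by
  unfold tau
  split_ifs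
  · right; rfl
  · left; rfl

theorem tau_mono_left {T T' : ℕ} (h : T ≤ T') (n : ℕ) : tau T n ≤ tau T' n := by
  unfold tau
  by_cases h1 : n ≤ T
  · rw [if_pos h1, if_pos (h1.trans h)]
  · rw [if_neg h1]
    split_ifs <;> norm_num

theorem gfun_nonneg (m y n : ℕ) : 0 ≤ gfun m y n := by
  unfold gfun gav
  apply add_nonneg
  · exact Finset.sum_nonneg fun k _ => mul_nonneg (by positivity) (tau_nonneg _ _)
  · exact mul_nonneg (by positivity) (tau_nonneg _ _)

theorem gfun_anti (m y : ℕ) (a b : ℕ) (ha : 1 ≤ a) (hab : a ≤ b) : gfun m y b ≤ gfun m y a := by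
  unfold gfun gav
  apply add_le_add
  · exact Finset.sum_le_sum fun k _ => mul_le_mul_of_nonneg_left (tau_anti _ _ _ ha hab)
      (by positivity)
  · exact mul_le_mul_of_nonneg_left (tau_anti _ _ _ ha hab) (by positivity)

theorem gfun_one (m y n : ℕ) (hn : n ≤ y) : gfun m y n = 1 := by
  unfold gfun gav
  have h1 : ∀ k, tau (y ^ 2 ^ k) n = 1 := by
    intro k
    unfold tau
    rw [if_pos]
    exact hn.trans (Nat.le_self_pow (by positivity) y)
  simp only [h1, mul_one]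
  exact sum_gav_coeff m

theorem gfun_support (m y n : ℕ) (hy : 1 ≤ y) (h : gfun m y n ≠ 0) : n ≤ y ^ 2 ^ m := by
  by_contra hn
  apply h
  unfold gfun gav
  have h1 : ∀ k ≤ m, tau (y ^ 2 ^ k) n = 0 := by
    intro k hk
    unfold tau
    rw [if_neg]
    intro h2
    apply hn
    exact h2.trans (Nat.pow_le_pow_right hy (Nat.pow_le_pow_right (by norm_num) hk))
  beta_reduce
  rw [h1 m le_rfl, mul_zero, add_zero]
  apply Finset.sum_eq_zero
  intro k hk
  rw [Finset.mem_range] at hk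
  rw [h1 k hk.le, mul_zero]

theorem gfun_sq (m y n : ℕ) (hy : 1 ≤ y) :
    gfun m y n ^ 2 = ∑ k ∈ Finset.range m, (3 / 4 : ℝ) * (1 / 4 : ℝ) ^ k * tau (y ^ 2 ^ k) n +
      (1 / 4 : ℝ) ^ m * tau (y ^ 2 ^ m) n := by
  unfold gfun
  rw [(gav_sq (fun k => tau (y ^ 2 ^ k) n) (fun k => tau_zero_or_one _ _)
    (fun k => tau_mono_left (Nat.pow_le_pow_right hy
      (Nat.pow_le_pow_right (by norm_num) (Nat.le_succ k))) n) m).1]
  rfl

/-- The sieve data. -/
noncomputable def mkS (D m y : ℕ) (hy : 1 ≤ y)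
    (hK : 2 ^ m ≤ Fintype.card ι) (hD : 16 * (Fintype.card ι + 2) ^ 2 ≤ D) :
    SData ι (PJ D (y ^ (128 * Fintype.card ι * (m + 1)))) where
  p := fun j => (j : ℕ)
  hp := fun j => by
    have := j.2
    rw [Finset.mem_filter] at this
    exact this.2.two_le
  hpK := fun j => by
    have := j.2
    rw [Finset.mem_filter, Finset.mem_Ioc] at this
    have h1 : Fintype.card ι + 2 ≤ 16 * (Fintype.card ι + 2) ^ 2 := by nlinarith
    omega
  g := gfun m y
  hg0 := gfun_nonneg m y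
  hg1 := gfun_one m y 1 hy
  hg := gfun_anti m y
  R := y ^ (128 * Fintype.card ι * (m + 1))
  hgR := fun n hn => by
    have h1 := gfun_support m y n hy hn
    calc n * n ≤ y ^ 2 ^ m * y ^ 2 ^ m := Nat.mul_le_mul h1 h1
      _ = y ^ (2 ^ m + 2 ^ m) := by rw [pow_add]
      _ ≤ y ^ (128 * Fintype.card ι * (m + 1)) := by
          apply Nat.pow_le_pow_right hy
          nlinarith only [hK]
  hE := by
    have h1 : ∑ j : PJ D (y ^ (128 * Fintype.card ι * (m + 1))),
        (1 / (((j : ℕ) : ℝ) - 1)) ^ 2 ≤ (2 : ℝ) / D := by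
      rw [Finset.sum_coe_sort ((Finset.Ioc D (y ^ (128 * Fintype.card ι * (m + 1)))).filter
        Nat.Prime) (fun n : ℕ => (1 / ((n : ℝ) - 1)) ^ 2)]
      refine (Finset.sum_le_sum_of_subset_of_nonneg (Finset.filter_subset _ _)
        fun _ _ _ => by positivity).trans (sum_inv_sq_le D _ ?_)
      nlinarith
    have hD' : (16 : ℝ) * ((Fintype.card ι : ℝ) + 2) ^ 2 ≤ D := by exact_mod_cast hD
    have hD0 : (0 : ℝ) < D := by
      have : (0 : ℝ) < 16 * ((Fintype.card ι : ℝ) + 2) ^ 2 := by positivity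
      linarith
    calc ((Fintype.card ι : ℝ) + 2) ^ 2 * ∑ j : PJ D (y ^ (128 * Fintype.card ι * (m + 1))),
        (1 / (((j : ℕ) : ℝ) - 1)) ^ 2 ≤ ((Fintype.card ι : ℝ) + 2) ^ 2 * (2 / D) :=
          mul_le_mul_of_nonneg_left h1 (by positivity)
      _ ≤ 1 / 8 := by
          rw [mul_div_assoc', div_le_div_iff₀ hD0 (by norm_num)]
          linarith

theorem exists_sdata_of (D m : ℕ) (H : OneDimStatement D) (hm : 1 ≤ m)
    (hK : 2 ^ m ≤ Fintype.card ι) (hD : 16 * (Fintype.card ι + 2) ^ 2 ≤ D) :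
    ∃ y0 : ℕ, ∀ y : ℕ, y0 ≤ y →
      ∃ S : SData ι (PJ D (y ^ (128 * Fintype.card ι * (m + 1)))),
        (∀ j, S.p j = (j : ℕ)) ∧ S.R = y ^ (128 * Fintype.card ι * (m + 1)) ∧
        (m : ℝ) * kapD D * Real.log y / 8 ≤ S.A1 ∧
        S.A1 ≤ ((m : ℝ) + 2) * kapD D * Real.log y ∧
        kapD D * Real.log y / 4 ≤ S.A2 ∧ S.A2 ≤ 4 * kapD D * Real.log y ∧
        16 * (Fintype.card ι : ℝ) * S.B1 ≤ S.A2 * Real.log S.R ∧
        kapD D * (128 * (Fintype.card ι : ℝ) * (m + 1)) * Real.log y / 4 ≤ S.G0 S.R := by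
  obtain ⟨T0, hT⟩ := H
  refine ⟨max T0 2, fun y hy => ?_⟩
  have hyT : T0 ≤ y := (le_max_left _ _).trans hy
  have hy2 : 2 ≤ y := (le_max_right _ _).trans hy
  have hy1 : 1 ≤ y := by omega
  set K := Fintype.card ι with hKdef
  set M := 128 * K * (m + 1) with hM
  have hK1 : 1 ≤ K := le_trans Nat.one_le_two_pow hK
  let S : SData ι (PJ D (y ^ M)) := mkS D m y hy1 hK hD
  set L : ℝ := Real.log y with hL
  have hL0 : 0 < L := Real.log_pos (by exact_mod_cast (show 1 < y by omega))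
  set κ : ℝ := kapD D with hκ
  have hκ0 : 0 ≤ κ := by
    rw [hκ, kapD]
    apply Finset.prod_nonneg
    intro p hp
    rw [Finset.mem_filter] at hp
    have : (2 : ℝ) ≤ p := by exact_mod_cast hp.2.two_le
    rw [sub_nonneg, div_le_one (by linarith)]
    linarith
  have hG : ∀ e : ℕ, 1 ≤ e → e ≤ M → κ * (e * L) / 4 ≤ S.G0 (y ^ e) ∧
      S.G0 (y ^ e) ≤ 2 * κ * (e * L) := by
    intro e he heM
    have h1 := hT (y ^ e) (y ^ M) (hyT.trans (Nat.le_self_pow (by omega) y))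
      (Nat.pow_le_pow_right hy1 heM)
    have h2 : (∑ a : Finset (PJ D (y ^ M)), if nn (fun j : PJ D (y ^ M) => (j : ℕ)) a ≤ y ^ e then
        pw (fun j : PJ D (y ^ M) => 1 / ((j : ℕ) : ℝ)) a else 0) = S.G0 (y ^ e) := by
      unfold SData.G0
      apply Finset.sum_congr rfl
      intro a _
      change _ = pw (fun j : PJ D (y ^ M) => 1 / ((j : ℕ) : ℝ)) a *
        tau (y ^ e) (nn (fun j : PJ D (y ^ M) => (j : ℕ)) a)
      unfold tau
      split_ifs <;> ring
    rw [h2] at h1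
    have h3 : Real.log ((y ^ e : ℕ) : ℝ) = e * L := by
      push_cast
      rw [Real.log_pow]
    rw [h3] at h1
    exact h1
  have h2M : ∀ k ≤ m, 1 ≤ 2 ^ k ∧ 2 ^ k ≤ M := by
    intro k hk
    refine ⟨Nat.one_le_two_pow, ?_⟩
    calc 2 ^ k ≤ 2 ^ m := Nat.pow_le_pow_right (by norm_num) hk
      _ ≤ K := hK
      _ ≤ M := by rw [hM]; nlinarith only [hK1]
  have hGk : ∀ k ≤ m, κ * ((2 : ℝ) ^ k * L) / 4 ≤ S.G0 (y ^ 2 ^ k) ∧
      S.G0 (y ^ 2 ^ k) ≤ 2 * κ * ((2 : ℝ) ^ k * L) := by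
    intro k hk
    have h1 := hG (2 ^ k) (h2M k hk).1 (h2M k hk).2
    push_cast at h1
    exact h1
  have hpw0 : ∀ a, 0 ≤ pw S.x a := fun a => pw_nonneg (fun j => (S.x_pos j).le) a
  have hnn1 : ∀ a, 1 ≤ nn S.p a := fun a => nn_pos S.p_one a
  -- expansions
  have hA1 : S.A1 = ∑ k ∈ Finset.range m, (1 / 2 : ℝ) ^ (k + 1) * S.G0 (y ^ 2 ^ k) +
      (1 / 2 : ℝ) ^ m * S.G0 (y ^ 2 ^ m) := by
    unfold SData.A1 SData.G0
    simp_rw [Finset.mul_sum]
    rw [Finset.sum_comm, ← Finset.sum_add_distrib]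
    apply Finset.sum_congr rfl
    intro a _
    change pw S.x a * gfun m y (nn S.p a) = _
    unfold gfun gav
    rw [mul_add, Finset.mul_sum]
    congr 1
    · apply Finset.sum_congr rfl
      intro k _
      ring
    · ring
  have hA2 : S.A2 = ∑ k ∈ Finset.range m, (3 / 4 : ℝ) * (1 / 4 : ℝ) ^ k * S.G0 (y ^ 2 ^ k) +
      (1 / 4 : ℝ) ^ m * S.G0 (y ^ 2 ^ m) := by
    unfold SData.A2 SData.G0
    simp_rw [Finset.mul_sum]
    rw [Finset.sum_comm, ← Finset.sum_add_distrib]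
    apply Finset.sum_congr rfl
    intro a _
    change pw S.x a * gfun m y (nn S.p a) ^ 2 = _
    rw [gfun_sq m y _ hy1, mul_add, Finset.mul_sum]
    congr 1
    · apply Finset.sum_congr rfl
      intro k _
      ring
    · ring
  have hhalf : ∀ k : ℕ, (1 / 2 : ℝ) ^ k * 2 ^ k = 1 := by
    intro k
    rw [← mul_pow]
    norm_num
  have hquart : ∀ k : ℕ, (1 / 4 : ℝ) ^ k * 2 ^ k * 2 ^ k = 1 := by
    intro k
    rw [← mul_pow, ← mul_pow]
    norm_num
  have hquart1 : ∀ k : ℕ, (1 / 4 : ℝ) ^ k * 2 ^ k = (1 / 2) ^ k := by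
    intro k
    rw [← mul_pow]
    norm_num
  refine ⟨S, fun j => rfl, rfl, ?_, ?_, ?_, ?_, ?_, ?_⟩
  · -- lower bound for A1
    rw [hA1]
    have h1 : ∑ k ∈ Finset.range m, κ * L / 8 ≤
        ∑ k ∈ Finset.range m, (1 / 2 : ℝ) ^ (k + 1) * S.G0 (y ^ 2 ^ k) := by
      apply Finset.sum_le_sum
      intro k hk
      rw [Finset.mem_range] at hk
      calc κ * L / 8 = ((1 / 2 : ℝ) ^ k * 2 ^ k) * (κ * L / 8) := by rw [hhalf]; ring
        _ = (1 / 2 : ℝ) ^ (k + 1) * (κ * ((2 : ℝ) ^ k * L) / 4) := by rw [pow_succ]; ring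
        _ ≤ _ := mul_le_mul_of_nonneg_left (hGk k hk.le).1 (by positivity)
    rw [Finset.sum_const, Finset.card_range, nsmul_eq_mul] at h1
    have h2 : 0 ≤ (1 / 2 : ℝ) ^ m * S.G0 (y ^ 2 ^ m) := by
      apply mul_nonneg (by positivity)
      have := (hGk m le_rfl).1
      have h3 : 0 ≤ κ * ((2 : ℝ) ^ m * L) / 4 := by (clear * - hκ0 hL0; positivity)
      linarith only [this, h3]
    calc (m : ℝ) * κ * L / 8 = (m : ℝ) * (κ * L / 8) := by ring
      _ ≤ _ := by linarith only [h1, h2]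
  · rw [hA1]
    have h1 : ∑ k ∈ Finset.range m, (1 / 2 : ℝ) ^ (k + 1) * S.G0 (y ^ 2 ^ k) ≤
        ∑ k ∈ Finset.range m, κ * L := by
      apply Finset.sum_le_sum
      intro k hk
      rw [Finset.mem_range] at hk
      calc (1 / 2 : ℝ) ^ (k + 1) * S.G0 (y ^ 2 ^ k) ≤
          (1 / 2 : ℝ) ^ (k + 1) * (2 * κ * ((2 : ℝ) ^ k * L)) :=
            mul_le_mul_of_nonneg_left (hGk k hk.le).2 (by positivity)
        _ = ((1 / 2 : ℝ) ^ k * 2 ^ k) * (κ * L) := by rw [pow_succ]; ring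
        _ = κ * L := by rw [hhalf]; ring
    rw [Finset.sum_const, Finset.card_range, nsmul_eq_mul] at h1
    have h2 : (1 / 2 : ℝ) ^ m * S.G0 (y ^ 2 ^ m) ≤ 2 * (κ * L) := by
      calc (1 / 2 : ℝ) ^ m * S.G0 (y ^ 2 ^ m) ≤ (1 / 2 : ℝ) ^ m * (2 * κ * ((2 : ℝ) ^ m * L)) :=
            mul_le_mul_of_nonneg_left (hGk m le_rfl).2 (by positivity)
        _ = ((1 / 2 : ℝ) ^ m * 2 ^ m) * (2 * (κ * L)) := by ring
        _ = 2 * (κ * L) := by rw [hhalf]; ring
    calc _ ≤ (m : ℝ) * (κ * L) + 2 * (κ * L) := add_le_add h1 h2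
      _ = _ := by ring
  · -- lower bound for A2
    have h1 : S.G0 y ≤ S.A2 := by
      unfold SData.G0 SData.A2
      apply Finset.sum_le_sum
      intro a _
      apply mul_le_mul_of_nonneg_left _ (hpw0 a)
      change tau y (nn S.p a) ≤ gfun m y (nn S.p a) ^ 2
      unfold tau
      split_ifs with h
      · rw [gfun_one m y _ h]; norm_num
      · (clear * -; positivity)
    have h2 := (hG 1 le_rfl (h2M 0 (Nat.zero_le _)).2).1
    rw [pow_one] at h2
    push_cast at h2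
    rw [one_mul] at h2
    linarith only [h1, h2]
  · rw [hA2]
    have h1 : ∑ k ∈ Finset.range m, (3 / 4 : ℝ) * (1 / 4 : ℝ) ^ k * S.G0 (y ^ 2 ^ k) ≤
        ∑ k ∈ Finset.range m, (3 * κ * L) * (1 / 2 : ℝ) ^ (k + 1) := by
      apply Finset.sum_le_sum
      intro k hk
      rw [Finset.mem_range] at hk
      calc (3 / 4 : ℝ) * (1 / 4 : ℝ) ^ k * S.G0 (y ^ 2 ^ k) ≤
          (3 / 4 : ℝ) * (1 / 4 : ℝ) ^ k * (2 * κ * ((2 : ℝ) ^ k * L)) :=
            mul_le_mul_of_nonneg_left (hGk k hk.le).2 (by positivity)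
        _ = ((1 / 4 : ℝ) ^ k * 2 ^ k) * (3 / 2 * κ * L) := by ring
        _ = (3 * κ * L) * (1 / 2 : ℝ) ^ (k + 1) := by rw [hquart1, pow_succ]; ring
    rw [← Finset.mul_sum] at h1
    have h2 : (1 / 4 : ℝ) ^ m * S.G0 (y ^ 2 ^ m) ≤ (2 * κ * L) * (1 / 2 : ℝ) ^ m := by
      calc (1 / 4 : ℝ) ^ m * S.G0 (y ^ 2 ^ m) ≤ (1 / 4 : ℝ) ^ m * (2 * κ * ((2 : ℝ) ^ m * L)) :=
            mul_le_mul_of_nonneg_left (hGk m le_rfl).2 (by positivity)
        _ = ((1 / 4 : ℝ) ^ m * 2 ^ m) * (2 * κ * L) := by ring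
        _ = _ := by rw [hquart1]; ring
    have h3 := sum_gav_coeff m
    have h4 : 0 ≤ κ * L := by (clear * - hκ0 hL0; positivity)
    have h5 : 0 ≤ (κ * L) * (1 / 2 : ℝ) ^ m := by (clear * - hκ0 hL0; positivity)
    have h6 : (3 * κ * L) * ∑ k ∈ Finset.range m, (1 / 2 : ℝ) ^ (k + 1) +
        (3 * κ * L) * (1 / 2 : ℝ) ^ m = 3 * κ * L := by
      rw [← mul_add, h3, mul_one]
    nlinarith only [h1, h2, h4, h5, h6]
  · -- B1
    have hlogle : ∀ k a, tau (y ^ 2 ^ k) (nn S.p a) * Real.log (nn S.p a) ≤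
        tau (y ^ 2 ^ k) (nn S.p a) * ((2 : ℝ) ^ k * L) := by
      intro k a
      unfold tau
      split_ifs with h
      · rw [one_mul, one_mul]
        have h1 : (0 : ℝ) < nn S.p a := by exact_mod_cast hnn1 a
        have h2 : (nn S.p a : ℝ) ≤ ((y ^ 2 ^ k : ℕ) : ℝ) := by exact_mod_cast h
        have h3 := Real.log_le_log h1 h2
        push_cast at h3
        rw [Real.log_pow] at h3
        push_cast at h3
        exact h3
      · simp
    have hB1 : S.B1 ≤ ∑ k ∈ Finset.range m, (3 / 4 : ℝ) * (1 / 4 : ℝ) ^ k *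
        (((2 : ℝ) ^ k * L) * S.G0 (y ^ 2 ^ k)) +
        (1 / 4 : ℝ) ^ m * (((2 : ℝ) ^ m * L) * S.G0 (y ^ 2 ^ m)) := by
      unfold SData.B1 SData.G0
      simp_rw [Finset.mul_sum]
      rw [Finset.sum_comm, ← Finset.sum_add_distrib]
      apply Finset.sum_le_sum
      intro a _
      change pw S.x a * gfun m y (nn S.p a) ^ 2 * Real.log (nn S.p a) ≤ _
      rw [gfun_sq m y _ hy1, mul_add, add_mul, Finset.mul_sum, Finset.sum_mul]
      apply add_le_add
      · apply Finset.sum_le_sum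
        intro k _
        calc pw S.x a * ((3 / 4 : ℝ) * (1 / 4 : ℝ) ^ k * tau (y ^ 2 ^ k) (nn S.p a)) *
              Real.log (nn S.p a) = (pw S.x a * ((3 / 4 : ℝ) * (1 / 4 : ℝ) ^ k)) *
              (tau (y ^ 2 ^ k) (nn S.p a) * Real.log (nn S.p a)) := by ring
          _ ≤ (pw S.x a * ((3 / 4 : ℝ) * (1 / 4 : ℝ) ^ k)) *
              (tau (y ^ 2 ^ k) (nn S.p a) * ((2 : ℝ) ^ k * L)) :=
              mul_le_mul_of_nonneg_left (hlogle k a) (mul_nonneg (hpw0 a) (by positivity))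
          _ = _ := by ring
      · calc pw S.x a * ((1 / 4 : ℝ) ^ m * tau (y ^ 2 ^ m) (nn S.p a)) *
              Real.log (nn S.p a) = (pw S.x a * ((1 / 4 : ℝ) ^ m)) *
              (tau (y ^ 2 ^ m) (nn S.p a) * Real.log (nn S.p a)) := by ring
          _ ≤ (pw S.x a * ((1 / 4 : ℝ) ^ m)) *
              (tau (y ^ 2 ^ m) (nn S.p a) * ((2 : ℝ) ^ m * L)) :=
              mul_le_mul_of_nonneg_left (hlogle m a) (mul_nonneg (hpw0 a) (by positivity))
          _ = _ := by ring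
    have hB2 : S.B1 ≤ 2 * ((m : ℝ) + 1) * κ * L ^ 2 := by
      have h1 : ∑ k ∈ Finset.range m, (3 / 4 : ℝ) * (1 / 4 : ℝ) ^ k *
          (((2 : ℝ) ^ k * L) * S.G0 (y ^ 2 ^ k)) ≤ ∑ k ∈ Finset.range m, 2 * (κ * L ^ 2) := by
        apply Finset.sum_le_sum
        intro k hk
        rw [Finset.mem_range] at hk
        calc (3 / 4 : ℝ) * (1 / 4 : ℝ) ^ k * (((2 : ℝ) ^ k * L) * S.G0 (y ^ 2 ^ k))
            ≤ (3 / 4 : ℝ) * (1 / 4 : ℝ) ^ k * (((2 : ℝ) ^ k * L) * (2 * κ * ((2 : ℝ) ^ k * L))) := by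
              apply mul_le_mul_of_nonneg_left _ (by positivity)
              exact mul_le_mul_of_nonneg_left (hGk k hk.le).2 (by positivity)
          _ = ((1 / 4 : ℝ) ^ k * 2 ^ k * 2 ^ k) * (3 / 2 * (κ * L ^ 2)) := by ring
          _ = 3 / 2 * (κ * L ^ 2) := by rw [hquart]; ring
          _ ≤ 2 * (κ * L ^ 2) := by
              apply mul_le_mul_of_nonneg_right (by norm_num) (by (clear * - hκ0 hL0; positivity))
      rw [Finset.sum_const, Finset.card_range, nsmul_eq_mul] at h1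
      have h2 : (1 / 4 : ℝ) ^ m * (((2 : ℝ) ^ m * L) * S.G0 (y ^ 2 ^ m)) ≤ 2 * (κ * L ^ 2) := by
        calc (1 / 4 : ℝ) ^ m * (((2 : ℝ) ^ m * L) * S.G0 (y ^ 2 ^ m))
            ≤ (1 / 4 : ℝ) ^ m * (((2 : ℝ) ^ m * L) * (2 * κ * ((2 : ℝ) ^ m * L))) := by
              apply mul_le_mul_of_nonneg_left _ (by positivity)
              exact mul_le_mul_of_nonneg_left (hGk m le_rfl).2 (by positivity)
          _ = ((1 / 4 : ℝ) ^ m * 2 ^ m * 2 ^ m) * (2 * (κ * L ^ 2)) := by ring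
          _ = 2 * (κ * L ^ 2) := by rw [hquart]; ring
      calc S.B1 ≤ _ := hB1
        _ ≤ (m : ℝ) * (2 * (κ * L ^ 2)) + 2 * (κ * L ^ 2) := add_le_add h1 h2
        _ = _ := by ring
    have hA2low : κ * L / 4 ≤ S.A2 := by
      have h1 : S.G0 y ≤ S.A2 := by
        unfold SData.G0 SData.A2
        apply Finset.sum_le_sum
        intro a _
        apply mul_le_mul_of_nonneg_left _ (hpw0 a)
        change tau y (nn S.p a) ≤ gfun m y (nn S.p a) ^ 2
        unfold tau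
        split_ifs with h
        · rw [gfun_one m y _ h]; norm_num
        · (clear * -; positivity)
      have h2 := (hG 1 le_rfl (h2M 0 (Nat.zero_le _)).2).1
      rw [pow_one] at h2
      push_cast at h2
      rw [one_mul] at h2
      linarith only [h1, h2]
    have hlogR : Real.log ((y ^ M : ℕ) : ℝ) = M * L := by
      push_cast
      rw [Real.log_pow]
    have hMr : (M : ℝ) = 128 * K * (m + 1) := by
      rw [hM]; push_cast; ring
    change 16 * (K : ℝ) * S.B1 ≤ S.A2 * Real.log ((y ^ M : ℕ) : ℝ)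
    rw [hlogR, hMr]
    calc 16 * (K : ℝ) * S.B1 ≤ 16 * (K : ℝ) * (2 * ((m : ℝ) + 1) * κ * L ^ 2) :=
          mul_le_mul_of_nonneg_left hB2 (by positivity)
      _ = (κ * L / 4) * (128 * K * (m + 1) * L) := by ring
      _ ≤ S.A2 * (128 * K * (m + 1) * L) :=
          mul_le_mul_of_nonneg_right hA2low (by positivity)
  · have h1 : 1 ≤ M := (h2M 0 (Nat.zero_le _)).2
    have h2 := (hG M h1 le_rfl).1
    have hMr : (M : ℝ) = 128 * K * (m + 1) := by
      rw [hM]; push_cast; ring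
    rw [hMr] at h2
    change _ ≤ S.G0 (y ^ M)
    refine le_trans (le_of_eq ?_) h2
    ring

end mk

end Pool.Agent.MP89da58
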