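import Mathlib

set_option autoImplicit false
set_option linter.unusedSectionVars false

/-!
Tensor calculus for the sieve: operators which are tensor products of local matrices over a finite
index type `J` (the primes), acting on functions of assignments `J → Option ι`.
-/

namespace Pool.Agent.MP89da58

variable {ι : Type} [Fintype ι] [DecidableEq ι] {J : Type} [Fintype J] [DecidableEq J]

/-- The operator attached to a family of local matrices. -/
noncomputable def op (M : J → Option ι → Option ι → ℝ) (f : (J → Option ι) → ℝ)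
    (u : J → Option ι) : ℝ :=
  ∑ α : J → Option ι, (∏ j, M j (u j) (α j)) * f α

theorem op_comp (M M' : J → Option ι → Option ι → ℝ) (f : (J → Option ι) → ℝ) :
    op M (op M' f) = op (fun j a b => ∑ c, M j a c * M' j c b) f := by
  funext u
  unfold op
  simp_rw [Finset.mul_sum]
  rw [Finset.sum_comm]
  refine Finset.sum_congr rfl fun β _ => ?_
  rw [Finset.prod_univ_sum, Fintype.piFinset_univ, Finset.sum_mul]
  refine Finset.sum_congr rfl fun α _ => ?_
  rw [Finset.prod_mul_distrib]
  ring

/-- The local identity. -/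
def idm (a b : Option ι) : ℝ := if a = b then 1 else 0

theorem op_id (f : (J → Option ι) → ℝ) : op (fun _ => idm) f = f := by
  funext u
  unfold op
  rw [Finset.sum_eq_single u]
  · simp [idm]
  · intro β _ hβ
    obtain ⟨j, hj⟩ := Function.ne_iff.mp hβ
    rw [Finset.prod_eq_zero (Finset.mem_univ j), zero_mul]
    simp only [idm]
    rw [if_neg (Ne.symm hj)]
  · intro h
    exact absurd (Finset.mem_univ _) h

/-- The triangular local matrix `T x`. -/
def tm (x : ℝ) : Option ι → Option ι → ℝ
  | none, none => 1
  | none, some _ => x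
  | some _, none => 0
  | some i, some j => if i = j then 1 else 0

/-- The local covariance-type kernel. -/
def kap (x : ℝ) : Option ι → Option ι → ℝ
  | none, none => 1
  | none, some _ => x
  | some _, none => x
  | some i, some j => if i = j then x else 0

/-- The local weight equal to `1` at `none` and `y` elsewhere. -/
def wt (y : ℝ) : Option ι → ℝ
  | none => 1
  | some _ => y

theorem tm_mul (x y : ℝ) (a b : Option ι) :
    ∑ c, tm x a c * tm y c b = tm (x + y) a b := by
  rw [Fintype.sum_option]
  rcases a with _ | a <;> rcases b with _ | b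
  · simp [tm]
  · simp [tm]; ring
  · simp [tm]
  · simp [tm]

theorem tm_zero (a b : Option ι) : tm (0 : ℝ) a b = idm a b := by
  rcases a with _ | a <;> rcases b with _ | b <;> simp [tm, idm]

theorem op_tm_neg (x : J → ℝ) (f : (J → Option ι) → ℝ) :
    op (fun j => tm (x j)) (op (fun j => tm (-x j)) f) = f := by
  rw [op_comp]
  have : (fun j (a b : Option ι) => ∑ c, tm (x j) a c * tm (-x j) c b) = fun _ => idm := by
    funext j a b
    rw [tm_mul, add_neg_cancel, tm_zero]
  rw [this, op_id]

/-- The bilinear form with kernel `∏ kap`. -/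
noncomputable def bil (x : J → ℝ) (f g : (J → Option ι) → ℝ) : ℝ :=
  ∑ u : J → Option ι, ∑ v : J → Option ι, f u * g v * ∏ j, kap (x j) (u j) (v j)

theorem kap_symm (x : ℝ) (a b : Option ι) : kap x a b = kap x b a := by
  rcases a with _ | a <;> rcases b with _ | b <;> simp [kap, eq_comm]

theorem bil_symm (x : J → ℝ) (f g : (J → Option ι) → ℝ) : bil x f g = bil x g f := by
  unfold bil
  rw [Finset.sum_comm]
  refine Finset.sum_congr rfl fun v _ => Finset.sum_congr rfl fun u _ => ?_
  rw [Finset.prod_congr rfl fun j _ => kap_symm (x j) (u j) (v j)]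
  ring

theorem bil_add_left (x : J → ℝ) (f f' g : (J → Option ι) → ℝ) :
    bil x (fun u => f u + f' u) g = bil x f g + bil x f' g := by
  unfold bil
  rw [← Finset.sum_add_distrib]
  refine Finset.sum_congr rfl fun u _ => ?_
  rw [← Finset.sum_add_distrib]
  refine Finset.sum_congr rfl fun v _ => ?_
  ring

theorem bil_smul_left (x : J → ℝ) (c : ℝ) (f g : (J → Option ι) → ℝ) :
    bil x (fun u => c * f u) g = c * bil x f g := by
  unfold bil
  rw [Finset.mul_sum]
  refine Finset.sum_congr rfl fun u _ => ?_
  rw [Finset.mul_sum]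
  refine Finset.sum_congr rfl fun v _ => ?_
  ring

theorem bil_zero_left (x : J → ℝ) (g : (J → Option ι) → ℝ) :
    bil x (fun _ => 0) g = 0 := by
  unfold bil
  simp

theorem bil_sum_left {κ : Type} (s : Finset κ) (x : J → ℝ) (f : κ → (J → Option ι) → ℝ)
    (g : (J → Option ι) → ℝ) :
    bil x (fun u => ∑ k ∈ s, f k u) g = ∑ k ∈ s, bil x (f k) g := by
  classical
  induction s using Finset.induction_on with
  | empty => simp [bil_zero_left]
  | insert a s ha ih =>
    simp only [Finset.sum_insert ha]
    rw [bil_add_left, ih]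

theorem bil_add_right (x : J → ℝ) (f g g' : (J → Option ι) → ℝ) :
    bil x f (fun u => g u + g' u) = bil x f g + bil x f g' := by
  rw [bil_symm, bil_add_left, bil_symm x g, bil_symm x g']

theorem bil_smul_right (x : J → ℝ) (c : ℝ) (f g : (J → Option ι) → ℝ) :
    bil x f (fun u => c * g u) = c * bil x f g := by
  rw [bil_symm, bil_smul_left, bil_symm x g]

theorem bil_sum_right {κ : Type} (s : Finset κ) (x : J → ℝ) (f : (J → Option ι) → ℝ)
    (g : κ → (J → Option ι) → ℝ) :
    bil x f (fun u => ∑ k ∈ s, g k u) = ∑ k ∈ s, bil x f (g k) := by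
  rw [bil_symm, bil_sum_left]
  exact Finset.sum_congr rfl fun k _ => bil_symm x _ _

/-- Splitting off one coordinate. -/
def cns (a : Option ι) (u : J → Option ι) : Option J → Option ι :=
  fun o => o.elim a u

omit [Fintype ι] [DecidableEq ι] [Fintype J] [DecidableEq J] in
@[simp] theorem cns_none (a : Option ι) (u : J → Option ι) : cns a u none = a := rfl

omit [Fintype ι] [DecidableEq ι] [Fintype J] [DecidableEq J] in
@[simp] theorem cns_some (a : Option ι) (u : J → Option ι) (j : J) : cns a u (some j) = u j := rfl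

theorem sum_cns (F : (Option J → Option ι) → ℝ) :
    ∑ u : Option J → Option ι, F u = ∑ a : Option ι, ∑ u : J → Option ι, F (cns a u) := by
  rw [← Fintype.sum_prod_type']
  refine Fintype.sum_equiv (Equiv.piOptionEquivProd (β := fun _ => Option ι)) _ _ ?_
  intro u
  congr 1
  funext o
  rcases o with _ | j <;> rfl

theorem bil_option (x : Option J → ℝ) (f g : (Option J → Option ι) → ℝ) :
    bil x f g = ∑ a : Option ι, ∑ b : Option ι,
      kap (x none) a b * bil (fun j => x (some j)) (fun u => f (cns a u)) (fun u => g (cns b u)) := by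
  unfold bil
  rw [sum_cns]
  refine Finset.sum_congr rfl fun a _ => ?_
  simp_rw [sum_cns (fun v => _ * g v * _)]
  rw [Finset.sum_comm]
  refine Finset.sum_congr rfl fun b _ => ?_
  rw [Finset.mul_sum]
  refine Finset.sum_congr rfl fun u _ => ?_
  rw [Finset.mul_sum]
  refine Finset.sum_congr rfl fun v _ => ?_
  rw [Fintype.prod_option]
  simp only [cns_none, cns_some]
  ring

theorem op_tm_none (x : Option J → ℝ) (f : (Option J → Option ι) → ℝ) (u : J → Option ι) :
    op (fun o => tm (x o)) f (cns none u) =
      op (fun j => tm (x (some j)))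
        (fun α => f (cns none α) + x none * ∑ i, f (cns (some i) α)) u := by
  unfold op
  rw [sum_cns, Fintype.sum_option]
  simp only [Fintype.prod_option, cns_none, cns_some, tm]
  rw [Finset.sum_comm, ← Finset.sum_add_distrib]
  refine Finset.sum_congr rfl fun α _ => ?_
  rw [mul_add, one_mul, Finset.mul_sum, Finset.mul_sum]
  congr 1
  refine Finset.sum_congr rfl fun i _ => ?_
  ring

theorem op_tm_some (x : Option J → ℝ) (f : (Option J → Option ι) → ℝ) (i : ι)
    (u : J → Option ι) :
    op (fun o => tm (x o)) f (cns (some i) u) =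
      op (fun j => tm (x (some j))) (fun α => f (cns (some i) α)) u := by
  unfold op
  rw [sum_cns, Fintype.sum_option]
  simp only [Fintype.prod_option, cns_none, cns_some, tm]
  rw [Finset.sum_eq_zero (by intro α _; ring), zero_add, Finset.sum_eq_single i]
  · refine Finset.sum_congr rfl fun α _ => ?_
    simp
  · intro b _ hb
    refine Finset.sum_eq_zero fun α _ => ?_
    rw [if_neg (Ne.symm hb)]
    ring
  · intro h
    exact absurd (Finset.mem_univ _) h

/-- The two-sided inequality for the kernel `∏ kap`, as a property of the index type. -/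
def BB (ι : Type) [Fintype ι] [DecidableEq ι] (J : Type) [Fintype J] [DecidableEq J] : Prop :=
  ∀ x : J → ℝ, (∀ j, 0 ≤ x j ∧ (Fintype.card ι : ℝ) * x j ≤ 1) →
    ∀ f : (J → Option ι) → ℝ,
      (∑ u : J → Option ι, (op (fun j => tm (x j)) f u) ^ 2 *
          ∏ j, wt (x j * (1 - (Fintype.card ι : ℝ) * x j)) (u j) ≤ bil x f f) ∧
      (bil x f f ≤ ∑ u : J → Option ι, (op (fun j => tm (x j)) f u) ^ 2 *
          ∏ j, wt (x j) (u j))

theorem BB_equiv {J' : Type} [Fintype J'] [DecidableEq J'] (e : J ≃ J') (h : BB ι J) :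
    BB ι J' := by
  intro x' hx' f'
  have h1 := h (fun j => x' (e j)) (fun j => hx' (e j)) (fun u => f' (fun j' => u (e.symm j')))
  have E : (J → Option ι) ≃ (J' → Option ι) := Equiv.arrowCongr e (Equiv.refl _)
  have hop : ∀ u : J → Option ι,
      op (fun j => tm (x' (e j))) (fun u => f' (fun j' => u (e.symm j'))) u =
      op (fun j => tm (x' j)) f' (fun j' => u (e.symm j')) := by
    intro u
    unfold op
    refine Fintype.sum_equiv (Equiv.arrowCongr e (Equiv.refl _)) _ _ ?_
    intro α
    have : (Equiv.arrowCongr e (Equiv.refl (Option ι))) α = fun j' => α (e.symm j') := by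
      funext j'; rfl
    rw [this]
    congr 1
    refine Fintype.prod_equiv e _ _ ?_
    intro j
    simp
  have hbil : bil (fun j => x' (e j)) (fun u => f' (fun j' => u (e.symm j')))
      (fun u => f' (fun j' => u (e.symm j'))) = bil x' f' f' := by
    unfold bil
    refine Fintype.sum_equiv (Equiv.arrowCongr e (Equiv.refl _)) _ _ ?_
    intro u
    have hu : (Equiv.arrowCongr e (Equiv.refl (Option ι))) u = fun j' => u (e.symm j') := by
      funext j'; rfl
    rw [hu]
    refine Fintype.sum_equiv (Equiv.arrowCongr e (Equiv.refl _)) _ _ ?_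
    intro v
    have hv : (Equiv.arrowCongr e (Equiv.refl (Option ι))) v = fun j' => v (e.symm j') := by
      funext j'; rfl
    rw [hv]
    congr 1
    refine Fintype.prod_equiv e _ _ ?_
    intro j
    simp
  have hs : ∀ y : J' → ℝ, ∑ u : J → Option ι,
      (op (fun j => tm (x' (e j))) (fun u => f' (fun j' => u (e.symm j'))) u) ^ 2 *
          ∏ j, wt (y (e j)) (u j) =
      ∑ u : J' → Option ι, (op (fun j => tm (x' j)) f' u) ^ 2 * ∏ j, wt (y j) (u j) := by
    intro y
    refine Fintype.sum_equiv (Equiv.arrowCongr e (Equiv.refl _)) _ _ ?_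
    intro u
    have hu : (Equiv.arrowCongr e (Equiv.refl (Option ι))) u = fun j' => u (e.symm j') := by
      funext j'; rfl
    rw [hu, hop]
    congr 1
    refine Fintype.prod_equiv e _ _ ?_
    intro j
    simp
  rw [hbil, hs x', hs (fun j => x' j * (1 - (Fintype.card ι : ℝ) * x' j))] at h1
  exact h1

theorem BB_empty : BB ι (Fin 0) := by
  intro x hx f
  constructor
  · simp [op, bil]
    exact le_of_eq (sq _)
  · simp [op, bil]
    exact le_of_eq (sq _).symm

theorem bil_nonneg_of_BB (h : BB ι J) (x : J → ℝ)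
    (hx : ∀ j, 0 ≤ x j ∧ (Fintype.card ι : ℝ) * x j ≤ 1) (f : (J → Option ι) → ℝ) :
    0 ≤ bil x f f := by
  refine le_trans ?_ (h x hx f).1
  refine Finset.sum_nonneg fun u _ => mul_nonneg (sq_nonneg _) (Finset.prod_nonneg fun j _ => ?_)
  rcases u j with _ | i
  · simp [wt]
  · simp only [wt]
    exact mul_nonneg (hx j).1 (by linarith [(hx j).2])

theorem bil_sum_sq_le (h : BB ι J) (x : J → ℝ)
    (hx : ∀ j, 0 ≤ x j ∧ (Fintype.card ι : ℝ) * x j ≤ 1) (f : ι → (J → Option ι) → ℝ) :
    bil x (fun u => ∑ i, f i u) (fun u => ∑ i, f i u) ≤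
      (Fintype.card ι : ℝ) * ∑ i, bil x (f i) (f i) := by
  have h1 : ∀ i k, 2 * bil x (f i) (f k) ≤ bil x (f i) (f i) + bil x (f k) (f k) := by
    intro i k
    have h2 := bil_nonneg_of_BB h x hx (fun u => f i u + (-1) * f k u)
    rw [bil_add_left, bil_add_right, bil_add_right, bil_smul_left, bil_smul_left,
      bil_smul_right, bil_smul_right, bil_symm x (f k) (f i)] at h2
    linarith
  rw [bil_sum_left]
  simp_rw [bil_sum_right]
  have h3 : ∑ i, ∑ k, bil x (f i) (f k) ≤
      ∑ i, ∑ k, (bil x (f i) (f i) + bil x (f k) (f k)) / 2 :=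
    Finset.sum_le_sum fun i _ => Finset.sum_le_sum fun k _ => by linarith [h1 i k]
  refine le_trans h3 (le_of_eq ?_)
  simp only [add_div, Finset.sum_add_distrib, Finset.sum_const, Finset.card_univ, nsmul_eq_mul,
    ← Finset.mul_sum, ← Finset.sum_div]
  ring

theorem BB_option (h : BB ι J) : BB ι (Option J) := by
  intro x hx f
  set x' : J → ℝ := fun j => x (some j) with hx'
  have hx1 : ∀ j, 0 ≤ x' j ∧ (Fintype.card ι : ℝ) * x' j ≤ 1 := fun j => hx (some j)
  set g : (J → Option ι) → ℝ := fun α => f (cns none α) + x none * ∑ i, f (cns (some i) α) with hg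
  set fi : ι → (J → Option ι) → ℝ := fun i α => f (cns (some i) α) with hfi
  set fn : (J → Option ι) → ℝ := fun α => f (cns none α) with hfn
  set s : (J → Option ι) → ℝ := fun α => ∑ i, fi i α with hs
  have hgg : bil x' g g = bil x' fn fn + 2 * x none * ∑ i, bil x' fn (fi i) +
      x none ^ 2 * bil x' s s := by
    have : g = fun α => fn α + x none * s α := by
      funext α; rfl
    rw [this, bil_add_left, bil_add_right, bil_add_right, bil_smul_left, bil_smul_left,
      bil_smul_right, bil_smul_right, bil_symm x' s fn]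
    have h5 : bil x' fn s = ∑ i, bil x' fn (fi i) := by
      rw [hs, bil_sum_right]
    rw [h5]
    ring
  have hff : bil x f f = bil x' fn fn + 2 * x none * ∑ i, bil x' fn (fi i) +
      x none * ∑ i, bil x' (fi i) (fi i) := by
    rw [bil_option, Fintype.sum_option, Fintype.sum_option]
    simp only [Fintype.sum_option, kap]
    have h6 : ∀ i : ι, ∑ k : ι, (if i = k then x none else 0) *
        bil x' (fi i) (fi k) = x none * bil x' (fi i) (fi i) := by
      intro i
      rw [Finset.sum_eq_single i]
      · simp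
      · intro b _ hb
        rw [if_neg (Ne.symm hb)]
        ring
      · intro hh
        exact absurd (Finset.mem_univ _) hh
    have h7 : ∑ i : ι, (x none * bil x' (fi i) fn + ∑ k : ι, (if i = k then x none else 0) *
        bil x' (fi i) (fi k)) = x none * ∑ i, bil x' fn (fi i) +
          x none * ∑ i, bil x' (fi i) (fi i) := by
      rw [Finset.mul_sum, Finset.mul_sum, ← Finset.sum_add_distrib]
      refine Finset.sum_congr rfl fun i _ => ?_
      rw [h6 i, bil_symm x' (fi i) fn]
    have h8 : ∑ i : ι, x none * bil x' fn (fi i) = x none * ∑ i, bil x' fn (fi i) := by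
      rw [Finset.mul_sum]
    change 1 * bil x' fn fn + ∑ i : ι, x none * bil x' fn (fi i) + ∑ i : ι,
      (x none * bil x' (fi i) fn + ∑ k : ι, (if i = k then x none else 0) *
        bil x' (fi i) (fi k)) = _
    rw [h7, h8]
    ring
  have hss0 : 0 ≤ bil x' s s := bil_nonneg_of_BB h x' hx1 s
  have hss1 : bil x' s s ≤ (Fintype.card ι : ℝ) * ∑ i, bil x' (fi i) (fi i) :=
    bil_sum_sq_le h x' hx1 fi
  have hx0 := hx none
  have key : ∀ y : Option J → ℝ, ∑ u : Option J → Option ι,
      (op (fun j => tm (x j)) f u) ^ 2 * ∏ j, wt (y j) (u j) =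
      (∑ u : J → Option ι, (op (fun j => tm (x' j)) g u) ^ 2 * ∏ j, wt (y (some j)) (u j)) +
      y none * ∑ i, (∑ u : J → Option ι, (op (fun j => tm (x' j)) (fi i) u) ^ 2 *
        ∏ j, wt (y (some j)) (u j)) := by
    intro y
    rw [sum_cns, Fintype.sum_option]
    congr 1
    · refine Finset.sum_congr rfl fun u _ => ?_
      rw [op_tm_none, Fintype.prod_option]
      simp only [cns_none, cns_some, wt, one_mul]
      rfl
    · rw [Finset.mul_sum]
      refine Finset.sum_congr rfl fun i _ => ?_
      rw [Finset.mul_sum]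
      refine Finset.sum_congr rfl fun u _ => ?_
      rw [op_tm_some, Fintype.prod_option]
      simp only [cns_none, cns_some, wt]
      change _ = y none * ((op (fun j => tm (x (some j))) (fun α => f (cns (some i) α)) u) ^ 2 * _)
      ring
  constructor
  · rw [key (fun o => x o * (1 - (Fintype.card ι : ℝ) * x o))]
    have h9 := (h x' hx1 g).1
    have h10 : ∑ i, (∑ u : J → Option ι, (op (fun j => tm (x' j)) (fi i) u) ^ 2 *
        ∏ j, wt (x' j * (1 - (Fintype.card ι : ℝ) * x' j)) (u j)) ≤
        ∑ i, bil x' (fi i) (fi i) :=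
      Finset.sum_le_sum fun i _ => (h x' hx1 (fi i)).1
    have h11 : 0 ≤ x none * (1 - (Fintype.card ι : ℝ) * x none) :=
      mul_nonneg hx0.1 (by linarith [hx0.2])
    have h12 := mul_le_mul_of_nonneg_left h10 h11
    have h13 := mul_le_mul_of_nonneg_left hss1 (sq_nonneg (x none))
    rw [hff]
    nlinarith [h9, h12, h13, hgg]
  · rw [key x]
    have h9 := (h x' hx1 g).2
    have h10 : ∑ i, bil x' (fi i) (fi i) ≤
        ∑ i, (∑ u : J → Option ι, (op (fun j => tm (x' j)) (fi i) u) ^ 2 *
        ∏ j, wt (x' j) (u j)) :=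
      Finset.sum_le_sum fun i _ => (h x' hx1 (fi i)).2
    have h12 := mul_le_mul_of_nonneg_left h10 hx0.1
    have h13 := mul_nonneg (sq_nonneg (x none)) hss0
    rw [hff]
    nlinarith [h9, h12, h13, hgg]

theorem BB_fin (n : ℕ) : BB ι (Fin n) := by
  induction n with
  | zero => exact BB_empty
  | succ n ih => exact BB_equiv (finSuccEquiv n).symm (BB_option ih)

/-- The two-sided inequality for the kernel `∏ kap` (tensor positivity). -/
theorem bil_bounds (x : J → ℝ) (hx : ∀ j, 0 ≤ x j ∧ (Fintype.card ι : ℝ) * x j ≤ 1)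
    (f : (J → Option ι) → ℝ) :
    (∑ u : J → Option ι, (op (fun j => tm (x j)) f u) ^ 2 *
          ∏ j, wt (x j * (1 - (Fintype.card ι : ℝ) * x j)) (u j) ≤ bil x f f) ∧
      (bil x f f ≤ ∑ u : J → Option ι, (op (fun j => tm (x j)) f u) ^ 2 *
          ∏ j, wt (x j) (u j)) :=
  BB_equiv (Fintype.equivFin J).symm (BB_fin _) x hx f

end Pool.Agent.MP89da58
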