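import Pool.Agent.Lib.MP_89da58_nt.Op

set_option autoImplicit false
set_option linter.unusedSectionVars false

/-!
Sums over assignments `J → Option ι` versus sums over families of subsets of `J`.
-/

namespace Pool.Agent.MP89da58

variable {ι : Type} [Fintype ι] [DecidableEq ι] {J : Type} [Fintype J] [DecidableEq J]

/-- The set of indices to which the assignment gives the value `l`. -/
def part (u : J → Option ι) (l : ι) : Finset J := Finset.univ.filter (fun j => u j = some l)

/-- The support of an assignment. -/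
def supp (u : J → Option ι) : Finset J := Finset.univ.filter (fun j => u j ≠ none)

/-- Product of the weights over a set. -/
noncomputable def pw (x : J → ℝ) (a : Finset J) : ℝ := ∏ j ∈ a, x j

/-- The integer attached to a set. -/
def nn (p : J → ℕ) (a : Finset J) : ℕ := ∏ j ∈ a, p j

theorem mem_part {u : J → Option ι} {l : ι} {j : J} : j ∈ part u l ↔ u j = some l := by
  simp [part]

theorem mem_supp {u : J → Option ι} {j : J} : j ∈ supp u ↔ u j ≠ none := by
  simp [supp]

theorem part_injective : Function.Injective (part : (J → Option ι) → ι → Finset J) := by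
  intro u v h
  funext j
  have h1 : ∀ l, u j = some l ↔ v j = some l := by
    intro l
    rw [← mem_part, ← mem_part, h]
  rcases hu : u j with _ | a
  · rcases hv : v j with _ | b
    · rfl
    · rw [← h1 b, hu] at hv
      exact absurd hv (by simp)
  · rw [(h1 a).mp hu]

theorem part_disjoint (u : J → Option ι) {l l' : ι} (h : l ≠ l') :
    Disjoint (part u l) (part u l') := by
  rw [Finset.disjoint_left]
  intro j hj hj'
  rw [mem_part] at hj hj'
  rw [hj] at hj'
  exact h (by simpa using hj')

theorem supp_eq_biUnion (u : J → Option ι) : supp u = Finset.univ.biUnion (part u) := by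
  ext j
  rw [mem_supp, Finset.mem_biUnion]
  constructor
  · intro h
    obtain ⟨l, hl⟩ := Option.ne_none_iff_exists'.mp h
    exact ⟨l, Finset.mem_univ _, mem_part.mpr hl⟩
  · rintro ⟨l, _, hl⟩
    rw [mem_part.mp hl]
    simp

theorem prod_supp_eq {M : Type} [CommMonoid M] (u : J → Option ι) (f : J → M) :
    ∏ j ∈ supp u, f j = ∏ l, ∏ j ∈ part u l, f j := by
  rw [supp_eq_biUnion, Finset.prod_biUnion]
  intro l _ l' _ h
  exact part_disjoint u h

theorem prod_wt (x : J → ℝ) (u : J → Option ι) : ∏ j, wt (x j) (u j) = pw x (supp u) := by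
  unfold pw supp
  rw [Finset.prod_filter]
  refine Finset.prod_congr rfl fun j _ => ?_
  rcases u j with _ | l
  · simp [wt]
  · simp [wt]

theorem pw_supp (x : J → ℝ) (u : J → Option ι) : pw x (supp u) = ∏ l, pw x (part u l) :=
  prod_supp_eq u x

theorem nn_supp (p : J → ℕ) (u : J → Option ι) : nn p (supp u) = ∏ l, nn p (part u l) :=
  prod_supp_eq u p

/-- The families which come from assignments are the pairwise disjoint ones. -/
theorem sum_part (H : (ι → Finset J) → ℝ) :
    ∑ u : J → Option ι, H (part u) =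
      ∑ c ∈ (Finset.univ : Finset (ι → Finset J)).filter
        (fun c => ∀ l l', l ≠ l' → Disjoint (c l) (c l')), H c := by
  refine Finset.sum_bij' (fun u _ => part u)
    (fun c _ => fun j => if h : ∃ l, j ∈ c l then some h.choose else none) ?_ ?_ ?_ ?_ ?_
  · intro u _
    rw [Finset.mem_filter]
    exact ⟨Finset.mem_univ _, fun l l' h => part_disjoint u h⟩
  · intro c _
    exact Finset.mem_univ _
  · intro u _
    funext j
    by_cases h : ∃ l, j ∈ part u l
    · rw [dif_pos h]
      exact (mem_part.mp h.choose_spec).symm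
    · rw [dif_neg h]
      rcases hu : u j with _ | l
      · rfl
      · exact absurd ⟨l, mem_part.mpr hu⟩ h
  · intro c hc
    rw [Finset.mem_filter] at hc
    funext l
    ext j
    rw [mem_part]
    constructor
    · intro h
      split_ifs at h with h1
      have h2 := h1.choose_spec
      rw [Option.some.injEq] at h
      rw [h] at h2
      exact h2
    · intro h
      have h1 : ∃ l, j ∈ c l := ⟨l, h⟩
      rw [dif_pos h1]
      by_contra h2
      have h3 : h1.choose ≠ l := fun h4 => h2 (by rw [h4])
      exact (Finset.disjoint_left.mp (hc.2 _ _ h3)) h1.choose_spec h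
  · intro u _
    rfl

theorem sum_prod_part_le (φ : ι → Finset J → ℝ) (hφ : ∀ l a, 0 ≤ φ l a) :
    ∑ u : J → Option ι, ∏ l, φ l (part u l) ≤ ∏ l, ∑ a : Finset J, φ l a := by
  rw [sum_part (fun c => ∏ l, φ l (c l)), Finset.prod_univ_sum, Fintype.piFinset_univ]
  refine Finset.sum_le_sum_of_subset_of_nonneg (Finset.filter_subset _ _) ?_
  intro c _ _
  exact Finset.prod_nonneg fun l _ => hφ l _

/-- Splitting a subset along `U` and its complement. -/
theorem sum_split (U : Finset J) (F : Finset J → ℝ) :
    ∑ b : Finset J, F b = ∑ d ∈ U.powerset, ∑ a ∈ Uᶜ.powerset, F (d ∪ a) := by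
  rw [← Finset.sum_product']
  refine Finset.sum_bij' (fun b _ => (b ∩ U, b ∩ Uᶜ)) (fun c _ => c.1 ∪ c.2) ?_ ?_ ?_ ?_ ?_
  · intro b _
    rw [Finset.mem_product, Finset.mem_powerset, Finset.mem_powerset]
    exact ⟨Finset.inter_subset_right, Finset.inter_subset_right⟩
  · intro c _
    exact Finset.mem_univ _
  · intro b _
    ext j
    simp only [Finset.mem_union, Finset.mem_inter, Finset.mem_compl]
    tauto
  · intro c hc
    rw [Finset.mem_product, Finset.mem_powerset, Finset.mem_powerset] at hc
    ext j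
    · simp only [Finset.mem_union, Finset.mem_inter]
      constructor
      · rintro ⟨h1 | h1, h2⟩
        · exact h1
        · exact absurd h2 (Finset.mem_compl.mp (hc.2 h1))
      · intro h
        exact ⟨Or.inl h, hc.1 h⟩
    · simp only [Finset.mem_union, Finset.mem_inter]
      constructor
      · rintro ⟨h1 | h1, h2⟩
        · exact absurd (hc.1 h1) (Finset.mem_compl.mp h2)
        · exact h1
      · intro h
        exact ⟨Or.inr h, hc.2 h⟩
  · intro b _
    congr 1
    ext j
    simp only [Finset.mem_union, Finset.mem_inter, Finset.mem_compl]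
    tauto

theorem pw_nonneg {x : J → ℝ} (hx : ∀ j, 0 ≤ x j) (a : Finset J) : 0 ≤ pw x a :=
  Finset.prod_nonneg fun j _ => hx j

theorem pw_union {x : J → ℝ} {a b : Finset J} (h : Disjoint a b) :
    pw x (a ∪ b) = pw x a * pw x b := Finset.prod_union h

theorem nn_union {p : J → ℕ} {a b : Finset J} (h : Disjoint a b) :
    nn p (a ∪ b) = nn p a * nn p b := Finset.prod_union h

theorem nn_pos {p : J → ℕ} (hp : ∀ j, 1 ≤ p j) (a : Finset J) : 1 ≤ nn p a :=
  Finset.one_le_prod' fun j _ => hp j

theorem nn_mono {p : J → ℕ} (hp : ∀ j, 1 ≤ p j) {a b : Finset J} (h : a ⊆ b) :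
    nn p a ≤ nn p b :=
  Finset.prod_le_prod_of_subset_of_one_le' h fun j _ _ => hp j

theorem pw_empty (x : J → ℝ) : pw x ∅ = 1 := Finset.prod_empty

theorem nn_empty (p : J → ℕ) : nn p ∅ = 1 := Finset.prod_empty

theorem sum_pw_powerset (x : J → ℝ) (U : Finset J) :
    ∑ d ∈ U.powerset, pw x d = ∏ j ∈ U, (1 + x j) := by
  unfold pw
  rw [Finset.prod_one_add]

/-- Removing the indices in `U` from the range of a subset costs at most `∏ (1 + x)`. -/
theorem sum_compl_ge {x : J → ℝ} (hx : ∀ j, 0 ≤ x j) {p : J → ℕ} (hp : ∀ j, 1 ≤ p j)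
    (g : ℕ → ℝ) (hg : ∀ m n : ℕ, 1 ≤ m → m ≤ n → g n ≤ g m) (U : Finset J) :
    ∑ b : Finset J, pw x b * g (nn p b) ≤
      (∏ j ∈ U, (1 + x j)) * ∑ a ∈ Uᶜ.powerset, pw x a * g (nn p a) := by
  rw [sum_split U, ← sum_pw_powerset, Finset.sum_mul]
  refine Finset.sum_le_sum fun d hd => ?_
  rw [Finset.mul_sum]
  refine Finset.sum_le_sum fun a ha => ?_
  rw [Finset.mem_powerset] at hd ha
  have hda : Disjoint d a := by
    rw [Finset.disjoint_left]
    intro j h1 h2
    exact Finset.mem_compl.mp (ha h2) (hd h1)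
  rw [pw_union hda, nn_union hda, mul_assoc]
  refine mul_le_mul_of_nonneg_left ?_ (pw_nonneg hx d)
  refine mul_le_mul_of_nonneg_left ?_ (pw_nonneg hx a)
  refine hg _ _ (nn_pos hp a) ?_
  exact Nat.le_mul_of_pos_left _ (nn_pos hp d)

/-- Fixing that `j ∈ a` costs at least the factor `x j`. -/
theorem sum_mem_le {x : J → ℝ} (hx : ∀ j, 0 ≤ x j) {p : J → ℕ} (hp : ∀ j, 1 ≤ p j)
    (g : ℕ → ℝ) (hg0 : ∀ n, 0 ≤ g n) (hg : ∀ m n : ℕ, 1 ≤ m → m ≤ n → g n ≤ g m) (j : J) :
    ∑ a ∈ (Finset.univ : Finset (Finset J)).filter (fun a => j ∈ a), pw x a * g (nn p a) ≤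
      x j * ∑ a : Finset J, pw x a * g (nn p a) := by
  rw [Finset.mul_sum]
  have h0 : ∑ a ∈ (Finset.univ : Finset (Finset J)).filter (fun a => j ∉ a),
      x j * (pw x a * g (nn p a)) =
      ∑ a ∈ (Finset.univ : Finset (Finset J)).filter (fun a => j ∈ a),
        x j * (pw x (a.erase j) * g (nn p (a.erase j))) := by
    refine Finset.sum_bij' (fun a _ => insert j a) (fun a _ => a.erase j) ?_ ?_ ?_ ?_ ?_
    · intro a _
      rw [Finset.mem_filter]
      exact ⟨Finset.mem_univ _, Finset.mem_insert_self j a⟩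
    · intro a _
      rw [Finset.mem_filter]
      exact ⟨Finset.mem_univ _, Finset.notMem_erase j a⟩
    · intro a ha
      rw [Finset.mem_filter] at ha
      exact Finset.erase_insert ha.2
    · intro a ha
      rw [Finset.mem_filter] at ha
      exact Finset.insert_erase ha.2
    · intro a ha
      rw [Finset.mem_filter] at ha
      simp only [Finset.erase_insert ha.2]
  have h1 : ∑ a ∈ (Finset.univ : Finset (Finset J)).filter (fun a => j ∈ a),
      pw x a * g (nn p a) ≤
      ∑ a ∈ (Finset.univ : Finset (Finset J)).filter (fun a => j ∉ a),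
        x j * (pw x a * g (nn p a)) := by
    rw [h0]
    refine Finset.sum_le_sum fun a ha => ?_
    rw [Finset.mem_filter] at ha
    have h2 : pw x a = x j * pw x (a.erase j) := (Finset.mul_prod_erase a x ha.2).symm
    rw [h2, mul_assoc]
    refine mul_le_mul_of_nonneg_left ?_ (hx j)
    refine mul_le_mul_of_nonneg_left ?_ (pw_nonneg hx _)
    exact hg _ _ (nn_pos hp _) (nn_mono hp (Finset.erase_subset j a))
  refine le_trans h1 (Finset.sum_le_sum_of_subset_of_nonneg (Finset.filter_subset _ _) ?_)
  intro a _ _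
  exact mul_nonneg (hx j) (mul_nonneg (pw_nonneg hx a) (hg0 _))

end Pool.Agent.MP89da58
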