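import Pool.Agent.Lib.MP_89da58_nt.Defs2
import Pool.Agent.Lib.MP_89da58_nt.Fam

set_option autoImplicit false
set_option linter.unusedSectionVars false

/-!
Chinese remainder theorem, counting in arithmetic progressions and the expansion of the square
of the sieve sum.
-/

namespace Pool.Agent.MP89da58

section N

variable {ι : Type} [Fintype ι] [DecidableEq ι] {J : Type} [Fintype J] [DecidableEq J]

theorem crt_finset (W v : ℕ) (p r : J → ℕ) (hp : ∀ j, (p j).Prime)
    (hinj : Function.Injective p) (hpW : ∀ j, (p j).Coprime W) (S : Finset J) :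
    ∃ a : ℕ, ∀ n : ℕ, (n ≡ v [MOD W] ∧ ∀ j ∈ S, n ≡ r j [MOD p j]) ↔
      n ≡ a [MOD W * ∏ j ∈ S, p j] := by
  induction S using Finset.induction_on with
  | empty => exact ⟨v, fun n => by simp⟩
  | insert j S hj ih =>
    obtain ⟨a, ha⟩ := ih
    have hcop : (W * ∏ i ∈ S, p i).Coprime (p j) := by
      apply Nat.Coprime.mul_left
      · exact (hpW j).symm
      · apply Nat.Coprime.prod_left
        intro i hi
        rw [Nat.coprime_primes (hp i) (hp j)]
        intro h
        exact hj (hinj h ▸ hi)
    obtain ⟨b, hb1, hb2⟩ := Nat.chineseRemainder hcop a (r j)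
    refine ⟨b, fun n => ?_⟩
    rw [Finset.prod_insert hj, mul_comm (p j), ← mul_assoc,
      ← Nat.modEq_and_modEq_iff_modEq_mul hcop]
    rw [show (n ≡ v [MOD W] ∧ ∀ i ∈ insert j S, n ≡ r i [MOD p i]) ↔
      ((n ≡ v [MOD W] ∧ ∀ i ∈ S, n ≡ r i [MOD p i]) ∧ n ≡ r j [MOD p j]) by
        rw [Finset.forall_mem_insert]; tauto]
    rw [ha n]
    constructor
    · rintro ⟨h1, h2⟩
      exact ⟨h1.trans hb1.symm, h2.trans hb2.symm⟩
    · rintro ⟨h1, h2⟩
      exact ⟨h1.trans hb1, h2.trans hb2⟩

theorem crt (W v : ℕ) (hW : 0 < W) (h : ι → ℕ) (p : J → ℕ) (hp : ∀ j, (p j).Prime)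
    (hinj : Function.Injective p) (hpW : ∀ j, (p j).Coprime W) (γ : J → Option ι) :
    ∃ a : ℕ, ∀ n : ℕ, (n ≡ v [MOD W] ∧ dv p h n γ) ↔ n ≡ a [MOD W * nn p (supp γ)] := by
  let r : J → ℕ := fun j => match γ j with
    | none => 0
    | some l => h l * (p j - 1)
  obtain ⟨a, ha⟩ := crt_finset W v p r hp hinj hpW (supp γ)
  refine ⟨a, fun n => ?_⟩
  have h2 : W * nn p (supp γ) = W * ∏ j ∈ supp γ, p j := rfl
  rw [h2, ← ha n]
  have key : ∀ j l, γ j = some l → (p j ∣ n + h l ↔ n ≡ r j [MOD p j]) := by
    intro j l hl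
    have hr : r j = h l * (p j - 1) := by
      simp only [r]
      rw [hl]
    have h3 : r j + h l ≡ 0 [MOD p j] := by
      have h4 : r j + h l = p j * h l := by
        rw [hr]
        obtain ⟨q, hq⟩ : ∃ q, p j = q + 1 := ⟨p j - 1, by have := (hp j).pos; omega⟩
        rw [hq, Nat.add_sub_cancel]
        ring
      rw [h4]
      exact (Nat.modEq_zero_iff_dvd).mpr (dvd_mul_right _ _)
    rw [← Nat.modEq_zero_iff_dvd]
    constructor
    · intro h5
      exact Nat.ModEq.add_right_cancel' (h l) (h5.trans h3.symm)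
    · intro h5
      exact (Nat.ModEq.add_right (h l) h5).trans h3
  apply and_congr_right
  intro _
  constructor
  · intro hdv j hj
    rw [mem_supp, Option.ne_none_iff_exists'] at hj
    obtain ⟨l, hl⟩ := hj
    exact (key j l hl).mp (hdv j l hl)
  · intro hall j l hl
    exact (key j l hl).mpr (hall j (mem_supp.mpr (by rw [hl]; simp)))

theorem card_ap (R N q a : ℕ) (hq : 0 < q) (hRN : R ≤ N) :
    |(((Finset.Ioc R N).filter (fun n => n ≡ a [MOD q])).card : ℝ) - ((N : ℝ) - R) / q| ≤ 1 := by
  have h1 := Nat.Ioc_filter_modEq_card R N hq a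
  have hq' : (0 : ℚ) < q := by exact_mod_cast hq
  set x : ℚ := ((N : ℚ) - a) / q with hx
  set y : ℚ := ((R : ℚ) - a) / q with hy
  have hyx : y ≤ x := by
    rw [hx, hy]
    have : (R : ℚ) ≤ N := by exact_mod_cast hRN
    gcongr
  have h2 : ⌊y⌋ ≤ ⌊x⌋ := Int.floor_le_floor hyx
  rw [max_eq_left (by omega)] at h1
  have h3 : ((((Finset.Ioc R N).filter (fun n => n ≡ a [MOD q])).card : ℤ) : ℚ) =
      (⌊x⌋ : ℚ) - (⌊y⌋ : ℚ) := by rw [h1]; push_cast; ring
  have h4 : |((((Finset.Ioc R N).filter (fun n => n ≡ a [MOD q])).card : ℤ) : ℚ) -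
      ((N : ℚ) - R) / q| ≤ 1 := by
    rw [h3]
    have h5 : ((N : ℚ) - R) / q = x - y := by
      rw [hx, hy]; ring
    rw [h5, abs_le]
    have a1 := Int.floor_le x
    have a2 := Int.lt_floor_add_one x
    have a3 := Int.floor_le y
    have a4 := Int.lt_floor_add_one y
    constructor <;> linarith only [a2, a3, a1, a4]
  have h6 : ((|((((Finset.Ioc R N).filter (fun n => n ≡ a [MOD q])).card : ℤ) : ℚ) -
      ((N : ℚ) - R) / q| : ℚ) : ℝ) ≤ ((1 : ℚ) : ℝ) := by exact_mod_cast h4
  push_cast at h6
  exact h6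

open Classical in
theorem dv_and_dv_iff (p : J → ℕ) (h : ι → ℕ) (n : ℕ) (α β : J → Option ι) (hc : compat α β) :
    (dv p h n α ∧ dv p h n β) ↔ dv p h n (join α β) := by
  constructor
  · rintro ⟨h1, h2⟩ j l hl
    rcases hα : α j with _ | a
    · apply h2
      simp only [join, hα, Option.orElse_none] at hl
      exact hl
    · apply h1
      simp only [join, hα, Option.orElse_some] at hl
      rw [hα]
      exact hl
  · intro h1
    constructor
    · intro j l hl
      apply h1
      simp only [join, hl, Option.orElse_some]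
    · intro j l hl
      apply h1
      rcases hc j with h2 | h2 | h2
      · simp only [join, h2, Option.orElse_none]
        exact hl
      · rw [hl] at h2
        exact absurd h2 (by simp)
      · rw [hl] at h2
        simp only [join, h2, Option.orElse_some]

theorem prod_kap_compat (x : J → ℝ) (α β : J → Option ι) (hc : compat α β) :
    ∏ j, kap (x j) (α j) (β j) = pw x (supp (join α β)) := by
  unfold pw supp
  rw [Finset.prod_filter]
  apply Finset.prod_congr rfl
  intro j _
  rcases hα : α j with _ | a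
  · rcases hβ : β j with _ | b
    · simp [kap, join, hα, hβ]
    · simp [kap, join, hα, hβ]
  · rcases hβ : β j with _ | b
    · simp [kap, join, hα]
    · have : a = b := by
        rcases hc j with h2 | h2 | h2
        · rw [hα] at h2; exact absurd h2 (by simp)
        · rw [hβ] at h2; exact absurd h2 (by simp)
        · rw [hα, hβ] at h2; exact Option.some.inj h2
      simp [kap, join, hα, this]

theorem prod_kap_not_compat (x : J → ℝ) (α β : J → Option ι) (hc : ¬ compat α β) :
    ∏ j, kap (x j) (α j) (β j) = 0 := by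
  unfold compat at hc
  rw [not_forall] at hc
  obtain ⟨j, hj⟩ := hc
  rw [not_or, not_or] at hj
  obtain ⟨h1, h2, h3⟩ := hj
  obtain ⟨a, ha⟩ := Option.ne_none_iff_exists'.mp h1
  obtain ⟨b, hb⟩ := Option.ne_none_iff_exists'.mp h2
  apply Finset.prod_eq_zero (Finset.mem_univ j)
  rw [ha, hb]
  have : a ≠ b := by
    rintro rfl
    exact h3 (by rw [ha, hb])
  simp [kap, this]

open Classical in
/-- Expansion of the square, with error terms. -/
theorem quad_expand (p : J → ℕ) (h : ι → ℕ)
    (hcop : ∀ j l l' n, l ≠ l' → ¬ (p j ∣ n + h l ∧ p j ∣ n + h l'))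
    (x : J → ℝ) (lam : (J → Option ι) → ℝ) (s : Finset ℕ) (ω : ℕ → ℝ) (M : ℝ)
    (e : (J → Option ι) → ℝ)
    (he : ∀ α β : J → Option ι, lam α ≠ 0 → lam β ≠ 0 → compat α β →
      |(∑ n ∈ s, if dv p h n (join α β) then ω n else 0) - M * pw x (supp (join α β))| ≤
        e (join α β)) :
    |(∑ n ∈ s, ω n * ZZ p h lam n ^ 2) - M * bil x lam lam| ≤
      ∑ α : J → Option ι, ∑ β : J → Option ι,
        if lam α ≠ 0 ∧ lam β ≠ 0 ∧ compat α β then |lam α| * |lam β| * e (join α β) else 0 := by
  have h1 : ∑ n ∈ s, ω n * ZZ p h lam n ^ 2 = ∑ α : J → Option ι, ∑ β : J → Option ι,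
      lam α * lam β * ∑ n ∈ s, if dv p h n α ∧ dv p h n β then ω n else 0 := by
    have h2 : ∀ n ∈ s, ω n * ZZ p h lam n ^ 2 = ∑ α : J → Option ι, ∑ β : J → Option ι,
        lam α * lam β * (if dv p h n α ∧ dv p h n β then ω n else 0) := by
      intro n _
      unfold ZZ
      rw [pow_two, Finset.sum_mul_sum, Finset.mul_sum]
      apply Finset.sum_congr rfl
      intro α _
      rw [Finset.mul_sum]
      apply Finset.sum_congr rfl
      intro β _
      by_cases ha : dv p h n α
      · by_cases hb : dv p h n β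
        · simp only [ha, hb, if_true, and_self]; ring
        · simp only [ha, hb, if_true, if_false, and_false]; ring
      · simp only [ha, if_false, false_and]; ring
    rw [Finset.sum_congr rfl h2, Finset.sum_comm]
    apply Finset.sum_congr rfl
    intro α _
    rw [Finset.sum_comm]
    apply Finset.sum_congr rfl
    intro β _
    rw [Finset.mul_sum]
  rw [h1]
  unfold bil
  rw [Finset.mul_sum, ← Finset.sum_sub_distrib]
  refine (Finset.abs_sum_le_sum_abs _ _).trans (Finset.sum_le_sum fun α _ => ?_)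
  rw [Finset.mul_sum, ← Finset.sum_sub_distrib]
  refine (Finset.abs_sum_le_sum_abs _ _).trans (Finset.sum_le_sum fun β _ => ?_)
  by_cases hc : compat α β
  · rw [prod_kap_compat x α β hc]
    have h3 : (∑ n ∈ s, if dv p h n α ∧ dv p h n β then ω n else 0) =
        ∑ n ∈ s, if dv p h n (join α β) then ω n else 0 := by
      apply Finset.sum_congr rfl
      intro n _
      simp only [dv_and_dv_iff p h n α β hc]
    rw [h3]
    by_cases hα : lam α = 0
    · simp [hα]
    · by_cases hβ : lam β = 0
      · simp [hβ]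
      · rw [if_pos ⟨hα, hβ, hc⟩]
        have h4 := he α β hα hβ hc
        calc |lam α * lam β * (∑ n ∈ s, if dv p h n (join α β) then ω n else 0) -
              M * (lam α * lam β * pw x (supp (join α β)))|
            = |lam α| * |lam β| * |(∑ n ∈ s, if dv p h n (join α β) then ω n else 0) -
                M * pw x (supp (join α β))| := by
              rw [← abs_mul, ← abs_mul]
              congr 1
              ring
          _ ≤ |lam α| * |lam β| * e (join α β) := mul_le_mul_of_nonneg_left h4 (by positivity)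
  · rw [prod_kap_not_compat x α β hc]
    have h3 : (∑ n ∈ s, if dv p h n α ∧ dv p h n β then ω n else 0) = 0 := by
      apply Finset.sum_eq_zero
      intro n _
      rw [if_neg]
      rintro ⟨ha, hb⟩
      unfold compat at hc
      rw [not_forall] at hc
      obtain ⟨j, hj⟩ := hc
      rw [not_or, not_or] at hj
      obtain ⟨h1, h2, h3⟩ := hj
      obtain ⟨a, ha'⟩ := Option.ne_none_iff_exists'.mp h1
      obtain ⟨b, hb'⟩ := Option.ne_none_iff_exists'.mp h2
      have hab : a ≠ b := by
        rintro rfl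
        exact h3 (by rw [ha', hb'])
      exact hcop j a b n hab ⟨ha j a ha', hb j b hb'⟩
    rw [h3, if_neg (by tauto)]
    simp

end N

end Pool.Agent.MP89da58
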