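import Mathlib

set_option autoImplicit false

/-!
Choice of the parameters of the sieve.
-/

namespace Pool.Agent.MP89da58

open Filter Asymptotics

/-- Everything which is needed from the size of `X`. -/
theorem eventually_num (K m y0 : ℕ) (hK : 1 ≤ K) (κ C : ℝ) (hκ : 0 < κ) :
    ∃ X0 : ℝ, ∀ X : ℝ, X0 ≤ X → 10 ≤ X ∧ 10 ≤ Real.log X ∧ C ≤ Real.log X ∧
      (X ^ (1 / 200 : ℝ)) ^ 200 = X ∧ C ≤ X ^ (1 / 200 : ℝ) ∧ 1 ≤ X ^ (1 / 200 : ℝ) ∧
      Real.log X ^ (4 * K + 4) ≤ X ^ (1 / 200 : ℝ) ∧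
      ∃ y : ℕ, y0 ≤ y ∧ 2 ≤ y ∧ (y : ℝ) ^ (128 * K * (m + 1)) ≤ X ^ (1 / 200 : ℝ) ∧
        Real.log y ≤ Real.log X / (200 * (128 * K * (m + 1))) ∧
        Real.log X / (400 * (128 * K * (m + 1))) ≤ Real.log y ∧
        8 ≤ κ * Real.log y := by
  set E : ℝ := 128 * K * (m + 1) with hE
  have hK' : (1 : ℝ) ≤ K := by exact_mod_cast hK
  have hm' : (0 : ℝ) ≤ m := Nat.cast_nonneg m
  have hE0 : 0 < E := by positivity
  have hE1 : 1 ≤ E := by
    have : (1 : ℝ) * 1 ≤ K * (m + 1) := mul_le_mul hK' (by linarith) (by norm_num) (by linarith)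
    rw [hE]
    nlinarith only [this]
  set θ : ℝ := 1 / (400 * E) with hθ
  have hθ0 : 0 < θ := by positivity
  have e1 : ∀ᶠ X : ℝ in atTop, 10 ≤ X := eventually_ge_atTop 10
  have e2 : ∀ᶠ X : ℝ in atTop, 10 ≤ Real.log X :=
    Real.tendsto_log_atTop.eventually_ge_atTop 10
  have e3 : ∀ᶠ X : ℝ in atTop, C ≤ Real.log X :=
    Real.tendsto_log_atTop.eventually_ge_atTop C
  have e4 : ∀ᶠ X : ℝ in atTop, C ≤ X ^ (1 / 200 : ℝ) :=
    (tendsto_rpow_atTop (by norm_num)).eventually_ge_atTop C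
  have e5 : ∀ᶠ X : ℝ in atTop, 1 ≤ X ^ (1 / 200 : ℝ) :=
    (tendsto_rpow_atTop (by norm_num)).eventually_ge_atTop 1
  have e6 : ∀ᶠ X : ℝ in atTop, Real.log X ^ (4 * K + 4) ≤ X ^ (1 / 200 : ℝ) := by
    have h1 := isLittleO_log_rpow_rpow_atTop ((4 * K + 4 : ℕ) : ℝ)
      (show (0 : ℝ) < 1 / 200 by norm_num)
    have h2 := h1.def (show (0 : ℝ) < 1 by norm_num)
    filter_upwards [h2, e1] with X hX hX10
    rw [Real.norm_eq_abs, Real.norm_eq_abs, Real.rpow_natCast, one_mul] at hX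
    have h3 : 0 ≤ Real.log X := Real.log_nonneg (by linarith)
    rw [abs_of_nonneg (pow_nonneg h3 _), abs_of_nonneg (Real.rpow_nonneg (by linarith) _)] at hX
    exact hX
  have e7 : ∀ᶠ X : ℝ in atTop, (y0 : ℝ) + 2 ≤ X ^ (2 * θ) :=
    (tendsto_rpow_atTop (by linarith)).eventually_ge_atTop _
  have e8 : ∀ᶠ X : ℝ in atTop, 2 ≤ X ^ θ :=
    (tendsto_rpow_atTop hθ0).eventually_ge_atTop _
  have e9 : ∀ᶠ X : ℝ in atTop, 8 * (400 * E) / κ ≤ Real.log X :=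
    Real.tendsto_log_atTop.eventually_ge_atTop _
  obtain ⟨X0, hX0⟩ := eventually_atTop.1
    (((((((((e1.and e2).and e3).and e4).and e5).and e6).and e7).and e8).and e9))
  refine ⟨X0, fun X hX => ?_⟩
  obtain ⟨⟨⟨⟨⟨⟨⟨⟨h1, h2⟩, h3⟩, h4⟩, h5⟩, h6⟩, h7⟩, h8⟩, h9⟩ := hX0 X hX
  have hXp : 0 < X := by linarith
  refine ⟨h1, h2, h3, ?_, h4, h5, h6, ?_⟩
  · rw [← Real.rpow_natCast, ← Real.rpow_mul hXp.le]
    norm_num
  · have hpos : 0 < X ^ (2 * θ) := Real.rpow_pos_of_pos hXp _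
    have hfl : (⌊X ^ (2 * θ)⌋₊ : ℝ) ≤ X ^ (2 * θ) := Nat.floor_le hpos.le
    have hlow : y0 + 2 ≤ ⌊X ^ (2 * θ)⌋₊ := Nat.le_floor (by push_cast; exact h7)
    have hy2 : 2 ≤ ⌊X ^ (2 * θ)⌋₊ := le_trans (by omega) hlow
    have hyR : (0 : ℝ) < (⌊X ^ (2 * θ)⌋₊ : ℝ) := by
      have : 0 < ⌊X ^ (2 * θ)⌋₊ := by omega
      exact_mod_cast this
    have hge : X ^ θ ≤ (⌊X ^ (2 * θ)⌋₊ : ℝ) := by
      have h10 : X ^ (2 * θ) - 1 < (⌊X ^ (2 * θ)⌋₊ : ℝ) := by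
        have := Nat.lt_floor_add_one (X ^ (2 * θ))
        linarith
      have h11 : X ^ (2 * θ) = X ^ θ * X ^ θ := by
        rw [← Real.rpow_add hXp]; congr 1; ring
      nlinarith only [h8, h7, h10, h11]
    refine ⟨⌊X ^ (2 * θ)⌋₊, by omega, hy2, ?_, ?_, ?_, ?_⟩
    · have h12 : (⌊X ^ (2 * θ)⌋₊ : ℝ) ^ (128 * K * (m + 1)) ≤
          (X ^ (2 * θ)) ^ (128 * K * (m + 1)) := pow_le_pow_left₀ hyR.le hfl _
      refine le_trans h12 (le_of_eq ?_)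
      rw [← Real.rpow_natCast, ← Real.rpow_mul hXp.le]
      congr 1
      push_cast
      rw [hθ, ← hE]
      field_simp
      norm_num
    · have h13 := Real.log_le_log hyR hfl
      rw [Real.log_rpow hXp] at h13
      refine le_trans h13 (le_of_eq ?_)
      rw [hθ]
      field_simp
      norm_num
    · have h14 := Real.log_le_log (Real.rpow_pos_of_pos hXp _) hge
      rw [Real.log_rpow hXp] at h14
      refine le_trans (le_of_eq ?_) h14
      rw [hθ]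
      field_simp
    · have h14 := Real.log_le_log (Real.rpow_pos_of_pos hXp _) hge
      rw [Real.log_rpow hXp] at h14
      have h15 : 8 * (400 * E) / κ * (θ * κ) ≤ Real.log X * (θ * κ) :=
        mul_le_mul_of_nonneg_right h9 (by positivity)
      have h16 : 8 * (400 * E) / κ * (θ * κ) = 8 := by
        rw [hθ]; field_simp
      rw [h16] at h15
      calc (8 : ℝ) ≤ Real.log X * (θ * κ) := h15
        _ = κ * (θ * Real.log X) := by ring
        _ ≤ _ := mul_le_mul_of_nonneg_left h14 hκ.le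

end Pool.Agent.MP89da58
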