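import Pool.Agent.Lib.MP_89da58_nt.SieveF

set_option autoImplicit false
set_option linter.unusedSectionVars false

/-!
Supports and sizes of the sieve weights.
-/

namespace Pool.Agent.MP89da58

variable {ι : Type} [Fintype ι] [DecidableEq ι] {J : Type} [Fintype J] [DecidableEq J]

theorem tm_ne_zero_sub {x : J → ℝ} {α u : J → Option ι}
    (h : ∏ j, tm (x j) (α j) (u j) ≠ 0) : ∀ j l, α j = some l → u j = some l := by
  intro j l hj
  have hne : tm (x j) (α j) (u j) ≠ 0 := fun hz => h (Finset.prod_eq_zero (Finset.mem_univ j) hz)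
  rw [hj] at hne
  rcases hu : u j with _ | l'
  · rw [hu] at hne; simp [tm] at hne
  · rw [hu] at hne
    simp only [tm] at hne
    by_cases h1 : l = l'
    · rw [h1]
    · simp [h1] at hne

theorem supp_subset_of_sub {α u : J → Option ι} (h : ∀ j l, α j = some l → u j = some l) :
    supp α ⊆ supp u := by
  intro j hj
  rw [mem_supp] at hj ⊢
  obtain ⟨l, hl⟩ := Option.ne_none_iff_exists'.mp hj
  rw [h j l hl]
  simp

/-- Bound for the operator with matrix `|tm|` in terms of a full sum. -/
theorem abs_op_tm_le {x : J → ℝ} (hx : ∀ j, 0 ≤ x j) {p : J → ℕ} (hp : ∀ j, 1 ≤ p j) (R : ℕ)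
    (f : (J → Option ι) → ℝ) (hf : ∀ u, |f u| ≤ 1) (hR : ∀ u, f u ≠ 0 → nn p (supp u) ≤ R)
    (α : J → Option ι) :
    |op (fun j => tm (-x j)) f α| ≤
      (∑ a : Finset J, pw x a * tau R (nn p a)) ^ Fintype.card ι := by
  classical
  set A : Finset (J → Option ι) := Finset.univ.filter
    (fun u => (∀ j l, α j = some l → u j = some l) ∧ nn p (supp u) ≤ R) with hA
  have h1 : |op (fun j => tm (-x j)) f α| ≤ ∑ u ∈ A, pw x (supp u \ supp α) := by
    unfold op
    refine le_trans (Finset.abs_sum_le_sum_abs _ _) ?_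
    rw [← Finset.sum_subset (Finset.subset_univ A)]
    · refine Finset.sum_le_sum fun u hu => ?_
      rw [hA, Finset.mem_filter] at hu
      rw [abs_mul]
      have h2 : |∏ j, tm (-x j) (α j) (u j)| ≤ pw x (supp u \ supp α) := by
        rw [Finset.abs_prod]
        unfold pw
        rw [← Finset.prod_subset (Finset.subset_univ (supp u \ supp α))]
        · refine Finset.prod_le_prod (fun j _ => abs_nonneg _) fun j hj => ?_
          rw [Finset.mem_sdiff, mem_supp, mem_supp, not_not] at hj
          obtain ⟨l, hl⟩ := Option.ne_none_iff_exists'.mp hj.1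
          rw [hj.2, hl]
          simp only [tm]
          rw [abs_neg, abs_of_nonneg (hx j)]
        · intro j _ hj
          rw [Finset.mem_sdiff, mem_supp, mem_supp, not_not] at hj
          rcases haj : α j with _ | l
          · rcases huj : u j with _ | l'
            · simp [tm]
            · exact absurd ⟨by rw [huj]; simp, haj⟩ hj
          · rw [hu.2.1 j l haj]
            simp [tm]
      calc |∏ j, tm (-x j) (α j) (u j)| * |f u| ≤ pw x (supp u \ supp α) * 1 :=
            mul_le_mul h2 (hf u) (abs_nonneg _) (pw_nonneg hx _)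
        _ = _ := mul_one _
    · intro u _ hu
      rw [hA, Finset.mem_filter] at hu
      rw [abs_eq_zero, mul_eq_zero]
      by_contra hne
      push Not at hne
      apply hu
      exact ⟨Finset.mem_univ _, tm_ne_zero_sub hne.1, hR u hne.2⟩
  refine le_trans h1 ?_
  -- restrict to the complement of the support of α
  set r : (J → Option ι) → (J → Option ι) := fun u j => if j ∈ supp α then none else u j with hr
  have hinj : Set.InjOn r (A : Set (J → Option ι)) := by
    intro u hu u' hu' huu
    rw [Finset.mem_coe, hA, Finset.mem_filter] at hu hu'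
    funext j
    by_cases hj : j ∈ supp α
    · rw [mem_supp] at hj
      obtain ⟨l, hl⟩ := Option.ne_none_iff_exists'.mp hj
      rw [hu.2.1 j l hl, hu'.2.1 j l hl]
    · have := congrFun huu j
      simp only [hr, if_neg hj] at this
      exact this
  have hsupp : ∀ u, supp (r u) = supp u \ supp α := by
    intro u
    ext j
    rw [mem_supp, Finset.mem_sdiff, mem_supp]
    simp only [hr]
    by_cases hj : j ∈ supp α
    · simp [hj]
    · simp [hj]
  have h3 : ∑ u ∈ A, pw x (supp u \ supp α) ≤
      ∑ u : J → Option ι, ∏ l, (pw x (part u l) * tau R (nn p (part u l))) := by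
    calc ∑ u ∈ A, pw x (supp u \ supp α)
        ≤ ∑ u ∈ A, ∏ l, (pw x (part (r u) l) * tau R (nn p (part (r u) l))) := by
          refine Finset.sum_le_sum fun u hu => ?_
          rw [hA, Finset.mem_filter] at hu
          rw [Finset.prod_mul_distrib, ← pw_supp, hsupp]
          have h4 : ∏ l, tau R (nn p (part (r u) l)) = 1 := by
            refine Finset.prod_eq_one fun l _ => ?_
            unfold tau
            rw [if_pos]
            refine le_trans ?_ hu.2.2
            refine nn_mono hp ?_
            intro j hj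
            rw [mem_part] at hj
            rw [mem_supp]
            simp only [hr] at hj
            split_ifs at hj
            rw [hj]
            simp
          rw [h4, mul_one]
      _ = ∑ v ∈ A.image r, ∏ l, (pw x (part v l) * tau R (nn p (part v l))) := by
          rw [Finset.sum_image hinj]
      _ ≤ _ := by
          refine Finset.sum_le_sum_of_subset_of_nonneg (Finset.subset_univ _) ?_
          intro v _ _
          exact Finset.prod_nonneg fun l _ => mul_nonneg (pw_nonneg hx _) (tau_nonneg _ _)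
  refine le_trans h3 ?_
  refine le_trans (sum_prod_part_le (fun _ a => pw x a * tau R (nn p a))
    (fun _ a => mul_nonneg (pw_nonneg hx a) (tau_nonneg _ _))) ?_
  rw [Finset.prod_const, Finset.card_univ]

/-- Number of assignments with small product. -/
theorem card_small_le {p : J → ℕ} (hp : ∀ j, 1 ≤ p j) (Y : ℕ) :
    (((Finset.univ : Finset (J → Option ι)).filter (fun u => nn p (supp u) ≤ Y)).card : ℝ) ≤
      Y * (∑ a : Finset J, pw (fun j => 1 / (p j : ℝ)) a * tau Y (nn p a)) ^ Fintype.card ι := by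
  classical
  have hx : ∀ j, (0:ℝ) ≤ 1 / (p j : ℝ) := fun j => by positivity
  have h1 := sum_prod_part_le (ι := ι) (fun _ a => pw (fun j => 1 / (p j : ℝ)) a * tau Y (nn p a))
    (fun _ a => mul_nonneg (pw_nonneg hx a) (tau_nonneg _ _))
  rw [Finset.prod_const, Finset.card_univ] at h1
  refine le_trans ?_ (mul_le_mul_of_nonneg_left h1 (Nat.cast_nonneg Y))
  rw [Finset.card_eq_sum_ones, Nat.cast_sum, Finset.mul_sum]
  have h2 : ∑ u ∈ (Finset.univ : Finset (J → Option ι)).filter (fun u => nn p (supp u) ≤ Y),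
      ((1 : ℕ) : ℝ) ≤ ∑ u ∈ (Finset.univ : Finset (J → Option ι)).filter
        (fun u => nn p (supp u) ≤ Y), (Y : ℝ) * ∏ l, (pw (fun j => 1 / (p j : ℝ)) (part u l) *
          tau Y (nn p (part u l))) := by
    refine Finset.sum_le_sum fun u hu => ?_
    rw [Finset.mem_filter] at hu
    rw [Finset.prod_mul_distrib, ← pw_supp]
    have h4 : ∏ l, tau Y (nn p (part u l)) = 1 := by
      refine Finset.prod_eq_one fun l _ => ?_
      unfold tau
      rw [if_pos]
      refine le_trans ?_ hu.2
      refine nn_mono hp ?_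
      intro j hj
      rw [mem_part] at hj
      rw [mem_supp, hj]
      simp
    rw [h4, mul_one]
    have h5 : pw (fun j => 1 / (p j : ℝ)) (supp u) = 1 / (nn p (supp u) : ℝ) := by
      unfold pw nn
      rw [Finset.prod_div_distrib, Finset.prod_const_one, Nat.cast_prod]
    rw [h5, mul_one_div]
    have h6 : (0:ℝ) < nn p (supp u) := by exact_mod_cast nn_pos hp _
    rw [le_div_iff₀ h6]
    simpa using hu.2
  refine le_trans h2 (Finset.sum_le_sum_of_subset_of_nonneg (Finset.filter_subset _ _) ?_)
  intro u _ _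
  exact mul_nonneg (Nat.cast_nonneg _) (Finset.prod_nonneg fun l _ =>
    mul_nonneg (pw_nonneg hx _) (tau_nonneg _ _))

namespace SData

variable (S : SData ι J)

theorem supp_of_wh (u : J → Option ι) (h : S.wh u ≠ 0) : nn S.p (supp u) ≤ S.R := by
  unfold wh at h
  by_contra hc
  rw [if_neg hc] at h
  exact h rfl

theorem lam_support (α : J → Option ι) (h : S.lam α ≠ 0) : nn S.p (supp α) ≤ S.R := by
  unfold lam op at h
  obtain ⟨u, _, hu⟩ := Finset.exists_ne_zero_of_sum_ne_zero h
  have h1 : ∏ j, tm (-S.x j) (α j) (u j) ≠ 0 := fun hz => hu (by rw [hz, zero_mul])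
  have h2 : S.wh u ≠ 0 := fun hz => hu (by simp [hz])
  exact le_trans (nn_mono S.p_one (supp_subset_of_sub (tm_ne_zero_sub h1))) (S.supp_of_wh u h2)

theorem abs_lam_le (α : J → Option ι) : |S.lam α| ≤ S.G0 S.R ^ Fintype.card ι := by
  unfold lam G0
  refine abs_op_tm_le (fun j => (S.x_pos j).le) S.p_one S.R _ ?_ ?_ α
  · intro u
    rw [abs_mul, abs_sgn, one_mul, abs_of_nonneg (S.wh_nonneg u)]
    exact S.wh_le_one u
  · intro u hu
    exact S.supp_of_wh u (fun hz => hu (by rw [hz, mul_zero]))

theorem lami_eq (i : ι) (α : J → Option ι) :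
    S.lami i α = if part α i = ∅ then S.lam α else 0 := by
  unfold lami
  by_cases h : part α i = ∅
  · rw [if_pos h, Finset.prod_eq_one, one_mul]
    intro j _
    unfold rho
    rw [if_neg]
    intro hj
    have : j ∈ part α i := mem_part.mpr hj
    rw [h] at this
    exact absurd this (Finset.notMem_empty j)
  · rw [if_neg h]
    obtain ⟨j, hj⟩ := Finset.nonempty_iff_ne_empty.mpr h
    rw [Finset.prod_eq_zero (Finset.mem_univ j), zero_mul]
    unfold rho
    rw [if_pos (mem_part.mp hj)]

theorem abs_lami_le (i : ι) (α : J → Option ι) : |S.lami i α| ≤ S.G0 S.R ^ Fintype.card ι := by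
  rw [lami_eq]
  split_ifs
  · exact S.abs_lam_le α
  · rw [abs_zero]
    refine pow_nonneg (Finset.sum_nonneg fun a _ => ?_) _
    exact mul_nonneg (pw_nonneg (fun j => (S.x_pos j).le) a) (tau_nonneg _ _)

theorem lami_support (i : ι) (α : J → Option ι) (h : S.lami i α ≠ 0) :
    part α i = ∅ ∧ nn S.p (supp α) ≤ S.R := by
  rw [lami_eq] at h
  split_ifs at h with h1
  · exact ⟨h1, S.lam_support α h⟩
  · exact absurd rfl h

theorem GG_ge_one (i k : ι) (hik : i ≠ k) (T : ℕ) (hT : 1 ≤ T) (v : J → Option ι)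
    (hi : part v i = ∅) (hk : part v k = ∅) : 1 ≤ S.GG i k T v := by
  unfold GG
  have hx0 : ∀ j, 0 ≤ S.x j := fun j => (S.x_pos j).le
  rw [op_ep_eq i k hik S.x _ v hi hk]
  have hth : ∀ u, 0 ≤ S.tauh i k T u := fun u => mul_nonneg (tau_nonneg _ _) (tau_nonneg _ _)
  refine le_trans ?_ (Finset.single_le_sum (f := fun b => pw S.x b *
      ∑ a ∈ ((supp v ∪ b)ᶜ).powerset, pw S.x a * S.tauh i k T (ext i (ext k v b) a))
      (fun b _ => mul_nonneg (pw_nonneg hx0 b) (Finset.sum_nonneg fun a _ =>
        mul_nonneg (pw_nonneg hx0 a) (hth _))) (Finset.empty_mem_powerset _))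
  rw [pw_empty, one_mul]
  refine le_trans ?_ (Finset.single_le_sum (f := fun a => pw S.x a *
    S.tauh i k T (ext i (ext k v ∅) a)) (fun a _ =>
        mul_nonneg (pw_nonneg hx0 a) (hth _)) (Finset.empty_mem_powerset _))
  rw [pw_empty, one_mul]
  have h1 : ext i (ext k v ∅) ∅ = v := by
    funext j
    simp [ext]
  rw [h1]
  unfold tauh
  rw [hi, hk, nn_empty]
  unfold tau
  rw [if_pos hT]
  norm_num

theorem core_parts (i k : ι) (u : J → Option ι) :
    part (core i k u) i = ∅ ∧ part (core i k u) k = ∅ := by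
  rw [part_core, part_core]
  simp

theorem abs_wt2_le (i k : ι) (hik : i ≠ k) (T : ℕ) (hT : 1 ≤ T) (u : J → Option ι) :
    |S.wt2 i k T u| ≤ S.A1 ^ 2 := by
  unfold wt2
  obtain ⟨hi, hk⟩ := core_parts i k u
  have h1 := S.GG_ge_one i k hik T hT _ hi hk
  have h2 := S.YY_le i k hik _ hi hk
  have h3 := S.YY_nonneg i k hik _ hi hk
  have h4 : ∏ l ∈ (Finset.univ.erase i).erase k, S.g (nn S.p (part (core i k u) l)) ≤ 1 :=
    Finset.prod_le_one (fun l _ => S.hg0 _) (fun l _ => S.g_le_one _ (nn_pos S.p_one _))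
  have h5 : 0 ≤ S.tauh i k T u := mul_nonneg (tau_nonneg _ _) (tau_nonneg _ _)
  have h6 : S.tauh i k T u ≤ 1 := by
    unfold tauh tau
    split_ifs <;> norm_num
  have h7 : 0 ≤ S.A1 ^ 2 := sq_nonneg _
  rw [abs_of_nonneg (div_nonneg (mul_nonneg h3 h5) (by linarith)),
    div_le_iff₀ (by linarith)]
  calc S.YY i k (core i k u) * S.tauh i k T u ≤ S.YY i k (core i k u) * 1 :=
        mul_le_mul_of_nonneg_left h6 h3
    _ ≤ 1 * S.A1 ^ 2 := by
        rw [mul_one]
        exact le_trans h2 (mul_le_mul_of_nonneg_right h4 h7)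
    _ ≤ S.A1 ^ 2 * S.GG i k T (core i k u) := by
        rw [one_mul]
        exact le_mul_of_one_le_right h7 h1

theorem wt2_support (i k : ι) (hik : i ≠ k) (T : ℕ) (u : J → Option ι)
    (h : S.wt2 i k T u ≠ 0) : nn S.p (supp u) ≤ S.R * (T * T) := by
  unfold wt2 at h
  have h1 : S.YY i k (core i k u) ≠ 0 := by
    intro hz; rw [hz, zero_mul, zero_div] at h; exact h rfl
  have h2 : S.tauh i k T u ≠ 0 := by
    intro hz; rw [hz, mul_zero, zero_div] at h; exact h rfl
  have h3 : nn S.p (part u i) ≤ T ∧ nn S.p (part u k) ≤ T := by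
    unfold tauh tau at h2
    constructor
    · by_contra hc
      rw [if_neg hc, zero_mul] at h2
      exact h2 rfl
    · by_contra hc
      rw [if_neg hc, mul_zero] at h2
      exact h2 rfl
  have h4 : nn S.p (supp (core i k u)) ≤ S.R := by
    unfold YY op at h1
    obtain ⟨u', _, hu'⟩ := Finset.exists_ne_zero_of_sum_ne_zero h1
    have e1 : ∏ j, ep i k (S.x j) (core i k u j) (u' j) ≠ 0 := fun hz => hu' (by rw [hz, zero_mul])
    have e2 : S.wh u' ≠ 0 := fun hz => hu' (by rw [hz]; ring)
    have e3 := core_eq_of_ep_ne_zero i k S.x _ _ e1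
    rw [← e3]
    refine le_trans (nn_mono S.p_one ?_) (S.supp_of_wh u' e2)
    intro j hj
    rw [mem_supp] at hj ⊢
    intro hz
    apply hj
    unfold core corel
    rw [hz]
    simp
  have h5 : nn S.p (supp u) = nn S.p (supp (core i k u)) * (nn S.p (part u i) *
      nn S.p (part u k)) := by
    rw [nn_supp, nn_supp]
    rw [← Finset.mul_prod_erase Finset.univ _ (Finset.mem_univ i),
      ← Finset.mul_prod_erase (Finset.univ.erase i) _
      (Finset.mem_erase.mpr ⟨Ne.symm hik, Finset.mem_univ k⟩)]
    rw [← Finset.mul_prod_erase Finset.univ (fun l => nn S.p (part (core i k u) l))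
      (Finset.mem_univ i),
      ← Finset.mul_prod_erase (Finset.univ.erase i) (fun l => nn S.p (part (core i k u) l))
      (Finset.mem_erase.mpr ⟨Ne.symm hik, Finset.mem_univ k⟩)]
    rw [(core_parts i k u).1, (core_parts i k u).2, nn_empty]
    have e1 : ∏ l ∈ (Finset.univ.erase i).erase k, nn S.p (part (core i k u) l) =
        ∏ l ∈ (Finset.univ.erase i).erase k, nn S.p (part u l) := by
      refine Finset.prod_congr rfl fun l hl => ?_
      rw [Finset.mem_erase, Finset.mem_erase] at hl
      rw [part_core, if_neg]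
      push Not
      exact ⟨hl.2.1, hl.1⟩
    rw [e1]
    ring
  rw [h5]
  exact Nat.mul_le_mul h4 (Nat.mul_le_mul h3.1 h3.2)

theorem lamt_support (i k : ι) (hik : i ≠ k) (T : ℕ) (α : J → Option ι)
    (h : S.lamt i k T α ≠ 0) : nn S.p (supp α) ≤ S.R * (T * T) := by
  unfold lamt op at h
  obtain ⟨u, _, hu⟩ := Finset.exists_ne_zero_of_sum_ne_zero h
  have h1 : ∏ j, tm (-S.x j) (α j) (u j) ≠ 0 := fun hz => hu (by rw [hz, zero_mul])
  have h2 : S.wt2 i k T u ≠ 0 := fun hz => hu (by simp [hz])
  exact le_trans (nn_mono S.p_one (supp_subset_of_sub (tm_ne_zero_sub h1)))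
    (S.wt2_support i k hik T u h2)

theorem abs_lamt_le (i k : ι) (hik : i ≠ k) (T : ℕ) (hT : 1 ≤ T) (α : J → Option ι) :
    |S.lamt i k T α| ≤ S.A1 ^ 2 * S.G0 (S.R * (T * T)) ^ Fintype.card ι := by
  by_cases hA : S.A1 = 0
  · have h0 : S.lamt i k T α = 0 := by
      unfold lamt op
      refine Finset.sum_eq_zero fun u _ => ?_
      have := S.abs_wt2_le i k hik T hT u
      rw [hA] at this
      norm_num at this
      simp [this]
    rw [h0, hA]
    norm_num
  · have hApos : 0 < S.A1 ^ 2 := by positivity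
    have h1 := abs_op_tm_le (x := S.x) (fun j => (S.x_pos j).le) S.p_one (S.R * (T * T))
      (fun u => (1 / S.A1 ^ 2) * (sgn u * S.wt2 i k T u)) (by
        intro u
        rw [abs_mul, abs_mul, abs_sgn, one_mul, abs_of_pos (by positivity : 0 < 1 / S.A1 ^ 2),
          one_div, inv_mul_le_iff₀ hApos, mul_one]
        exact S.abs_wt2_le i k hik T hT u) (by
        intro u hu
        exact S.wt2_support i k hik T u (fun hz => hu (by rw [hz]; ring))) α
    have h2 : op (fun j => tm (-S.x j)) (fun u => (1 / S.A1 ^ 2) * (sgn u * S.wt2 i k T u)) α =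
        (1 / S.A1 ^ 2) * S.lamt i k T α := by
      unfold lamt op
      rw [Finset.mul_sum]
      exact Finset.sum_congr rfl fun u _ => by ring
    rw [h2, abs_mul, abs_of_pos (by positivity : 0 < 1 / S.A1 ^ 2), one_div,
      inv_mul_le_iff₀ hApos] at h1
    exact h1

end SData

end Pool.Agent.MP89da58
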