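import Pool.Agent.Lib.MP_89da58_nt.FinalQuad
import Pool.Agent.Lib.MP_89da58_nt.Sizes

set_option autoImplicit false
set_option linter.unusedSectionVars false

/-!
Total mass of the sieve weights.
-/

namespace Pool.Agent.MP89da58

variable {ι : Type} [Fintype ι] [DecidableEq ι]

theorem nn_PJ_injective {D R : ℕ} :
    Function.Injective (fun a : Finset (PJ D R) => nn (fun j : PJ D R => (j : ℕ)) a) := by
  classical
  have key : ∀ a : Finset (PJ D R),
      (nn (fun j : PJ D R => (j : ℕ)) a).primeFactors = a.image (fun j : PJ D R => (j : ℕ)) := by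
    intro a
    have h1 : nn (fun j : PJ D R => (j : ℕ)) a =
        ∏ q ∈ a.image (fun j : PJ D R => (j : ℕ)), q := by
      unfold nn
      rw [Finset.prod_image (fun i _ j _ hij => PJ_inj hij)]
    rw [h1]
    apply Nat.primeFactors_prod
    intro q hq
    rw [Finset.mem_image] at hq
    obtain ⟨j, _, rfl⟩ := hq
    exact PJ_prime j
  intro a b hab
  have h2 : a.image (fun j : PJ D R => (j : ℕ)) = b.image (fun j : PJ D R => (j : ℕ)) := by
    rw [← key a, ← key b]
    exact congrArg Nat.primeFactors hab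
  exact Finset.image_injective PJ_inj h2

theorem G0_le {D R : ℕ} (S : SData ι (PJ D R)) (hp : ∀ j, S.p j = (j : ℕ)) (T : ℕ) :
    S.G0 T ≤ 1 + Real.log T := by
  classical
  have hpf : S.p = fun j : PJ D R => (j : ℕ) := funext hp
  have h0 : S.G0 T = ∑ a ∈ (Finset.univ : Finset (Finset (PJ D R))).filter
      (fun a => nn S.p a ≤ T), (1 : ℝ) / (nn S.p a : ℝ) := by
    unfold SData.G0
    rw [Finset.sum_filter]
    refine Finset.sum_congr rfl fun a _ => ?_
    have h5 : pw S.x a = 1 / (nn S.p a : ℝ) := by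
      unfold pw nn SData.x
      rw [Finset.prod_div_distrib, Finset.prod_const_one, Nat.cast_prod]
    unfold tau
    rw [h5]
    split_ifs <;> simp
  rw [h0]
  have hinj : Function.Injective (fun a : Finset (PJ D R) => nn S.p a) := by
    rw [hpf]; exact nn_PJ_injective
  have h1 : ∑ a ∈ (Finset.univ : Finset (Finset (PJ D R))).filter
      (fun a => nn S.p a ≤ T), (1 : ℝ) / (nn S.p a : ℝ) =
      ∑ n ∈ ((Finset.univ : Finset (Finset (PJ D R))).filter
        (fun a => nn S.p a ≤ T)).image (fun a => nn S.p a), (1 : ℝ) / (n : ℝ) := by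
    rw [Finset.sum_image (fun a _ b _ hab => hinj hab)]
  rw [h1]
  have h2 : ((Finset.univ : Finset (Finset (PJ D R))).filter
        (fun a => nn S.p a ≤ T)).image (fun a => nn S.p a) ⊆ Finset.Icc 1 T := by
    intro n hn
    rw [Finset.mem_image] at hn
    obtain ⟨a, ha, rfl⟩ := hn
    rw [Finset.mem_filter] at ha
    rw [Finset.mem_Icc]
    exact ⟨nn_pos S.p_one _, ha.2⟩
  have h3 := harmonic_le_one_add_log T
  rw [harmonic_eq_sum_Icc] at h3
  push_cast at h3
  refine le_trans (Finset.sum_le_sum_of_subset_of_nonneg h2 fun _ _ _ => by (clear * -; positivity)) ?_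
  refine le_trans (le_of_eq ?_) h3
  exact Finset.sum_congr rfl fun n _ => one_div _

theorem G0_nonneg {J : Type} [Fintype J] [DecidableEq J] (S : SData ι J) (T : ℕ) :
    0 ≤ S.G0 T := by
  unfold SData.G0
  exact Finset.sum_nonneg fun a _ =>
    mul_nonneg (pw_nonneg (fun j => (S.x_pos j).le) a) (tau_nonneg _ _)

theorem sum_abs_le {J : Type} [Fintype J] [DecidableEq J] (S : SData ι J)
    (f : (J → Option ι) → ℝ) (B : ℝ) (Y : ℕ) (hf : ∀ α, |f α| ≤ B)
    (hs : ∀ α, f α ≠ 0 → nn S.p (supp α) ≤ Y) :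
    ∑ α, |f α| ≤ (Y : ℝ) * S.G0 Y ^ Fintype.card ι * B := by
  classical
  have hB : 0 ≤ B := le_trans (abs_nonneg _) (hf (fun _ => none))
  have h1 : ∑ α, |f α| = ∑ α ∈ (Finset.univ : Finset (J → Option ι)).filter
      (fun u => nn S.p (supp u) ≤ Y), |f α| := by
    symm
    apply Finset.sum_subset (Finset.subset_univ _)
    intro α _ hα
    rw [abs_eq_zero]
    by_contra hne
    exact hα (Finset.mem_filter.mpr ⟨Finset.mem_univ _, hs α hne⟩)
  rw [h1]
  have h2 : ∑ α ∈ (Finset.univ : Finset (J → Option ι)).filter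
      (fun u => nn S.p (supp u) ≤ Y), |f α| ≤
      (((Finset.univ : Finset (J → Option ι)).filter (fun u => nn S.p (supp u) ≤ Y)).card : ℝ)
        * B := by
    rw [← nsmul_eq_mul]
    exact Finset.sum_le_card_nsmul _ _ _ fun α _ => hf α
  refine le_trans h2 (mul_le_mul_of_nonneg_right ?_ hB)
  exact card_small_le S.p_one Y

theorem abs_ZZ_le {J : Type} [Fintype J] [DecidableEq J] (p : J → ℕ) (h : ι → ℕ)
    (f : (J → Option ι) → ℝ) (n : ℕ) : |ZZ p h f n| ≤ ∑ α, |f α| := by
  unfold ZZ
  refine le_trans (Finset.abs_sum_le_sum_abs _ _) (Finset.sum_le_sum fun α _ => ?_)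
  split_ifs
  · exact le_rfl
  · rw [abs_zero]; exact abs_nonneg _

end Pool.Agent.MP89da58
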