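import Pool.Agent.Lib.MP_89da58_nt.FinalAux
import Pool.Agent.Lib.MP_89da58_nt.FinalSize

set_option autoImplicit false
set_option linter.unusedSectionVars false

/-!
The final assembly.
-/

namespace Pool.Agent.MP89da58

open ArithmeticFunction

variable {ι : Type} [Fintype ι] [DecidableEq ι]

/-- Passage from the von Mangoldt weight to the indicator function of the primes. -/
theorem prime_part {D R : ℕ} (S : SData ι (PJ D R)) (hp : ∀ j, S.p j = (j : ℕ)) (h : ι → ℕ)
    (X : ℝ) (hX : 10 ≤ X) (hlX : 1 ≤ Real.log X) (N : ℕ) (hN : ∀ i, (N : ℝ) + h i ≤ 4 * X)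
    (v : ℕ) (i : ι) (B : ℝ) (hB : ∑ α, |S.lami i α| ≤ B) :
    1 / (8 * Real.log (4 * X)) *
      (∑ n ∈ (Finset.Ioc R N).filter (fun n => n ≡ v [MOD primorial D]),
        vonMangoldt (n + h i) * Om X (n + h i) * ZZ S.p h (S.lami i) n ^ 2 -
        32 * Real.sqrt (4 * X) * Real.log (4 * X) * B ^ 2) ≤
    ∑ n ∈ (Finset.Ioc R N).filter (fun n => n ≡ v [MOD primorial D]),
      Set.indicator {n : ℕ | (n + h i).Prime} (fun n => ZZ S.p h S.lam n ^ 2) n := by
  classical
  set s := (Finset.Ioc R N).filter (fun n => n ≡ v [MOD primorial D]) with hs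
  have hB0 : 0 ≤ B := le_trans (Finset.sum_nonneg fun _ _ => abs_nonneg _) hB
  have hlog : 0 < Real.log (4 * X) := Real.log_pos (by linarith)
  have h8 : 0 < 8 * Real.log (4 * X) := by positivity
  have hf0 : ∀ n : ℕ, 0 ≤ vonMangoldt (n + h i) * Om X (n + h i) := fun n =>
    mul_nonneg vonMangoldt_nonneg (Om_nonneg (by linarith) _)
  -- split into primes and non-primes
  have h1 : ∑ n ∈ s, vonMangoldt (n + h i) * Om X (n + h i) * ZZ S.p h (S.lami i) n ^ 2 =
      ∑ n ∈ s.filter (fun n => (n + h i).Prime),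
        vonMangoldt (n + h i) * Om X (n + h i) * ZZ S.p h (S.lami i) n ^ 2 +
      ∑ n ∈ s.filter (fun n => ¬ (n + h i).Prime),
        vonMangoldt (n + h i) * Om X (n + h i) * ZZ S.p h (S.lami i) n ^ 2 :=
    (Finset.sum_filter_add_sum_filter_not s _ _).symm
  have h2 : ∑ n ∈ s.filter (fun n => ¬ (n + h i).Prime),
        vonMangoldt (n + h i) * Om X (n + h i) * ZZ S.p h (S.lami i) n ^ 2 ≤
      32 * Real.sqrt (4 * X) * Real.log (4 * X) * B ^ 2 := by
    have h3 : ∑ n ∈ s.filter (fun n => ¬ (n + h i).Prime),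
        vonMangoldt (n + h i) * Om X (n + h i) * ZZ S.p h (S.lami i) n ^ 2 ≤
        ∑ n ∈ s.filter (fun n => ¬ (n + h i).Prime),
        vonMangoldt (n + h i) * Om X (n + h i) * B ^ 2 := by
      refine Finset.sum_le_sum fun n _ => mul_le_mul_of_nonneg_left ?_ (hf0 n)
      have h4 := abs_ZZ_le S.p h (S.lami i) n
      rw [← sq_abs (ZZ S.p h (S.lami i) n)]
      exact pow_le_pow_left₀ (abs_nonneg _) (le_trans h4 hB) 2
    refine le_trans h3 ?_
    rw [← Finset.sum_mul]
    refine mul_le_mul_of_nonneg_right ?_ (sq_nonneg B)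
    refine le_trans ?_ (nonprime_sum_le X hX N (h i) (hN i))
    refine Finset.sum_le_sum_of_subset_of_nonneg ?_ fun n _ _ => hf0 n
    intro n hn
    rw [Finset.mem_filter, hs, Finset.mem_filter, Finset.mem_Ioc] at hn
    rw [Finset.mem_filter, Finset.mem_Ioc]
    exact ⟨⟨lt_of_le_of_lt (Nat.zero_le _) hn.1.1.1, hn.1.1.2⟩, hn.2⟩
  have h5 : 1 / (8 * Real.log (4 * X)) * ∑ n ∈ s.filter (fun n => (n + h i).Prime),
        vonMangoldt (n + h i) * Om X (n + h i) * ZZ S.p h (S.lami i) n ^ 2 ≤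
      ∑ n ∈ s, Set.indicator {n : ℕ | (n + h i).Prime} (fun n => ZZ S.p h S.lam n ^ 2) n := by
    have h6 : ∑ n ∈ s, Set.indicator {n : ℕ | (n + h i).Prime}
        (fun n => ZZ S.p h S.lam n ^ 2) n =
        ∑ n ∈ s.filter (fun n => (n + h i).Prime), ZZ S.p h S.lam n ^ 2 := by
      rw [Finset.sum_filter (fun n => (n + h i).Prime)]
      refine Finset.sum_congr rfl fun n _ => ?_
      simp only [Set.indicator, Set.mem_setOf_eq]
    rw [h6, Finset.mul_sum]
    refine Finset.sum_le_sum fun n hn => ?_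
    rw [Finset.mem_filter, hs, Finset.mem_filter, Finset.mem_Ioc] at hn
    rw [detect_one S hp h i n hn.1.1.1 hn.2, ← mul_assoc]
    refine le_trans (mul_le_mul_of_nonneg_right ?_ (sq_nonneg _)) (le_of_eq (one_mul _))
    rw [one_div, inv_mul_le_iff₀ h8, mul_one, mul_comm (8 : ℝ)]
    have hn0 : (0 : ℝ) < ((n + h i : ℕ) : ℝ) := by
      have := hn.2.pos
      exact_mod_cast this
    refine mul_le_mul ?_ (Om_le (by linarith) hlX _) (Om_nonneg (by linarith) _) hlog.le
    refine le_trans vonMangoldt_le_log (Real.log_le_log hn0 ?_)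
    have h7 : (n : ℝ) ≤ N := by exact_mod_cast hn.1.1.2
    have := hN i
    push_cast
    linarith
  calc _ ≤ 1 / (8 * Real.log (4 * X)) * ∑ n ∈ s.filter (fun n => (n + h i).Prime),
        vonMangoldt (n + h i) * Om X (n + h i) * ZZ S.p h (S.lami i) n ^ 2 := by
        refine mul_le_mul_of_nonneg_left ?_ (by positivity)
        rw [h1]
        linarith
    _ ≤ _ := h5

/-- The part with two primes. -/
theorem pair_part {D R : ℕ} (S : SData ι (PJ D R)) (hp : ∀ j, S.p j = (j : ℕ)) (h : ι → ℕ)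
    (hh : ∀ l, h l < D) (hinj : Function.Injective h) (N : ℕ) (hRN : R ≤ N)
    (v : ℕ) (i k : ι) (hik : i ≠ k) (T : ℕ) (hT : 1 ≤ T) (B : ℝ)
    (hB : ∑ α, |S.lamt i k T α| ≤ B) :
    ∑ n ∈ (Finset.Ioc R N).filter (fun n => n ≡ v [MOD primorial D]),
      Set.indicator {n : ℕ | (n + h i).Prime ∧ (n + h k).Prime}
        (fun n => ZZ S.p h S.lam n ^ 2) n ≤
    (N : ℝ) / (primorial D : ℝ) * bil S.x (S.lamt i k T) (S.lamt i k T) + B ^ 2 := by
  classical
  have hB0 : 0 ≤ ∑ α, |S.lamt i k T α| := Finset.sum_nonneg fun _ _ => abs_nonneg _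
  have hpf : S.p = fun j : PJ D R => (j : ℕ) := funext hp
  have hxf : S.x = fun j : PJ D R => 1 / ((j : ℕ) : ℝ) := by
    funext j; unfold SData.x; rw [hp j]
  have h1 := quad_upper h hh hinj v (S.lamt i k T) R N hRN
  have h2 : ∑ n ∈ (Finset.Ioc R N).filter (fun n => n ≡ v [MOD primorial D]),
      Set.indicator {n : ℕ | (n + h i).Prime ∧ (n + h k).Prime}
        (fun n => ZZ S.p h S.lam n ^ 2) n ≤
      ∑ n ∈ (Finset.Ioc R N).filter (fun n => n ≡ v [MOD primorial D]),
        ZZ (fun j : PJ D R => (j : ℕ)) h (S.lamt i k T) n ^ 2 := by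
    refine Finset.sum_le_sum fun n hn => ?_
    rw [Finset.mem_filter, Finset.mem_Ioc] at hn
    by_cases hpr : (n + h i).Prime ∧ (n + h k).Prime
    · rw [Set.indicator_of_mem (show n ∈ {n : ℕ | (n + h i).Prime ∧ (n + h k).Prime} from hpr)]
      rw [detect_two S hp h i k hik T hT n hn.1.1 hpr.1 hpr.2, hpf]
    · rw [Set.indicator_of_notMem
        (show n ∉ {n : ℕ | (n + h i).Prime ∧ (n + h k).Prime} from hpr)]
      exact sq_nonneg _
  rw [← hxf] at h1
  have h3 : 0 ≤ bil S.x (S.lamt i k T) (S.lamt i k T) :=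
    bil_nonneg_of_BB (BB_equiv (Fintype.equivFin _).symm (BB_fin _)) S.x
      (fun j => ⟨(S.x_pos j).le, S.card_mul_x j⟩) _
  have h4 : ((N : ℝ) - R) / (primorial D : ℝ) * bil S.x (S.lamt i k T) (S.lamt i k T) ≤
      (N : ℝ) / (primorial D : ℝ) * bil S.x (S.lamt i k T) (S.lamt i k T) := by
    refine mul_le_mul_of_nonneg_right ?_ h3
    refine div_le_div_of_nonneg_right ?_ (Nat.cast_nonneg _)
    have : (0 : ℝ) ≤ R := Nat.cast_nonneg _
    linarith
  have h5 : (∑ α, |S.lamt i k T α|) ^ 2 ≤ B ^ 2 := pow_le_pow_left₀ hB0 hB 2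
  linarith

end Pool.Agent.MP89da58
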