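import Pool.Agent.Lib.MP_89da58_nt.FinalSize
import Pool.Agent.Lib.MP_89da58_nt.Bv

set_option autoImplicit false
set_option linter.unusedSectionVars false

/-!
The lower bound for the sum over primes of the square of the sieve sum.
-/

namespace Pool.Agent.MP89da58

open ArithmeticFunction

variable {ι : Type} [Fintype ι] [DecidableEq ι]

section Comb

variable {J : Type} [Fintype J] [DecidableEq J]

theorem part_join_eq_empty {α β : J → Option ι} {i : ι} (ha : part α i = ∅)
    (hb : part β i = ∅) : part (join α β) i = ∅ := by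
  rw [Finset.eq_empty_iff_forall_notMem] at ha hb ⊢
  intro j hj
  rw [mem_part] at hj
  have h1 := ha j
  have h2 := hb j
  rw [mem_part] at h1 h2
  rcases hα : α j with _ | a
  · simp only [join, hα, Option.orElse_none] at hj
    exact h2 hj
  · simp only [join, hα, Option.orElse_some] at hj
    exact h1 (hα.trans hj)

theorem supp_join (α β : J → Option ι) : supp (join α β) = supp α ∪ supp β := by
  ext j
  rw [Finset.mem_union, mem_supp, mem_supp, mem_supp]
  rcases hα : α j with _ | a
  · simp [join, hα]
  · simp [join, hα]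

theorem nn_union_le {p : J → ℕ} (hp : ∀ j, 1 ≤ p j) (a b : Finset J) :
    nn p (a ∪ b) ≤ nn p a * nn p b := by
  have h1 : nn p (a ∪ b) * nn p (a ∩ b) = nn p a * nn p b := Finset.prod_union_inter
  have h2 : 1 ≤ nn p (a ∩ b) := nn_pos hp _
  calc nn p (a ∪ b) = nn p (a ∪ b) * 1 := (mul_one _).symm
    _ ≤ nn p (a ∪ b) * nn p (a ∩ b) := Nat.mul_le_mul_left _ h2
    _ = _ := h1

open Classical in
/-- The number of compatible pairs whose join has a given support. -/
theorem card_pairs_le (T : Finset J) :
    ((Finset.univ : Finset ((J → Option ι) × (J → Option ι))).filter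
      (fun ab => compat ab.1 ab.2 ∧ supp (join ab.1 ab.2) = T)).card ≤
      (3 * Fintype.card ι) ^ T.card := by
  set B : Finset (Option ι × Option ι) :=
    ((Finset.univ : Finset ι).image (fun l => (some l, none))) ∪
    (((Finset.univ : Finset ι).image (fun l => (none, some l))) ∪
    ((Finset.univ : Finset ι).image (fun l => (some l, some l)))) with hB
  have hBc : B.card ≤ 3 * Fintype.card ι := by
    have e1 := Finset.card_union_le ((Finset.univ : Finset ι).image
      (fun l => ((some l, none) : Option ι × Option ι)))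
      (((Finset.univ : Finset ι).image (fun l => ((none, some l) : Option ι × Option ι))) ∪
      ((Finset.univ : Finset ι).image (fun l => ((some l, some l) : Option ι × Option ι))))
    have e2 := Finset.card_union_le ((Finset.univ : Finset ι).image
      (fun l => ((none, some l) : Option ι × Option ι)))
      ((Finset.univ : Finset ι).image (fun l => ((some l, some l) : Option ι × Option ι)))
    have e3 : ((Finset.univ : Finset ι).image
      (fun l => ((some l, none) : Option ι × Option ι))).card ≤ Fintype.card ι :=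
        Finset.card_image_le
    have e4 : ((Finset.univ : Finset ι).image
      (fun l => ((none, some l) : Option ι × Option ι))).card ≤ Fintype.card ι :=
        Finset.card_image_le
    have e5 : ((Finset.univ : Finset ι).image
      (fun l => ((some l, some l) : Option ι × Option ι))).card ≤ Fintype.card ι :=
        Finset.card_image_le
    rw [← hB] at e1
    omega
  set A : J → Finset (Option ι × Option ι) := fun j => if j ∈ T then B else {(none, none)} with hA
  have h1 : ((Finset.univ : Finset ((J → Option ι) × (J → Option ι))).filter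
      (fun ab => compat ab.1 ab.2 ∧ supp (join ab.1 ab.2) = T)).card ≤
      (Fintype.piFinset A).card := by
    refine Finset.card_le_card_of_injOn (fun ab j => (ab.1 j, ab.2 j)) ?_ ?_
    · intro ab hab
      rw [Finset.mem_coe, Finset.mem_filter] at hab
      rw [Finset.mem_coe, Fintype.mem_piFinset]
      intro j
      obtain ⟨_, hc, hs⟩ := hab
      simp only [hA]
      split_ifs with hj
      · rw [← hs, supp_join, Finset.mem_union, mem_supp, mem_supp] at hj
        rw [hB, Finset.mem_union, Finset.mem_union, Finset.mem_image, Finset.mem_image,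
          Finset.mem_image]
        rcases ha : ab.1 j with _ | a
        · rcases hb : ab.2 j with _ | b
          · exfalso
            rcases hj with h | h
            · exact h ha
            · exact h hb
          · right; left
            exact ⟨b, Finset.mem_univ _, rfl⟩
        · rcases hb : ab.2 j with _ | b
          · left
            exact ⟨a, Finset.mem_univ _, rfl⟩
          · right; right
            refine ⟨a, Finset.mem_univ _, ?_⟩
            rcases hc j with h | h | h
            · rw [ha] at h; exact absurd h (by simp)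
            · rw [hb] at h; exact absurd h (by simp)
            · rw [ha, hb] at h
              rw [Option.some.inj h]
      · rw [← hs, supp_join, Finset.mem_union, mem_supp, mem_supp, not_or, not_not, not_not] at hj
        rw [Finset.mem_singleton, hj.1, hj.2]
    · intro ab _ cd _ hEq
      have h2 : ∀ j, (ab.1 j, ab.2 j) = (cd.1 j, cd.2 j) := fun j => congrFun hEq j
      apply Prod.ext
      · funext j
        exact congrArg Prod.fst (h2 j)
      · funext j
        exact congrArg Prod.snd (h2 j)
  refine le_trans h1 ?_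
  rw [Fintype.card_piFinset]
  have h3 : ∏ j, (A j).card = ∏ j ∈ T, B.card := by
    rw [← Finset.prod_subset (Finset.subset_univ T)]
    · refine Finset.prod_congr rfl fun j hj => ?_
      simp only [hA, if_pos hj]
    · intro j _ hj
      simp only [hA, if_neg hj, Finset.card_singleton]
  rw [h3, Finset.prod_const]
  exact Nat.pow_le_pow_left hBc _

end Comb

theorem primeFactors_nn {D R : ℕ} (a : Finset (PJ D R)) :
    (nn (fun j : PJ D R => (j : ℕ)) a).primeFactors = a.image (fun j : PJ D R => (j : ℕ)) := by
  classical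
  have h1 : nn (fun j : PJ D R => (j : ℕ)) a =
      ∏ q ∈ a.image (fun j : PJ D R => (j : ℕ)), q := by
    unfold nn
    rw [Finset.prod_image (fun i _ j _ hij => PJ_inj hij)]
  rw [h1]
  apply Nat.primeFactors_prod
  intro q hq
  rw [Finset.mem_image] at hq
  obtain ⟨j, _, rfl⟩ := hq
  exact PJ_prime j

theorem card_primeFactors_nn {D R : ℕ} (a : Finset (PJ D R)) :
    (nn (fun j : PJ D R => (j : ℕ)) a).primeFactors.card = a.card := by
  rw [primeFactors_nn, Finset.card_image_of_injective _ PJ_inj]

theorem squarefree_nn {D R : ℕ} (a : Finset (PJ D R)) :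
    Squarefree (nn (fun j : PJ D R => (j : ℕ)) a) := by
  classical
  unfold nn
  induction a using Finset.induction_on with
  | empty => simp
  | insert j a hj ih =>
    rw [Finset.prod_insert hj]
    rw [Nat.squarefree_mul]
    · exact ⟨(PJ_prime j).prime.squarefree, ih⟩
    · apply Nat.Coprime.prod_right
      intro k hk
      rw [Nat.coprime_primes (PJ_prime j) (PJ_prime k)]
      intro h
      exact hj (PJ_inj h ▸ hk)

/-- `φ(W ∏ p) = φ(W) ∏ (p - 1)`. -/
theorem totient_nn {D R : ℕ} (a : Finset (PJ D R)) :
    Nat.totient (primorial D * nn (fun j : PJ D R => (j : ℕ)) a) =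
      Nat.totient (primorial D) * ∏ j ∈ a, ((j : ℕ) - 1) := by
  classical
  unfold nn
  induction a using Finset.induction_on with
  | empty => simp
  | insert j a hj ih =>
    rw [Finset.prod_insert hj, Finset.prod_insert hj, mul_left_comm, Nat.totient_mul, ih,
      Nat.totient_prime (PJ_prime j), mul_left_comm]
    apply Nat.Coprime.mul_right
    · exact PJ_coprime j
    · apply Nat.Coprime.prod_right
      intro k hk
      rw [Nat.coprime_primes (PJ_prime j) (PJ_prime k)]
      intro h
      exact hj (PJ_inj h ▸ hk)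

/-- `Om` vanishes far from `X`. -/
theorem Om_vanish_small {X : ℝ} (hX : 0 < X) (hlog : 1 ≤ Real.log X) {n : ℕ}
    (hn : (n : ℝ) ≤ X / 3) : Om X n = 0 := by
  unfold Om
  rcases Nat.eq_zero_or_pos n with h0 | h0
  · subst h0
    have hc : cX X ≠ 0 := by
      have := (cX_bounds hlog).1
      linarith only [this]
    rw [Nat.cast_zero, div_zero, Real.zero_rpow hc, zero_mul]
  · have hn0 : (0 : ℝ) < n := by exact_mod_cast h0
    have h1 : tri (Real.log (n / X)) = 0 := by
      unfold tri
      apply max_eq_left
      have h2 : Real.log (n / X) ≤ -1 := by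
        rw [Real.log_le_iff_le_exp (by positivity)]
        have h3 : (n : ℝ) / X ≤ 1 / 3 := by
          rw [div_le_iff₀ hX]; linarith only [hn]
        refine le_trans h3 ?_
        rw [Real.exp_neg, one_div]
        exact inv_anti₀ (Real.exp_pos 1) (by linarith only [Real.exp_one_lt_d9])
      rw [abs_of_nonpos (by linarith)]
      linarith
    rw [h1, mul_zero]

theorem Om_vanish_large {X : ℝ} (hX : 0 < X) {n : ℕ} (hn : 3 * X ≤ (n : ℝ)) : Om X n = 0 := by
  unfold Om
  have hn0 : (0 : ℝ) < n := by linarith
  have h1 : tri (Real.log (n / X)) = 0 := by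
    unfold tri
    apply max_eq_left
    have h2 : 1 ≤ Real.log (n / X) := by
      rw [Real.le_log_iff_exp_le (by positivity)]
      have h3 : 3 ≤ (n : ℝ) / X := by
        rw [le_div_iff₀ hX]; linarith
      linarith [Real.exp_one_lt_d9]
    rw [abs_of_nonneg (by linarith)]
    linarith
  rw [h1, mul_zero]

/-- Shifted sums over arithmetic progressions. -/
theorem shift_sum_eq {X : ℝ} (hX0 : 0 < X) (hlog : 1 ≤ Real.log X) (R0 N c q a D : ℕ)
    (hR0 : (R0 : ℝ) + D + 3 ≤ X / 3) (hN : 3 * X ≤ N) (hc : c ≤ D) :
    ∑ n ∈ (Finset.Ioc R0 N).filter (fun n => n ≡ a [MOD q]),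
      vonMangoldt (n + c) * Om X (n + c) = psiAP X q (a + c) := by
  unfold psiAP
  rw [Finset.sum_filter, Finset.sum_filter]
  set F : ℕ → ℝ := fun m => if m ≡ a + c [MOD q] then vonMangoldt m * Om X m else 0 with hF
  have hsmall : ∀ m : ℕ, (m : ℝ) ≤ X / 3 → F m = 0 := by
    intro m hm
    simp only [hF]
    rw [Om_vanish_small hX0 hlog hm, mul_zero, ite_self]
  have hlarge : ∀ m : ℕ, 3 * X ≤ (m : ℝ) → F m = 0 := by
    intro m hm
    simp only [hF]
    rw [Om_vanish_large hX0 hm, mul_zero, ite_self]
  have h1 : ∑ n ∈ Finset.Ioc R0 N, (if n ≡ a [MOD q] then vonMangoldt (n + c) * Om X (n + c)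
      else 0) = ∑ n ∈ Finset.Ioc R0 N, F (n + c) := by
    refine Finset.sum_congr rfl fun n _ => ?_
    simp only [hF]
    by_cases h : n ≡ a [MOD q]
    · rw [if_pos h, if_pos (Nat.ModEq.add_right c h)]
    · rw [if_neg h, if_neg fun h2 => h (Nat.ModEq.add_right_cancel' c h2)]
  rw [h1]
  have h2 : ∑ n ∈ Finset.Ioc R0 N, F (n + c) = ∑ m ∈ Finset.Ioc (R0 + c) (N + c), F m := by
    rw [← Finset.map_add_right_Ioc, Finset.sum_map]
    rfl
  rw [h2]
  have hcD : (c : ℝ) ≤ D := by exact_mod_cast hc
  have h3 : ∑ m ∈ Finset.Ioc (R0 + c) (N + c), F m = ∑ m ∈ Finset.Icc 0 (N + c), F m := by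
    apply Finset.sum_subset
    · intro m hm
      rw [Finset.mem_Ioc] at hm
      rw [Finset.mem_Icc]
      omega
    · intro m hm hm'
      rw [Finset.mem_Icc] at hm
      rw [Finset.mem_Ioc, not_and_or, not_lt, not_le] at hm'
      apply hsmall
      have h5 : m ≤ R0 + c := by
        rcases hm' with h | h
        · exact h
        · omega
      have h6 : (m : ℝ) ≤ R0 + c := by exact_mod_cast h5
      linarith only [hR0, hcD, h6]
  have h4 : ∑ m ∈ Finset.Icc 1 ⌊3 * X⌋₊, F m = ∑ m ∈ Finset.Icc 0 (N + c), F m := by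
    apply Finset.sum_subset
    · intro m hm
      rw [Finset.mem_Icc] at hm
      rw [Finset.mem_Icc]
      have h5 : (m : ℝ) ≤ 3 * X := (Nat.le_floor_iff (by linarith only [hR0])).mp hm.2
      have h6 : (m : ℝ) ≤ N := by linarith only [hN, h5]
      have h7 : m ≤ N := by exact_mod_cast h6
      omega
    · intro m hm hm'
      rw [Finset.mem_Icc] at hm
      rw [Finset.mem_Icc, not_and_or, not_le, not_le] at hm'
      rcases hm' with h | h
      · have h5 : m = 0 := by omega
        subst h5
        apply hsmall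
        rw [Nat.cast_zero]
        linarith only [hR0]
      · apply hlarge
        have h5 := (Nat.floor_lt (by linarith only [hR0])).mp h
        exact h5.le
  rw [h3, h4]

/-- The progressions which occur are coprime to their modulus. -/
theorem class_coprime {D R : ℕ} (h : ι → ℕ) (hh : ∀ l, h l < D) (hinj : Function.Injective h)
    (v : ℕ) (hv : ∀ l, (v + h l).Coprime (primorial D)) (i : ι) (γ : PJ D R → Option ι)
    (hγ : part γ i = ∅) (a : ℕ) (ha1 : a ≡ v [MOD primorial D])
    (ha2 : dv (fun j : PJ D R => (j : ℕ)) h a γ) :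
    (a + h i).Coprime (primorial D * nn (fun j : PJ D R => (j : ℕ)) (supp γ)) := by
  apply Nat.Coprime.mul_right
  · have h1 : a + h i ≡ v + h i [MOD primorial D] := Nat.ModEq.add_right _ ha1
    have h2 := h1.gcd_eq
    unfold Nat.Coprime
    rw [h2]
    exact hv i
  · unfold nn
    apply Nat.Coprime.prod_right
    intro j hj
    rw [Nat.coprime_comm, Nat.Prime.coprime_iff_not_dvd (PJ_prime j)]
    intro hd
    rw [mem_supp, Option.ne_none_iff_exists'] at hj
    obtain ⟨l, hl⟩ := hj
    have hli : l ≠ i := by
      rintro rfl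
      have : j ∈ part γ l := mem_part.mpr hl
      rw [hγ] at this
      exact absurd this (Finset.notMem_empty j)
    exact PJ_sep h hh hinj j l i a hli ⟨ha2 j l hl, hd⟩

theorem psiAP_mod (X : ℝ) (q a : ℕ) : psiAP X q (a % q) = psiAP X q a := by
  unfold psiAP
  congr 1
  apply Finset.filter_congr
  intro n _
  constructor
  · intro h
    exact h.trans (Nat.mod_modEq a q)
  · intro h
    exact h.trans (Nat.mod_modEq a q).symm

/-- The worst residue class. -/
theorem exists_worst (X : ℝ) (W : ℕ) (hW : 0 < W) :
    ∃ a : ℕ → ℕ, (∀ q, (a q).Coprime (W * q)) ∧ ∀ q, 0 < q → ∀ b : ℕ, b.Coprime (W * q) →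
      |psiAP X (W * q) b - psiX X / (Nat.totient (W * q) : ℝ)| ≤
      |psiAP X (W * q) (a q) - psiX X / (Nat.totient (W * q) : ℝ)| := by
  have key : ∀ q : ℕ, ∃ a : ℕ, a.Coprime (W * q) ∧ (0 < q → ∀ b : ℕ, b.Coprime (W * q) →
      |psiAP X (W * q) b - psiX X / (Nat.totient (W * q) : ℝ)| ≤
      |psiAP X (W * q) a - psiX X / (Nat.totient (W * q) : ℝ)|) := by
    intro q
    rcases Nat.eq_zero_or_pos q with h0 | h0
    · subst h0
      exact ⟨1, Nat.coprime_one_left _, fun h => absurd h (lt_irrefl _)⟩
    · have hq : 0 < W * q := Nat.mul_pos hW h0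
      have hmod : ∀ b : ℕ, b.Coprime (W * q) →
          b % (W * q) ∈ (Finset.range (W * q)).filter (fun b => b.Coprime (W * q)) := by
        intro b hb
        rw [Finset.mem_filter, Finset.mem_range]
        refine ⟨Nat.mod_lt _ hq, ?_⟩
        unfold Nat.Coprime
        rw [(Nat.mod_modEq b (W * q)).gcd_eq]
        exact hb
      obtain ⟨a, ha, hmax⟩ := Finset.exists_max_image
        ((Finset.range (W * q)).filter (fun b => b.Coprime (W * q)))
        (fun b => |psiAP X (W * q) b - psiX X / (Nat.totient (W * q) : ℝ)|)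
        ⟨_, hmod 1 (Nat.coprime_one_left _)⟩
      refine ⟨a, (Finset.mem_filter.mp ha).2, fun _ b hb => ?_⟩
      have h1 := hmax _ (hmod b hb)
      simp only [psiAP_mod] at h1
      exact h1
  choose a ha using key
  exact ⟨a, fun q => (ha q).1, fun q => (ha q).2⟩

open Classical in
/-- Bound for the error term of the expansion. -/
theorem err_sum_le {D R : ℕ} (lam : (PJ D R → Option ι) → ℝ) (B : ℝ) (Y : ℕ)
    (hB : ∀ α, |lam α| ≤ B)
    (hs : ∀ α, lam α ≠ 0 → nn (fun j : PJ D R => (j : ℕ)) (supp α) ≤ Y)
    (E : ℕ → ℝ) (hE : ∀ q, 0 ≤ E q) :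
    (∑ α : PJ D R → Option ι, ∑ β : PJ D R → Option ι,
      if lam α ≠ 0 ∧ lam β ≠ 0 ∧ compat α β then |lam α| * |lam β| *
        E (nn (fun j : PJ D R => (j : ℕ)) (supp (join α β))) else 0) ≤
    B ^ 2 * ∑ q ∈ (Finset.Icc 1 (Y * Y)).filter Squarefree,
      ((3 * Fintype.card ι : ℕ) : ℝ) ^ (q.primeFactors.card) * E q := by
  have hp1 : ∀ j : PJ D R, 1 ≤ (j : ℕ) := fun j => (PJ_prime j).one_le
  have hB0 : 0 ≤ B := le_trans (abs_nonneg _) (hB (fun _ => none))
  set P : Finset ((PJ D R → Option ι) × (PJ D R → Option ι)) := Finset.univ.filter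
    (fun ab => lam ab.1 ≠ 0 ∧ lam ab.2 ≠ 0 ∧ compat ab.1 ab.2) with hP
  set Q : (PJ D R → Option ι) × (PJ D R → Option ι) → ℕ :=
    fun ab => nn (fun j : PJ D R => (j : ℕ)) (supp (join ab.1 ab.2)) with hQ
  have h1 : (∑ α : PJ D R → Option ι, ∑ β : PJ D R → Option ι,
      if lam α ≠ 0 ∧ lam β ≠ 0 ∧ compat α β then |lam α| * |lam β| *
        E (nn (fun j : PJ D R => (j : ℕ)) (supp (join α β))) else 0) ≤
      ∑ ab ∈ P, B ^ 2 * E (Q ab) := by
    rw [hP, Finset.sum_filter, Fintype.sum_prod_type]
    refine Finset.sum_le_sum fun α _ => Finset.sum_le_sum fun β _ => ?_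
    simp only [hQ]
    split_ifs with hc
    · refine mul_le_mul_of_nonneg_right ?_ (hE _)
      rw [pow_two]
      exact mul_le_mul (hB α) (hB β) (abs_nonneg _) hB0
    · exact le_rfl
  refine le_trans h1 ?_
  rw [← Finset.mul_sum]
  refine mul_le_mul_of_nonneg_left ?_ (by (clear * -; positivity))
  have hmaps : ∀ ab ∈ P, Q ab ∈ (Finset.Icc 1 (Y * Y)).filter Squarefree := by
    intro ab hab
    rw [hP, Finset.mem_filter] at hab
    obtain ⟨_, ha, hb, _⟩ := hab
    rw [Finset.mem_filter, Finset.mem_Icc]
    refine ⟨⟨nn_pos hp1 _, ?_⟩, squarefree_nn _⟩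
    simp only [hQ]
    rw [supp_join]
    exact le_trans (nn_union_le hp1 _ _) (Nat.mul_le_mul (hs _ ha) (hs _ hb))
  rw [← Finset.sum_fiberwise_of_maps_to hmaps]
  refine Finset.sum_le_sum fun q _ => ?_
  have h2 : ∑ ab ∈ P.filter (fun ab => Q ab = q), E (Q ab) =
      ((P.filter (fun ab => Q ab = q)).card : ℝ) * E q := by
    rw [← nsmul_eq_mul, ← Finset.sum_const]
    refine Finset.sum_congr rfl fun ab hab => ?_
    rw [(Finset.mem_filter.mp hab).2]
  rw [h2]
  refine mul_le_mul_of_nonneg_right ?_ (hE q)
  rcases (P.filter (fun ab => Q ab = q)).eq_empty_or_nonempty with h3 | ⟨ab0, h3⟩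
  · rw [h3, Finset.card_empty, Nat.cast_zero]
    (clear * -; positivity)
  · have h4 : q = nn (fun j : PJ D R => (j : ℕ)) (supp (join ab0.1 ab0.2)) :=
      (Finset.mem_filter.mp h3).2.symm
    have h5 : q.primeFactors.card = (supp (join ab0.1 ab0.2)).card := by
      rw [h4, card_primeFactors_nn]
    rw [h5]
    have h6 : (P.filter (fun ab => Q ab = q)).card ≤
        (3 * Fintype.card ι) ^ (supp (join ab0.1 ab0.2)).card := by
      refine le_trans (Finset.card_le_card ?_) (card_pairs_le (supp (join ab0.1 ab0.2)))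
      intro ab hab
      rw [Finset.mem_filter] at hab
      obtain ⟨hab1, hab2⟩ := hab
      rw [hP, Finset.mem_filter] at hab1
      rw [Finset.mem_filter]
      refine ⟨Finset.mem_univ _, hab1.2.2.2, ?_⟩
      apply nn_PJ_injective
      exact hab2.trans h4
    exact_mod_cast h6

theorem prime_sum_ge {D R : ℕ} (S : SData ι (PJ D R)) (hp : ∀ j, S.p j = (j : ℕ))
    (h : ι → ℕ) (hh : ∀ l, h l < D) (hinj : Function.Injective h)
    (v : ℕ) (hv : ∀ l, (v + h l).Coprime (primorial D))
    (X : ℝ) (hX : 1 ≤ Real.log X) (R0 N : ℕ) (hR0 : (R0 : ℝ) + D + 3 ≤ X / 3)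
    (hN : 3 * X ≤ N) (i : ι) :
    ∃ a : ℕ → ℕ, (∀ q, (a q).Coprime (primorial D * q)) ∧
      psiX X / (Nat.totient (primorial D) : ℝ) * bil S.x' (S.lami i) (S.lami i) -
        (S.G0 S.R ^ Fintype.card ι) ^ 2 *
        ∑ q ∈ (Finset.Icc 1 (S.R * S.R)).filter Squarefree,
          ((3 * Fintype.card ι : ℕ) : ℝ) ^ (q.primeFactors.card) *
            |psiAP X (primorial D * q) (a q) - psiX X / (Nat.totient (primorial D * q) : ℝ)| ≤
      ∑ n ∈ (Finset.Ioc R0 N).filter (fun n => n ≡ v [MOD primorial D]),
        vonMangoldt (n + h i) * Om X (n + h i) * ZZ S.p h (S.lami i) n ^ 2 := by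
  classical
  have hpf : S.p = fun j : PJ D R => (j : ℕ) := funext hp
  have hX0 : 0 < X := by
    have h1 : (0 : ℝ) ≤ R0 := Nat.cast_nonneg _
    have h2 : (0 : ℝ) ≤ D := Nat.cast_nonneg _
    linarith
  have hW : 0 < primorial D := primorial_pos D
  obtain ⟨a, ha1, ha2⟩ := exists_worst X (primorial D) hW
  refine ⟨a, ha1, ?_⟩
  set E : ℕ → ℝ := fun q =>
    |psiAP X (primorial D * q) (a q) - psiX X / (Nat.totient (primorial D * q) : ℝ)| with hE
  have key := quad_expand (fun j : PJ D R => (j : ℕ)) h
    (fun j l l' n hl => PJ_sep h hh hinj j l l' n hl) S.x' (S.lami i)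
    ((Finset.Ioc R0 N).filter (fun n => n ≡ v [MOD primorial D]))
    (fun n => vonMangoldt (n + h i) * Om X (n + h i))
    (psiX X / (Nat.totient (primorial D) : ℝ))
    (fun γ => E (nn (fun j : PJ D R => (j : ℕ)) (supp γ))) (by
      intro α β hα hβ _
      have hγ : part (join α β) i = ∅ :=
        part_join_eq_empty (S.lami_support i α hα).1 (S.lami_support i β hβ).1
      obtain ⟨b, hb⟩ := crt (primorial D) v hW h (fun j : PJ D R => (j : ℕ))
        (fun j => PJ_prime j) PJ_inj (fun j => PJ_coprime j) (join α β)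
      set γ := join α β with hγdef
      set q : ℕ := nn (fun j : PJ D R => (j : ℕ)) (supp γ) with hq
      have hq0 : 0 < q := nn_pos (fun j => (PJ_prime j).one_le) _
      have e1 : (∑ n ∈ (Finset.Ioc R0 N).filter (fun n => n ≡ v [MOD primorial D]),
          if dv (fun j : PJ D R => (j : ℕ)) h n γ then
            vonMangoldt (n + h i) * Om X (n + h i) else 0) =
          psiAP X (primorial D * q) (b + h i) := by
        rw [← shift_sum_eq hX0 hX R0 N (h i) (primorial D * q) b D hR0 hN (hh i).le,
          ← Finset.sum_filter, Finset.filter_filter]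
        refine Finset.sum_congr ?_ fun n _ => rfl
        ext n
        simp only [Finset.mem_filter]
        rw [hb n]
      have hbb := (hb b).mpr (Nat.ModEq.refl b)
      have e2 : (b + h i).Coprime (primorial D * q) :=
        class_coprime h hh hinj v hv i γ hγ b hbb.1 hbb.2
      have e3 : psiX X / (Nat.totient (primorial D) : ℝ) * pw S.x' (supp γ) =
          psiX X / (Nat.totient (primorial D * q) : ℝ) := by
        rw [hq, totient_nn]
        unfold pw SData.x'
        rw [Finset.prod_div_distrib, Finset.prod_const_one, div_mul_div_comm, mul_one]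
        congr 1
        push_cast
        congr 1
        refine Finset.prod_congr rfl fun j _ => ?_
        rw [hp j, Nat.cast_sub (PJ_prime j).one_le, Nat.cast_one]
      rw [e1, e3]
      exact ha2 q hq0 _ e2)
  have h1 := (abs_le.mp key).1
  have h2 := err_sum_le (S.lami i) (S.G0 S.R ^ Fintype.card ι) S.R (S.abs_lami_le i)
    (fun α hα => by
      have := (S.lami_support i α hα).2
      rwa [hpf] at this) E (fun q => abs_nonneg _)
  rw [hpf]
  linarith only [h1, h2]

end Pool.Agent.MP89da58
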