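import Pool.Agent.Lib.MP_89da58_nt.Defs2
import Pool.Agent.Lib.MP_89da58_nt.Sizes
import Pool.Agent.Lib.MP_89da58_nt.Bv

set_option autoImplicit false
set_option linter.unusedSectionVars false

/-!
Auxiliary facts for the final assembly: the residue class, detection of primes, prime powers.
-/

namespace Pool.Agent.MP89da58

open ArithmeticFunction

variable {ι : Type} [Fintype ι] [DecidableEq ι]

theorem P_local (p : ℕ) (hp : p.Prime) (h : ι → ℕ)
    (hadm : p ≤ Fintype.card ι → ∀ i, p ∣ h i) : ∃ r : ℕ, ∀ l, ¬ p ∣ r + h l := by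
  classical
  rcases le_or_gt p (Fintype.card ι) with hle | hlt
  · refine ⟨1, fun l hl => ?_⟩
    have := (Nat.dvd_add_left (hadm hle l)).mp hl
    exact hp.one_lt.ne' (Nat.dvd_one.mp this)
  · have := Fact.mk hp
    set s : Finset (ZMod p) := Finset.univ.image (fun l : ι => -((h l : ℕ) : ZMod p)) with hs
    have hcard : s.card < Fintype.card (ZMod p) := by
      rw [ZMod.card]
      calc s.card ≤ (Finset.univ : Finset ι).card := Finset.card_image_le
        _ < p := by rw [Finset.card_univ]; exact hlt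
    obtain ⟨r, hr⟩ : ∃ r : ZMod p, r ∉ s := by
      by_contra hcon
      push Not at hcon
      have : s = Finset.univ := Finset.eq_univ_iff_forall.mpr hcon
      rw [this, Finset.card_univ] at hcard
      exact lt_irrefl _ hcard
    refine ⟨r.val, fun l hl => hr ?_⟩
    rw [hs, Finset.mem_image]
    refine ⟨l, Finset.mem_univ _, ?_⟩
    have h1 : ((r.val + h l : ℕ) : ZMod p) = 0 := (ZMod.natCast_eq_zero_iff _ _).mpr hl
    push_cast at h1
    rw [ZMod.natCast_val, ZMod.cast_id', id] at h1
    exact (eq_neg_of_add_eq_zero_left h1).symm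

theorem P_primorial_succ (D : ℕ) :
    primorial (D + 1) = if (D + 1).Prime then primorial D * (D + 1) else primorial D := by
  unfold primorial
  rw [Finset.range_add_one, Finset.filter_insert]
  split_ifs with h
  · rw [Finset.prod_insert (by simp), mul_comm]
  · rfl

theorem P_coprime (D : ℕ) (hp : (D + 1).Prime) : (primorial D).Coprime (D + 1) := by
  rw [Nat.coprime_comm, hp.coprime_iff_not_dvd, hp.dvd_primorial_iff]
  omega

theorem exists_v (D : ℕ) (h : ι → ℕ)
    (hadm : ∀ i, ∀ p : ℕ, p.Prime → p ≤ Fintype.card ι → p ∣ h i) :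
    ∃ v : ℕ, ∀ l, (v + h l).Coprime (primorial D) := by
  induction D with
  | zero => exact ⟨0, fun l => by rw [primorial_zero]; exact Nat.coprime_one_right _⟩
  | succ D ih =>
    obtain ⟨v, hv⟩ := ih
    by_cases hp : (D + 1).Prime
    · obtain ⟨r, hr⟩ := P_local (D + 1) hp h (fun hle i => hadm i (D + 1) hp hle)
      obtain ⟨w, hw1, hw2⟩ := Nat.chineseRemainder (P_coprime D hp) v r
      refine ⟨w, fun l => ?_⟩
      rw [P_primorial_succ, if_pos hp]
      apply Nat.Coprime.mul_right
      · have h1 : w + h l ≡ v + h l [MOD primorial D] := Nat.ModEq.add_right _ hw1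
        rw [Nat.Coprime, h1.gcd_eq]
        exact hv l
      · rw [Nat.coprime_comm, hp.coprime_iff_not_dvd]
        intro hd
        apply hr l
        have h1 : w + h l ≡ r + h l [MOD (D + 1)] := Nat.ModEq.add_right _ hw2
        exact (h1.dvd_iff dvd_rfl).mp hd
    · refine ⟨v, fun l => ?_⟩
      rw [P_primorial_succ, if_neg hp]
      exact hv l

theorem kapD_eq (D : ℕ) : kapD D = (Nat.totient (primorial D) : ℝ) / (primorial D : ℝ) := by
  unfold kapD
  induction D with
  | zero => simp [primorial_zero]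
  | succ D ih =>
    have hset : (Finset.Icc 1 (D + 1)).filter Nat.Prime =
        if (D + 1).Prime then insert (D + 1) ((Finset.Icc 1 D).filter Nat.Prime) else
          (Finset.Icc 1 D).filter Nat.Prime := by
      ext p
      split_ifs with hp
      · simp only [Finset.mem_filter, Finset.mem_Icc, Finset.mem_insert]
        constructor
        · rintro ⟨⟨h1, h2⟩, h3⟩
          rcases Nat.lt_or_ge p (D + 1) with h | h
          · right; exact ⟨⟨h1, by omega⟩, h3⟩
          · left; omega
        · rintro (rfl | ⟨⟨h1, h2⟩, h3⟩)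
          · exact ⟨⟨by omega, le_refl _⟩, hp⟩
          · exact ⟨⟨h1, by omega⟩, h3⟩
      · simp only [Finset.mem_filter, Finset.mem_Icc]
        constructor
        · rintro ⟨⟨h1, h2⟩, h3⟩
          refine ⟨⟨h1, ?_⟩, h3⟩
          by_contra hc
          have : p = D + 1 := by omega
          rw [this] at h3
          exact hp h3
        · rintro ⟨⟨h1, h2⟩, h3⟩
          exact ⟨⟨h1, by omega⟩, h3⟩
    rw [hset, P_primorial_succ]
    split_ifs with hp
    · rw [Finset.prod_insert (by simp), ih, Nat.totient_mul (P_coprime D hp),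
        Nat.totient_prime hp]
      have h1 : (primorial D : ℝ) ≠ 0 := by
        exact_mod_cast (primorial_pos D).ne'
      have h2 : ((D + 1 : ℕ) : ℝ) ≠ 0 := by positivity
      push_cast
      have h3 : (D : ℝ) + 1 ≠ 0 := by positivity
      field_simp
      ring
    · exact ih

theorem P_part_empty {D R : ℕ} (p : PJ D R → ℕ) (hp : ∀ j, p j = (j : ℕ)) (h : ι → ℕ) (i : ι)
    (n : ℕ) (hn : R < n) (hprime : (n + h i).Prime) (α : PJ D R → Option ι) (hα : dv p h n α) :
    part α i = ∅ := by
  rw [Finset.eq_empty_iff_forall_notMem]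
  intro j hj
  rw [mem_part] at hj
  have h1 := hα j i hj
  rw [hp] at h1
  obtain ⟨q, hq⟩ := j
  rw [Finset.mem_filter, Finset.mem_Ioc] at hq
  simp only at h1
  have h2 := (Nat.prime_dvd_prime_iff_eq hq.2 hprime).mp h1
  omega

theorem detect_one {D R : ℕ} (S : SData ι (PJ D R)) (hp : ∀ j, S.p j = (j : ℕ)) (h : ι → ℕ)
    (i : ι) (n : ℕ) (hn : R < n) (hprime : (n + h i).Prime) :
    ZZ S.p h S.lam n = ZZ S.p h (S.lami i) n := by
  classical
  unfold ZZ
  refine Finset.sum_congr rfl fun α _ => ?_
  by_cases hα : dv S.p h n α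
  · rw [if_pos hα, if_pos hα, S.lami_eq, if_pos (P_part_empty S.p hp h i n hn hprime α hα)]
  · rw [if_neg hα, if_neg hα]

theorem detect_two {D R : ℕ} (S : SData ι (PJ D R)) (hp : ∀ j, S.p j = (j : ℕ)) (h : ι → ℕ)
    (i k : ι) (hik : i ≠ k) (T : ℕ) (hT : 1 ≤ T) (n : ℕ) (hn : R < n)
    (hprime : (n + h i).Prime) (hprime' : (n + h k).Prime) :
    ZZ S.p h S.lam n = ZZ S.p h (S.lamt i k T) n := by
  classical
  unfold ZZ
  refine Finset.sum_congr rfl fun α _ => ?_
  by_cases hα : dv S.p h n α
  · rw [if_pos hα, if_pos hα, S.lamt_eq_lam i k hik T hT α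
      ⟨P_part_empty S.p hp h i n hn hprime α hα, P_part_empty S.p hp h k n hn hprime' α hα⟩]
  · rw [if_neg hα, if_neg hα]

/-- Contribution of the proper prime powers. -/
theorem nonprime_sum_le (X : ℝ) (hX : 10 ≤ X) (N c : ℕ) (hN : (N : ℝ) + c ≤ 4 * X) :
    ∑ n ∈ (Finset.Ioc 0 N).filter (fun n => ¬ (n + c).Prime),
      vonMangoldt (n + c) * Om X (n + c) ≤ 32 * Real.sqrt (4 * X) * Real.log (4 * X) := by
  classical
  have hlog : 1 ≤ Real.log X := by
    rw [Real.le_log_iff_exp_le (by linarith)]
    linarith [Real.exp_one_lt_d9]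
  have h1 : ∑ n ∈ (Finset.Ioc 0 N).filter (fun n => ¬ (n + c).Prime),
      vonMangoldt (n + c) * Om X (n + c) ≤
      ∑ n ∈ (Finset.Ioc 0 N).filter (fun n => ¬ (n + c).Prime), vonMangoldt (n + c) * 8 := by
    refine Finset.sum_le_sum fun n _ => ?_
    exact mul_le_mul_of_nonneg_left (Om_le (by linarith) hlog _) vonMangoldt_nonneg
  have h2 : ∑ n ∈ (Finset.Ioc 0 N).filter (fun n => ¬ (n + c).Prime), vonMangoldt (n + c) ≤
      ∑ m ∈ (Finset.Ioc 0 ⌊4 * X⌋₊).filter (fun m => ¬ m.Prime), vonMangoldt m := by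
    calc ∑ n ∈ (Finset.Ioc 0 N).filter (fun n => ¬ (n + c).Prime), vonMangoldt (n + c) =
        ∑ m ∈ ((Finset.Ioc 0 N).filter (fun n => ¬ (n + c).Prime)).image (fun n => n + c),
          vonMangoldt m := by
          rw [Finset.sum_image]
          intro a _ b _ hab
          exact Nat.add_right_cancel hab
      _ ≤ _ := by
          refine Finset.sum_le_sum_of_subset_of_nonneg ?_ fun m _ _ => vonMangoldt_nonneg
          intro m hm
          rw [Finset.mem_image] at hm
          obtain ⟨n, hn, rfl⟩ := hm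
          rw [Finset.mem_filter, Finset.mem_Ioc] at hn ⊢
          refine ⟨⟨by omega, ?_⟩, hn.2⟩
          apply Nat.le_floor
          push_cast
          have : (n : ℝ) ≤ N := by exact_mod_cast hn.1.2
          linarith
  have h3 := Chebyshev.psi_sub_theta_eq_sum_not_prime (4 * X)
  have h4 := Chebyshev.psi_sub_theta_le (x := 4 * X) (by linarith)
  rw [h3] at h4
  have h5 : 0 ≤ Real.sqrt (4 * X) * Real.log (4 * X) :=
    mul_nonneg (Real.sqrt_nonneg _) (Real.log_nonneg (by linarith))
  rw [← Finset.sum_mul] at h1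
  nlinarith

end Pool.Agent.MP89da58
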