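import Pool.Agent.Lib.MP_89da58_nt.FinalSize
import Pool.Agent.Lib.MP_89da58_nt.FinalAux

set_option autoImplicit false
set_option linter.unusedSectionVars false

/-!
The one-dimensional sum over squarefree integers without small prime factors.
-/

namespace Pool.Agent.MP89da58

/-- `1/n` for `n` coprime to `W`. -/
noncomputable def cW (W n : ℕ) : ℝ := if W.Coprime n then 1 / (n : ℝ) else 0

theorem cW_nonneg (W n : ℕ) : 0 ≤ cW W n := by
  unfold cW
  split_ifs <;> positivity

/-- A block of `W` consecutive integers. -/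
theorem block_card (W a : ℕ) :
    ((Finset.Ioc a (a + W)).filter (fun n => W.Coprime n)).card = Nat.totient W := by
  have h := Nat.filter_coprime_Ico_eq_totient W (a + 1)
  have h1 : Finset.Ioc a (a + W) = Finset.Ico (a + 1) (a + 1 + W) := by
    ext n; rw [Finset.mem_Ioc, Finset.mem_Ico]; omega
  rw [h1]
  exact h

theorem block_lower (W a : ℕ) :
    (Nat.totient W : ℝ) / ((a + W : ℕ) : ℝ) ≤ ∑ n ∈ Finset.Ioc a (a + W), cW W n := by
  unfold cW
  rw [← Finset.sum_filter]
  have h1 : ∑ n ∈ (Finset.Ioc a (a + W)).filter (fun n => W.Coprime n), (1 : ℝ) / ((a + W : ℕ) : ℝ)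
      ≤ ∑ n ∈ (Finset.Ioc a (a + W)).filter (fun n => W.Coprime n), (1 : ℝ) / (n : ℝ) := by
    refine Finset.sum_le_sum fun n hn => ?_
    rw [Finset.mem_filter, Finset.mem_Ioc] at hn
    apply one_div_le_one_div_of_le
    · have : 0 < n := by omega
      exact_mod_cast this
    · exact_mod_cast hn.1.2
  refine le_trans (le_of_eq ?_) h1
  rw [Finset.sum_const, block_card, nsmul_eq_mul]
  ring

theorem block_upper (W a : ℕ) (ha : 0 < a) :
    ∑ n ∈ Finset.Ioc a (a + W), cW W n ≤ (Nat.totient W : ℝ) / (a : ℝ) := by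
  unfold cW
  rw [← Finset.sum_filter]
  have h1 : ∑ n ∈ (Finset.Ioc a (a + W)).filter (fun n => W.Coprime n), (1 : ℝ) / (n : ℝ) ≤
      ∑ n ∈ (Finset.Ioc a (a + W)).filter (fun n => W.Coprime n), (1 : ℝ) / (a : ℝ) := by
    refine Finset.sum_le_sum fun n hn => ?_
    rw [Finset.mem_filter, Finset.mem_Ioc] at hn
    apply one_div_le_one_div_of_le
    · exact_mod_cast ha
    · exact_mod_cast hn.1.1.le
  refine le_trans h1 (le_of_eq ?_)
  rw [Finset.sum_const, block_card, nsmul_eq_mul]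
  ring

theorem Ioc_split (f : ℕ → ℝ) (a b : ℕ) :
    ∑ n ∈ Finset.Ioc 0 (a + b), f n = ∑ n ∈ Finset.Ioc 0 a, f n + ∑ n ∈ Finset.Ioc a (a + b), f n := by
  rw [← Finset.Ioc_union_Ioc_eq_Ioc (Nat.zero_le a) (Nat.le_add_right a b)]
  rw [Finset.sum_union]
  rw [Finset.disjoint_left]
  intro n hn hn'
  rw [Finset.mem_Ioc] at hn hn'
  omega

theorem blocks_lower (W : ℕ) (hW : 0 < W) (M : ℕ) :
    (Nat.totient W : ℝ) / W * (harmonic M : ℝ) ≤ ∑ n ∈ Finset.Ioc 0 (M * W), cW W n := by
  have hWR : (0 : ℝ) < W := by exact_mod_cast hW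
  induction M with
  | zero => simp
  | succ M ih =>
    have e : (M + 1) * W = M * W + W := by ring
    rw [e, Ioc_split, harmonic_succ]
    push_cast
    rw [mul_add]
    refine add_le_add ih (le_trans (le_of_eq ?_) (block_lower W (M * W)))
    push_cast
    have hM : (0 : ℝ) < (M : ℝ) + 1 := by positivity
    have e2 : (M : ℝ) * W + W = (M + 1) * W := by ring
    rw [e2]
    field_simp

theorem blocks_upper (W : ℕ) (hW : 0 < W) (M : ℕ) :
    ∑ n ∈ Finset.Ioc 0 ((M + 1) * W), cW W n ≤ W + (Nat.totient W : ℝ) / W * (harmonic M : ℝ) := by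
  have hWR : (0 : ℝ) < W := by exact_mod_cast hW
  induction M with
  | zero =>
    simp only [zero_add, one_mul, harmonic_zero, Rat.cast_zero, mul_zero, add_zero]
    have h1 : ∑ n ∈ Finset.Ioc 0 W, cW W n ≤ ∑ n ∈ Finset.Ioc 0 W, (1 : ℝ) := by
      refine Finset.sum_le_sum fun n hn => ?_
      rw [Finset.mem_Ioc] at hn
      unfold cW
      split_ifs
      · rw [div_le_one]
        · exact_mod_cast hn.1
        · exact_mod_cast hn.1
      · norm_num
    refine le_trans h1 (le_of_eq ?_)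
    simp
  | succ M ih =>
    have e : (M + 1 + 1) * W = (M + 1) * W + W := by ring
    rw [e, Ioc_split, harmonic_succ]
    push_cast
    rw [mul_add, ← add_assoc]
    refine add_le_add ih (le_trans (block_upper W ((M + 1) * W) (by positivity)) (le_of_eq ?_))
    push_cast
    have hM : (0 : ℝ) < (M : ℝ) + 1 := by positivity
    field_simp

theorem sum_cW_lower (W : ℕ) (hW : 0 < W) (T : ℕ) (hT : 1 ≤ T) :
    (Nat.totient W : ℝ) / W * (Real.log T - Real.log W) ≤ ∑ n ∈ Finset.Icc 1 T, cW W n := by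
  have hWR : (0 : ℝ) < W := by exact_mod_cast hW
  have hTR : (0 : ℝ) < T := by exact_mod_cast hT
  have h1 := blocks_lower W hW (T / W)
  have h2 : ∑ n ∈ Finset.Ioc 0 (T / W * W), cW W n ≤ ∑ n ∈ Finset.Icc 1 T, cW W n := by
    refine Finset.sum_le_sum_of_subset_of_nonneg ?_ fun n _ _ => cW_nonneg W n
    intro n hn
    rw [Finset.mem_Ioc] at hn
    rw [Finset.mem_Icc]
    have := Nat.div_mul_le_self T W
    omega
  refine le_trans (le_trans ?_ h1) h2
  refine mul_le_mul_of_nonneg_left ?_ (by positivity)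
  refine le_trans ?_ (log_add_one_le_harmonic (T / W))
  rw [← Real.log_div hTR.ne' hWR.ne']
  apply Real.log_le_log (by positivity)
  rw [div_le_iff₀ hWR]
  have h3 : T < (T / W + 1) * W := by
    have := Nat.div_add_mod T W
    have h4 := Nat.mod_lt T hW
    nlinarith only [this, h4]
  exact_mod_cast h3.le

theorem sum_cW_upper (W : ℕ) (hW : 0 < W) (T : ℕ) (hT : 1 ≤ T) :
    ∑ n ∈ Finset.Icc 1 T, cW W n ≤ W + (Nat.totient W : ℝ) / W * (1 + Real.log T) := by
  have hWR : (0 : ℝ) < W := by exact_mod_cast hW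
  have hTR : (0 : ℝ) < T := by exact_mod_cast hT
  have h1 := blocks_upper W hW (T / W)
  have h2 : ∑ n ∈ Finset.Icc 1 T, cW W n ≤ ∑ n ∈ Finset.Ioc 0 ((T / W + 1) * W), cW W n := by
    refine Finset.sum_le_sum_of_subset_of_nonneg ?_ fun n _ _ => cW_nonneg W n
    intro n hn
    rw [Finset.mem_Icc] at hn
    rw [Finset.mem_Ioc]
    have := Nat.div_add_mod T W
    have h4 := Nat.mod_lt T hW
    constructor
    · omega
    · nlinarith only [hn, this, h4]
  refine le_trans h2 (le_trans h1 ?_)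
  refine add_le_add le_rfl (mul_le_mul_of_nonneg_left ?_ (by positivity))
  have h3 : (harmonic (T / W) : ℝ) ≤ harmonic T := by
    rw [harmonic_eq_sum_Icc, harmonic_eq_sum_Icc]
    push_cast
    refine Finset.sum_le_sum_of_subset_of_nonneg ?_ fun n _ _ => by positivity
    exact Finset.Icc_subset_Icc le_rfl (Nat.div_le_self _ _)
  exact le_trans h3 (harmonic_le_one_add_log T)

theorem primorial_coprime_iff (D n : ℕ) (h : (primorial D).Coprime n) (p : ℕ) (hp : p.Prime)
    (hpn : p ∣ n) : D < p := by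
  by_contra hc
  push Not at hc
  have h1 : p ∣ primorial D := by
    unfold primorial
    apply Finset.dvd_prod_of_mem
    rw [Finset.mem_filter, Finset.mem_range]
    exact ⟨by omega, hp⟩
  exact hp.one_lt.ne' (Nat.dvd_one.mp (h ▸ Nat.dvd_gcd h1 hpn))

theorem nn_PJ_coprime {D R : ℕ} (a : Finset (PJ D R)) :
    (primorial D).Coprime (nn (fun j : PJ D R => (j : ℕ)) a) := by
  unfold nn
  apply Nat.Coprime.prod_right
  intro j _
  exact (PJ_coprime j).symm

/-- Upper bound by the sum over all integers without small prime factors. -/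
theorem f_le (D R T : ℕ) :
    (∑ a : Finset (PJ D R), if nn (fun j : PJ D R => (j : ℕ)) a ≤ T then
        pw (fun j : PJ D R => 1 / ((j : ℕ) : ℝ)) a else 0) ≤
      ∑ n ∈ Finset.Icc 1 T, cW (primorial D) n := by
  classical
  rw [← Finset.sum_filter]
  have h1 : ∑ a ∈ (Finset.univ : Finset (Finset (PJ D R))).filter
      (fun a => nn (fun j : PJ D R => (j : ℕ)) a ≤ T),
        pw (fun j : PJ D R => 1 / ((j : ℕ) : ℝ)) a =
      ∑ n ∈ ((Finset.univ : Finset (Finset (PJ D R))).filter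
        (fun a => nn (fun j : PJ D R => (j : ℕ)) a ≤ T)).image
          (fun a => nn (fun j : PJ D R => (j : ℕ)) a), cW (primorial D) n := by
    rw [Finset.sum_image (fun a _ b _ hab => nn_PJ_injective hab)]
    refine Finset.sum_congr rfl fun a _ => ?_
    unfold cW
    rw [if_pos (nn_PJ_coprime a)]
    unfold pw nn
    rw [Finset.prod_div_distrib, Finset.prod_const_one, Nat.cast_prod]
  rw [h1]
  refine Finset.sum_le_sum_of_subset_of_nonneg ?_ fun n _ _ => cW_nonneg _ n
  intro n hn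
  rw [Finset.mem_image] at hn
  obtain ⟨a, ha, rfl⟩ := hn
  rw [Finset.mem_filter] at ha
  rw [Finset.mem_Icc]
  exact ⟨Finset.prod_pos fun j _ => (PJ_prime j).pos, ha.2⟩

/-- Every integer without small prime factors is a square times a squarefree integer. -/
theorem f_ge (D R T : ℕ) (hTR : T ≤ R) :
    ∑ n ∈ Finset.Icc 1 T, cW (primorial D) n ≤
    2 * (∑ a : Finset (PJ D R), if nn (fun j : PJ D R => (j : ℕ)) a ≤ T then
        pw (fun j : PJ D R => 1 / ((j : ℕ) : ℝ)) a else 0) := by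
  classical
  rw [← Finset.sum_filter]
  -- the decomposition
  have hdec : ∀ n : ℕ, ∃ x : Finset (PJ D R) × ℕ, (1 ≤ n ∧ n ≤ T ∧ (primorial D).Coprime n →
      nn (fun j : PJ D R => (j : ℕ)) x.1 * x.2 ^ 2 = n ∧ x.2 ≠ 0) := by
    intro n
    by_cases hn : 1 ≤ n ∧ n ≤ T ∧ (primorial D).Coprime n
    · obtain ⟨a, b, hab, hsq⟩ := Nat.sq_mul_squarefree n
      have ha0 : a ≠ 0 := hsq.ne_zero
      have hb0 : b ≠ 0 := by
        rintro rfl
        have : n = 0 := by rw [← hab]; ring
        omega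
      refine ⟨((Finset.univ : Finset (PJ D R)).filter (fun j => (j : ℕ) ∣ a), b), fun _ => ⟨?_, hb0⟩⟩
      have hadvd : a ∣ n := ⟨b ^ 2, by rw [← hab]; ring⟩
      have h2 : nn (fun j : PJ D R => (j : ℕ))
          ((Finset.univ : Finset (PJ D R)).filter (fun j => (j : ℕ) ∣ a)) = a := by
        conv_rhs => rw [← Nat.prod_primeFactors_of_squarefree hsq]
        unfold nn
        have h3 : a.primeFactors = Finset.image (fun j : PJ D R => (j : ℕ))
            (Finset.filter (fun j : PJ D R => (j : ℕ) ∣ a) (Finset.univ : Finset (PJ D R))) := by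
          ext p
          rw [Nat.mem_primeFactors, Finset.mem_image]
          constructor
          · rintro ⟨hp, hpa, _⟩
            have hpD : D < p := primorial_coprime_iff D n hn.2.2 p hp (hpa.trans hadvd)
            have hpR : p ≤ R := by
              have h4 := Nat.le_of_dvd (by omega) (hpa.trans hadvd)
              omega
            refine ⟨⟨p, Finset.mem_filter.mpr ⟨Finset.mem_Ioc.mpr ⟨hpD, hpR⟩, hp⟩⟩, ?_, rfl⟩
            rw [Finset.mem_filter]
            exact ⟨Finset.mem_univ _, hpa⟩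
          · rintro ⟨j, hj, rfl⟩
            rw [Finset.mem_filter] at hj
            exact ⟨PJ_prime j, hj.2, ha0⟩
        rw [h3, Finset.prod_image (fun i _ j _ hij => PJ_inj hij)]
      simp only
      rw [h2, ← hab]
      ring
    · exact ⟨(∅, 0), fun h => absurd h hn⟩
  choose φ hφ using hdec
  set A := (Finset.Icc 1 T).filter (fun n => (primorial D).Coprime n) with hA
  have hAmem : ∀ n ∈ A, nn (fun j : PJ D R => (j : ℕ)) (φ n).1 * (φ n).2 ^ 2 = n ∧
      (φ n).2 ≠ 0 ∧ n ≤ T := by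
    intro n hn
    rw [hA, Finset.mem_filter, Finset.mem_Icc] at hn
    obtain ⟨h1, h2⟩ := hφ n ⟨hn.1.1, hn.1.2, hn.2⟩
    exact ⟨h1, h2, hn.1.2⟩
  have e1 : ∑ n ∈ Finset.Icc 1 T, cW (primorial D) n = ∑ n ∈ A, (1 : ℝ) / (n : ℝ) := by
    unfold cW
    rw [← Finset.sum_filter]
  rw [e1]
  set B : Finset (Finset (PJ D R) × ℕ) := ((Finset.univ : Finset (Finset (PJ D R))).filter
      (fun a => nn (fun j : PJ D R => (j : ℕ)) a ≤ T)) ×ˢ (Finset.Ioo 0 (T + 1)) with hB
  have e2 : ∑ n ∈ A, (1 : ℝ) / (n : ℝ) = ∑ x ∈ A.image φ,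
      pw (fun j : PJ D R => 1 / ((j : ℕ) : ℝ)) x.1 * (((x.2 : ℝ)) ^ 2)⁻¹ := by
    rw [Finset.sum_image]
    · refine Finset.sum_congr rfl fun n hn => ?_
      obtain ⟨h1, h2, _⟩ := hAmem n hn
      conv_lhs => rw [← h1]
      unfold pw nn
      rw [Finset.prod_div_distrib, Finset.prod_const_one]
      push_cast
      rw [one_div, mul_inv, one_div]
    · intro n hn n' hn' hnn
      rw [← (hAmem n hn).1, ← (hAmem n' hn').1, hnn]
  rw [e2]
  have e3 : A.image φ ⊆ B := by
    intro x hx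
    rw [Finset.mem_image] at hx
    obtain ⟨n, hn, rfl⟩ := hx
    obtain ⟨h1, h2, h3⟩ := hAmem n hn
    rw [hB, Finset.mem_product, Finset.mem_filter, Finset.mem_Ioo]
    have hnn : 0 < nn (fun j : PJ D R => (j : ℕ)) (φ n).1 :=
      Finset.prod_pos fun j _ => (PJ_prime j).pos
    have hb : 0 < (φ n).2 := Nat.pos_of_ne_zero h2
    refine ⟨⟨Finset.mem_univ _, ?_⟩, hb, ?_⟩
    · calc nn (fun j : PJ D R => (j : ℕ)) (φ n).1
          ≤ nn (fun j : PJ D R => (j : ℕ)) (φ n).1 * (φ n).2 ^ 2 :=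
            Nat.le_mul_of_pos_right _ (by positivity)
        _ = n := h1
        _ ≤ T := h3
    · have h4 : (φ n).2 ≤ n := by
        calc (φ n).2 ≤ (φ n).2 ^ 2 := by nlinarith only [hb]
          _ ≤ nn (fun j : PJ D R => (j : ℕ)) (φ n).1 * (φ n).2 ^ 2 :=
            Nat.le_mul_of_pos_left _ hnn
          _ = n := h1
      omega
  have hpw0 : ∀ a : Finset (PJ D R), 0 ≤ pw (fun j : PJ D R => 1 / ((j : ℕ) : ℝ)) a :=
    fun a => pw_nonneg (fun j => by (clear * -; positivity)) a
  refine le_trans (Finset.sum_le_sum_of_subset_of_nonneg e3 fun x _ _ =>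
    mul_nonneg (hpw0 _) (by (clear * -; positivity))) ?_
  rw [hB, Finset.sum_product]
  simp only
  have e4 := sum_Ioo_inv_sq_le (α := ℝ) 0 (T + 1)
  norm_num at e4
  rw [mul_comm (2 : ℝ), Finset.sum_mul]
  refine Finset.sum_le_sum fun a _ => ?_
  rw [← Finset.mul_sum]
  exact mul_le_mul_of_nonneg_left e4 (hpw0 a)

theorem one_dim (D : ℕ) : ∃ T0 : ℕ, ∀ T R : ℕ, T0 ≤ T → T ≤ R →
    (kapD D * Real.log T / 4 ≤
      ∑ a : Finset (PJ D R), if nn (fun j : PJ D R => (j : ℕ)) a ≤ T then
        pw (fun j : PJ D R => 1 / ((j : ℕ) : ℝ)) a else 0) ∧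
    (∑ a : Finset (PJ D R), if nn (fun j : PJ D R => (j : ℕ)) a ≤ T then
        pw (fun j : PJ D R => 1 / ((j : ℕ) : ℝ)) a else 0) ≤ 2 * kapD D * Real.log T := by
  have hW : 0 < primorial D := primorial_pos D
  have hWR : (0 : ℝ) < (primorial D : ℝ) := by exact_mod_cast hW
  have hφ : (0 : ℝ) < (Nat.totient (primorial D) : ℝ) := by
    exact_mod_cast Nat.totient_pos.mpr hW
  have hκdef := kapD_eq D
  have hκ : 0 < kapD D := by rw [hκdef]; positivity
  have e1 : ∀ᶠ T : ℕ in Filter.atTop,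
      max (2 * Real.log (primorial D)) (((primorial D : ℝ) + kapD D) / kapD D) ≤ Real.log T :=
    (Real.tendsto_log_atTop.comp tendsto_natCast_atTop_atTop).eventually_ge_atTop _
  obtain ⟨T1, hT1⟩ := Filter.eventually_atTop.1 e1
  refine ⟨max T1 1, fun T R hT hTR => ?_⟩
  have hT1' := hT1 T (le_trans (le_max_left _ _) hT)
  have hT2 : 1 ≤ T := le_trans (le_max_right _ _) hT
  have h1 := le_trans (le_max_left _ _) hT1'
  have h2 := le_trans (le_max_right _ _) hT1'
  rw [div_le_iff₀ hκ] at h2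
  constructor
  · have h3 := sum_cW_lower (primorial D) hW T hT2
    have h4 := f_ge D R T hTR
    rw [← hκdef] at h3
    have h5 : kapD D * (2 * Real.log (primorial D)) ≤ kapD D * Real.log T :=
      mul_le_mul_of_nonneg_left h1 hκ.le
    linarith only [h3, h4, h5]
  · have h3 := sum_cW_upper (primorial D) hW T hT2
    rw [← hκdef] at h3
    have h4 := f_le D R T
    linarith

end Pool.Agent.MP89da58
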