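import Pool.Agent.Lib.MP_89da58_nt.FinalNum2
import Pool.Agent.Lib.MP_89da58_nt.OneDim
import Pool.Agent.Lib.MP_89da58_nt.FinalParts
import Pool.Agent.Lib.MP_89da58_nt.FinalNum
import Pool.Agent.Lib.MP_89da58_nt.Mk
import Pool.Agent.Lib.MP_89da58_nt.FinalPrime

set_option autoImplicit false
set_option linter.unusedSectionVars false

/-!
The final assembly.
-/

namespace Pool.Agent.MP89da58

open ArithmeticFunction

/-- The output of the sieve, given the weighted Bombieri-Vinogradov estimate. -/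
theorem sieve_main
    (hbvw : ∀ (b W : ℕ) (_ : 0 < W) (A : ℕ), ∀ X0 : ℝ, ∃ X : ℝ, X0 ≤ X ∧
    ∀ a : ℕ → ℕ, (∀ q, (a q).Coprime (W * q)) →
    ∑ q ∈ (Finset.Icc 1 ⌊X ^ (1 / 60 : ℝ)⌋₊).filter Squarefree,
      (b : ℝ) ^ (q.primeFactors.card) *
        |psiAP X (W * q) (a q) - psiX X / (Nat.totient (W * q) : ℝ)|
      ≤ X / (Real.log X) ^ A) : SieveMain := by
  classical
  obtain ⟨c0, hc0, X1, hX1⟩ := psiX_lower
  refine ⟨c0 / 26843545600, 5, by positivity, by norm_num, ?_⟩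
  intro ι _ _ m hm hKm h hinj hadm
  have hK2 : 2 ≤ Fintype.card ι := le_trans (by
    calc 2 = 2 ^ 1 := by norm_num
      _ ≤ 2 ^ m := Nat.pow_le_pow_right (by norm_num) hm) hKm
  obtain ⟨K, hKdef⟩ : ∃ K : ℕ, K = Fintype.card ι := ⟨_, rfl⟩
  rw [← hKdef] at hK2 hKm
  have hK2R : (2 : ℝ) ≤ K := by exact_mod_cast hK2
  have hm1 : (1 : ℝ) ≤ m := by exact_mod_cast hm
  -- the parameter D
  obtain ⟨D, hDdef⟩ : ∃ D : ℕ, D = 16 * (K + 2) ^ 2 + ∑ l, h l + 1 := ⟨_, rfl⟩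
  have hD16 : 16 * (K + 2) ^ 2 ≤ D := by omega
  have hh : ∀ l, h l < D := by
    intro l
    have := Finset.single_le_sum (f := h) (fun _ _ => Nat.zero_le _) (Finset.mem_univ l)
    omega
  obtain ⟨v, hv⟩ := exists_v D h hadm
  have hW : 0 < primorial D := primorial_pos D
  have hWR : (0 : ℝ) < (primorial D : ℝ) := by exact_mod_cast hW
  have hφ : (0 : ℝ) < (Nat.totient (primorial D) : ℝ) := by
    exact_mod_cast Nat.totient_pos.mpr hW
  have hκdef := kapD_eq D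
  have hκ : 0 < kapD D := by rw [hκdef]; positivity
  have hκ1 : kapD D ≤ 1 := by
    rw [hκdef, div_le_one hWR]
    exact_mod_cast Nat.totient_le _
  have hφκ : (Nat.totient (primorial D) : ℝ) = kapD D * (primorial D : ℝ) := by
    rw [hκdef]; field_simp
  obtain ⟨y0, hy0⟩ := exists_sdata_of (ι := ι) D m (one_dim D) hm (by rw [← hKdef]; exact hKm)
    (by rw [← hKdef]; exact hD16)
  rw [← hKdef] at hy0
  -- the big constant
  obtain ⟨C, hCdef⟩ : ∃ C : ℝ, C = 16 * kapD D * (primorial D : ℝ) / c0 * 128 +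
      (K : ℝ) ^ 2 * (primorial D : ℝ) + D + 10 := ⟨_, rfl⟩
  obtain ⟨X0, hX0⟩ := eventually_num K m y0 (by omega) (kapD D) C hκ
  obtain ⟨X, hXX0, hbv⟩ := hbvw (3 * K) (primorial D) hW (2 * K + 2) (max X0 X1)
  obtain ⟨hX10, hL10, hCL, hZX, hCZ, hZ1, hLZ, y, hy0y, hy2, hyE, hly2, hly1, hly8⟩ :=
    hX0 X (le_trans (le_max_left _ _) hXX0)
  have hpsi := hX1 X (le_trans (le_max_right _ _) hXX0)
  have hy0y' := hy0 y hy0y
  obtain ⟨R, hRdef⟩ : ∃ R : ℕ, R = y ^ (128 * K * (m + 1)) := ⟨_, rfl⟩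
  rw [← hRdef] at hy0y'
  obtain ⟨S, hSp, hSR, hA1l, hA1u, hA2l, hA2u, hB1, hG0l⟩ := hy0y'
  have hyE' : (R : ℝ) ≤ X ^ (1 / 200 : ℝ) := by rw [hRdef]; push_cast; exact hyE
  clear hyE
  -- abbreviations
  obtain ⟨Z, hZdef⟩ : ∃ Z : ℝ, Z = X ^ (1 / 200 : ℝ) := ⟨_, rfl⟩
  rw [← hZdef] at hZX hCZ hZ1 hLZ hyE'
  obtain ⟨L, hLdef⟩ : ∃ L : ℝ, L = Real.log X := ⟨_, rfl⟩
  rw [← hLdef] at hL10 hCL hLZ hly2 hly1
  obtain ⟨ly, hlydef⟩ : ∃ ly : ℝ, ly = Real.log y := ⟨_, rfl⟩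
  rw [← hlydef] at hly2 hly1 hly8 hA1l hA1u hA2l hA2u hG0l
  obtain ⟨κ, hκd⟩ : ∃ κ : ℝ, κ = kapD D := ⟨_, rfl⟩
  rw [← hκd] at hκ hκ1 hφκ hCdef hly8 hA1l hA1u hA2l hA2u hG0l
  obtain ⟨W, hWd⟩ : ∃ W : ℝ, W = (primorial D : ℝ) := ⟨_, rfl⟩
  rw [← hWd] at hWR hφκ hCdef
  have hXpos : 0 < X := by linarith only [hX10]
  have hly0 : 0 < ly := by
    by_contra hc
    push Not at hc
    have : κ * ly ≤ 0 := mul_nonpos_of_nonneg_of_nonpos hκ.le hc
    linarith only [this, hly8]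
  have hA1one : 1 ≤ S.A1 := by
    refine le_trans ?_ hA1l
    have : κ * ly ≤ m * (κ * ly) := le_mul_of_one_le_left (mul_pos hκ hly0).le hm1
    linarith only [this, hly8]
  have hA2one : 1 ≤ S.A2 := by
    refine le_trans ?_ hA2l
    linarith only [hly8]
  have hA1L : S.A1 ≤ L := by
    refine le_trans hA1u ?_
    have h1 : (m + 2) * κ * ly ≤ (m + 2) * 1 * ly := by
      refine mul_le_mul_of_nonneg_right ?_ hly0.le
      exact mul_le_mul_of_nonneg_left hκ1 (by linarith only [hm1])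
    have h2 : ly * (200 * (128 * K * (m + 1))) ≤ L := by
      rwa [le_div_iff₀ (by positivity)] at hly2
    have h3 : (m + 2) * 1 * ly ≤ ly * (200 * (128 * K * (m + 1))) := by
      have h4 : (m : ℝ) + 2 ≤ 200 * (128 * K * (m + 1)) := aux_a _ _ hm1 hK2R
      calc (m + 2) * 1 * ly = ly * (m + 2) := by ring
        _ ≤ _ := mul_le_mul_of_nonneg_left h4 hly0.le
    linarith only [h1, h2, h3]
  have hR0 : (0 : ℝ) ≤ R := Nat.cast_nonneg _
  have hR1 : 1 ≤ R := by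
    rw [hRdef]; exact Nat.one_le_pow _ _ (by omega)
  have hR1R : (1 : ℝ) ≤ R := by exact_mod_cast hR1
  have hZ0 : 0 ≤ Z := zero_le_one.trans hZ1
  have hlogR : Real.log R ≤ L / 200 := by
    have h1 := Real.log_le_log (zero_lt_one.trans_le hR1R) hyE'
    have h2 : Real.log Z = L / 200 := by
      rw [hZdef, Real.log_rpow hXpos, ← hLdef]; ring
    rwa [h2] at h1
  have hlogR0 : 0 ≤ Real.log R := Real.log_nonneg hR1R
  have hL1 : 1 ≤ L := by linarith only [hL10]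
  have hL0 : 0 ≤ L := zero_le_one.trans hL1
  have hG1 : S.G0 S.R ≤ L := by
    rw [hSR]
    refine le_trans (G0_le S hSp R) ?_
    linarith only [hlogR, hL10]
  have hG3 : S.G0 (S.R * (R * R)) ≤ L := by
    rw [hSR]
    refine le_trans (G0_le S hSp _) ?_
    push_cast
    have hRne : (R : ℝ) ≠ 0 := (zero_lt_one.trans_le hR1R).ne'
    rw [Real.log_mul hRne (mul_ne_zero hRne hRne), Real.log_mul hRne hRne]
    linarith only [hlogR, hL10]
  have hG10 : 0 ≤ S.G0 S.R := G0_nonneg S _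
  have hG30 : 0 ≤ S.G0 (S.R * (R * R)) := G0_nonneg S _
  -- total masses
  have hlam : ∑ α, |S.lam α| ≤ Z * L ^ (2 * K) := by
    refine le_trans (sum_abs_le S S.lam _ S.R S.abs_lam_le S.lam_support) ?_
    rw [← hKdef, hSR, mul_assoc, ← pow_add, ← two_mul]
    rw [hSR] at hG1 hG10
    exact mul_le_mul hyE' (pow_le_pow_left₀ hG10 hG1 _) (pow_nonneg hG10 _) hZ0
  have hlami : ∀ i, ∑ α, |S.lami i α| ≤ Z * L ^ (2 * K) := by
    intro i
    refine le_trans (sum_abs_le S (S.lami i) _ S.R (S.abs_lami_le i)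
      (fun α hα => (S.lami_support i α hα).2)) ?_
    rw [← hKdef, hSR, mul_assoc, ← pow_add, ← two_mul]
    rw [hSR] at hG1 hG10
    exact mul_le_mul hyE' (pow_le_pow_left₀ hG10 hG1 _) (pow_nonneg hG10 _) hZ0
  have hlamt : ∀ i k, i ≠ k → ∑ α, |S.lamt i k R α| ≤ Z ^ 3 * L ^ (2 * K + 2) := by
    intro i k hik
    refine le_trans (sum_abs_le S (S.lamt i k R) _ (S.R * (R * R)) (S.abs_lamt_le i k hik R hR1)
      (fun α hα => S.lamt_support i k hik R α hα)) ?_
    rw [← hKdef]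
    have h1 : ((S.R * (R * R) : ℕ) : ℝ) ≤ Z ^ 3 := by
      rw [hSR]
      push_cast
      calc (R : ℝ) * (R * R) = R ^ 3 := by ring
        _ ≤ Z ^ 3 := pow_le_pow_left₀ hR0 hyE' 3
    have h2 : S.G0 (S.R * (R * R)) ^ K ≤ L ^ K := pow_le_pow_left₀ hG30 hG3 _
    have h3 : S.A1 ^ 2 ≤ L ^ 2 := pow_le_pow_left₀ (zero_le_one.trans hA1one) hA1L 2
    calc ((S.R * (R * R) : ℕ) : ℝ) * S.G0 (S.R * (R * R)) ^ K *
          (S.A1 ^ 2 * S.G0 (S.R * (R * R)) ^ K)
        ≤ (Z ^ 3 * L ^ K) * (L ^ 2 * L ^ K) := by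
          refine mul_le_mul ?_ ?_ (mul_nonneg (sq_nonneg _) (pow_nonneg hG30 _))
            (mul_nonneg (pow_nonneg hZ0 _) (pow_nonneg hL0 _))
          · exact mul_le_mul h1 h2 (pow_nonneg hG30 _) (pow_nonneg hZ0 _)
          · exact mul_le_mul h3 h2 (pow_nonneg hG30 _) (pow_nonneg hL0 _)
      _ = Z ^ 3 * L ^ (2 * K + 2) := by ring
  -- the range
  obtain ⟨N, hNdef⟩ : ∃ N : ℕ, N = ⌈3 * X⌉₊ := ⟨_, rfl⟩
  have hN3 : 3 * X ≤ N := by rw [hNdef]; exact Nat.le_ceil _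
  have hN31 : (N : ℝ) ≤ 3 * X + 1 := by
    rw [hNdef]; exact (Nat.ceil_lt_add_one (by linarith only [hXpos])).le
  have hNpos : (0 : ℝ) < N := by linarith only [hXpos, hN3]
  have hZ7 : ∀ e : ℕ, 1 ≤ e → e ≤ 200 → Z ^ e ≤ X := by
    intro e _ he
    rw [← hZX]
    exact pow_le_pow_right₀ hZ1 he
  have hx1 : 0 ≤ 16 * κ * W / c0 := div_nonneg (mul_nonneg (mul_nonneg (by norm_num) hκ.le)
    hWR.le) hc0.le
  have hx2 : (0 : ℝ) ≤ (K : ℝ) ^ 2 * W := mul_nonneg (sq_nonneg _) hWR.le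
  have hx3 : (0 : ℝ) ≤ D := Nat.cast_nonneg _
  have hK2W : (K : ℝ) ^ 2 * W ≤ Z := by
    linarith only [hx1, hx3, hCZ, hCdef]
  have hD10 : (D : ℝ) + 10 ≤ Z := by
    linarith only [hx1, hx2, hCZ, hCdef]
  have hc0Z : 16 * κ * W / c0 * 128 ≤ Z := by
    linarith only [hx2, hx3, hCZ, hCdef]
  have hc0L : 16 * κ * W / c0 ≤ L := by
    linarith only [hx1, hx2, hx3, hCL, hCdef]
  have hZ2 : 10 * Z ≤ X :=
    aux_b Z X D (hZ7 2 (by norm_num) (by norm_num)) (Nat.cast_nonneg _) hD10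
  have hNh : ∀ l, (N : ℝ) + h l ≤ 4 * X := by
    intro l
    have h1 : (h l : ℝ) ≤ D := by exact_mod_cast (hh l).le
    linarith only [h1, hN31, hD10, hZ2, hXpos, hZ0, hX10]
  have hRN : R ≤ N := by
    have : (R : ℝ) ≤ N := by linarith only [hyE', hZ2, hN3, hZ0, hXpos]
    exact_mod_cast this
  have hK1W : W ≤ Z := le_trans (aux_c _ _ hK2R hWR) hK2W
  have hA2pow : ∀ e : ℕ, 1 ≤ S.A2 ^ e := fun e => one_le_pow₀ hA2one
  have hA2pow0 : ∀ e : ℕ, 0 ≤ S.A2 ^ e := fun e => zero_le_one.trans (hA2pow e)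
  have hNW0 : 0 ≤ (N : ℝ) / W := div_nonneg hNpos.le hWR.le
  have hXN : X ≤ N := by linarith only [hN3, hXpos]
  have hκW0 : 0 < κ * W := mul_pos hκ hWR
  have hcX0 : 0 < c0 * X := mul_pos hc0 hXpos
  -- the output
  refine ⟨(Finset.Ioc R N).filter (fun n => n ≡ v [MOD primorial D]),
    fun n => ZZ S.p h S.lam n ^ 2, 2 * (N / W) * S.A2 ^ K, fun n => sq_nonneg _, ?_, ?_, ?_, ?_⟩
  · exact mul_pos (mul_pos zero_lt_two (div_pos hNpos hWR)) (zero_lt_one.trans_le (hA2pow K))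
  · -- total weight
    have hpf : S.p = fun j : PJ D R => (j : ℕ) := funext hSp
    have hxf : S.x = fun j : PJ D R => 1 / ((j : ℕ) : ℝ) := by
      funext j; unfold SData.x; rw [hSp j]
    have h1 := quad_upper h hh hinj v S.lam R N hRN
    rw [← hpf, ← hxf, ← hWd] at h1
    refine le_trans h1 ?_
    have h2 := S.bil_lam_le
    rw [← hKdef] at h2
    have h3 : ((N : ℝ) - R) / W * bil S.x S.lam S.lam ≤ N / W * S.A2 ^ K := by
      calc ((N : ℝ) - R) / W * bil S.x S.lam S.lam ≤ ((N : ℝ) - R) / W * S.A2 ^ K := by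
            refine mul_le_mul_of_nonneg_left h2 (div_nonneg ?_ hWR.le)
            have : (R : ℝ) ≤ N := by exact_mod_cast hRN
            linarith only [this]
        _ ≤ _ := by
            refine mul_le_mul_of_nonneg_right ?_ (hA2pow0 K)
            exact div_le_div_of_nonneg_right (by linarith only [hR0]) hWR.le
    have h4 : (∑ α, |S.lam α|) ^ 2 ≤ N / W * S.A2 ^ K := by
      have h5 : (∑ α, |S.lam α|) ^ 2 ≤ (Z * L ^ (2 * K)) ^ 2 :=
        pow_le_pow_left₀ (Finset.sum_nonneg fun _ _ => abs_nonneg _) hlam 2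
      have h6 : (Z * L ^ (2 * K)) ^ 2 ≤ Z ^ 3 := by
        calc (Z * L ^ (2 * K)) ^ 2 = Z ^ 2 * L ^ (4 * K) := by ring
          _ ≤ Z ^ 2 * L ^ (4 * K + 4) := by
              refine mul_le_mul_of_nonneg_left ?_ (sq_nonneg _)
              exact pow_le_pow_right₀ hL1 (by omega)
          _ ≤ Z ^ 2 * Z := mul_le_mul_of_nonneg_left hLZ (sq_nonneg _)
          _ = Z ^ 3 := by ring
      have h7 : Z ^ 3 ≤ N / W := by
        rw [le_div_iff₀ hWR]
        calc Z ^ 3 * W ≤ Z ^ 3 * Z := mul_le_mul_of_nonneg_left hK1W (pow_nonneg hZ0 _)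
          _ = Z ^ 4 := by ring
          _ ≤ X := hZ7 4 (by norm_num) (by norm_num)
          _ ≤ N := hXN
      calc _ ≤ N / W := h5.trans (h6.trans h7)
        _ ≤ N / W * S.A2 ^ K := le_mul_of_one_le_right hNW0 (hA2pow K)
    linarith only [h3, h4]
  · -- one prime
    intro i
    have hkk : (1 : ℝ) ≤ Real.log X := by rw [← hLdef]; exact hL1
    have h1 := prime_part S hSp h X hX10 hkk N hNh v i _ (hlami i)
    refine le_trans ?_ h1
    have hlogR1 : 1 < Real.log S.R := by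
      have e1 : ly ≤ Real.log R := by
        rw [hlydef, hRdef]
        push_cast
        rw [Real.log_pow]
        have e2 : (1 : ℝ) ≤ ((128 * K * (m + 1) : ℕ) : ℝ) := by
          exact_mod_cast aux_g K m hK2
        have e3 : 0 ≤ Real.log y := by rw [← hlydef]; exact hly0.le
        exact le_mul_of_one_le_left e3 e2
      have e4 : 8 ≤ ly := by
        refine le_trans hly8 ?_
        exact mul_le_of_le_one_left hly0.le hκ1
      rw [hSR]
      linarith only [e1, e4]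
    have h2 := S.bil_lami_ge i hlogR1 (by rw [← hKdef]; exact hB1)
    rw [← hKdef] at h2
    obtain ⟨a, ha, h3⟩ := prime_sum_ge S hSp h hh hinj v hv X hkk R N
      (by linarith only [hyE', hD10, hZ2, hZ0]) hN3 i
    rw [← hKdef] at h3
    have h4 := hbv a ha
    obtain ⟨P, hPdef⟩ : ∃ P : ℝ, P = S.A2 ^ (K - 1) := ⟨_, rfl⟩
    have hP1 : 1 ≤ P := by rw [hPdef]; exact hA2pow _
    rw [← hPdef] at h2
    have hAK : S.A2 ^ K = S.A2 * P := by
      rw [hPdef, ← pow_succ']; congr 1; omega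
    -- the error terms
    have h5 : (S.G0 S.R ^ K) ^ 2 *
        ∑ q ∈ (Finset.Icc 1 (S.R * S.R)).filter Squarefree,
          ((3 * K : ℕ) : ℝ) ^ (q.primeFactors.card) *
            |psiAP X (primorial D * q) (a q) - psiX X / (Nat.totient (primorial D * q) : ℝ)| ≤
        X / L ^ 2 := by
      have e1 : ∑ q ∈ (Finset.Icc 1 (S.R * S.R)).filter Squarefree,
          ((3 * K : ℕ) : ℝ) ^ (q.primeFactors.card) *
            |psiAP X (primorial D * q) (a q) - psiX X / (Nat.totient (primorial D * q) : ℝ)| ≤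
          X / L ^ (2 * K + 2) := by
        rw [hLdef]
        refine le_trans (Finset.sum_le_sum_of_subset_of_nonneg ?_ fun _ _ _ =>
          mul_nonneg (pow_nonneg (Nat.cast_nonneg _) _) (abs_nonneg _)) h4
        intro q hq
        rw [Finset.mem_filter, Finset.mem_Icc] at hq ⊢
        refine ⟨⟨hq.1.1, le_trans hq.1.2 (Nat.le_floor ?_)⟩, hq.2⟩
        rw [hSR]
        push_cast
        calc (R : ℝ) * R ≤ Z * Z := mul_le_mul hyE' hyE' hR0 hZ0
          _ = X ^ (1 / 100 : ℝ) := by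
              rw [hZdef, ← Real.rpow_add hXpos]; norm_num
          _ ≤ X ^ (1 / 60 : ℝ) :=
              Real.rpow_le_rpow_of_exponent_le (by linarith only [hX10]) (by norm_num)
      have e2 : (S.G0 S.R ^ K) ^ 2 ≤ L ^ (2 * K) := by
        rw [← pow_mul, mul_comm K 2]
        exact pow_le_pow_left₀ hG10 hG1 _
      calc _ ≤ L ^ (2 * K) * (X / L ^ (2 * K + 2)) :=
            mul_le_mul e2 e1 (Finset.sum_nonneg fun _ _ =>
              mul_nonneg (pow_nonneg (Nat.cast_nonneg _) _) (abs_nonneg _)) (pow_nonneg hL0 _)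
        _ = X / L ^ 2 := by
            have hLne : L ≠ 0 := (zero_lt_one.trans_le hL1).ne'
            rw [pow_add]
            field_simp
    have hMn : c0 * X / (κ * W) * (S.A1 ^ 2 * P / 4) ≤
        psiX X / (Nat.totient (primorial D) : ℝ) * bil S.x' (S.lami i) (S.lami i) := by
      refine mul_le_mul ?_ h2 (div_nonneg (mul_nonneg (sq_nonneg _)
        (zero_le_one.trans hP1)) (by norm_num)) ?_
      · rw [hφκ]
        exact div_le_div_of_nonneg_right hpsi hκW0.le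
      · rw [hφκ]
        exact div_nonneg (le_trans hcX0.le hpsi) hκW0.le
    have hMn1 : c0 * X / (4 * (κ * W)) ≤ c0 * X / (κ * W) * (S.A1 ^ 2 * P / 4) := by
      have e1 : 1 ≤ S.A1 ^ 2 * P := aux_e _ _ hA1one hP1
      calc c0 * X / (4 * (κ * W)) = c0 * X / (κ * W) * (1 / 4) := by field_simp
        _ ≤ _ := by
          refine mul_le_mul_of_nonneg_left ?_ (div_nonneg hcX0.le hκW0.le)
          linarith only [e1]
    have herr1 : X / L ^ 2 ≤ c0 * X / (16 * (κ * W)) := by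
      rw [div_le_div_iff₀ (pow_pos (zero_lt_one.trans_le hL1) 2) (mul_pos (by norm_num) hκW0)]
      have e1 : 16 * κ * W ≤ L * c0 := by
        rwa [div_le_iff₀ hc0] at hc0L
      have e2 : L * c0 ≤ L ^ 2 * c0 := mul_le_mul_of_nonneg_right (aux_f L hL1) hc0.le
      calc X * (16 * (κ * W)) = X * (16 * κ * W) := by ring
        _ ≤ X * (L ^ 2 * c0) := mul_le_mul_of_nonneg_left (e1.trans e2) hXpos.le
        _ = c0 * X * L ^ 2 := by ring
    have hlog4 : Real.log (4 * X) ≤ 2 * L := by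
      rw [Real.log_mul (by norm_num) hXpos.ne', ← hLdef]
      have e1 : Real.log 4 ≤ 4 - 1 := Real.log_le_sub_one_of_pos (by norm_num)
      linarith only [e1, hL10]
    have hlog40 : 0 < Real.log (4 * X) := Real.log_pos (by linarith only [hX10])
    have hsqrt : Real.sqrt (4 * X) = 2 * Z ^ 100 := by
      rw [← hZX]
      have e1 : 4 * Z ^ 200 = (2 * Z ^ 100) ^ 2 := by ring
      rw [e1, Real.sqrt_sq (mul_nonneg (by norm_num) (pow_nonneg hZ0 _))]
    have herr2 : 32 * Real.sqrt (4 * X) * Real.log (4 * X) * (Z * L ^ (2 * K)) ^ 2 ≤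
        c0 * X / (16 * (κ * W)) := by
      have e1 : 32 * Real.sqrt (4 * X) * Real.log (4 * X) * (Z * L ^ (2 * K)) ^ 2 ≤
          128 * Z ^ 103 := by
        calc 32 * Real.sqrt (4 * X) * Real.log (4 * X) * (Z * L ^ (2 * K)) ^ 2
            ≤ 32 * (2 * Z ^ 100) * (2 * L) * (Z * L ^ (2 * K)) ^ 2 := by
              rw [hsqrt]
              refine mul_le_mul_of_nonneg_right ?_ (sq_nonneg _)
              exact mul_le_mul_of_nonneg_left hlog4
                (mul_nonneg (by norm_num) (mul_nonneg (by norm_num) (pow_nonneg hZ0 _)))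
          _ = 128 * Z ^ 102 * L ^ (4 * K + 1) := by ring
          _ ≤ 128 * Z ^ 102 * L ^ (4 * K + 4) := by
              refine mul_le_mul_of_nonneg_left ?_ (mul_nonneg (by norm_num) (pow_nonneg hZ0 _))
              exact pow_le_pow_right₀ hL1 (by omega)
          _ ≤ 128 * Z ^ 102 * Z :=
              mul_le_mul_of_nonneg_left hLZ (mul_nonneg (by norm_num) (pow_nonneg hZ0 _))
          _ = 128 * Z ^ 103 := by ring
      refine le_trans e1 ?_
      rw [le_div_iff₀ (mul_pos (by norm_num) hκW0)]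
      have e2 : 16 * κ * W * 128 ≤ Z * c0 := by
        have : 16 * κ * W / c0 * 128 = 16 * κ * W * 128 / c0 := by ring
        rw [this, div_le_iff₀ hc0] at hc0Z
        exact hc0Z
      calc 128 * Z ^ 103 * (16 * (κ * W)) = Z ^ 103 * (16 * κ * W * 128) := by ring
        _ ≤ Z ^ 103 * (Z * c0) := mul_le_mul_of_nonneg_left e2 (pow_nonneg hZ0 _)
        _ = c0 * Z ^ 104 := by ring
        _ ≤ c0 * X := mul_le_mul_of_nonneg_left (hZ7 104 (by norm_num) (by norm_num)) hc0.le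
    -- conclusion
    have hfin := num_two m K κ W c0 L X N ly S.A1 S.A2 P hm1 (one_le_two.trans hK2R) hκ hWR hc0
      hL10 hXpos (by linarith only [hN31, hX10]) hly1 hA1l hA2u (zero_lt_one.trans_le hA2one)
      (zero_lt_one.trans_le hP1)
    rw [← hKdef, hAK]
    refine le_trans hfin ?_
    obtain ⟨Mn, hMndef⟩ : ∃ Mn : ℝ, Mn = c0 * X / (κ * W) * (S.A1 ^ 2 * P / 4) := ⟨_, rfl⟩
    rw [← hMndef] at hMn hMn1 ⊢
    have hMn0 : 0 ≤ Mn := le_trans (div_nonneg hcX0.le (mul_nonneg (by norm_num) hκW0.le)) hMn1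
    have hq : c0 * X / (16 * (κ * W)) = c0 * X / (4 * (κ * W)) / 4 := by
      field_simp
      norm_num
    have hsum : Mn / 2 ≤ ∑ n ∈ (Finset.Ioc R N).filter (fun n => n ≡ v [MOD primorial D]),
        vonMangoldt (n + h i) * Om X (n + h i) * ZZ S.p h (S.lami i) n ^ 2 -
        32 * Real.sqrt (4 * X) * Real.log (4 * X) * (Z * L ^ (2 * K)) ^ 2 := by
      rw [hq] at herr1 herr2
      linarith only [herr1, herr2, hMn1, hMn, h3, h5]
    have hlog8 : 0 < 8 * Real.log (4 * X) := mul_pos (by norm_num) hlog40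
    refine mul_le_mul ?_ hsum (div_nonneg hMn0 zero_le_two) (one_div_nonneg.mpr hlog8.le)
    exact one_div_le_one_div_of_le hlog8 (by linarith only [hlog4])
  · -- two primes
    intro i k hik
    have h1 := pair_part S hSp h hh hinj N hRN v i k hik R hR1 _ (hlamt i k hik)
    rw [← hWd] at h1
    refine le_trans h1 ?_
    have h2 := S.bil_lamt_le i k hik R hR1
    rw [← hKdef] at h2
    rw [hSR] at hG0l
    have h3 := num_three m K κ ly S.A1 S.A2 (S.G0 R) hm1 (one_le_two.trans hK2R) hκ hly0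
      (zero_le_one.trans hA1one)
      hA1u hA2l hG0l
    have hQ : S.A2 ^ K = S.A2 ^ 2 * S.A2 ^ (K - 2) := by
      rw [← pow_add]; congr 1; omega
    have h4 : bil S.x (S.lamt i k R) (S.lamt i k R) ≤ 8 * ((m : ℝ) / K) ^ 2 * S.A2 ^ K := by
      refine le_trans h2 ?_
      rw [hQ, ← mul_assoc]
      exact mul_le_mul_of_nonneg_right h3 (hA2pow0 _)
    have h5 : (N : ℝ) / W * bil S.x (S.lamt i k R) (S.lamt i k R) ≤
        N / W * (8 * ((m : ℝ) / K) ^ 2 * S.A2 ^ K) :=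
      mul_le_mul_of_nonneg_left h4 hNW0
    have h6 : (Z ^ 3 * L ^ (2 * K + 2)) ^ 2 ≤ N / W * (2 * ((m : ℝ) / K) ^ 2 * S.A2 ^ K) := by
      have e1 : (Z ^ 3 * L ^ (2 * K + 2)) ^ 2 ≤ Z ^ 7 := by
        calc (Z ^ 3 * L ^ (2 * K + 2)) ^ 2 = Z ^ 6 * L ^ (4 * K + 4) := by ring
          _ ≤ Z ^ 6 * Z := mul_le_mul_of_nonneg_left hLZ (pow_nonneg hZ0 _)
          _ = Z ^ 7 := by ring
      have e2 : Z ^ 7 * ((K : ℝ) ^ 2 * W) ≤ N := by
        calc Z ^ 7 * ((K : ℝ) ^ 2 * W) ≤ Z ^ 7 * Z :=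
              mul_le_mul_of_nonneg_left hK2W (pow_nonneg hZ0 _)
          _ = Z ^ 8 := by ring
          _ ≤ X := hZ7 8 (by norm_num) (by norm_num)
          _ ≤ N := hXN
      have e3 : Z ^ 7 ≤ N / W * (1 / (K : ℝ) ^ 2) := by
        rw [div_mul_div_comm, mul_one, le_div_iff₀ (by positivity)]
        calc Z ^ 7 * (W * (K : ℝ) ^ 2) = Z ^ 7 * ((K : ℝ) ^ 2 * W) := by ring
          _ ≤ _ := e2
      have e4 : 1 / (K : ℝ) ^ 2 ≤ 2 * ((m : ℝ) / K) ^ 2 * S.A2 ^ K := by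
        have e5 : 1 / (K : ℝ) ^ 2 ≤ ((m : ℝ) / K) ^ 2 := by
          rw [div_pow]
          refine div_le_div_of_nonneg_right ?_ (by positivity)
          exact one_le_pow₀ hm1
        exact le_trans e5 (aux_d _ _ (sq_nonneg _) (hA2pow K))
      calc _ ≤ Z ^ 7 := e1
        _ ≤ N / W * (1 / (K : ℝ) ^ 2) := e3
        _ ≤ _ := mul_le_mul_of_nonneg_left e4 hNW0
    rw [← hKdef]
    calc _ ≤ N / W * (8 * ((m : ℝ) / K) ^ 2 * S.A2 ^ K) +
          N / W * (2 * ((m : ℝ) / K) ^ 2 * S.A2 ^ K) := add_le_add h5 h6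
      _ = _ := by ring

end Pool.Agent.MP89da58
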