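import Mathlib

set_option autoImplicit false

/-!
Numerical comparison of the main terms.
-/

namespace Pool.Agent.MP89da58

theorem num_two (m K κ W c0 L X N ly A1 A2 P : ℝ) (hm : 1 ≤ m) (hK : 1 ≤ K) (hκ : 0 < κ)
    (hW : 0 < W) (hc0 : 0 < c0) (hL : 10 ≤ L) (hX : 0 < X) (hN : N ≤ 4 * X)
    (hly : L / (400 * (128 * K * (m + 1))) ≤ ly)
    (hA1 : m * κ * ly / 8 ≤ A1) (hA2 : A2 ≤ 4 * κ * ly) (hA20 : 0 < A2) (hP : 0 < P) :
    c0 / 26843545600 * (m / K) * (2 * (N / W) * (A2 * P)) ≤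
      1 / (16 * L) * (c0 * X / (κ * W) * (A1 ^ 2 * P / 4) / 2) := by
  have hly0 : 0 < ly := lt_of_lt_of_le (by positivity) hly
  have h1 : m ^ 2 * κ * ly * A2 / 256 ≤ A1 ^ 2 := by
    have h2 : (m * κ * ly / 8) ^ 2 ≤ A1 ^ 2 := pow_le_pow_left₀ (by positivity) hA1 2
    refine le_trans ?_ h2
    have h3 : m ^ 2 * κ * ly * A2 ≤ m ^ 2 * κ * ly * (4 * κ * ly) :=
      mul_le_mul_of_nonneg_left hA2 (by positivity)
    nlinarith only [h3]
  have h4 : L / (400 * (128 * K * (2 * m))) ≤ ly := by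
    refine le_trans ?_ hly
    apply div_le_div_of_nonneg_left (by linarith) (by positivity)
    have : K * (m + 1) ≤ K * (2 * m) := mul_le_mul_of_nonneg_left (by linarith) (by linarith)
    nlinarith only [this]
  have h5 : m * κ * A2 * L / (26214400 * K) ≤ A1 ^ 2 := by
    refine le_trans ?_ h1
    have h6 : m ^ 2 * κ * A2 / 256 * (L / (400 * (128 * K * (2 * m)))) ≤
        m ^ 2 * κ * A2 / 256 * ly := mul_le_mul_of_nonneg_left h4 (by positivity)
    have h7 : m ^ 2 * κ * A2 / 256 * (L / (400 * (128 * K * (2 * m)))) =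
        m * κ * A2 * L / (26214400 * K) := by
      field_simp
      norm_num
    rw [← h7]
    refine le_trans h6 (le_of_eq ?_)
    ring
  have h8 : c0 / 26843545600 * (m / K) * (2 * (N / W) * (A2 * P)) ≤
      c0 / 26843545600 * (m / K) * (2 * (4 * X / W) * (A2 * P)) := by
    refine mul_le_mul_of_nonneg_left ?_ (by positivity)
    refine mul_le_mul_of_nonneg_right ?_ (by positivity)
    refine mul_le_mul_of_nonneg_left ?_ (by norm_num)
    exact div_le_div_of_nonneg_right hN hW.le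
  refine le_trans h8 ?_
  have h9 : 1 / (16 * L) * (c0 * X / (κ * W) * (A1 ^ 2 * P / 4) / 2) =
      c0 * X * P / (128 * L * κ * W) * A1 ^ 2 := by
    field_simp
    ring
  rw [h9]
  have h10 : c0 / 26843545600 * (m / K) * (2 * (4 * X / W) * (A2 * P)) =
      c0 * X * P / (128 * L * κ * W) * (m * κ * A2 * L / (26214400 * K)) := by
    field_simp
    norm_num
  rw [h10]
  exact mul_le_mul_of_nonneg_left h5 (by positivity)

theorem num_three (m K κ ly A1 A2 G : ℝ) (hm : 1 ≤ m) (hK : 1 ≤ K) (hκ : 0 < κ)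
    (hly : 0 < ly) (hA10 : 0 ≤ A1) (hA1 : A1 ≤ (m + 2) * κ * ly) (hA2 : κ * ly / 4 ≤ A2)
    (hG : κ * (128 * K * (m + 1)) * ly / 4 ≤ G) :
    4 * A1 ^ 4 / G ^ 2 ≤ 8 * (m / K) ^ 2 * A2 ^ 2 := by
  have hkl : 0 < κ * ly := by positivity
  have h1 : A1 ≤ 3 * m * (κ * ly) := by
    refine le_trans hA1 ?_
    have : (m + 2) * (κ * ly) ≤ 3 * m * (κ * ly) :=
      mul_le_mul_of_nonneg_right (by linarith) hkl.le
    linarith
  have h2 : 32 * K * m * (κ * ly) ≤ G := by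
    refine le_trans ?_ hG
    have : K * m * (κ * ly) ≤ K * (m + 1) * (κ * ly) := by
      refine mul_le_mul_of_nonneg_right ?_ hkl.le
      exact mul_le_mul_of_nonneg_left (by linarith) (by linarith)
    nlinarith only [this]
  have h3 : A1 ^ 4 ≤ (3 * m * (κ * ly)) ^ 4 := pow_le_pow_left₀ hA10 h1 4
  have h4 : (32 * K * m * (κ * ly)) ^ 2 ≤ G ^ 2 := pow_le_pow_left₀ (by positivity) h2 2
  have h5 : (κ * ly / 4) ^ 2 ≤ A2 ^ 2 := pow_le_pow_left₀ (by positivity) hA2 2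
  have hKpos : 0 < K := by linarith
  have hmpos : 0 < m := by linarith
  calc 4 * A1 ^ 4 / G ^ 2 ≤ 4 * (3 * m * (κ * ly)) ^ 4 / (32 * K * m * (κ * ly)) ^ 2 := by
        apply div_le_div₀ (by positivity) (by linarith) (by positivity) h4
    _ = 81 * 16 / 256 * (m / K) ^ 2 * (κ * ly / 4) ^ 2 := by
        field_simp
        norm_num
    _ ≤ 8 * (m / K) ^ 2 * (κ * ly / 4) ^ 2 := by
        refine mul_le_mul_of_nonneg_right ?_ (by positivity)
        refine mul_le_mul_of_nonneg_right (by norm_num) (by positivity)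
    _ ≤ _ := mul_le_mul_of_nonneg_left h5 (by positivity)

theorem aux_a (m K : ℝ) (hm : 1 ≤ m) (hK : 2 ≤ K) : m + 2 ≤ 200 * (128 * K * (m + 1)) := by
  have : (2 : ℝ) * (m + 1) ≤ K * (m + 1) := mul_le_mul_of_nonneg_right hK (by linarith)
  nlinarith only [hm, this]

theorem aux_b (Z X D : ℝ) (h1 : Z ^ 2 ≤ X) (h2 : 0 ≤ D) (h3 : D + 10 ≤ Z) : 10 * Z ≤ X := by
  nlinarith only [h1, h2, h3]

theorem aux_c (K W : ℝ) (hK : 2 ≤ K) (hW : 0 < W) : W ≤ K ^ 2 * W := by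
  have : 1 ≤ K ^ 2 := by nlinarith only [hK]
  nlinarith

theorem aux_d (t P : ℝ) (ht : 0 ≤ t) (hP : 1 ≤ P) : t ≤ 2 * t * P := by
  nlinarith [mul_le_mul_of_nonneg_left hP ht]

theorem aux_e (A P : ℝ) (hA : 1 ≤ A) (hP : 1 ≤ P) : 1 ≤ A ^ 2 * P := by
  have : 1 ≤ A ^ 2 := one_le_pow₀ hA
  nlinarith

theorem aux_f (L : ℝ) (hL : 1 ≤ L) : L ≤ L ^ 2 := by nlinarith

theorem aux_g (K m : ℕ) (hK : 2 ≤ K) : 1 ≤ 128 * K * (m + 1) := by
  have := Nat.mul_le_mul hK (show 1 ≤ m + 1 by omega)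
  nlinarith only [this]

end Pool.Agent.MP89da58
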