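import Pool.Agent.Lib.MP_89da58_nt.Expand

set_option autoImplicit false
set_option linter.unusedSectionVars false

/-!
The unweighted quadratic sums.
-/

namespace Pool.Agent.MP89da58

variable {ι : Type} [Fintype ι] [DecidableEq ι]

theorem PJ_prime {D R : ℕ} (j : PJ D R) : (j : ℕ).Prime := (Finset.mem_filter.mp j.2).2

theorem PJ_gt {D R : ℕ} (j : PJ D R) : D < (j : ℕ) :=
  (Finset.mem_Ioc.mp (Finset.mem_filter.mp j.2).1).1

theorem PJ_le {D R : ℕ} (j : PJ D R) : (j : ℕ) ≤ R :=
  (Finset.mem_Ioc.mp (Finset.mem_filter.mp j.2).1).2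

theorem PJ_inj {D R : ℕ} : Function.Injective (fun j : PJ D R => (j : ℕ)) :=
  Subtype.val_injective

theorem PJ_coprime {D R : ℕ} (j : PJ D R) : (j : ℕ).Coprime (primorial D) := by
  rw [Nat.Prime.coprime_iff_not_dvd (PJ_prime j)]
  intro h
  unfold primorial at h
  obtain ⟨q, hq, hd⟩ := (Prime.dvd_finsetProd_iff (PJ_prime j).prime _).mp h
  rw [Finset.mem_filter, Finset.mem_range] at hq
  have h1 := (Nat.prime_dvd_prime_iff_eq (PJ_prime j) hq.2).mp hd
  have h2 := PJ_gt j
  omega

/-- Two different shifts cannot be divisible by the same large prime. -/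
theorem PJ_sep {D R : ℕ} (h : ι → ℕ) (hh : ∀ l, h l < D) (hinj : Function.Injective h)
    (j : PJ D R) (l l' : ι) (n : ℕ) (hl : l ≠ l') :
    ¬ ((j : ℕ) ∣ n + h l ∧ (j : ℕ) ∣ n + h l') := by
  rintro ⟨h1, h2⟩
  have hne : h l ≠ h l' := fun he => hl (hinj he)
  have hj := PJ_gt j
  rcases lt_or_gt_of_ne hne with hlt | hlt
  · have h3 : (j : ℕ) ∣ h l' - h l := by
      have := Nat.dvd_sub h2 h1
      rwa [Nat.add_sub_add_left] at this
    have h4 := Nat.le_of_dvd (by omega) h3
    have := hh l'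
    omega
  · have h3 : (j : ℕ) ∣ h l - h l' := by
      have := Nat.dvd_sub h1 h2
      rwa [Nat.add_sub_add_left] at this
    have h4 := Nat.le_of_dvd (by omega) h3
    have := hh l
    omega

/-- General upper bound for the quadratic sums. -/
theorem quad_upper {D R : ℕ} (h : ι → ℕ) (hh : ∀ l, h l < D) (hinj : Function.Injective h)
    (v : ℕ) (lam : (PJ D R → Option ι) → ℝ) (R0 N : ℕ) (hRN : R0 ≤ N) :
    ∑ n ∈ (Finset.Ioc R0 N).filter (fun n => n ≡ v [MOD primorial D]),
      ZZ (fun j : PJ D R => (j : ℕ)) h lam n ^ 2 ≤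
    ((N : ℝ) - R0) / (primorial D : ℝ) * bil (fun j : PJ D R => 1 / ((j : ℕ) : ℝ)) lam lam +
      (∑ α, |lam α|) ^ 2 := by
  classical
  have hW : 0 < primorial D := primorial_pos D
  have key := quad_expand (fun j : PJ D R => (j : ℕ)) h
    (fun j l l' n hl => PJ_sep h hh hinj j l l' n hl)
    (fun j : PJ D R => 1 / ((j : ℕ) : ℝ)) lam
    ((Finset.Ioc R0 N).filter (fun n => n ≡ v [MOD primorial D])) (fun _ => 1)
    (((N : ℝ) - R0) / (primorial D : ℝ)) (fun _ => 1) (by
      intro α β _ _ _
      obtain ⟨a, ha⟩ := crt (primorial D) v hW h (fun j : PJ D R => (j : ℕ))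
        (fun j => PJ_prime j) PJ_inj (fun j => PJ_coprime j) (join α β)
      have e1 : (∑ n ∈ (Finset.Ioc R0 N).filter (fun n => n ≡ v [MOD primorial D]),
          if dv (fun j : PJ D R => (j : ℕ)) h n (join α β) then (1 : ℝ) else 0) =
          (((Finset.Ioc R0 N).filter (fun n => n ≡ a [MOD primorial D *
            nn (fun j : PJ D R => (j : ℕ)) (supp (join α β))])).card : ℝ) := by
        rw [← Finset.sum_filter, Finset.filter_filter, Finset.sum_const, nsmul_eq_mul, mul_one]
        congr 2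
        ext n
        simp only [Finset.mem_filter]
        rw [ha n]
      rw [e1]
      have e2 : ((N : ℝ) - R0) / (primorial D : ℝ) *
          pw (fun j : PJ D R => 1 / ((j : ℕ) : ℝ)) (supp (join α β)) =
          ((N : ℝ) - R0) / ((primorial D *
            nn (fun j : PJ D R => (j : ℕ)) (supp (join α β)) : ℕ) : ℝ) := by
        unfold pw nn
        rw [Finset.prod_div_distrib, Finset.prod_const_one]
        push_cast
        rw [div_mul_div_comm, mul_one]
      rw [e2]
      apply card_ap _ _ _ _ _ hRN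
      apply Nat.mul_pos hW
      unfold nn
      exact Finset.prod_pos fun j _ => (PJ_prime j).pos)
  have h1 := (abs_le.mp key).2
  have h2 : (∑ α : PJ D R → Option ι, ∑ β : PJ D R → Option ι,
        if lam α ≠ 0 ∧ lam β ≠ 0 ∧ compat α β then |lam α| * |lam β| * 1 else 0) ≤
      (∑ α, |lam α|) ^ 2 := by
    rw [pow_two, Finset.sum_mul_sum]
    refine Finset.sum_le_sum fun α _ => Finset.sum_le_sum fun β _ => ?_
    split_ifs
    · rw [mul_one]
    · positivity
  simp only [one_mul] at h1
  linarith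

end Pool.Agent.MP89da58
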