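import Pool.Agent.Lib.MP_89da58_nt.Fam

set_option autoImplicit false
set_option linter.unusedSectionVars false

/-!
The Maynard-type weights in abstract form: upper bound for the main quadratic form.
-/

namespace Pool.Agent.MP89da58

/-- The data of the sieve: primes `p j`, cut-off function `g`, level `R`. -/
structure SData (ι J : Type) [Fintype ι] [DecidableEq ι] [Fintype J] [DecidableEq J] where
  p : J → ℕ
  hp : ∀ j, 2 ≤ p j
  hpK : ∀ j, Fintype.card ι + 2 ≤ p j
  g : ℕ → ℝ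
  hg0 : ∀ n, 0 ≤ g n
  hg1 : g 1 = 1
  hg : ∀ m n : ℕ, 1 ≤ m → m ≤ n → g n ≤ g m
  R : ℕ
  hgR : ∀ n : ℕ, g n ≠ 0 → n * n ≤ R
  hE : ((Fintype.card ι : ℝ) + 2) ^ 2 * ∑ j, (1 / ((p j : ℝ) - 1)) ^ 2 ≤ 1 / 8

variable {ι : Type} [Fintype ι] [DecidableEq ι] {J : Type} [Fintype J] [DecidableEq J]

namespace SData

variable (S : SData ι J)

/-- `1/p`. -/
noncomputable def x (j : J) : ℝ := 1 / (S.p j : ℝ)

/-- `1/(p-1)`. -/
noncomputable def x' (j : J) : ℝ := 1 / ((S.p j : ℝ) - 1)

theorem p_ge (j : J) : (2 : ℝ) ≤ S.p j := by exact_mod_cast S.hp j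

theorem p_geK (j : J) : (Fintype.card ι : ℝ) + 2 ≤ S.p j := by exact_mod_cast S.hpK j

theorem p_one (j : J) : 1 ≤ S.p j := le_trans (by norm_num) (S.hp j)

theorem x_pos (j : J) : 0 < S.x j := by
  unfold x
  have := S.p_ge j
  positivity

theorem x'_pos (j : J) : 0 < S.x' j := by
  unfold x'
  have := S.p_ge j
  apply div_pos one_pos
  linarith

theorem x_le_half (j : J) : S.x j ≤ 1 / 2 := by
  unfold x
  have := S.p_ge j
  rw [div_le_div_iff₀ (by linarith) (by norm_num)]
  linarith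

theorem x_le_x' (j : J) : S.x j ≤ S.x' j := by
  unfold x x'
  have := S.p_ge j
  apply one_div_le_one_div_of_le <;> linarith

theorem card_mul_x (j : J) : (Fintype.card ι : ℝ) * S.x j ≤ 1 := by
  unfold x
  have := S.p_geK j
  have h2 := S.p_ge j
  rw [mul_one_div, div_le_one (by linarith)]
  linarith

theorem card_mul_x' (j : J) : (Fintype.card ι : ℝ) * S.x' j ≤ 1 := by
  unfold x'
  have := S.p_geK j
  have h2 := S.p_ge j
  rw [mul_one_div, div_le_one (by linarith)]
  linarith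

theorem y_eq (j : J) : S.x' j - S.x j = S.x j * S.x' j := by
  unfold x x'
  have := S.p_ge j
  have h1 : (S.p j : ℝ) ≠ 0 := by linarith
  have h2 : (S.p j : ℝ) - 1 ≠ 0 := by linarith
  field_simp
  ring

theorem hE' : ((Fintype.card ι : ℝ) + 2) ^ 2 * ∑ j, S.x' j ^ 2 ≤ 1 / 8 := S.hE

/-- The basic one-dimensional sums. -/
noncomputable def A1 : ℝ := ∑ a : Finset J, pw S.x a * S.g (nn S.p a)

noncomputable def A2 : ℝ := ∑ a : Finset J, pw S.x a * S.g (nn S.p a) ^ 2

noncomputable def B1 : ℝ :=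
  ∑ a : Finset J, pw S.x a * S.g (nn S.p a) ^ 2 * Real.log (nn S.p a)

/-- The nonnegative weight function on assignments. -/
noncomputable def wh (u : J → Option ι) : ℝ :=
  if nn S.p (supp u) ≤ S.R then ∏ l, S.g (nn S.p (part u l)) else 0

end SData

/-- The local sign. -/
def sg : Option ι → ℝ
  | none => 1
  | some _ => -1

/-- The sign of an assignment. -/
noncomputable def sgn (u : J → Option ι) : ℝ := ∏ j, sg (u j)

theorem sgn_sq (u : J → Option ι) : sgn u ^ 2 = 1 := by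
  unfold sgn
  rw [← Finset.prod_pow]
  refine Finset.prod_eq_one fun j _ => ?_
  rcases u j with _ | l <;> simp [sg]

theorem abs_sgn (u : J → Option ι) : |sgn u| = 1 := by
  have h := sgn_sq u
  rw [← sq_abs] at h
  nlinarith only [h, abs_nonneg (sgn u)]

namespace SData

variable (S : SData ι J)

/-- The sieve weights. -/
noncomputable def lam : (J → Option ι) → ℝ :=
  op (fun j => tm (-S.x j)) (fun u => sgn u * S.wh u)

theorem wh_nonneg (u : J → Option ι) : 0 ≤ S.wh u := by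
  unfold wh
  split_ifs
  · exact Finset.prod_nonneg fun l _ => S.hg0 _
  · exact le_refl _

theorem wh_le (u : J → Option ι) : S.wh u ≤ ∏ l, S.g (nn S.p (part u l)) := by
  unfold wh
  split_ifs
  · exact le_refl _
  · exact Finset.prod_nonneg fun l _ => S.hg0 _

theorem g_le_one (n : ℕ) (hn : 1 ≤ n) : S.g n ≤ 1 := by
  rw [← S.hg1]
  exact S.hg 1 n (le_refl _) hn

theorem wh_le_one (u : J → Option ι) : S.wh u ≤ 1 := by
  refine le_trans (S.wh_le u) ?_
  exact Finset.prod_le_one (fun l _ => S.hg0 _) (fun l _ => S.g_le_one _ (nn_pos S.p_one _))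

theorem A1_nonneg : 0 ≤ S.A1 :=
  Finset.sum_nonneg fun a _ => mul_nonneg (pw_nonneg (fun j => (S.x_pos j).le) a) (S.hg0 _)

theorem A2_ge_one : 1 ≤ S.A2 := by
  unfold A2
  have h : pw S.x (∅ : Finset J) * S.g (nn S.p ∅) ^ 2 = 1 := by
    rw [pw_empty, nn_empty, S.hg1]; norm_num
  rw [← h]
  exact Finset.single_le_sum (f := fun a => pw S.x a * S.g (nn S.p a) ^ 2)
    (fun a _ => mul_nonneg (pw_nonneg (fun j => (S.x_pos j).le) a) (sq_nonneg _))
    (Finset.mem_univ ∅)

/-- (I): upper bound for the main quadratic form. -/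
theorem bil_lam_le : bil S.x S.lam S.lam ≤ S.A2 ^ Fintype.card ι := by
  have h1 := (bil_bounds S.x (fun j => ⟨(S.x_pos j).le, S.card_mul_x j⟩) S.lam).2
  refine le_trans h1 ?_
  unfold lam
  rw [op_tm_neg]
  have h2 : ∀ u : J → Option ι, (sgn u * S.wh u) ^ 2 * ∏ j, wt (S.x j) (u j) ≤
      ∏ l, (pw S.x (part u l) * S.g (nn S.p (part u l)) ^ 2) := by
    intro u
    rw [mul_pow, sgn_sq, one_mul, prod_wt, pw_supp, Finset.prod_mul_distrib, mul_comm]
    refine mul_le_mul_of_nonneg_left ?_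
      (Finset.prod_nonneg fun l _ => pw_nonneg (fun j => (S.x_pos j).le) _)
    rw [Finset.prod_pow]
    exact pow_le_pow_left₀ (S.wh_nonneg u) (S.wh_le u) 2
  refine le_trans (Finset.sum_le_sum fun u _ => h2 u) ?_
  refine le_trans (sum_prod_part_le (fun _ a => pw S.x a * S.g (nn S.p a) ^ 2)
    (fun _ a => mul_nonneg (pw_nonneg (fun j => (S.x_pos j).le) a) (sq_nonneg _))) ?_
  rw [Finset.prod_const, Finset.card_univ]
  rfl

end SData

end Pool.Agent.MP89da58
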