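import Pool.Agent.Lib.MP_89da58_nt.SieveA

set_option autoImplicit false
set_option linter.unusedSectionVars false

/-!
The Maynard-type weights: lower bound for the quadratic form of the prime variable `i`.
-/

namespace Pool.Agent.MP89da58

variable {ι : Type} [Fintype ι] [DecidableEq ι] {J : Type} [Fintype J] [DecidableEq J]

/-- Indicator of the values different from `some i`. -/
def rho (i : ι) : Option ι → ℝ := fun a => if a = some i then 0 else 1

/-- Local matrix summing out the coordinate `i`. -/
def cp (i : ι) (x : ℝ) : Option ι → Option ι → ℝ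
  | none, none => 1
  | none, some l => if l = i then x else 0
  | some _, none => 0
  | some l, some l' => if l = l' ∧ l ≠ i then 1 else 0

/-- Local perturbation of the identity. -/
def iy (i : ι) (y : ℝ) : Option ι → Option ι → ℝ
  | none, none => 1
  | none, some l => if l = i then 0 else -y
  | some _, none => 0
  | some l, some l' => if l = l' ∧ l ≠ i then 1 else 0

theorem local_id (i : ι) (x x' : ℝ) (a b : Option ι) :
    (∑ c, tm x' a c * (rho i c * tm (-x) c b)) * sg b =
      sg a * ∑ c, iy i (x' - x) a c * cp i x c b := by
  rw [Fintype.sum_option, Fintype.sum_option]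
  rcases a with _ | a <;> rcases b with _ | b
  · simp [tm, rho, sg, iy, cp]
  · simp only [tm, rho, sg, iy, cp]
    simp only [reduceCtorEq, if_false, one_mul, Option.some.injEq]
    have h1 : ∑ c : ι, x' * ((if c = i then (0:ℝ) else 1) * if c = b then 1 else 0) =
        if b = i then 0 else x' := by
      rw [Finset.sum_eq_single b]
      · by_cases hb : b = i <;> simp [hb]
      · intro c _ hc
        simp [hc]
      · intro h; exact absurd (Finset.mem_univ _) h
    have h2 : ∑ c : ι, (if c = i then (0:ℝ) else -(x' - x)) * (if c = b ∧ c ≠ i then 1 else 0) =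
        if b = i then 0 else -(x' - x) := by
      rw [Finset.sum_eq_single b]
      · by_cases hb : b = i <;> simp [hb]
      · intro c _ hc
        simp [hc]
      · intro h; exact absurd (Finset.mem_univ _) h
    rw [h1, h2]
    by_cases hb : b = i <;> simp [hb]
    ring
  · simp [tm, rho, sg, iy, cp]
  · simp only [tm, rho, sg, iy, cp]
    simp only [zero_mul, Option.some.injEq, zero_add]
    have h1 : ∑ c : ι, (if a = c then (1:ℝ) else 0) * ((if c = i then (0:ℝ) else 1) *
        if c = b then 1 else 0) = if a = b ∧ a ≠ i then 1 else 0 := by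
      rw [Finset.sum_eq_single a]
      · by_cases hb : a = i <;> by_cases hab : a = b <;> simp [hb, hab]
      · intro c _ hc
        simp [Ne.symm hc]
      · intro h; exact absurd (Finset.mem_univ _) h
    have h2 : ∑ c : ι, (if a = c ∧ a ≠ i then (1:ℝ) else 0) *
        (if c = b ∧ c ≠ i then 1 else 0) = if a = b ∧ a ≠ i then 1 else 0 := by
      rw [Finset.sum_eq_single a]
      · by_cases hb : a = i <;> by_cases hab : a = b <;> simp [hb, hab]
      · intro c _ hc
        simp [Ne.symm hc]
      · intro h; exact absurd (Finset.mem_univ _) h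
    rw [h1, h2]
    ring

/-- Extension of an assignment by the value `i` on the set `a`. -/
def ext (i : ι) (u : J → Option ι) (a : Finset J) : J → Option ι :=
  fun j => if j ∈ a then some i else u j

theorem op_cp_eq (i : ι) (x : J → ℝ) (f : (J → Option ι) → ℝ) (u : J → Option ι)
    (hu : part u i = ∅) :
    op (fun j => cp i (x j)) f u =
      ∑ a ∈ ((supp u)ᶜ).powerset, pw x a * f (ext i u a) := by
  unfold op
  have hui : ∀ j, u j ≠ some i := by
    intro j hj
    have : j ∈ part u i := mem_part.mpr hj
    rw [hu] at this
    exact absurd this (Finset.notMem_empty j)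
  have hinj : Set.InjOn (ext i u) (((supp u)ᶜ).powerset : Set (Finset J)) := by
    intro a _ b _ hab
    ext j
    have h := congrFun hab j
    unfold ext at h
    constructor
    · intro hj
      rw [if_pos hj] at h
      by_contra hb
      rw [if_neg hb] at h
      exact hui j h.symm
    · intro hj
      rw [if_pos hj] at h
      by_contra hb
      rw [if_neg hb] at h
      exact hui j h
  have himg : ∑ v ∈ ((supp u)ᶜ).powerset.image (ext i u), (∏ j, cp i (x j) (u j) (v j)) * f v =
      ∑ v : J → Option ι, (∏ j, cp i (x j) (u j) (v j)) * f v := by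
    refine Finset.sum_subset (Finset.subset_univ _) ?_
    intro v _ hv
    by_contra hne
    apply hv
    rw [Finset.mem_image]
    have hloc : ∀ j, cp i (x j) (u j) (v j) ≠ 0 := by
      intro j hj
      exact hne (by rw [Finset.prod_eq_zero (Finset.mem_univ j) hj, zero_mul])
    refine ⟨part v i, ?_, ?_⟩
    · rw [Finset.mem_powerset]
      intro j hj
      rw [mem_part] at hj
      rw [Finset.mem_compl, mem_supp, not_not]
      have h := hloc j
      rcases huj : u j with _ | l
      · rfl
      · rw [huj, hj] at h
        simp only [cp] at h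
        by_cases hl : l = i
        · rw [hl] at huj; exact absurd huj (hui j)
        · simp [hl] at h
    · funext j
      unfold ext
      have h := hloc j
      by_cases hj : j ∈ part v i
      · rw [if_pos hj, mem_part.mp hj]
      · rw [if_neg hj]
        rw [mem_part] at hj
        rcases huj : u j with _ | l <;> rcases hvj : v j with _ | l'
        · rfl
        · rw [huj, hvj] at h
          simp only [cp] at h
          by_cases hl : l' = i
          · rw [hl] at hvj; exact absurd hvj hj
          · simp [hl] at h
        · rw [huj, hvj] at h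
          simp [cp] at h
        · rw [huj, hvj] at h
          simp only [cp] at h
          by_cases hl : l = l'
          · rw [hl]
          · simp [hl] at h
  rw [← himg, Finset.sum_image hinj]
  refine Finset.sum_congr rfl fun a ha => ?_
  congr 1
  rw [Finset.mem_powerset] at ha
  unfold pw
  rw [← Finset.prod_subset (Finset.subset_univ a)]
  · refine Finset.prod_congr rfl fun j hj => ?_
    have h1 : u j = none := by
      have := ha hj
      rw [Finset.mem_compl, mem_supp, not_not] at this
      exact this
    simp [ext, hj, h1, cp]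
  · intro j _ hj
    simp only [ext, if_neg hj]
    rcases huj : u j with _ | l
    · simp [cp]
    · have : l ≠ i := by
        intro h; rw [h] at huj; exact hui j huj
      simp [cp, this]

theorem part_ext_self (i : ι) (u : J → Option ι) (hu : part u i = ∅) (a : Finset J) :
    part (ext i u a) i = a := by
  ext j
  rw [mem_part]
  unfold ext
  constructor
  · intro h
    by_contra hj
    rw [if_neg hj] at h
    have : j ∈ part u i := mem_part.mpr h
    rw [hu] at this
    exact absurd this (Finset.notMem_empty j)
  · intro h
    rw [if_pos h]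

theorem part_ext_ne (i l : ι) (hl : l ≠ i) (u : J → Option ι) (a : Finset J)
    (ha : a ⊆ (supp u)ᶜ) : part (ext i u a) l = part u l := by
  ext j
  rw [mem_part, mem_part]
  unfold ext
  by_cases hj : j ∈ a
  · rw [if_pos hj]
    have h1 : u j = none := by
      have := ha hj
      rw [Finset.mem_compl, mem_supp, not_not] at this
      exact this
    rw [h1]
    simp [Ne.symm hl]
  · rw [if_neg hj]

theorem supp_ext (i : ι) (u : J → Option ι) (a : Finset J) :
    supp (ext i u a) = supp u ∪ a := by
  ext j
  rw [mem_supp, Finset.mem_union, mem_supp]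
  unfold ext
  by_cases hj : j ∈ a
  · simp [hj]
  · simp [hj]

theorem disjoint_of_subset_compl {a b : Finset J} (h : b ⊆ aᶜ) : Disjoint a b := by
  rw [Finset.disjoint_left]
  intro j h1 h2
  exact Finset.mem_compl.mp (h h2) h1

namespace SData

variable (S : SData ι J)

/-- The weights restricted to assignments without the value `i`. -/
noncomputable def lami (i : ι) (u : J → Option ι) : ℝ := (∏ j, rho i (u j)) * S.lam u

/-- The operator `M`. -/
noncomputable def MM (i : ι) : (J → Option ι) → ℝ := op (fun j => cp i (S.x j)) S.wh

theorem op_tm_lami (i : ι) (u : J → Option ι) :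
    op (fun j => tm (S.x' j)) (S.lami i) u =
      sgn u * op (fun j => iy i (S.x' j - S.x j)) (S.MM i) u := by
  have h1 : S.lami i = op (fun j a b => rho i a * tm (-S.x j) a b)
      (fun u => sgn u * S.wh u) := by
    funext v
    unfold lami lam op
    rw [Finset.mul_sum]
    refine Finset.sum_congr rfl fun α _ => ?_
    rw [Finset.prod_mul_distrib]
    ring
  rw [h1, op_comp]
  unfold MM
  rw [op_comp]
  unfold op
  rw [Finset.mul_sum]
  refine Finset.sum_congr rfl fun α _ => ?_
  have h2 : (∏ j, ∑ c, tm (S.x' j) (u j) c * (rho i c * tm (-S.x j) c (α j))) * sgn α =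
      sgn u * ∏ j, ∑ c, iy i (S.x' j - S.x j) (u j) c * cp i (S.x j) c (α j) := by
    unfold sgn
    rw [← Finset.prod_mul_distrib, ← Finset.prod_mul_distrib]
    exact Finset.prod_congr rfl fun j _ => local_id i (S.x j) (S.x' j) (u j) (α j)
  rw [← mul_assoc, h2]
  ring

theorem MM_eq (i : ι) (u : J → Option ι) (hu : part u i = ∅) :
    S.MM i u = ∑ a ∈ ((supp u)ᶜ).powerset, pw S.x a * S.wh (ext i u a) :=
  op_cp_eq i S.x S.wh u hu

theorem wh_anti (u v : J → Option ι) (h : ∀ l, part u l ⊆ part v l) : S.wh v ≤ S.wh u := by
  unfold wh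
  have hs : nn S.p (supp u) ≤ nn S.p (supp v) := by
    rw [nn_supp, nn_supp]
    exact Finset.prod_le_prod' fun l _ => nn_mono S.p_one (h l)
  by_cases hv : nn S.p (supp v) ≤ S.R
  · rw [if_pos hv, if_pos (le_trans hs hv)]
    exact Finset.prod_le_prod (fun l _ => S.hg0 _)
      (fun l _ => S.hg _ _ (nn_pos S.p_one _) (nn_mono S.p_one (h l)))
  · rw [if_neg hv]
    split_ifs
    · exact Finset.prod_nonneg fun l _ => S.hg0 _
    · exact le_refl _

theorem MM_nonneg (i : ι) (u : J → Option ι) (hu : part u i = ∅) : 0 ≤ S.MM i u := by
  rw [S.MM_eq i u hu]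
  exact Finset.sum_nonneg fun a _ =>
    mul_nonneg (pw_nonneg (fun j => (S.x_pos j).le) a) (S.wh_nonneg _)

theorem MM_anti (i : ι) (u v : J → Option ι) (hu : part u i = ∅) (hv : part v i = ∅)
    (h : ∀ l, part u l ⊆ part v l) : S.MM i v ≤ S.MM i u := by
  rw [S.MM_eq i u hu, S.MM_eq i v hv]
  have hsupp : supp u ⊆ supp v := by
    rw [supp_eq_biUnion, supp_eq_biUnion]
    exact Finset.biUnion_mono fun l _ => h l
  have h1 : ∑ a ∈ ((supp v)ᶜ).powerset, pw S.x a * S.wh (ext i v a) ≤
      ∑ a ∈ ((supp v)ᶜ).powerset, pw S.x a * S.wh (ext i u a) := by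
    refine Finset.sum_le_sum fun a ha => ?_
    rw [Finset.mem_powerset] at ha
    refine mul_le_mul_of_nonneg_left ?_ (pw_nonneg (fun j => (S.x_pos j).le) a)
    apply S.wh_anti
    intro l
    have ha' : a ⊆ (supp u)ᶜ := ha.trans (Finset.compl_subset_compl.mpr hsupp)
    by_cases hl : l = i
    · rw [hl, part_ext_self i u hu, part_ext_self i v hv]
    · rw [part_ext_ne i l hl u a ha', part_ext_ne i l hl v a ha]
      exact h l
  refine le_trans h1 (Finset.sum_le_sum_of_subset_of_nonneg ?_ ?_)
  · exact Finset.powerset_mono.mpr (Finset.compl_subset_compl.mpr hsupp)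
  · intro a _ _
    exact mul_nonneg (pw_nonneg (fun j => (S.x_pos j).le) a) (S.wh_nonneg _)

end SData

end Pool.Agent.MP89da58
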