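import Pool.Agent.Lib.MP_89da58_nt.SieveB

set_option autoImplicit false
set_option linter.unusedSectionVars false

/-!
Lower bounds for the transformed weights of the prime variable.
-/

namespace Pool.Agent.MP89da58

variable {ι : Type} [Fintype ι] [DecidableEq ι] {J : Type} [Fintype J] [DecidableEq J]

theorem sum_abs_iy_le (i : ι) (y : ℝ) (hy : 0 ≤ y) (a : Option ι) :
    ∑ b, |iy i y a b| ≤ 1 + (Fintype.card ι : ℝ) * y := by
  rw [Fintype.sum_option]
  rcases a with _ | a
  · simp only [iy]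
    have h : ∑ l : ι, |if l = i then (0:ℝ) else -y| ≤ ∑ _l : ι, y := by
      refine Finset.sum_le_sum fun l _ => ?_
      split_ifs
      · simpa using hy
      · rw [abs_neg, abs_of_nonneg hy]
    rw [Finset.sum_const, Finset.card_univ, nsmul_eq_mul] at h
    rw [abs_one]
    linarith
  · simp only [iy, abs_zero, zero_add]
    have h : ∑ l : ι, |if a = l ∧ a ≠ i then (1:ℝ) else 0| ≤ 1 := by
      rw [Finset.sum_eq_single a]
      · split_ifs <;> simp
      · intro b _ hb
        simp [Ne.symm hb]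
      · intro h; exact absurd (Finset.mem_univ _) h
    have h2 : 0 ≤ (Fintype.card ι : ℝ) * y := by positivity
    linarith

/-- Weierstrass-type upper bound for products. -/
theorem prod_one_add_le (s : Finset J) (f : J → ℝ) (hf : ∀ j, 0 ≤ f j)
    (h : ∑ j ∈ s, f j ≤ 1 / 4) : ∏ j ∈ s, (1 + f j) ≤ 1 + 2 * ∑ j ∈ s, f j := by
  have h1 : ∏ j ∈ s, (1 + f j) ≤ Real.exp (∑ j ∈ s, f j) := by
    rw [Real.exp_sum]
    refine Finset.prod_le_prod (fun j _ => by linarith only [hf, hf j]) fun j _ => ?_
    linarith [Real.add_one_le_exp (f j)]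
  have h0 : 0 ≤ ∑ j ∈ s, f j := Finset.sum_nonneg fun j _ => hf j
  have h2 : Real.exp (∑ j ∈ s, f j) ≤ 1 + 2 * ∑ j ∈ s, f j := by
    set t := ∑ j ∈ s, f j
    have h3 : Real.exp (-t) ≥ 1 - t := by linarith [Real.add_one_le_exp (-t)]
    have h4 : Real.exp t * Real.exp (-t) = 1 := by rw [← Real.exp_add]; simp
    have h5 : 0 < Real.exp t := Real.exp_pos t
    have h6 : Real.exp t * (1 - t) ≤ Real.exp t * Real.exp (-t) :=
      mul_le_mul_of_nonneg_left h3 h5.le
    rw [h4] at h6
    have h7 : 1 ≤ (1 + 2 * t) * (1 - t) := by nlinarith only [h0, h]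
    by_contra hcon
    push Not at hcon
    have : (1 + 2 * t) * (1 - t) < Real.exp t * (1 - t) :=
      mul_lt_mul_of_pos_right hcon (by linarith)
    linarith
  linarith

namespace SData

variable (S : SData ι J)

theorem y_nonneg (j : J) : 0 ≤ S.x' j - S.x j := by linarith [S.x_le_x' j]

theorem y_le (j : J) : S.x' j - S.x j ≤ S.x' j ^ 2 := by
  rw [S.y_eq j, sq]
  exact mul_le_mul_of_nonneg_right (S.x_le_x' j) (S.x'_pos j).le

theorem sum_sq_nonneg : 0 ≤ ∑ j, S.x' j ^ 2 := Finset.sum_nonneg fun _ _ => sq_nonneg _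

theorem card_sum_le : (Fintype.card ι : ℝ) * ∑ j, S.x' j ^ 2 ≤ 1 / 64 := by
  have h := S.hE'
  have h0 := S.sum_sq_nonneg
  have hK : (0 : ℝ) ≤ Fintype.card ι := Nat.cast_nonneg _
  nlinarith only [h, h0, mul_nonneg hK h0, sq_nonneg ((Fintype.card ι : ℝ) - 2)]

theorem prod_row_le (i : ι) (u : J → Option ι) :
    ∏ j, ∑ b, |iy i (S.x' j - S.x j) (u j) b| ≤ 5 / 4 := by
  have h1 : ∏ j, ∑ b, |iy i (S.x' j - S.x j) (u j) b| ≤
      ∏ j, (1 + (Fintype.card ι : ℝ) * (S.x' j - S.x j)) := by
    refine Finset.prod_le_prod (fun j _ => Finset.sum_nonneg fun b _ => abs_nonneg _) fun j _ => ?_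
    exact sum_abs_iy_le i _ (S.y_nonneg j) (u j)
  have h2 : ∑ j, (Fintype.card ι : ℝ) * (S.x' j - S.x j) ≤ 1 / 64 := by
    rw [← Finset.mul_sum]
    refine le_trans (mul_le_mul_of_nonneg_left (Finset.sum_le_sum fun j _ => S.y_le j)
      (Nat.cast_nonneg _)) S.card_sum_le
  have h3 := prod_one_add_le Finset.univ (fun j => (Fintype.card ι : ℝ) * (S.x' j - S.x j))
    (fun j => mul_nonneg (Nat.cast_nonneg _) (S.y_nonneg j)) (by linarith only [h2])
  linarith only [h1, h2, h3]

theorem op_iy_ge (i : ι) (u : J → Option ι) (hu : part u i = ∅) :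
    3 / 4 * S.MM i u ≤ op (fun j => iy i (S.x' j - S.x j)) (S.MM i) u := by
  have hui : ∀ j, u j ≠ some i := by
    intro j hj
    have : j ∈ part u i := mem_part.mpr hj
    rw [hu] at this
    exact absurd this (Finset.notMem_empty j)
  have hM := S.MM_nonneg i u hu
  -- each term is bounded below
  have hterm : ∀ β : J → Option ι, β ≠ u →
      -(∏ j, |iy i (S.x' j - S.x j) (u j) (β j)|) * S.MM i u ≤
      (∏ j, iy i (S.x' j - S.x j) (u j) (β j)) * S.MM i β := by
    intro β _
    by_cases hz : ∃ j, iy i (S.x' j - S.x j) (u j) (β j) = 0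
    · obtain ⟨j, hj⟩ := hz
      have e1 : ∏ j, |iy i (S.x' j - S.x j) (u j) (β j)| = 0 :=
        Finset.prod_eq_zero (Finset.mem_univ j) (by rw [hj, abs_zero])
      have e2 : ∏ j, iy i (S.x' j - S.x j) (u j) (β j) = 0 :=
        Finset.prod_eq_zero (Finset.mem_univ j) hj
      rw [e1, e2]
      simp
    · push Not at hz
      have hβi : part β i = ∅ := by
        rw [Finset.eq_empty_iff_forall_notMem]
        intro j hj
        rw [mem_part] at hj
        have h := hz j
        rw [hj] at h
        rcases huj : u j with _ | l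
        · rw [huj] at h; simp [iy] at h
        · rw [huj] at h
          simp only [iy] at h
          by_cases hl : l = i <;> simp [hl] at h
      have hsub : ∀ l, part u l ⊆ part β l := by
        intro l j hj
        rw [mem_part] at hj ⊢
        have h := hz j
        rw [hj] at h
        rcases hbj : β j with _ | l'
        · rw [hbj] at h; simp [iy] at h
        · rw [hbj] at h
          simp only [iy] at h
          by_cases hl : l = l'
          · rw [hl]
          · simp [hl] at h
      have h1 := S.MM_anti i u β hu hβi hsub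
      have h0 := S.MM_nonneg i β hβi
      have h2 : -(∏ j, |iy i (S.x' j - S.x j) (u j) (β j)|) * S.MM i u ≤
          -(∏ j, |iy i (S.x' j - S.x j) (u j) (β j)|) * S.MM i β := by
        have h3 : 0 ≤ ∏ j, |iy i (S.x' j - S.x j) (u j) (β j)| :=
          Finset.prod_nonneg fun j _ => abs_nonneg _
        nlinarith
      refine le_trans h2 ?_
      refine mul_le_mul_of_nonneg_right ?_ h0
      rw [← Finset.abs_prod]
      exact neg_abs_le _
  have hdiag : ∏ j, iy i (S.x' j - S.x j) (u j) (u j) = 1 := by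
    refine Finset.prod_eq_one fun j _ => ?_
    rcases huj : u j with _ | l
    · rfl
    · have : l ≠ i := by
        intro h; rw [h] at huj; exact hui j huj
      simp [iy, this]
  have habs : ∏ j, |iy i (S.x' j - S.x j) (u j) (u j)| = 1 := by
    rw [← Finset.abs_prod, hdiag, abs_one]
  have hrow : ∑ β : J → Option ι, ∏ j, |iy i (S.x' j - S.x j) (u j) (β j)| ≤ 5 / 4 := by
    have := S.prod_row_le i u
    rw [Finset.prod_univ_sum, Fintype.piFinset_univ] at this
    exact this
  unfold op
  rw [← Finset.add_sum_erase _ _ (Finset.mem_univ u)] at hrow ⊢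
  rw [habs] at hrow
  rw [hdiag, one_mul]
  have hsum : ∑ β ∈ Finset.univ.erase u, -(∏ j, |iy i (S.x' j - S.x j) (u j) (β j)|) * S.MM i u ≤
      ∑ β ∈ Finset.univ.erase u, (∏ j, iy i (S.x' j - S.x j) (u j) (β j)) * S.MM i β :=
    Finset.sum_le_sum fun β hβ => hterm β (Finset.ne_of_mem_erase hβ)
  rw [← Finset.sum_mul, Finset.sum_neg_distrib] at hsum
  nlinarith

/-- Lower bound for `M` on small assignments. -/
theorem MM_ge (i : ι) (u : J → Option ι) (hu : part u i = ∅)
    (hR : nn S.p (supp u) * nn S.p (supp u) ≤ S.R) :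
    (∏ l ∈ Finset.univ.erase i, S.g (nn S.p (part u l))) * S.A1 ≤
      (∏ j ∈ supp u, (1 + S.x j)) * S.MM i u := by
  rw [S.MM_eq i u hu]
  have h1 := sum_compl_ge (fun j => (S.x_pos j).le) S.p_one S.g S.hg (supp u)
  have hg0 : 0 ≤ ∏ l ∈ Finset.univ.erase i, S.g (nn S.p (part u l)) :=
    Finset.prod_nonneg fun l _ => S.hg0 _
  have h2 : ∀ a ∈ ((supp u)ᶜ).powerset,
      (∏ l ∈ Finset.univ.erase i, S.g (nn S.p (part u l))) * (pw S.x a * S.g (nn S.p a)) ≤
        pw S.x a * S.wh (ext i u a) := by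
    intro a ha
    rw [Finset.mem_powerset] at ha
    have hd : Disjoint (supp u) a := disjoint_of_subset_compl ha
    have hpa := pw_nonneg (fun j => (S.x_pos j).le) a
    by_cases hga : S.g (nn S.p a) = 0
    · rw [hga, mul_zero, mul_zero]
      exact mul_nonneg hpa (S.wh_nonneg _)
    · have hna := S.hgR _ hga
      have hle : nn S.p (supp (ext i u a)) ≤ S.R := by
        rw [supp_ext, nn_union hd]
        have h5 : (nn S.p (supp u) * nn S.p a) * (nn S.p (supp u) * nn S.p a) ≤ S.R * S.R := by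
          calc (nn S.p (supp u) * nn S.p a) * (nn S.p (supp u) * nn S.p a)
              = (nn S.p (supp u) * nn S.p (supp u)) * (nn S.p a * nn S.p a) := by ring
            _ ≤ S.R * S.R := Nat.mul_le_mul hR hna
        exact Nat.mul_self_le_mul_self_iff.mp h5
      unfold wh
      rw [if_pos hle]
      rw [← Finset.mul_prod_erase Finset.univ (fun l => S.g (nn S.p (part (ext i u a) l)))
        (Finset.mem_univ i)]
      rw [part_ext_self i u hu]
      have h6 : ∏ l ∈ Finset.univ.erase i, S.g (nn S.p (part (ext i u a) l)) =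
          ∏ l ∈ Finset.univ.erase i, S.g (nn S.p (part u l)) := by
        refine Finset.prod_congr rfl fun l hl => ?_
        rw [part_ext_ne i l (Finset.ne_of_mem_erase hl) u a ha]
      rw [h6]
      apply le_of_eq
      ring
  have h3 : (∏ l ∈ Finset.univ.erase i, S.g (nn S.p (part u l))) *
      ∑ a ∈ ((supp u)ᶜ).powerset, pw S.x a * S.g (nn S.p a) ≤
      ∑ a ∈ ((supp u)ᶜ).powerset, pw S.x a * S.wh (ext i u a) := by
    rw [Finset.mul_sum]
    exact Finset.sum_le_sum h2
  calc (∏ l ∈ Finset.univ.erase i, S.g (nn S.p (part u l))) * S.A1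
      ≤ (∏ l ∈ Finset.univ.erase i, S.g (nn S.p (part u l))) * ((∏ j ∈ supp u, (1 + S.x j)) *
        ∑ a ∈ ((supp u)ᶜ).powerset, pw S.x a * S.g (nn S.p a)) :=
        mul_le_mul_of_nonneg_left h1 hg0
    _ = (∏ j ∈ supp u, (1 + S.x j)) * ((∏ l ∈ Finset.univ.erase i, S.g (nn S.p (part u l))) *
        ∑ a ∈ ((supp u)ᶜ).powerset, pw S.x a * S.g (nn S.p a)) := by ring
    _ ≤ _ := by
        refine mul_le_mul_of_nonneg_left h3 (Finset.prod_nonneg fun j _ => ?_)
        linarith [S.x_pos j]

end SData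

end Pool.Agent.MP89da58
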