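import Pool.Agent.Lib.MP_89da58_nt.SieveC

set_option autoImplicit false
set_option linter.unusedSectionVars false

/-!
Lower bound (II) for the quadratic form of the prime variable `i`.
-/

namespace Pool.Agent.MP89da58

variable {ι : Type} [Fintype ι] [DecidableEq ι] {J : Type} [Fintype J] [DecidableEq J]

section ProductDistribution

variable {α : Type} [Fintype α]

theorem E_one (P : ι → α → ℝ) (hP : ∀ l, ∑ a, P l a = 1) :
    ∑ c : ι → α, ∏ l, P l (c l) = 1 := by
  rw [← Fintype.piFinset_univ, ← Finset.prod_univ_sum]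
  exact Finset.prod_eq_one fun l _ => hP l

theorem E_single (P : ι → α → ℝ) (hP : ∀ l, ∑ a, P l a = 1) (l0 : ι) (ψ : α → ℝ) :
    ∑ c : ι → α, (∏ l, P l (c l)) * ψ (c l0) = ∑ a, P l0 a * ψ a := by
  have h1 : ∀ c : ι → α, (∏ l, P l (c l)) * ψ (c l0) =
      ∏ l, (P l (c l) * if l = l0 then ψ (c l) else 1) := by
    intro c
    rw [Finset.prod_mul_distrib, Finset.prod_ite_eq' Finset.univ l0 (fun l => ψ (c l))]
    simp
  rw [Finset.sum_congr rfl fun c _ => h1 c, ← Fintype.piFinset_univ,
    ← Finset.prod_univ_sum (fun _ => Finset.univ) (fun l a => P l a * if l = l0 then ψ a else 1)]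
  rw [← Finset.mul_prod_erase Finset.univ _ (Finset.mem_univ l0)]
  rw [Finset.prod_eq_one, mul_one]
  · simp
  · intro l hl
    rw [Finset.mem_erase] at hl
    simp [hl.1, hP l]

theorem E_pair (P : ι → α → ℝ) (hP : ∀ l, ∑ a, P l a = 1) (l0 l1 : ι) (h01 : l0 ≠ l1)
    (ψ0 ψ1 : α → ℝ) :
    ∑ c : ι → α, (∏ l, P l (c l)) * (ψ0 (c l0) * ψ1 (c l1)) =
      (∑ a, P l0 a * ψ0 a) * ∑ a, P l1 a * ψ1 a := by
  have h1 : ∀ c : ι → α, (∏ l, P l (c l)) * (ψ0 (c l0) * ψ1 (c l1)) =
      ∏ l, (P l (c l) * ((if l = l0 then ψ0 (c l) else 1) * (if l = l1 then ψ1 (c l) else 1))) := by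
    intro c
    rw [Finset.prod_mul_distrib, Finset.prod_mul_distrib,
      Finset.prod_ite_eq' Finset.univ l0 (fun l => ψ0 (c l)),
      Finset.prod_ite_eq' Finset.univ l1 (fun l => ψ1 (c l))]
    simp
  rw [Finset.sum_congr rfl fun c _ => h1 c, ← Fintype.piFinset_univ,
    ← Finset.prod_univ_sum (fun _ => Finset.univ) (fun l a => P l a *
      ((if l = l0 then ψ0 a else 1) * (if l = l1 then ψ1 a else 1)))]
  rw [← Finset.mul_prod_erase Finset.univ _ (Finset.mem_univ l0)]
  rw [← Finset.mul_prod_erase (Finset.univ.erase l0) _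
    (Finset.mem_erase.mpr ⟨Ne.symm h01, Finset.mem_univ l1⟩)]
  rw [Finset.prod_eq_one, mul_one]
  · simp [h01, Ne.symm h01]
  · intro l hl
    rw [Finset.mem_erase, Finset.mem_erase] at hl
    simp [hl.1, hl.2.1, hP l]

end ProductDistribution

theorem one_sub_sum_le_prod {κ : Type} (s : Finset κ) (f : κ → ℝ) (h0 : ∀ k ∈ s, 0 ≤ f k)
    (h1 : ∀ k ∈ s, f k ≤ 1) : 1 - ∑ k ∈ s, f k ≤ ∏ k ∈ s, (1 - f k) := by
  classical
  induction s using Finset.induction_on with
  | empty => simp
  | insert a s ha ih =>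
    rw [Finset.sum_insert ha, Finset.prod_insert ha]
    have h2 := ih (fun k hk => h0 k (Finset.mem_insert_of_mem hk))
      (fun k hk => h1 k (Finset.mem_insert_of_mem hk))
    have h3 := h0 a (Finset.mem_insert_self a s)
    have h4 := h1 a (Finset.mem_insert_self a s)
    have h5 : 0 ≤ ∑ k ∈ s, f k :=
      Finset.sum_nonneg fun k hk => h0 k (Finset.mem_insert_of_mem hk)
    have h6 : (1 - f a) * (1 - ∑ k ∈ s, f k) ≤ (1 - f a) * ∏ k ∈ s, (1 - f k) :=
      mul_le_mul_of_nonneg_left h2 (by linarith)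
    nlinarith only [h6, h3, h5]

namespace SData

variable (S : SData ι J)

/-- The loss at `j`. -/
noncomputable def eta (j : J) : ℝ := ((Fintype.card ι : ℝ) + 2) * S.x' j

theorem eta_nonneg (j : J) : 0 ≤ S.eta j :=
  mul_nonneg (by positivity) (S.x'_pos j).le

theorem eta_le (j : J) : S.eta j ≤ 1 / 2 := by
  have h := S.hE'
  have h1 : S.x' j ^ 2 ≤ ∑ j, S.x' j ^ 2 :=
    Finset.single_le_sum (f := fun j => S.x' j ^ 2) (fun j _ => sq_nonneg _) (Finset.mem_univ j)
  have h2 : S.eta j ^ 2 ≤ 1 / 8 := by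
    unfold eta
    rw [mul_pow]
    refine le_trans (mul_le_mul_of_nonneg_left h1 (sq_nonneg _)) h
  nlinarith only [h2, S.eta_nonneg j]

/-- The local inequality. -/
theorem local_ge (j : J) : S.x j * (1 - S.eta j) ≤
    S.x' j * (1 - (Fintype.card ι : ℝ) * S.x' j) / (1 + S.x j) ^ 2 := by
  have hx := S.x_pos j
  have hx' := S.x'_pos j
  have hxx := S.x_le_x' j
  have he := S.eta_le j
  have hx2 := S.x_le_half j
  have hK : (0 : ℝ) ≤ Fintype.card ι := Nat.cast_nonneg _
  rw [le_div_iff₀ (by positivity)]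
  unfold eta at he ⊢
  set K : ℝ := ((Fintype.card ι : ℕ) : ℝ) with hKdef
  set x := S.x j
  set x' := S.x' j
  have h1 : (1 - (K + 2) * x') * (1 + x) ^ 2 ≤ 1 - K * x' := by
    have h3 : (K + 2) * x' ≤ 1 / 2 := he
    have h2 : 0 ≤ K * x' := by positivity
    -- (1 - (K+2) x')(1 + 2x + x^2) <= 1 - K x'
    nlinarith only [hxx, hx, hx', h2, mul_nonneg hx.le hx'.le, mul_nonneg h2 hx.le, mul_nonneg (mul_nonneg h2 hx.le) hx.le,
      mul_nonneg (mul_nonneg hx.le hx.le) hx'.le]
  have h4 : 0 ≤ 1 - K * x' := by nlinarith only [hx, hx2, hx', he]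
  calc x * (1 - (K + 2) * x') * (1 + x) ^ 2 = x * ((1 - (K + 2) * x') * (1 + x) ^ 2) := by ring
    _ ≤ x * (1 - K * x') := mul_le_mul_of_nonneg_left h1 hx.le
    _ ≤ x' * (1 - K * x') := mul_le_mul_of_nonneg_right hxx h4

/-- The probability distribution with density `pw x a g(a)^2 / A2`, and the point mass at `i`. -/
noncomputable def PP (i : ι) (l : ι) (a : Finset J) : ℝ :=
  if l = i then (if a = ∅ then 1 else 0) else pw S.x a * S.g (nn S.p a) ^ 2 / S.A2

theorem A2_pos : 0 < S.A2 := lt_of_lt_of_le one_pos S.A2_ge_one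

theorem PP_nonneg (i l : ι) (a : Finset J) : 0 ≤ S.PP i l a := by
  unfold PP
  split_ifs
  · norm_num
  · norm_num
  · exact div_nonneg (mul_nonneg (pw_nonneg (fun j => (S.x_pos j).le) a) (sq_nonneg _)) S.A2_pos.le

theorem PP_sum (i l : ι) : ∑ a, S.PP i l a = 1 := by
  unfold PP
  by_cases h : l = i
  · simp [h]
  · simp only [h, if_false]
    rw [← Finset.sum_div]
    exact div_self S.A2_pos.ne'

theorem PP_mem (i l : ι) (j : J) :
    ∑ a, S.PP i l a * (if j ∈ a then 1 else 0) ≤ S.x j := by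
  unfold PP
  by_cases h : l = i
  · simp only [h, if_true]
    rw [Finset.sum_eq_zero]
    · exact (S.x_pos j).le
    · intro a _
      by_cases ha : a = ∅
      · simp [ha]
      · simp [ha]
  · simp only [h, if_false]
    have h1 := sum_mem_le (fun j => (S.x_pos j).le) S.p_one (fun n => S.g n ^ 2)
      (fun n => sq_nonneg _) (fun m n hm hmn => pow_le_pow_left₀ (S.hg0 n) (S.hg m n hm hmn) 2) j
    have h2 : ∑ a : Finset J, pw S.x a * S.g (nn S.p a) ^ 2 / S.A2 * (if j ∈ a then 1 else 0) =
        (∑ a ∈ (Finset.univ : Finset (Finset J)).filter (fun a => j ∈ a),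
          pw S.x a * S.g (nn S.p a) ^ 2) / S.A2 := by
      rw [Finset.sum_filter, Finset.sum_div]
      refine Finset.sum_congr rfl fun a _ => ?_
      split_ifs <;> simp
    rw [h2, div_le_iff₀ S.A2_pos]
    exact h1

theorem PP_log (i l : ι) :
    ∑ a, S.PP i l a * Real.log (nn S.p a) ≤ S.B1 / S.A2 := by
  have hB : 0 ≤ S.B1 := by
    unfold B1
    refine Finset.sum_nonneg fun a _ => mul_nonneg (mul_nonneg
      (pw_nonneg (fun j => (S.x_pos j).le) a) (sq_nonneg _)) ?_
    exact Real.log_nonneg (by exact_mod_cast nn_pos S.p_one a)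
  unfold PP
  by_cases h : l = i
  · simp only [h, if_true]
    rw [Finset.sum_eq_zero]
    · exact div_nonneg hB S.A2_pos.le
    · intro a _
      by_cases ha : a = ∅
      · simp [ha, nn_empty]
      · simp [ha]
  · simp only [h, if_false]
    unfold B1
    rw [Finset.sum_div]
    refine le_of_eq (Finset.sum_congr rfl fun a _ => ?_)
    ring

/-- The total loss of a family. -/
noncomputable def bad (c : ι → Finset J) : ℝ :=
  (∑ l, ∑ l', if l ≠ l' then ∑ j, (if j ∈ c l then (1:ℝ) else 0) * (if j ∈ c l' then 1 else 0)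
    else 0) + 2 / Real.log S.R * ∑ l, Real.log (nn S.p (c l)) +
    ∑ l, ∑ j, S.eta j * (if j ∈ c l then 1 else 0)

theorem E_bad (i : ι) (hR : 1 < Real.log S.R)
    (hM : 16 * (Fintype.card ι : ℝ) * S.B1 ≤ S.A2 * Real.log S.R) :
    ∑ c : ι → Finset J, (∏ l, S.PP i l (c l)) * S.bad c ≤ 1 / 2 := by
  set K : ℝ := ((Fintype.card ι : ℕ) : ℝ) with hK
  have hK0 : 0 ≤ K := Nat.cast_nonneg _
  have hsq : ∑ j, S.x j ^ 2 ≤ ∑ j, S.x' j ^ 2 :=
    Finset.sum_le_sum fun j _ => pow_le_pow_left₀ (S.x_pos j).le (S.x_le_x' j) 2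
  have hsq0 : 0 ≤ ∑ j, S.x j ^ 2 := Finset.sum_nonneg fun j _ => sq_nonneg _
  have hE := S.hE'
  rw [← hK] at hE
  have t1 : ∑ c : ι → Finset J, (∏ l, S.PP i l (c l)) *
      (∑ l, ∑ l', if l ≠ l' then ∑ j, (if j ∈ c l then (1:ℝ) else 0) *
        (if j ∈ c l' then 1 else 0) else 0) ≤ K ^ 2 * ∑ j, S.x j ^ 2 := by
    simp_rw [Finset.mul_sum]
    rw [Finset.sum_comm]
    have h1 : ∀ l : ι, ∑ c : ι → Finset J, ∑ l', (∏ l, S.PP i l (c l)) *
        (if l ≠ l' then ∑ j, (if j ∈ c l then (1:ℝ) else 0) * (if j ∈ c l' then 1 else 0) else 0) ≤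
        K * ∑ j, S.x j ^ 2 := by
      intro l
      rw [Finset.sum_comm]
      have h2 : ∀ l' : ι, ∑ c : ι → Finset J, (∏ l, S.PP i l (c l)) *
          (if l ≠ l' then ∑ j, (if j ∈ c l then (1:ℝ) else 0) * (if j ∈ c l' then 1 else 0)
            else 0) ≤ ∑ j, S.x j ^ 2 := by
        intro l'
        by_cases hll : l ≠ l'
        · simp only [hll, ne_eq, not_false_eq_true, if_true]
          simp_rw [Finset.mul_sum]
          rw [Finset.sum_comm]
          refine Finset.sum_le_sum fun j _ => ?_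
          rw [E_pair (S.PP i) (S.PP_sum i) l l' hll (fun a => if j ∈ a then (1:ℝ) else 0)
            (fun a => if j ∈ a then (1:ℝ) else 0)]
          rw [sq]
          refine mul_le_mul (S.PP_mem i l j) (S.PP_mem i l' j) ?_ (S.x_pos j).le
          refine Finset.sum_nonneg fun a _ => mul_nonneg (S.PP_nonneg i l' a) ?_
          split_ifs <;> norm_num
        · simp only [hll, if_false, mul_zero, Finset.sum_const_zero]
          exact hsq0
      refine le_trans (Finset.sum_le_sum fun l' _ => h2 l') ?_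
      rw [Finset.sum_const, Finset.card_univ, nsmul_eq_mul]
    refine le_trans (Finset.sum_le_sum fun l _ => h1 l) ?_
    rw [Finset.sum_const, Finset.card_univ, nsmul_eq_mul, ← hK, ← Finset.mul_sum]
    apply le_of_eq
    ring
  have t2 : ∑ c : ι → Finset J, (∏ l, S.PP i l (c l)) *
      (2 / Real.log S.R * ∑ l, Real.log (nn S.p (c l))) ≤ 1 / 8 := by
    have h1 : ∑ c : ι → Finset J, (∏ l, S.PP i l (c l)) *
      (2 / Real.log S.R * ∑ l, Real.log (nn S.p (c l))) =
      2 / Real.log S.R * ∑ l, ∑ c : ι → Finset J, (∏ l, S.PP i l (c l)) *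
        Real.log (nn S.p (c l)) := by
      rw [Finset.sum_comm, Finset.mul_sum]
      refine Finset.sum_congr rfl fun c _ => ?_
      rw [← Finset.mul_sum]
      ring
    rw [h1]
    have h2 : ∑ l, ∑ c : ι → Finset J, (∏ l, S.PP i l (c l)) * Real.log (nn S.p (c l)) ≤
        K * (S.B1 / S.A2) := by
      have h3 : ∀ l : ι, ∑ c : ι → Finset J, (∏ l, S.PP i l (c l)) * Real.log (nn S.p (c l)) ≤
          S.B1 / S.A2 := by
        intro l
        rw [E_single (S.PP i) (S.PP_sum i) l (fun a => Real.log (nn S.p a))]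
        exact S.PP_log i l
      refine le_trans (Finset.sum_le_sum fun l _ => h3 l) ?_
      rw [Finset.sum_const, Finset.card_univ, nsmul_eq_mul]
    have hlog : 0 < Real.log S.R := by linarith only [hR]
    refine le_trans (mul_le_mul_of_nonneg_left h2 (by positivity)) ?_
    rw [div_mul_eq_mul_div, div_le_iff₀ hlog, mul_div_assoc', mul_div_assoc',
      div_le_iff₀ S.A2_pos]
    nlinarith only [hM]
  have t3 : ∑ c : ι → Finset J, (∏ l, S.PP i l (c l)) *
      (∑ l, ∑ j, S.eta j * (if j ∈ c l then 1 else 0)) ≤ 1 / 8 := by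
    have h1 : ∑ c : ι → Finset J, (∏ l, S.PP i l (c l)) *
        (∑ l, ∑ j, S.eta j * (if j ∈ c l then 1 else 0)) =
        ∑ l, ∑ j, S.eta j * ∑ c : ι → Finset J, (∏ l, S.PP i l (c l)) *
          (if j ∈ c l then 1 else 0) := by
      simp_rw [Finset.mul_sum]
      rw [Finset.sum_comm]
      refine Finset.sum_congr rfl fun l _ => ?_
      rw [Finset.sum_comm]
      refine Finset.sum_congr rfl fun j _ => ?_
      refine Finset.sum_congr rfl fun c _ => ?_
      ring
    rw [h1]
    have h2 : ∀ l : ι, ∑ j, S.eta j * ∑ c : ι → Finset J, (∏ l, S.PP i l (c l)) *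
          (if j ∈ c l then 1 else 0) ≤ (K + 2) * ∑ j, S.x' j ^ 2 := by
      intro l
      rw [Finset.mul_sum]
      refine Finset.sum_le_sum fun j _ => ?_
      rw [E_single (S.PP i) (S.PP_sum i) l (fun a => if j ∈ a then (1:ℝ) else 0)]
      refine le_trans (mul_le_mul_of_nonneg_left
        (le_trans (S.PP_mem i l j) (S.x_le_x' j)) (S.eta_nonneg j)) ?_
      unfold eta
      rw [← hK]
      apply le_of_eq
      ring
    refine le_trans (Finset.sum_le_sum fun l _ => h2 l) ?_
    rw [Finset.sum_const, Finset.card_univ, nsmul_eq_mul, ← hK]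
    have h0 := S.sum_sq_nonneg
    nlinarith only [hsq, hsq0, hE, hK0, h0, mul_nonneg hK0 h0]
  unfold bad
  simp_rw [mul_add]
  rw [Finset.sum_add_distrib, Finset.sum_add_distrib]
  have h4 : K ^ 2 * ∑ j, S.x j ^ 2 ≤ 1 / 8 := by
    have h0 := S.sum_sq_nonneg
    nlinarith only [hsq, hsq0, hE, hK0, h0, mul_nonneg hK0 h0, mul_nonneg (mul_nonneg hK0 hK0) h0,
      mul_le_mul_of_nonneg_left hsq (sq_nonneg K)]
  linarith only [t1, t2, t3, h4]

/-- Lower bound for the sum over small assignments without the value `i`. -/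
theorem sum_small_ge (i : ι) (hR : 1 < Real.log S.R)
    (hM : 16 * (Fintype.card ι : ℝ) * S.B1 ≤ S.A2 * Real.log S.R) :
    S.A2 ^ (Fintype.card ι - 1) / 2 ≤
      ∑ u ∈ (Finset.univ : Finset (J → Option ι)).filter
        (fun u => part u i = ∅ ∧ nn S.p (supp u) * nn S.p (supp u) ≤ S.R),
        (∏ l ∈ Finset.univ.erase i, S.g (nn S.p (part u l)) ^ 2) *
          ∏ j ∈ supp u, (S.x j * (1 - S.eta j)) := by
  classical
  -- rewrite as a sum over families
  have h1 : ∑ u ∈ (Finset.univ : Finset (J → Option ι)).filter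
        (fun u => part u i = ∅ ∧ nn S.p (supp u) * nn S.p (supp u) ≤ S.R),
        (∏ l ∈ Finset.univ.erase i, S.g (nn S.p (part u l)) ^ 2) *
          ∏ j ∈ supp u, (S.x j * (1 - S.eta j)) =
      ∑ c ∈ (Finset.univ : Finset (ι → Finset J)).filter
        (fun c => ∀ l l', l ≠ l' → Disjoint (c l) (c l')),
        if c i = ∅ ∧ (∏ l, nn S.p (c l)) * (∏ l, nn S.p (c l)) ≤ S.R then
          (∏ l ∈ Finset.univ.erase i, S.g (nn S.p (c l)) ^ 2) *
          ∏ l, ∏ j ∈ c l, (S.x j * (1 - S.eta j)) else 0 := by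
    rw [← sum_part, Finset.sum_filter]
    refine Finset.sum_congr rfl fun u _ => ?_
    rw [nn_supp, prod_supp_eq]
  rw [h1]
  have h2 : ∑ c : ι → Finset J, S.A2 ^ (Fintype.card ι - 1) *
      ((∏ l, S.PP i l (c l)) * (1 - S.bad c)) ≤
      ∑ c ∈ (Finset.univ : Finset (ι → Finset J)).filter
        (fun c => ∀ l l', l ≠ l' → Disjoint (c l) (c l')),
        if c i = ∅ ∧ (∏ l, nn S.p (c l)) * (∏ l, nn S.p (c l)) ≤ S.R then
          (∏ l ∈ Finset.univ.erase i, S.g (nn S.p (c l)) ^ 2) *
          ∏ l, ∏ j ∈ c l, (S.x j * (1 - S.eta j)) else 0 := by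
    rw [Finset.sum_filter]
    refine Finset.sum_le_sum fun c _ => ?_
    have hA := S.A2_pos
    -- nonnegativity of the pieces of bad
    have b1 : ∀ l l' : ι, 0 ≤ (if l ≠ l' then ∑ j, (if j ∈ c l then (1:ℝ) else 0) *
        (if j ∈ c l' then 1 else 0) else 0) := by
      intro l l'
      split_ifs
      · exact Finset.sum_nonneg fun j _ => by split_ifs <;> norm_num
      · exact le_refl _
    have b1' : 0 ≤ ∑ l, ∑ l', (if l ≠ l' then ∑ j, (if j ∈ c l then (1:ℝ) else 0) *
        (if j ∈ c l' then 1 else 0) else 0) :=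
      Finset.sum_nonneg fun l _ => Finset.sum_nonneg fun l' _ => b1 l l'
    have b2l : ∀ l, 0 ≤ Real.log (nn S.p (c l)) := fun l =>
      Real.log_nonneg (by exact_mod_cast nn_pos S.p_one _)
    have b2 : 0 ≤ 2 / Real.log S.R * ∑ l, Real.log (nn S.p (c l)) :=
      mul_nonneg (by positivity) (Finset.sum_nonneg fun l _ => b2l l)
    have b3 : 0 ≤ ∑ l, ∑ j, S.eta j * (if j ∈ c l then (1:ℝ) else 0) :=
      Finset.sum_nonneg fun l _ => Finset.sum_nonneg fun j _ =>
        mul_nonneg (S.eta_nonneg j) (by split_ifs <;> norm_num)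
    have hP0 : 0 ≤ ∏ l, S.PP i l (c l) := Finset.prod_nonneg fun l _ => S.PP_nonneg i l _
    have hrhs : 0 ≤ (∏ l ∈ Finset.univ.erase i, S.g (nn S.p (c l)) ^ 2) *
          ∏ l, ∏ j ∈ c l, (S.x j * (1 - S.eta j)) := by
      refine mul_nonneg (Finset.prod_nonneg fun l _ => sq_nonneg _)
        (Finset.prod_nonneg fun l _ => Finset.prod_nonneg fun j _ => mul_nonneg (S.x_pos j).le ?_)
      linarith only [S.eta_le j]
    by_cases hci : c i = ∅
    · by_cases hdis : ∀ l l', l ≠ l' → Disjoint (c l) (c l')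
      · by_cases hsm : (∏ l, nn S.p (c l)) * (∏ l, nn S.p (c l)) ≤ S.R
        · rw [if_pos hdis, if_pos ⟨hci, hsm⟩]
          have e1 : S.A2 ^ (Fintype.card ι - 1) * ∏ l, S.PP i l (c l) =
              (∏ l ∈ Finset.univ.erase i, S.g (nn S.p (c l)) ^ 2) * ∏ l, pw S.x (c l) := by
            rw [← Finset.mul_prod_erase Finset.univ (fun l => S.PP i l (c l)) (Finset.mem_univ i),
              ← Finset.mul_prod_erase Finset.univ (fun l => pw S.x (c l)) (Finset.mem_univ i)]
            have e2 : S.PP i i (c i) = 1 := by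
              unfold PP; simp [hci]
            have e3 : pw S.x (c i) = 1 := by rw [hci, pw_empty]
            have e4 : ∏ l ∈ Finset.univ.erase i, S.PP i l (c l) =
                (∏ l ∈ Finset.univ.erase i, (pw S.x (c l) * S.g (nn S.p (c l)) ^ 2)) /
                  S.A2 ^ (Fintype.card ι - 1) := by
              have e5 : ∀ l ∈ Finset.univ.erase i, S.PP i l (c l) =
                  pw S.x (c l) * S.g (nn S.p (c l)) ^ 2 / S.A2 := by
                intro l hl
                unfold PP
                rw [if_neg (Finset.ne_of_mem_erase hl)]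
              rw [Finset.prod_congr rfl e5, Finset.prod_div_distrib, Finset.prod_const,
                Finset.card_erase_of_mem (Finset.mem_univ i), Finset.card_univ]
            rw [e2, e3, e4, Finset.prod_mul_distrib]
            field_simp
          have e6 : 1 - S.bad c ≤ ∏ l, ∏ j ∈ c l, (1 - S.eta j) := by
            have e7 := one_sub_sum_le_prod
              ((Finset.univ : Finset ι).sigma (fun l => c l))
              (fun k : (Σ _ : ι, J) => S.eta k.2)
              (fun k _ => S.eta_nonneg k.2) (fun k _ => by linarith [S.eta_le k.2])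
            rw [Finset.prod_sigma, Finset.sum_sigma] at e7
            refine le_trans ?_ e7
            have e8 : ∑ l, ∑ j ∈ c l, S.eta j =
                ∑ l, ∑ j, S.eta j * (if j ∈ c l then (1:ℝ) else 0) := by
              refine Finset.sum_congr rfl fun l _ => ?_
              simp
            have e9 : ∑ l, ∑ j ∈ c l, S.eta j ≤ S.bad c := by
              rw [e8]
              unfold bad
              linarith
            linarith
          have e10 : ∏ l, ∏ j ∈ c l, (S.x j * (1 - S.eta j)) =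
              (∏ l, pw S.x (c l)) * ∏ l, ∏ j ∈ c l, (1 - S.eta j) := by
            rw [← Finset.prod_mul_distrib]
            refine Finset.prod_congr rfl fun l _ => ?_
            rw [Finset.prod_mul_distrib]
            rfl
          rw [e10, ← mul_assoc, ← mul_assoc, e1]
          refine mul_le_mul_of_nonneg_left e6 ?_
          rw [← e1]
          exact mul_nonneg (by positivity) hP0
        · rw [if_pos hdis, if_neg (fun h => hsm h.2)]
          have hbad : 1 ≤ S.bad c := by
            unfold bad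
            have hlogR : 0 < Real.log S.R := by linarith
            have e1 : Real.log S.R ≤ 2 * ∑ l, Real.log (nn S.p (c l)) := by
              rw [← Real.log_prod (fun l _ => by
                have := nn_pos S.p_one (c l); positivity)]
              rw [← Nat.cast_prod]
              push Not at hsm
              have e2 : (0 : ℝ) < ((∏ l, nn S.p (c l) : ℕ) : ℝ) := by
                have : 0 < ∏ l, nn S.p (c l) := Finset.prod_pos fun l _ => nn_pos S.p_one _
                exact_mod_cast this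
              rw [two_mul, ← Real.log_mul e2.ne' e2.ne']
              apply Real.log_le_log
              · by_contra hh
                push Not at hh
                have : (S.R : ℝ) = 0 := le_antisymm hh (Nat.cast_nonneg _)
                rw [this, Real.log_zero] at hR
                linarith
              · exact_mod_cast hsm.le
            have e3 : 1 ≤ 2 / Real.log S.R * ∑ l, Real.log (nn S.p (c l)) := by
              rw [div_mul_eq_mul_div, le_div_iff₀ hlogR, one_mul]
              exact e1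
            linarith
          have : (∏ l, S.PP i l (c l)) * (1 - S.bad c) ≤ 0 :=
            mul_nonpos_of_nonneg_of_nonpos hP0 (by linarith)
          exact mul_nonpos_of_nonneg_of_nonpos (by positivity) this
      · rw [if_neg hdis]
        push Not at hdis
        obtain ⟨l, l', hll, hnd⟩ := hdis
        rw [Finset.not_disjoint_iff] at hnd
        obtain ⟨j, hj, hj'⟩ := hnd
        have hbad : 1 ≤ S.bad c := by
          unfold bad
          have e1 : 1 ≤ ∑ l, ∑ l', (if l ≠ l' then ∑ j, (if j ∈ c l then (1:ℝ) else 0) *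
              (if j ∈ c l' then 1 else 0) else 0) := by
            have e2 : (1:ℝ) ≤ (if l ≠ l' then ∑ j, (if j ∈ c l then (1:ℝ) else 0) *
              (if j ∈ c l' then 1 else 0) else 0) := by
              rw [if_pos hll]
              refine le_trans ?_ (Finset.single_le_sum (f := fun j => (if j ∈ c l then (1:ℝ) else 0) *
                (if j ∈ c l' then 1 else 0)) (fun j _ => by split_ifs <;> norm_num)
                (Finset.mem_univ j))
              simp [hj, hj']
            refine le_trans e2 ?_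
            refine le_trans (Finset.single_le_sum (f := fun l' => if l ≠ l' then
              ∑ j, (if j ∈ c l then (1:ℝ) else 0) * (if j ∈ c l' then 1 else 0) else 0)
              (fun l' _ => b1 l l') (Finset.mem_univ l')) ?_
            exact Finset.single_le_sum (f := fun l => ∑ l', if l ≠ l' then
              ∑ j, (if j ∈ c l then (1:ℝ) else 0) * (if j ∈ c l' then 1 else 0) else 0)
              (fun l _ => Finset.sum_nonneg fun l' _ => b1 l l') (Finset.mem_univ l)
          linarith
        have : (∏ l, S.PP i l (c l)) * (1 - S.bad c) ≤ 0 :=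
          mul_nonpos_of_nonneg_of_nonpos hP0 (by linarith)
        exact mul_nonpos_of_nonneg_of_nonpos (by positivity) this
    · have hP : ∏ l, S.PP i l (c l) = 0 := by
        refine Finset.prod_eq_zero (Finset.mem_univ i) ?_
        unfold PP
        simp [hci]
      rw [hP, zero_mul, mul_zero]
      split_ifs with h3 h4
      · exact absurd h4.1 hci
      · exact le_refl _
      · exact le_refl _
  refine le_trans ?_ h2
  rw [← Finset.mul_sum]
  have h3 : ∑ c : ι → Finset J, (∏ l, S.PP i l (c l)) * (1 - S.bad c) =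
      1 - ∑ c : ι → Finset J, (∏ l, S.PP i l (c l)) * S.bad c := by
    simp_rw [mul_sub, mul_one]
    rw [Finset.sum_sub_distrib, E_one (S.PP i) (S.PP_sum i)]
  rw [h3]
  have h4 := S.E_bad i hR hM
  have h5 : 0 < S.A2 ^ (Fintype.card ι - 1) := pow_pos S.A2_pos _
  nlinarith only [h4, h5]

/-- (II): lower bound for the quadratic form of the prime variable. -/
theorem bil_lami_ge (i : ι) (hR : 1 < Real.log S.R)
    (hM : 16 * (Fintype.card ι : ℝ) * S.B1 ≤ S.A2 * Real.log S.R) :
    S.A1 ^ 2 * S.A2 ^ (Fintype.card ι - 1) / 4 ≤ bil S.x' (S.lami i) (S.lami i) := by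
  have h1 := (bil_bounds S.x' (fun j => ⟨(S.x'_pos j).le, S.card_mul_x' j⟩) (S.lami i)).1
  refine le_trans ?_ h1
  have hwt0 : ∀ u : J → Option ι, 0 ≤ ∏ j, wt (S.x' j * (1 - (Fintype.card ι : ℝ) * S.x' j))
      (u j) := by
    intro u
    refine Finset.prod_nonneg fun j _ => ?_
    rcases u j with _ | l
    · simp [wt]
    · simp only [wt]
      exact mul_nonneg (S.x'_pos j).le (by linarith [S.card_mul_x' j])
  have h2 : ∑ u ∈ (Finset.univ : Finset (J → Option ι)).filter
        (fun u => part u i = ∅ ∧ nn S.p (supp u) * nn S.p (supp u) ≤ S.R),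
      (op (fun j => tm (S.x' j)) (S.lami i) u) ^ 2 *
        ∏ j, wt (S.x' j * (1 - (Fintype.card ι : ℝ) * S.x' j)) (u j) ≤
      ∑ u : J → Option ι, (op (fun j => tm (S.x' j)) (S.lami i) u) ^ 2 *
        ∏ j, wt (S.x' j * (1 - (Fintype.card ι : ℝ) * S.x' j)) (u j) :=
    Finset.sum_le_sum_of_subset_of_nonneg (Finset.filter_subset _ _)
      fun u _ _ => mul_nonneg (sq_nonneg _) (hwt0 u)
  refine le_trans ?_ h2
  have h3 : ∀ u ∈ (Finset.univ : Finset (J → Option ι)).filter
        (fun u => part u i = ∅ ∧ nn S.p (supp u) * nn S.p (supp u) ≤ S.R),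
      9 / 16 * S.A1 ^ 2 * ((∏ l ∈ Finset.univ.erase i, S.g (nn S.p (part u l)) ^ 2) *
          ∏ j ∈ supp u, (S.x j * (1 - S.eta j))) ≤
      (op (fun j => tm (S.x' j)) (S.lami i) u) ^ 2 *
        ∏ j, wt (S.x' j * (1 - (Fintype.card ι : ℝ) * S.x' j)) (u j) := by
    intro u hu
    rw [Finset.mem_filter] at hu
    obtain ⟨_, hui, hus⟩ := hu
    rw [S.op_tm_lami i u, mul_pow, sgn_sq, one_mul, prod_wt]
    have e1 := S.op_iy_ge i u hui
    have e2 := S.MM_ge i u hui hus
    have e3 := S.MM_nonneg i u hui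
    have hprod : 0 < ∏ j ∈ supp u, (1 + S.x j) :=
      Finset.prod_pos fun j _ => by linarith [S.x_pos j]
    set P1 := ∏ j ∈ supp u, (1 + S.x j) with hP1
    set Gp := ∏ l ∈ Finset.univ.erase i, S.g (nn S.p (part u l)) with hGp
    have hG0 : 0 ≤ Gp := Finset.prod_nonneg fun l _ => S.hg0 _
    have e4 : (3 / 4 * (Gp * S.A1 / P1)) ^ 2 ≤
        (op (fun j => iy i (S.x' j - S.x j)) (S.MM i) u) ^ 2 := by
      refine pow_le_pow_left₀ ?_ ?_ 2
      · exact mul_nonneg (by norm_num) (div_nonneg (mul_nonneg hG0 S.A1_nonneg) hprod.le)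
      · refine le_trans ?_ e1
        refine mul_le_mul_of_nonneg_left ?_ (by norm_num)
        rw [div_le_iff₀ hprod]
        linarith [mul_comm P1 (S.MM i u)]
    have e5 : ∏ j ∈ supp u, (S.x j * (1 - S.eta j)) ≤
        ∏ j ∈ supp u, (S.x' j * (1 - (Fintype.card ι : ℝ) * S.x' j) / (1 + S.x j) ^ 2) :=
      Finset.prod_le_prod (fun j _ => mul_nonneg (S.x_pos j).le (by linarith only [S.eta_le j]))
        fun j _ => S.local_ge j
    rw [Finset.prod_div_distrib, Finset.prod_pow] at e5
    have hpw : 0 ≤ pw (fun j => S.x' j * (1 - (Fintype.card ι : ℝ) * S.x' j)) (supp u) :=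
      pw_nonneg (fun j => mul_nonneg (S.x'_pos j).le (by linarith only [S.card_mul_x' j])) _
    have e6 : (∏ l ∈ Finset.univ.erase i, S.g (nn S.p (part u l)) ^ 2) = Gp ^ 2 := by
      rw [hGp, Finset.prod_pow]
    rw [e6]
    calc 9 / 16 * S.A1 ^ 2 * (Gp ^ 2 * ∏ j ∈ supp u, (S.x j * (1 - S.eta j)))
        ≤ 9 / 16 * S.A1 ^ 2 * (Gp ^ 2 *
          ((∏ j ∈ supp u, (S.x' j * (1 - (Fintype.card ι : ℝ) * S.x' j))) / P1 ^ 2)) := by
          refine mul_le_mul_of_nonneg_left ?_ (by (clear * -; positivity))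
          exact mul_le_mul_of_nonneg_left e5 (sq_nonneg _)
      _ = (3 / 4 * (Gp * S.A1 / P1)) ^ 2 *
          pw (fun j => S.x' j * (1 - (Fintype.card ι : ℝ) * S.x' j)) (supp u) := by
          unfold pw
          generalize (∏ j ∈ supp u, (S.x' j * (1 - (Fintype.card ι : ℝ) * S.x' j))) = Q
          field_simp
          ring
      _ ≤ _ := mul_le_mul_of_nonneg_right e4 hpw
  refine le_trans ?_ (Finset.sum_le_sum h3)
  rw [← Finset.mul_sum]
  have h4 := S.sum_small_ge i hR hM
  have h5 : 0 < S.A2 ^ (Fintype.card ι - 1) := pow_pos S.A2_pos _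
  have h6 : 9 / 16 * S.A1 ^ 2 * (S.A2 ^ (Fintype.card ι - 1) / 2) ≤ 9 / 16 * S.A1 ^ 2 *
      ∑ u ∈ (Finset.univ : Finset (J → Option ι)).filter
        (fun u => part u i = ∅ ∧ nn S.p (supp u) * nn S.p (supp u) ≤ S.R),
        (∏ l ∈ Finset.univ.erase i, S.g (nn S.p (part u l)) ^ 2) *
          ∏ j ∈ supp u, (S.x j * (1 - S.eta j)) :=
    mul_le_mul_of_nonneg_left h4 (by positivity)
  refine le_trans ?_ h6
  nlinarith only [h5, mul_nonneg (sq_nonneg S.A1) h5.le]

end SData

end Pool.Agent.MP89da58
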