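import Pool.Agent.Lib.MP_89da58_nt.SieveB

set_option autoImplicit false
set_option linter.unusedSectionVars false

/-!
(III): majorant weights for a pair of prime variables `i`, `k`.
-/

namespace Pool.Agent.MP89da58

variable {ι : Type} [Fintype ι] [DecidableEq ι] {J : Type} [Fintype J] [DecidableEq J]

/-- Removing the values `i` and `k`. -/
def corel (i k : ι) (a : Option ι) : Option ι := if a = some i ∨ a = some k then none else a

/-- Removing the values `i` and `k` from an assignment. -/
def core (i k : ι) (u : J → Option ι) : J → Option ι := fun j => corel i k (u j)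

/-- Local matrix summing out the coordinates `i` and `k`. -/
def ep (i k : ι) (x : ℝ) : Option ι → Option ι → ℝ
  | none, none => 1
  | none, some l => if l = i ∨ l = k then x else 0
  | some _, none => 0
  | some l, some l' => if l = l' ∧ l ≠ i ∧ l ≠ k then 1 else 0

/-- Local matrix acting on the remaining coordinates. -/
def tik (i k : ι) (x : ℝ) : Option ι → Option ι → ℝ
  | none, none => 1
  | none, some l => if l = i ∨ l = k then 0 else x
  | some _, none => 0
  | some l, some l' => if l = l' ∧ l ≠ i ∧ l ≠ k then 1 else 0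

/-- Indicator of the values different from `some i`, `some k`. -/
def rho2 (i k : ι) : Option ι → ℝ := fun a => if a = some i ∨ a = some k then 0 else 1

theorem tik_ep (i k : ι) (x : ℝ) (a b : Option ι) :
    ∑ c, tik i k x a c * ep i k x c b = rho2 i k a * tm x a b := by
  rw [Fintype.sum_option]
  rcases a with _ | a <;> rcases b with _ | b
  · simp [tik, ep, rho2, tm]
  · simp only [tik, ep, rho2, tm]
    simp only [reduceCtorEq, or_self, if_false, one_mul]
    have h1 : ∑ c : ι, (if c = i ∨ c = k then (0:ℝ) else x) *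
        (if c = b ∧ c ≠ i ∧ c ≠ k then 1 else 0) = if b = i ∨ b = k then 0 else x := by
      rw [Finset.sum_eq_single b]
      · by_cases h1 : b = i <;> by_cases h2 : b = k <;> simp [h1, h2]
      · intro c _ hc
        simp [hc]
      · intro h; exact absurd (Finset.mem_univ _) h
    rw [h1]
    by_cases h1 : b = i <;> by_cases h2 : b = k <;> simp [h1, h2]
  · simp [tik, ep, rho2, tm]
  · simp only [tik, ep, rho2, tm]
    simp only [zero_mul, zero_add, Option.some.injEq]
    rw [Finset.sum_eq_single a]
    · by_cases h3 : a = b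
      · subst h3
        by_cases h1 : a = i <;> by_cases h2 : a = k <;> simp [h1, h2]
      · simp [h3]
    · intro c _ hc
      simp [Ne.symm hc]
    · intro h; exact absurd (Finset.mem_univ _) h

theorem ep_sg (i k : ι) (x : ℝ) (a b : Option ι) :
    ep i k (-x) a b * sg b = sg a * ep i k x a b := by
  rcases a with _ | a <;> rcases b with _ | b
  · simp [ep, sg]
  · simp only [ep, sg]
    split_ifs <;> ring
  · simp [ep, sg]
  · simp only [ep, sg]
    split_ifs <;> ring

theorem ep_eq_cp (i k : ι) (hik : i ≠ k) (x : ℝ) (a b : Option ι) :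
    ep i k x a b = ∑ c, cp k x a c * cp i x c b := by
  rw [Fintype.sum_option]
  rcases a with _ | a <;> rcases b with _ | b
  · simp [ep, cp]
  · simp only [ep, cp, one_mul]
    have h1 : ∑ c : ι, (if c = k then x else 0) * (if c = b ∧ c ≠ i then (1:ℝ) else 0) =
        if b = k then x else 0 := by
      rw [Finset.sum_eq_single k]
      · by_cases h1 : k = b
        · simp [h1.symm, Ne.symm hik]
        · simp [h1, Ne.symm h1]
      · intro c _ hc
        simp [hc]
      · intro h; exact absurd (Finset.mem_univ _) h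
    rw [h1]
    by_cases h1 : b = i
    · have : b ≠ k := by rw [h1]; exact hik
      simp [h1, hik]
    · by_cases h2 : b = k
      · simp [h1, h2]
        intro h3
        exact absurd h3.symm hik
      · simp [h1, h2]
  · simp [ep, cp]
  · simp only [ep, cp, zero_mul, zero_add]
    rw [Finset.sum_eq_single a]
    · by_cases h3 : a = b
      · subst h3
        by_cases h1 : a = i <;> by_cases h2 : a = k <;> simp [h1, h2]
      · simp [h3]
    · intro c _ hc
      simp [Ne.symm hc]
    · intro h; exact absurd (Finset.mem_univ _) h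

/-- Explicit formula for summing out `i` and `k`. -/
theorem op_ep_eq (i k : ι) (hik : i ≠ k) (x : J → ℝ) (f : (J → Option ι) → ℝ)
    (v : J → Option ι) (hi : part v i = ∅) (hk : part v k = ∅) :
    op (fun j => ep i k (x j)) f v = ∑ b ∈ ((supp v)ᶜ).powerset, pw x b *
      ∑ a ∈ ((supp v ∪ b)ᶜ).powerset, pw x a * f (ext i (ext k v b) a) := by
  have h1 : (fun j => ep i k (x j)) = fun j a b => ∑ c, cp k (x j) a c * cp i (x j) c b := by
    funext j a b
    exact ep_eq_cp i k hik (x j) a b
  rw [h1, ← op_comp, op_cp_eq k x _ v hk]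
  refine Finset.sum_congr rfl fun b hb => ?_
  congr 1
  rw [Finset.mem_powerset] at hb
  rw [op_cp_eq i x f (ext k v b) (by rw [part_ext_ne k i hik v b hb, hi]), supp_ext]

theorem op_ep_eq_zero (i k : ι) (x : J → ℝ) (f : (J → Option ι) → ℝ)
    (v : J → Option ι) (hv : part v i ≠ ∅ ∨ part v k ≠ ∅) :
    op (fun j => ep i k (x j)) f v = 0 := by
  unfold op
  refine Finset.sum_eq_zero fun u _ => ?_
  have h : ∃ j, v j = some i ∨ v j = some k := by
    rcases hv with h | h
    · obtain ⟨j, hj⟩ := Finset.nonempty_iff_ne_empty.mpr h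
      exact ⟨j, Or.inl (mem_part.mp hj)⟩
    · obtain ⟨j, hj⟩ := Finset.nonempty_iff_ne_empty.mpr h
      exact ⟨j, Or.inr (mem_part.mp hj)⟩
  obtain ⟨j, hj⟩ := h
  rw [Finset.prod_eq_zero (Finset.mem_univ j), zero_mul]
  rcases hj with hj | hj
  · rw [hj]
    rcases u j with _ | l <;> simp [ep]
  · rw [hj]
    rcases u j with _ | l <;> simp [ep]

theorem core_eq_of_ep_ne_zero (i k : ι) (x : J → ℝ) (v u : J → Option ι)
    (h : ∏ j, ep i k (x j) (v j) (u j) ≠ 0) : core i k u = v := by
  funext j
  have hj : ep i k (x j) (v j) (u j) ≠ 0 := fun hz => h (Finset.prod_eq_zero (Finset.mem_univ j) hz)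
  unfold core corel
  rcases hv : v j with _ | l <;> rcases hu : u j with _ | l'
  · simp
  · rw [hv, hu] at hj
    simp only [ep] at hj
    by_cases h1 : l' = i ∨ l' = k
    · simp [h1]
    · simp [h1] at hj
  · rw [hv, hu] at hj
    simp [ep] at hj
  · rw [hv, hu] at hj
    simp only [ep] at hj
    by_cases h1 : l = l' ∧ l ≠ i ∧ l ≠ k
    · obtain ⟨h2, h3, h4⟩ := h1
      subst h2
      simp [h3, h4]
    · simp [h1] at hj

theorem prod_wt_ep_core (i k : ι) (x : J → ℝ) (u : J → Option ι) :
    (∏ j, wt (x j) (core i k u j)) * ∏ j, ep i k (x j) (core i k u j) (u j) =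
      pw x (supp u) := by
  rw [← prod_wt, ← Finset.prod_mul_distrib]
  refine Finset.prod_congr rfl fun j _ => ?_
  unfold core corel
  rcases hu : u j with _ | l
  · simp [wt, ep]
  · by_cases h1 : l = i ∨ l = k
    · simp [h1, wt, ep]
    · simp only [Option.some.injEq, h1, if_false]
      push Not at h1
      simp [wt, ep, h1.1, h1.2]

theorem sum_core (i k : ι) (x : J → ℝ) (Φ τ : (J → Option ι) → ℝ) :
    ∑ u : J → Option ι, Φ (core i k u) * τ u * pw x (supp u) =
      ∑ v : J → Option ι, Φ v * pw x (supp v) * op (fun j => ep i k (x j)) τ v := by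
  unfold op
  simp_rw [Finset.mul_sum]
  rw [Finset.sum_comm]
  refine Finset.sum_congr rfl fun u _ => ?_
  rw [Finset.sum_eq_single (core i k u)]
  · rw [← prod_wt_ep_core i k x u, prod_wt]
    ring
  · intro v _ hv
    have : ∏ j, ep i k (x j) (v j) (u j) = 0 := by
      by_contra hne
      exact hv (core_eq_of_ep_ne_zero i k x v u hne).symm
    rw [this]
    ring
  · intro h; exact absurd (Finset.mem_univ _) h

theorem sum_mem_le' {x : J → ℝ} (hx : ∀ j, 0 ≤ x j) {p : J → ℕ} (hp : ∀ j, 1 ≤ p j)
    (g : ℕ → ℝ) (hg0 : ∀ n, 0 ≤ g n) (hg : ∀ m n : ℕ, 1 ≤ m → m ≤ n → g n ≤ g m)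
    (V : Finset J) (j : J) :
    ∑ a ∈ V.powerset.filter (fun a => j ∈ a), pw x a * g (nn p a) ≤
      x j * ∑ a ∈ V.powerset, pw x a * g (nn p a) := by
  rw [Finset.mul_sum]
  by_cases hjV : j ∈ V
  · have h0 : ∑ a ∈ V.powerset.filter (fun a => j ∉ a), x j * (pw x a * g (nn p a)) =
        ∑ a ∈ V.powerset.filter (fun a => j ∈ a),
          x j * (pw x (a.erase j) * g (nn p (a.erase j))) := by
      refine Finset.sum_bij' (fun a _ => insert j a) (fun a _ => a.erase j) ?_ ?_ ?_ ?_ ?_
      · intro a ha
        rw [Finset.mem_filter, Finset.mem_powerset] at ha ⊢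
        exact ⟨Finset.insert_subset hjV ha.1, Finset.mem_insert_self j a⟩
      · intro a ha
        rw [Finset.mem_filter, Finset.mem_powerset] at ha ⊢
        exact ⟨(Finset.erase_subset j a).trans ha.1, Finset.notMem_erase j a⟩
      · intro a ha
        rw [Finset.mem_filter] at ha
        exact Finset.erase_insert ha.2
      · intro a ha
        rw [Finset.mem_filter] at ha
        exact Finset.insert_erase ha.2
      · intro a ha
        rw [Finset.mem_filter] at ha
        simp only [Finset.erase_insert ha.2]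
    have h1 : ∑ a ∈ V.powerset.filter (fun a => j ∈ a), pw x a * g (nn p a) ≤
        ∑ a ∈ V.powerset.filter (fun a => j ∉ a), x j * (pw x a * g (nn p a)) := by
      rw [h0]
      refine Finset.sum_le_sum fun a ha => ?_
      rw [Finset.mem_filter] at ha
      have h2 : pw x a = x j * pw x (a.erase j) := (Finset.mul_prod_erase a x ha.2).symm
      rw [h2, mul_assoc]
      refine mul_le_mul_of_nonneg_left ?_ (hx j)
      refine mul_le_mul_of_nonneg_left ?_ (pw_nonneg hx _)
      exact hg _ _ (nn_pos hp _) (nn_mono hp (Finset.erase_subset j a))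
    refine le_trans h1 (Finset.sum_le_sum_of_subset_of_nonneg (Finset.filter_subset _ _) ?_)
    intro a _ _
    exact mul_nonneg (hx j) (mul_nonneg (pw_nonneg hx a) (hg0 _))
  · rw [Finset.filter_false_of_mem, Finset.sum_empty]
    · exact Finset.sum_nonneg fun a _ =>
        mul_nonneg (hx j) (mul_nonneg (pw_nonneg hx a) (hg0 _))
    · intro a ha hja
      rw [Finset.mem_powerset] at ha
      exact hjV (ha hja)

/-- Tilting the weights. -/
theorem sum_tilt_le {x z : J → ℝ} (hx : ∀ j, 0 ≤ x j) (hz : ∀ j, 0 ≤ z j) {p : J → ℕ}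
    (hp : ∀ j, 1 ≤ p j) (g : ℕ → ℝ) (hg0 : ∀ n, 0 ≤ g n)
    (hg : ∀ m n : ℕ, 1 ≤ m → m ≤ n → g n ≤ g m) :
    ∑ b : Finset J, pw x b * (∏ j ∈ b, (1 + z j)) * g (nn p b) ≤
      (∏ j, (1 + x j * z j)) * ∑ b : Finset J, pw x b * g (nn p b) := by
  have h1 : ∀ b : Finset J, pw x b * (∏ j ∈ b, (1 + z j)) * g (nn p b) =
      ∑ d : Finset J, if d ⊆ b then pw x b * pw z d * g (nn p b) else 0 := by
    intro b
    rw [← sum_pw_powerset, Finset.mul_sum, Finset.sum_mul]
    rw [← Finset.sum_filter]
    refine Finset.sum_congr ?_ fun d _ => rfl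
    ext d
    simp
  rw [Finset.sum_congr rfl fun b _ => h1 b, Finset.sum_comm]
  have h2 : ∀ d : Finset J, ∑ b : Finset J, (if d ⊆ b then pw x b * pw z d * g (nn p b) else 0) ≤
      (pw x d * pw z d) * ∑ b : Finset J, pw x b * g (nn p b) := by
    intro d
    rw [sum_split d, Finset.sum_eq_single d]
    · have h3 : ∀ a ∈ (dᶜ).powerset, (if d ⊆ d ∪ a then
          pw x (d ∪ a) * pw z d * g (nn p (d ∪ a)) else 0) ≤
          pw x d * pw z d * (pw x a * g (nn p a)) := by
        intro a ha
        rw [Finset.mem_powerset] at ha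
        have hda := disjoint_of_subset_compl ha
        rw [if_pos Finset.subset_union_left, pw_union hda, nn_union hda]
        have h4 : g (nn p d * nn p a) ≤ g (nn p a) :=
          hg _ _ (nn_pos hp a) (Nat.le_mul_of_pos_left _ (nn_pos hp d))
        have h5 : 0 ≤ pw x d * pw z d * pw x a :=
          mul_nonneg (mul_nonneg (pw_nonneg hx d) (pw_nonneg hz d)) (pw_nonneg hx a)
        nlinarith [mul_le_mul_of_nonneg_left h4 h5]
      refine le_trans (Finset.sum_le_sum h3) ?_
      rw [← Finset.mul_sum]
      refine mul_le_mul_of_nonneg_left ?_ (mul_nonneg (pw_nonneg hx d) (pw_nonneg hz d))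
      refine Finset.sum_le_sum_of_subset_of_nonneg (Finset.subset_univ _) ?_
      intro a _ _
      exact mul_nonneg (pw_nonneg hx a) (hg0 _)
    · intro e he hed
      rw [Finset.mem_powerset] at he
      refine Finset.sum_eq_zero fun a ha => ?_
      rw [Finset.mem_powerset] at ha
      rw [if_neg]
      intro hsub
      apply hed
      refine Finset.Subset.antisymm he ?_
      intro j hj
      rcases Finset.mem_union.mp (hsub hj) with h | h
      · exact h
      · exact absurd hj (Finset.mem_compl.mp (ha h))
    · intro h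
      exact absurd (Finset.mem_powerset.mpr (Finset.Subset.refl d)) h
  refine le_trans (Finset.sum_le_sum fun d _ => h2 d) ?_
  rw [← Finset.sum_mul]
  apply le_of_eq
  congr 1
  rw [← sum_pw_powerset (fun j => x j * z j) Finset.univ, Finset.powerset_univ]
  refine Finset.sum_congr rfl fun d _ => ?_
  unfold pw
  rw [Finset.prod_mul_distrib]

end Pool.Agent.MP89da58
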