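import Pool.Agent.Lib.MP_89da58_nt.Defs2

set_option autoImplicit false

/-!
From the output of the sieve to the combinatorial statement.
-/

namespace Pool.Agent.MP89da58

open Finset

/-! ### A positive proportion of the blocks contains two primes -/

theorem T_pointwise (a : ℝ) (ha : 0 < a) (X : ℕ) :
    (X : ℝ) ≤ 1 + ((X : ℝ) ^ 2) / (2 * a) + (a / 2) * (if 2 ≤ X then 1 else 0) := by
  split_ifs with h
  · have h1 : (X : ℝ) ≤ (X : ℝ) ^ 2 / (2 * a) + a / 2 := by
      rw [div_add_div _ _ (by positivity) (by positivity), le_div_iff₀ (by positivity)]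
      nlinarith only [sq_nonneg ((X : ℝ) - a), ha]
    linarith only [h1]
  · have h2 : (X : ℝ) ≤ 1 := by
      have : X ≤ 1 := by omega
      exact_mod_cast this
    have h3 : 0 ≤ (X : ℝ) ^ 2 / (2 * a) := by positivity
    linarith only [h2, h3]

theorem T_blocks (H : SieveMain) : ∃ δ : ℝ, 0 < δ ∧ ∀ (β : Type) [Fintype β] [DecidableEq β]
    [Nonempty β], ∃ M : ℕ, 1 ≤ M ∧ ∀ h : β × Fin M → ℕ, Function.Injective h →
    (∀ i, ∀ p : ℕ, p.Prime → p ≤ Fintype.card (β × Fin M) → p ∣ h i) →
    ∃ n : ℕ, δ * Fintype.card β ≤ ((univ.filter (fun b : β =>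
      2 ≤ (univ.filter (fun i : Fin M => (n + h (b, i)).Prime)).card)).card : ℝ) := by
  classical
  obtain ⟨c1, C2, hc1, hC2, H⟩ := H
  set C : ℝ := C2 / c1 ^ 2 with hC
  have hCpos : 0 < C := by positivity
  refine ⟨1 / (2 + 4 * C), by positivity, ?_⟩
  intro β _ _ _
  have hβ : 0 < Fintype.card β := Fintype.card_pos
  have hβR : (0 : ℝ) < Fintype.card β := by exact_mod_cast hβ
  obtain ⟨m, hm⟩ := exists_nat_ge (max 1 (2 * Fintype.card β / c1))
  have hm1 : 1 ≤ m := by
    have : (1 : ℝ) ≤ m := le_trans (le_max_left _ _) hm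
    exact_mod_cast this
  have hm2 : 2 * Fintype.card β / c1 ≤ m := le_trans (le_max_right _ _) hm
  obtain ⟨M, hM⟩ : ∃ M : ℕ, M = 2 ^ m := ⟨_, rfl⟩
  refine ⟨M, by rw [hM]; exact Nat.one_le_two_pow, ?_⟩
  intro h hinj hdiv
  have hMpos : (0 : ℝ) < M := by
    have : 0 < M := by rw [hM]; positivity
    exact_mod_cast this
  have hcard : Fintype.card (β × Fin M) = Fintype.card β * M := by simp
  obtain ⟨s, w, U, hw, hU, hsum, h1, h2⟩ := H (β × Fin M) m hm1 (by
    rw [hcard, ← hM]; exact Nat.le_mul_of_pos_left _ hβ) h hinj hdiv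
  set t : ℝ := (m : ℝ) / Fintype.card β with ht
  have htpos : 0 < t := by positivity
  have htc : 2 ≤ c1 * t := by
    rw [ht]
    rw [div_le_iff₀ hc1] at hm2
    rw [mul_div_assoc', le_div_iff₀ hβR]
    linarith only [hm2]
  have htM : (m : ℝ) / (Fintype.card (β × Fin M) : ℝ) = t / M := by
    rw [hcard, ht]; push_cast; field_simp
  -- number of primes in a block
  set X : β → ℕ → ℕ := fun b n => (univ.filter (fun i : Fin M => (n + h (b, i)).Prime)).card with hX
  have hXsum : ∀ b n, (X b n : ℝ) = ∑ i : Fin M, if (n + h (b, i)).Prime then (1 : ℝ) else 0 := by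
    intro b n
    rw [hX]; simp [Finset.sum_boole]
  -- first moment
  have hE1 : ∀ b, c1 * t * U ≤ ∑ n ∈ s, w n * X b n := by
    intro b
    have : ∑ n ∈ s, w n * X b n = ∑ i : Fin M, ∑ n ∈ s,
        Set.indicator {n : ℕ | (n + h (b, i)).Prime} w n := by
      rw [Finset.sum_comm]
      refine Finset.sum_congr rfl fun n _ => ?_
      rw [hXsum, Finset.mul_sum]
      refine Finset.sum_congr rfl fun i _ => ?_
      by_cases hp : (n + h (b, i)).Prime
      · rw [Set.indicator_of_mem (by exact hp)]; simp [hp]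
      · rw [Set.indicator_of_notMem (by exact hp)]; simp [hp]
    rw [this]
    calc c1 * t * U = ∑ i : Fin M, c1 * (t / M) * U := by
          rw [Finset.sum_const, card_univ, Fintype.card_fin, nsmul_eq_mul]; field_simp
      _ ≤ _ := Finset.sum_le_sum fun i _ => by
          have := h1 (b, i); rw [htM] at this; exact this
  -- second moment
  have hE2 : ∀ b, ∑ n ∈ s, w n * (X b n : ℝ) ^ 2 ≤ ∑ n ∈ s, w n * X b n + C2 * t ^ 2 * U := by
    intro b
    have hsq : ∀ n, (X b n : ℝ) ^ 2 = X b n + ∑ i : Fin M, ∑ k : Fin M,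
        if i ≠ k ∧ (n + h (b, i)).Prime ∧ (n + h (b, k)).Prime then (1 : ℝ) else 0 := by
      intro n
      rw [sq]
      conv_lhs => rw [hXsum]
      rw [Finset.sum_mul_sum]
      conv_rhs => rw [hXsum]
      rw [← Finset.sum_add_distrib]
      refine Finset.sum_congr rfl fun i _ => ?_
      have : (if (n + h (b, i)).Prime then (1 : ℝ) else 0) = ∑ k : Fin M,
          if i = k ∧ (n + h (b, i)).Prime ∧ (n + h (b, k)).Prime then (1 : ℝ) else 0 := by
        rw [Finset.sum_eq_single i]
        · simp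
        · intro k _ hk; rw [if_neg]; rintro ⟨h', _⟩; exact hk h'.symm
        · intro hh; exact absurd (mem_univ _) hh
      conv_rhs => rw [this, ← Finset.sum_add_distrib]
      refine Finset.sum_congr rfl fun k _ => ?_
      by_cases hik : i = k
      · subst hik; by_cases hp : (n + h (b, i)).Prime <;> simp [hp]
      · by_cases hp : (n + h (b, i)).Prime <;> by_cases hq : (n + h (b, k)).Prime <;>
          simp [hp, hq, hik]
    have : ∑ n ∈ s, w n * (X b n : ℝ) ^ 2 = ∑ n ∈ s, w n * X b n + ∑ i : Fin M, ∑ k : Fin M,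
        ∑ n ∈ s, if i ≠ k ∧ (n + h (b, i)).Prime ∧ (n + h (b, k)).Prime then w n else 0 := by
      have e1 : ∀ n, w n * (X b n : ℝ) ^ 2 = w n * X b n + ∑ i : Fin M, ∑ k : Fin M,
          if i ≠ k ∧ (n + h (b, i)).Prime ∧ (n + h (b, k)).Prime then w n else 0 := by
        intro n
        rw [hsq n, mul_add, Finset.mul_sum]
        congr 1
        refine Finset.sum_congr rfl fun i _ => ?_
        rw [Finset.mul_sum]
        refine Finset.sum_congr rfl fun k _ => ?_
        rw [mul_ite, mul_one, mul_zero]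
      rw [Finset.sum_congr rfl fun n _ => e1 n, Finset.sum_add_distrib]
      congr 1
      rw [Finset.sum_comm]
      refine Finset.sum_congr rfl fun i _ => ?_
      rw [Finset.sum_comm]
    rw [this]
    have hle : ∀ i k : Fin M, (∑ n ∈ s,
        if i ≠ k ∧ (n + h (b, i)).Prime ∧ (n + h (b, k)).Prime then w n else 0) ≤
        C2 * (t / M) ^ 2 * U := by
      intro i k
      by_cases hik : i = k
      · subst hik
        simp only [ne_eq, not_true_eq_false, false_and, if_false, Finset.sum_const_zero]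
        positivity
      · have := h2 (b, i) (b, k) (by intro h'; exact hik (Prod.mk.inj h').2)
        rw [htM] at this
        refine le_trans (le_of_eq ?_) this
        refine Finset.sum_congr rfl fun n _ => ?_
        by_cases hp : (n + h (b, i)).Prime ∧ (n + h (b, k)).Prime
        · rw [Set.indicator_of_mem (by exact hp)]; simp [hp, hik]
        · rw [Set.indicator_of_notMem (by exact hp)]; simp [hp]
    have : ∑ i : Fin M, ∑ k : Fin M, ∑ n ∈ s,
        (if i ≠ k ∧ (n + h (b, i)).Prime ∧ (n + h (b, k)).Prime then w n else 0) ≤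
        C2 * t ^ 2 * U := by
      calc _ ≤ ∑ i : Fin M, ∑ k : Fin M, C2 * (t / M) ^ 2 * U :=
            Finset.sum_le_sum fun i _ => Finset.sum_le_sum fun k _ => hle i k
        _ = C2 * t ^ 2 * U := by
            rw [Finset.sum_const, Finset.sum_const, card_univ, Fintype.card_fin, nsmul_eq_mul,
              nsmul_eq_mul]
            field_simp
    linarith only [this]
  -- each block is good with positive probability
  have hV : ∀ b, 1 / (2 + 4 * C) * U ≤ ∑ n ∈ s, w n * (if 2 ≤ X b n then 1 else 0) := by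
    intro b
    set S : ℝ := ∑ n ∈ s, w n * X b n with hS
    set V : ℝ := ∑ n ∈ s, w n * (if 2 ≤ X b n then 1 else 0) with hVdef
    set τ : ℝ := S / U with hτ
    have hSτ : S = τ * U := by rw [hτ]; field_simp
    have hτ2 : c1 * t ≤ τ := by
      rw [hτ, le_div_iff₀ hU]; exact hE1 b
    have hτpos : 2 ≤ τ := le_trans htc hτ2
    have hsecond : C2 * t ^ 2 ≤ C * τ ^ 2 := by
      rw [hC, div_mul_eq_mul_div, le_div_iff₀ (by positivity)]
      have h5 : (c1 * t) ^ 2 ≤ τ ^ 2 := pow_le_pow_left₀ (by positivity) hτ2 2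
      nlinarith only [hC2, h5]
    have hapos : 0 < 2 * (1 + C * τ) := by (clear * - hC2 hc1 hτpos; positivity)
    have key : S ≤ U + (∑ n ∈ s, w n * (X b n : ℝ) ^ 2) / (2 * (2 * (1 + C * τ))) +
        (2 * (1 + C * τ)) / 2 * V := by
      rw [hS, hVdef, Finset.sum_div, Finset.mul_sum]
      calc ∑ n ∈ s, w n * (X b n : ℝ) ≤ ∑ n ∈ s, (w n + w n * (X b n : ℝ) ^ 2 /
            (2 * (2 * (1 + C * τ))) + (2 * (1 + C * τ)) / 2 *
              (w n * (if 2 ≤ X b n then 1 else 0))) := by
            refine Finset.sum_le_sum fun n _ => ?_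
            have := mul_le_mul_of_nonneg_left (T_pointwise _ hapos (X b n)) (hw n)
            calc w n * (X b n : ℝ) ≤ _ := this
              _ = _ := by ring
        _ = ∑ n ∈ s, w n + _ + _ := by
            rw [Finset.sum_add_distrib, Finset.sum_add_distrib]
        _ ≤ _ := by (clear * - hsum; gcongr)
    have h6 := hE2 b
    rw [← hS] at h6
    have h7 : ∑ n ∈ s, w n * (X b n : ℝ) ^ 2 ≤ (τ + C * τ ^ 2) * U := by
      calc _ ≤ S + C2 * t ^ 2 * U := h6
        _ ≤ τ * U + C * τ ^ 2 * U := by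
            rw [hSτ]
            have := mul_le_mul_of_nonneg_right hsecond hU.le
            linarith only [this]
        _ = _ := by ring
    have h8 : (∑ n ∈ s, w n * (X b n : ℝ) ^ 2) / (2 * (2 * (1 + C * τ))) ≤ τ / 4 * U := by
      rw [div_le_iff₀ (by (clear * - hC2 hc1 hτpos; positivity))]
      calc _ ≤ (τ + C * τ ^ 2) * U := h7
        _ = τ / 4 * U * (2 * (2 * (1 + C * τ))) := by ring
    have h9 : τ / 4 * U ≤ (1 + C * τ) * V := by
      have : (2 * (1 + C * τ)) / 2 * V = (1 + C * τ) * V := by ring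
      rw [this, hSτ] at key
      have h10 : U ≤ τ / 2 * U := by nlinarith only [hU, htc, hτ2]
      nlinarith only [key, h8, h10]
    have h11 : 0 < 1 + C * τ := by (clear * - hC2 hc1 hτpos; positivity)
    have h12 : τ / 4 * U / (1 + C * τ) ≤ V := by
      rw [div_le_iff₀ h11]; linarith only [h9]
    refine le_trans ?_ h12
    rw [div_mul_eq_mul_div, one_mul, div_le_div_iff₀ (by positivity) h11]
    have : τ / 4 * U * (2 + 4 * C) = U * (τ / 2 + C * τ) := by ring
    rw [this]
    have : (1 : ℝ) + C * τ ≤ τ / 2 + C * τ := by linarith only [htc, hτ2]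
    exact mul_le_mul_of_nonneg_left this hU.le
  -- averaging
  by_contra hcon
  push Not at hcon
  have htot : 1 / (2 + 4 * C) * Fintype.card β * U ≤ ∑ n ∈ s, w n *
      ((univ.filter (fun b : β => 2 ≤ X b n)).card : ℝ) := by
    calc 1 / (2 + 4 * C) * Fintype.card β * U = ∑ b : β, 1 / (2 + 4 * C) * U := by
          rw [Finset.sum_const, card_univ, nsmul_eq_mul]; ring
      _ ≤ ∑ b : β, ∑ n ∈ s, w n * (if 2 ≤ X b n then 1 else 0) :=
          Finset.sum_le_sum fun b _ => hV b
      _ = ∑ n ∈ s, w n * ((univ.filter (fun b : β => 2 ≤ X b n)).card : ℝ) := by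
          rw [Finset.sum_comm]
          refine Finset.sum_congr rfl fun n _ => ?_
          rw [← Finset.mul_sum, Finset.sum_boole]
  have hpos : 0 < 1 / (2 + 4 * C) * Fintype.card β * U := by positivity
  have hlt : ∑ n ∈ s, w n * ((univ.filter (fun b : β => 2 ≤ X b n)).card : ℝ) <
      1 / (2 + 4 * C) * Fintype.card β * U := by
    by_cases hz : ∀ n ∈ s, w n = 0
    · rw [Finset.sum_eq_zero (fun n hn => by rw [hz n hn, zero_mul])]
      exact hpos
    · push Not at hz
      obtain ⟨n0, hn0, hn0w⟩ := hz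
      have hn0pos : 0 < w n0 := lt_of_le_of_ne (hw n0) (Ne.symm hn0w)
      calc ∑ n ∈ s, w n * ((univ.filter (fun b : β => 2 ≤ X b n)).card : ℝ) <
            ∑ n ∈ s, w n * (1 / (2 + 4 * C) * Fintype.card β) := by
            refine Finset.sum_lt_sum (fun n _ => ?_) ⟨n0, hn0, ?_⟩
            · exact mul_le_mul_of_nonneg_left (hcon n).le (hw n)
            · exact mul_lt_mul_of_pos_left (hcon n0) hn0pos
        _ = 1 / (2 + 4 * C) * Fintype.card β * ∑ n ∈ s, w n := by
            rw [← Finset.sum_mul]; ring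
        _ ≤ 1 / (2 + 4 * C) * Fintype.card β * U := by gcongr
  exact absurd htot (not_le.mpr hlt)

/-! ### Thick sets and the tree of shifts -/

/-- A set of integers containing arbitrarily long and arbitrarily far intervals, together with
their opposites. -/
def Thk (T : Set ℤ) : Prop :=
  ∀ N0 L : ℕ, ∃ a : ℕ, N0 ≤ a ∧ ∀ x : ℤ, (a : ℤ) ≤ x → x ≤ a + L → x ∈ T ∧ -x ∈ T

theorem T_seq (T : Set ℤ) (hT : Thk T) (D Q : ℕ) (hQ : 1 ≤ Q) (K : ℕ) :
    ∃ s : ℕ → ℕ, (∀ a, a < K → Q ∣ s a) ∧ ∀ a b, a < b → b < K → s a + D < s b ∧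
      ∀ x : ℤ, |x - ((s b : ℤ) - s a)| ≤ D → x ∈ T ∧ -x ∈ T := by
  induction K with
  | zero => exact ⟨fun _ => 0, fun a ha => absurd ha (Nat.not_lt_zero _),
      fun a b _ hb => absurd hb (Nat.not_lt_zero _)⟩
  | succ K ih =>
    obtain ⟨s, hs1, hs2⟩ := ih
    set S : ℕ := ∑ a ∈ range K, s a with hS
    have hle : ∀ a, a < K → s a ≤ S := fun a ha =>
      Finset.single_le_sum (f := s) (fun _ _ => Nat.zero_le _) (mem_range.mpr ha)
    obtain ⟨a0, ha0, hT0⟩ := hT (D + 1) (S + 2 * D + Q)
    -- the new element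
    set y : ℕ := Q * ((a0 + S + D) / Q + 1) with hy
    have hy1 : a0 + S + D < y := by
      rw [hy]; exact Nat.lt_mul_div_succ _ hQ
    have hy2 : y ≤ a0 + S + D + Q := by
      rw [hy, mul_add, mul_one]
      have := Nat.mul_div_le (a0 + S + D) Q
      omega
    have hyQ : Q ∣ y := ⟨_, hy⟩
    refine ⟨fun a => if a < K then s a else y, ?_, ?_⟩
    · intro a _
      by_cases h : a < K
      · simp only [h, if_true]; exact hs1 a h
      · simp only [h, if_false]; exact hyQ
    · intro a b hab hb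
      by_cases hbK : b < K
      · have haK : a < K := lt_trans hab hbK
        simp only [hbK, haK, if_true]
        exact hs2 a b hab hbK
      · have haK : a < K := by omega
        simp only [hbK, haK, if_true, if_false]
        have h1 := hle a haK
        refine ⟨by omega, ?_⟩
        intro x hx
        rw [abs_le] at hx
        obtain ⟨hx1, hx2⟩ := hx
        apply hT0 x
        · have : (a0 : ℤ) + S + D < y := by exact_mod_cast hy1
          have h1' : (s a : ℤ) ≤ S := by exact_mod_cast h1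
          linarith only [hy1, h1, hx1]
        · have h3 : (y : ℤ) ≤ a0 + S + D + Q := by exact_mod_cast hy2
          have h1' : (0 : ℤ) ≤ s a := by positivity
          push_cast
          linarith only [hy2, hx2]

/-- The shifts `h` form a tree with respect to the sets `T 0, T 1, ...`. -/
def Gd (T : ℕ → Set ℤ) (K M : ℕ) : (j : ℕ) → ((Fin j → Fin K) → Fin M → ℕ) → Prop
  | 0, h => ∀ b i i', i ≠ i' → (h b i : ℤ) - h b i' ∈ T 0
  | j + 1, h => (∀ a : Fin K, Gd T K M j (fun b i => h (Fin.cons a b) i)) ∧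
      ∀ a a' : Fin K, a ≠ a' → ∀ b b' i i',
        (h (Fin.cons a b) i : ℤ) - h (Fin.cons a' b') i' ∈ T (j + 1)

theorem Gd_add (T : ℕ → Set ℤ) (K M : ℕ) (t : ℕ) : ∀ (j : ℕ) (h : (Fin j → Fin K) → Fin M → ℕ),
    Gd T K M j h → Gd T K M j (fun b i => t + h b i) := by
  intro j
  induction j with
  | zero =>
    intro h hh b i i' hii
    have := hh b i i' hii
    push_cast
    rwa [add_sub_add_left_eq_sub]
  | succ j ih =>
    intro h hh
    refine ⟨fun a => ih _ (hh.1 a), ?_⟩
    intro a a' haa b b' i i'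
    have := hh.2 a a' haa b b' i i'
    push_cast
    rwa [add_sub_add_left_eq_sub]

theorem T_tree (T : ℕ → Set ℤ) (hT : ∀ r, Thk (T r)) (K M Q : ℕ) (hQ : 1 ≤ Q) : ∀ j : ℕ,
    ∃ h : (Fin j → Fin K) → Fin M → ℕ, (∀ b i, Q ∣ h b i) ∧ Gd T K M j h ∧
      Function.Injective (fun x : (Fin j → Fin K) × Fin M => h x.1 x.2) ∧
      ∃ D : ℕ, ∀ b i, h b i ≤ D := by
  intro j
  induction j with
  | zero =>
    obtain ⟨s, hs1, hs2⟩ := T_seq (T 0) (hT 0) 0 Q hQ M
    refine ⟨fun _ i => s i, fun _ i => hs1 i i.2, ?_, ?_, ?_⟩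
    · intro b i i' hii
      rcases lt_or_gt_of_ne (Fin.val_ne_of_ne hii) with h | h
      · have := (hs2 i i' h i'.2).2 ((s i' : ℤ) - s i) (by simp)
        have h2 := this.2
        rwa [neg_sub] at h2
      · exact ((hs2 i' i h i.2).2 ((s i : ℤ) - s i') (by simp)).1
    · rintro ⟨b, i⟩ ⟨b', i'⟩ h
      simp only at h
      have hb : b = b' := Subsingleton.elim _ _
      have hi : i = i' := by
        by_contra hne
        rcases lt_or_gt_of_ne (Fin.val_ne_of_ne hne) with h' | h'
        · have := (hs2 i i' h' i'.2).1; omega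
        · have := (hs2 i' i h' i.2).1; omega
      rw [hb, hi]
    · refine ⟨∑ a ∈ range M, s a, fun _ i => ?_⟩
      exact Finset.single_le_sum (f := s) (fun _ _ => Nat.zero_le _) (mem_range.mpr i.2)
  | succ j ih =>
    obtain ⟨h, hh1, hh2, hh3, D, hD⟩ := ih
    obtain ⟨s, hs1, hs2⟩ := T_seq (T (j + 1)) (hT (j + 1)) D Q hQ K
    have hcross : ∀ a a' : Fin K, a ≠ a' → ∀ b b' i i',
        ((s a + h b i : ℕ) : ℤ) - ((s a' + h b' i' : ℕ) : ℤ) ∈ T (j + 1) ∧
          s a + h b i ≠ s a' + h b' i' := by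
      intro a a' haa b b' i i'
      have e1 := hD b i
      have e2 := hD b' i'
      rcases lt_or_gt_of_ne (Fin.val_ne_of_ne haa) with h' | h'
      · obtain ⟨h3, h4⟩ := hs2 a a' h' a'.2
        refine ⟨?_, by omega⟩
        have := (h4 (((s a' + h b' i' : ℕ) : ℤ) - ((s a + h b i : ℕ) : ℤ)) (by
          rw [abs_le]; push_cast; constructor <;> linarith only [e2, (Int.ofNat_le.mpr e1), (Int.ofNat_le.mpr e2), Int.natCast_nonneg (h b i), Int.natCast_nonneg (h b' i')])).2
        rwa [neg_sub] at this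
      · obtain ⟨h3, h4⟩ := hs2 a' a h' a.2
        refine ⟨?_, by omega⟩
        exact (h4 (((s a + h b i : ℕ) : ℤ) - ((s a' + h b' i' : ℕ) : ℤ)) (by
          rw [abs_le]; push_cast; constructor <;> linarith only [e2, e1, (Int.ofNat_le.mpr e1), (Int.ofNat_le.mpr e2), Int.natCast_nonneg (h b i), Int.natCast_nonneg (h b' i')])).1
    refine ⟨fun b i => s (b 0) + h (Fin.tail b) i, ?_, ⟨?_, ?_⟩, ?_, ?_⟩
    · intro b i
      exact Nat.dvd_add (hs1 _ (b 0).2) (hh1 _ _)
    · intro a
      simpa using Gd_add T K M (s a) j h hh2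
    · intro a a' haa b b' i i'
      have := (hcross a a' haa b b' i i').1
      simpa using this
    · rintro ⟨b, i⟩ ⟨b', i'⟩ he
      simp only at he
      by_cases h0 : b 0 = b' 0
      · rw [h0] at he
        have he' : h (Fin.tail b) i = h (Fin.tail b') i' := by omega
        have := @hh3 (Fin.tail b, i) (Fin.tail b', i') he'
        obtain ⟨ht, hi⟩ := Prod.mk.inj this
        have : b = b' := by
          rw [← Fin.cons_self_tail b, ← Fin.cons_self_tail b', h0, ht]
        rw [this, hi]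
      · exact absurd he (hcross (b 0) (b' 0) h0 _ _ _ _).2
    · refine ⟨∑ a ∈ range K, s a + D, fun b i => ?_⟩
      exact Nat.add_le_add (Finset.single_le_sum (f := s) (fun _ _ => Nat.zero_le _)
        (mem_range.mpr (b 0).2)) (hD _ _)

/-! ### The pigeonhole argument -/

/-- the threshold `j K^(j-1)` -/
def thr (K : ℕ) : ℕ → ℕ
  | 0 => 0
  | j + 1 => K ^ j + K * thr K j

theorem thr_eq (K : ℕ) : ∀ j, K * thr K j = j * K ^ j := by
  intro j
  induction j with
  | zero => simp [thr]
  | succ j ih => rw [thr, mul_add, ih, ← pow_succ']; ring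

theorem T_pigeon (T : ℕ → Set ℤ) (K M : ℕ) (n : ℕ) (c : ℕ → ℕ)
    (hc : ∀ r, ∀ p q : ℕ, p.Prime → q.Prime → c p = r → c q = r → (p : ℤ) - q ∉ T r) :
    ∀ (j : ℕ) (h : (Fin j → Fin K) → Fin M → ℕ), Gd T K M j h →
    ∀ G : Finset (Fin j → Fin K), (∀ b ∈ G, ∃ i i', i ≠ i' ∧ (n + h b i).Prime ∧
      (n + h b i').Prime) → thr K j < G.card →
    ∃ b ∈ G, ∃ i, (n + h b i).Prime ∧ j < c (n + h b i) := by
  classical
  intro j
  induction j with
  | zero =>
    intro h hh G hG hcard
    obtain ⟨b, hb⟩ := Finset.card_pos.mp (lt_of_le_of_lt (Nat.zero_le _) hcard)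
    obtain ⟨i, i', hii, h1, h2⟩ := hG b hb
    by_cases e1 : c (n + h b i) = 0
    · by_cases e2 : c (n + h b i') = 0
      · exfalso
        refine hc 0 _ _ h1 h2 e1 e2 ?_
        have := hh b i i' hii
        push_cast
        rwa [add_sub_add_left_eq_sub]
      · exact ⟨b, hb, i', h2, Nat.pos_of_ne_zero e2⟩
    · exact ⟨b, hb, i, h1, Nat.pos_of_ne_zero e1⟩
  | succ j ih =>
    intro h hh G hG hcard
    -- the subtrees
    set Ga : Fin K → Finset (Fin j → Fin K) := fun a =>
      univ.filter (fun b => (Fin.cons a b : Fin (j + 1) → Fin K) ∈ G) with hGa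
    have hsum : G.card = ∑ a : Fin K, (Ga a).card := by
      have h1 : G.card = ∑ a : Fin K, (G.filter (fun b => b 0 = a)).card :=
        Finset.card_eq_sum_card_fiberwise (fun b _ => mem_univ _)
      rw [h1]
      refine Finset.sum_congr rfl fun a _ => ?_
      refine Finset.card_bij' (fun b _ => Fin.tail b) (fun b _ => Fin.cons a b) ?_ ?_ ?_ ?_
      · intro b hb
        simp only [mem_filter, mem_univ, true_and, hGa] at hb ⊢
        rw [← hb.2, Fin.cons_self_tail]; exact hb.1
      · intro b hb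
        simp only [mem_filter, mem_univ, true_and, hGa] at hb ⊢
        exact ⟨hb, rfl⟩
      · intro b hb
        simp only [mem_filter] at hb
        rw [← hb.2, Fin.cons_self_tail]
      · intro b _
        exact Fin.tail_cons _ _
    have hKj : ∀ a, (Ga a).card ≤ K ^ j := by
      intro a
      calc (Ga a).card ≤ (univ : Finset (Fin j → Fin K)).card := Finset.card_le_card (subset_univ _)
        _ = K ^ j := by simp
    -- two big subtrees
    have htwo : ∃ a a' : Fin K, a ≠ a' ∧ thr K j < (Ga a).card ∧ thr K j < (Ga a').card := by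
      by_contra hcon
      push Not at hcon
      by_cases hex : ∃ a, thr K j < (Ga a).card
      · obtain ⟨a, ha⟩ := hex
        have : G.card ≤ K ^ j + K * thr K j := by
          rw [hsum, ← Finset.add_sum_erase _ _ (mem_univ a)]
          refine Nat.add_le_add (hKj a) ?_
          calc ∑ x ∈ univ.erase a, (Ga x).card ≤ ∑ x ∈ univ.erase a, thr K j := by
                refine Finset.sum_le_sum fun x hx => ?_
                exact hcon a x (Finset.ne_of_mem_erase hx).symm ha
            _ ≤ ∑ x : Fin K, thr K j :=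
                Finset.sum_le_sum_of_subset (Finset.erase_subset _ _)
            _ = K * thr K j := by simp
        exact absurd hcard (not_lt.mpr this)
      · push Not at hex
        have : G.card ≤ K * thr K j := by
          rw [hsum]
          calc ∑ a : Fin K, (Ga a).card ≤ ∑ _a : Fin K, thr K j :=
                Finset.sum_le_sum fun a _ => hex a
            _ = K * thr K j := by simp
        have h2 : thr K (j + 1) = K ^ j + K * thr K j := rfl
        omega
    obtain ⟨a, a', haa, h1, h2⟩ := htwo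
    have step : ∀ a : Fin K, thr K j < (Ga a).card → ∃ b : Fin j → Fin K,
        (Fin.cons a b : Fin (j + 1) → Fin K) ∈ G ∧ ∃ i, (n + h (Fin.cons a b) i).Prime ∧
          j < c (n + h (Fin.cons a b) i) := by
      intro a ha
      obtain ⟨b, hb, i, hi⟩ := ih (fun b i => h (Fin.cons a b) i) (hh.1 a) (Ga a) (by
        intro b hb
        simp only [mem_filter, mem_univ, true_and, hGa] at hb
        exact hG _ hb) ha
      simp only [mem_filter, mem_univ, true_and, hGa] at hb
      exact ⟨b, hb, i, hi⟩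
    obtain ⟨b, hb, i, hi1, hi2⟩ := step a h1
    obtain ⟨b', hb', i', hi1', hi2'⟩ := step a' h2
    by_cases e1 : c (n + h (Fin.cons a b) i) = j + 1
    · by_cases e2 : c (n + h (Fin.cons a' b') i') = j + 1
      · exfalso
        refine hc (j + 1) _ _ hi1 hi1' e1 e2 ?_
        have := hh.2 a a' haa b b' i i'
        push_cast
        rwa [add_sub_add_left_eq_sub]
      · exact ⟨_, hb', i', hi1', by omega⟩
    · exact ⟨_, hb, i, hi1, by omega⟩

/-! ### Conclusion -/

theorem T_thick (T : Set ℤ) (hsymm : ∀ x, x ∈ T → -x ∈ T)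
    (hT : ∀ L : ℕ, ∃ n : ℤ, ∀ x : ℤ, n ≤ x → x ≤ n + L → x ∈ T) : Thk T := by
  intro N0 L
  obtain ⟨n, hn⟩ := hT (2 * (N0 + L))
  have hboth : ∀ x, x ∈ T → x ∈ T ∧ -x ∈ T := fun x hx => ⟨hx, hsymm x hx⟩
  by_cases h1 : -((N0 : ℤ) + L) ≤ n
  · -- the interval contains a long nonnegative part
    refine ⟨N0 + n.toNat, by omega, ?_⟩
    intro x hx1 hx2
    apply hboth
    apply hn x
    · push_cast at hx1; have := Int.self_le_toNat n; omega
    · push_cast at hx2 ⊢
      by_cases h0 : 0 ≤ n
      · rw [Int.toNat_of_nonneg h0] at hx2; omega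
      · have : (n.toNat : ℤ) = 0 := by
          rw [Int.toNat_of_nonpos (by omega)]; rfl
        omega
  · push Not at h1
    refine ⟨N0 + (-(n + 2 * ((N0 : ℤ) + L))).toNat, by omega, ?_⟩
    intro x hx1 hx2
    have hx : -x ∈ T := by
      apply hn (-x)
      · by_cases h0 : 0 ≤ -(n + 2 * ((N0 : ℤ) + L))
        · push_cast at hx2; rw [Int.toNat_of_nonneg h0] at hx2; omega
        · have : ((-(n + 2 * ((N0 : ℤ) + L))).toNat : ℤ) = 0 := by
            rw [Int.toNat_of_nonpos (by omega)]; rfl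
          push_cast at hx2
          omega
      · push_cast at hx1 ⊢
        have := Int.self_le_toNat (-(n + 2 * ((N0 : ℤ) + L)))
        omega
    have := hsymm _ hx
    rw [neg_neg] at this
    exact ⟨this, hx⟩

theorem syndetic_of_sieve (H : SieveMain) :
    ∀ k : ℕ, ∀ c : ℕ → Fin k, ∃ i : Fin k, ∃ L : ℕ, ∀ n : ℤ,
      ∃ p q : ℕ, p.Prime ∧ q.Prime ∧ c p = i ∧ c q = i ∧
        n ≤ (p : ℤ) - (q : ℤ) ∧ (p : ℤ) - (q : ℤ) ≤ n + (L : ℤ) := by
  classical
  intro k c
  rcases Nat.eq_zero_or_pos k with hk | hk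
  · subst hk; exact (c 0).elim0
  obtain ⟨j, rfl⟩ : ∃ j, k = j + 1 := ⟨k - 1, by omega⟩
  by_contra hcon
  push Not at hcon
  -- the complements of the difference sets
  set T : ℕ → Set ℤ := fun r => {x | ∀ p q : ℕ, p.Prime → q.Prime → (c p : ℕ) = r →
    (c q : ℕ) = r → (p : ℤ) - q ≠ x} with hTdef
  have hT : ∀ r, Thk (T r) := by
    intro r
    apply T_thick
    · intro x hx p q hp hq hcp hcq he
      exact hx q p hq hp hcq hcp (by linarith only [he])
    · intro L
      by_cases hr : r < j + 1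
      · obtain ⟨n, hn⟩ := hcon ⟨r, hr⟩ L
        refine ⟨n, ?_⟩
        intro x hx1 hx2 p q hp hq hcp hcq he
        have := hn p q hp hq (Fin.ext hcp) (Fin.ext hcq) (by rw [he]; exact hx1)
        rw [he] at this
        exact absurd hx2 (not_le.mpr this)
      · refine ⟨0, ?_⟩
        intro x _ _ p q _ _ hcp _ _
        have := (c p).2
        omega
  obtain ⟨δ, hδ, hbl⟩ := T_blocks H
  obtain ⟨K, hK⟩ := exists_nat_gt ((j : ℝ) / δ)
  have hKpos : 0 < K := by
    have : (0 : ℝ) < K := lt_of_le_of_lt (by positivity) hK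
    exact_mod_cast this
  have : Nonempty (Fin K) := ⟨⟨0, hKpos⟩⟩
  obtain ⟨M, hM, hbl⟩ := hbl (Fin j → Fin K)
  obtain ⟨h, hh1, hh2, hh3, -⟩ := T_tree T hT K M
    (Fintype.card ((Fin j → Fin K) × Fin M)).factorial (Nat.factorial_pos _) j
  obtain ⟨n, hn⟩ := hbl (fun x => h x.1 x.2) hh3 (by
    intro x p hp hle
    exact dvd_trans ((Nat.Prime.dvd_factorial hp).mpr hle) (hh1 _ _))
  set G : Finset (Fin j → Fin K) := univ.filter (fun b =>
    2 ≤ (univ.filter (fun i : Fin M => (n + h b i).Prime)).card) with hG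
  have hcard : thr K j < G.card := by
    have h1 : (δ * K ^ j : ℝ) ≤ G.card := by
      have h2 : (Fintype.card (Fin j → Fin K) : ℝ) = (K : ℝ) ^ j := by simp
      rw [h2] at hn
      exact hn
    have h3 : (K : ℝ) * thr K j = j * (K : ℝ) ^ j := by exact_mod_cast thr_eq K j
    have hKR : (0 : ℝ) < K := by exact_mod_cast hKpos
    have h4 : (thr K j : ℝ) < δ * K ^ j := by
      have h5 : (j : ℝ) < δ * K := by rw [div_lt_iff₀ hδ] at hK; linarith
      have h6 : (K : ℝ) * thr K j < K * (δ * K ^ j) := by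
        rw [h3]
        have : (0 : ℝ) < (K : ℝ) ^ j := by positivity
        nlinarith only [h5, this]
      exact lt_of_mul_lt_mul_left h6 hKR.le
    exact_mod_cast lt_of_lt_of_le h4 h1
  obtain ⟨b, -, i, -, hi⟩ := T_pigeon T K M n (fun p => (c p : ℕ)) (by
    intro r p q hp hq hcp hcq hmem
    exact hmem p q hp hq hcp hcq rfl) j h hh2 G (by
    intro b hb
    rw [hG, mem_filter] at hb
    obtain ⟨i, hi, i', hi', hne⟩ := Finset.one_lt_card.mp (lt_of_lt_of_le one_lt_two hb.2)
    rw [mem_filter] at hi hi'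
    exact ⟨i, i', hne, hi.2, hi'.2⟩) hcard
  have := (c (n + h b i)).2
  omega

end Pool.Agent.MP89da58
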